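import Mathlib
import Pool.Graph.R_seed8.TH132.W.K2
import Pool.Graph.R_seed8.Y64.Cyc.Main

/-! # `K₂`, functoriality, and the map to the Brauer group (helper403) -/

set_option autoImplicit false
set_option linter.all false

noncomputable section

namespace Pool.Agent.H403.M

open scoped TensorProduct
open Pool.Agent.TH132.W Pool.Agent.Y64.Cyc Pool.Agent.Helper18.Br Pool.Agent.H552R3.SymBr

section Symbols

variable {K : Type} [Field K]

theorem sym_mul_left (a a' b : Kˣ) : sym (a * a') b = sym a b + sym a' b := by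
  unfold sym
  rw [ofMul_mul, TensorProduct.add_tmul]
  rfl

theorem sym_mul_right (a b b' : Kˣ) : sym a (b * b') = sym a b + sym a b' := by
  unfold sym
  rw [ofMul_mul, TensorProduct.tmul_add]
  rfl

theorem sym_one_left (b : Kˣ) : sym (1 : Kˣ) b = 0 := by
  have h := sym_mul_left 1 1 b
  rw [mul_one] at h
  exact left_eq_add.1 h

theorem sym_one_right (b : Kˣ) : sym b (1 : Kˣ) = 0 := by
  have h := sym_mul_right b 1 1
  rw [mul_one] at h
  exact left_eq_add.1 h

theorem sym_inv_left (a b : Kˣ) : sym a⁻¹ b = - sym a b := by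
  have h := sym_mul_left a⁻¹ a b
  rw [inv_mul_cancel, sym_one_left] at h
  exact eq_neg_of_add_eq_zero_left h.symm

theorem sym_inv_right (a b : Kˣ) : sym a b⁻¹ = - sym a b := by
  have h := sym_mul_right a b⁻¹ b
  rw [inv_mul_cancel, sym_one_right] at h
  exact eq_neg_of_add_eq_zero_left h.symm

theorem sym_div_left (a a' b : Kˣ) : sym (a / a') b = sym a b - sym a' b := by
  rw [div_eq_mul_inv, sym_mul_left, sym_inv_left, sub_eq_add_neg]

theorem sym_div_right (a b b' : Kˣ) : sym a (b / b') = sym a b - sym a b' := by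
  rw [div_eq_mul_inv, sym_mul_right, sym_inv_right, sub_eq_add_neg]

theorem sym_steinberg (a b : Kˣ) (h : (a : K) + b = 1) : sym a b = 0 :=
  (QuotientAddGroup.eq_zero_iff _).2 (AddSubgroup.subset_closure (Or.inl ⟨a, b, h, rfl⟩))

theorem sym_neg_self (a : Kˣ) : sym a (-a) = 0 :=
  (QuotientAddGroup.eq_zero_iff _).2 (AddSubgroup.subset_closure (Or.inr ⟨a, rfl⟩))

theorem sym_swap (a b : Kˣ) : sym a b = - sym b a := by
  have h := sym_neg_self (a * b)
  have e1 : -(a * b) = (-a) * b := (neg_mul a b).symm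
  have e2 : -(a * b) = (-b) * a := by rw [mul_comm a b, neg_mul]
  rw [sym_mul_left] at h
  have h1 : sym a (-(a * b)) = sym a b := by
    rw [e1, sym_mul_right, sym_neg_self, zero_add]
  have h2 : sym b (-(a * b)) = sym b a := by
    rw [e2, sym_mul_right, sym_neg_self, zero_add]
  rw [h1, h2] at h
  exact eq_neg_of_add_eq_zero_left h

theorem sym_self (a : Kˣ) : sym a a = sym a (-1) := by
  have e : a = (-1) * (-a) := by rw [neg_mul_neg, one_mul]
  conv_lhs => rw [show sym a a = sym a ((-1) * (-a)) by rw [← e]]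
  rw [sym_mul_right, sym_neg_self, add_zero]

/-- if `u - w = p k` then `{-p k / w, u / w} = 0`, expanded. -/
theorem sym_rel (p k u w : Kˣ) (h : (u : K) - w = p * k) :
    sym p (u / w) = - sym (-1) (u / w) - sym k (u / w) + sym w (u / w) := by
  have h1 : sym ((-1) * p * k / w) (u / w) = 0 := by
    refine sym_steinberg _ _ ?_
    rw [Units.val_div_eq_div_val, Units.val_div_eq_div_val, Units.val_mul, Units.val_mul, Units.val_neg,
      Units.val_one, ← add_div, neg_one_mul, neg_mul, ← h]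
    rw [show -((u : K) - w) + u = w by ring, div_self w.ne_zero]
  rw [sym_div_left, sym_mul_left, sym_mul_left] at h1
  have h2 : sym p (u / w) - (- sym (-1) (u / w) - sym k (u / w) + sym w (u / w)) = 0 := by
    rw [← h1]; abel
  exact sub_eq_zero.1 h2

theorem k2_induction {p : MilnorK2 K → Prop} (x : MilnorK2 K) (h0 : p 0) (hs : ∀ a b : Kˣ, p (sym a b))
    (ha : ∀ x y, p x → p y → p (x + y)) : p x := by
  obtain ⟨t, rfl⟩ := QuotientAddGroup.mk_surjective x
  induction t using TensorProduct.induction_on with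
  | zero => exact h0
  | tmul a b => exact hs a.toMul b.toMul
  | add s t hs ht => exact ha _ _ hs ht

theorem k2_ext {M : Type} [AddCommGroup M] {f g : MilnorK2 K →+ M} (h : ∀ a b : Kˣ, f (sym a b) = g (sym a b)) :
    f = g := by
  ext x
  induction x using k2_induction with
  | h0 => simp
  | hs a b => exact h a b
  | ha x y hx hy => rw [map_add, map_add, hx, hy]

end Symbols

section Map

variable {K L M : Type} [Field K] [Field L] [Field M]

/-- the units map of a ring homomorphism -/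
abbrev um (φ : K →+* L) : Kˣ →* Lˣ := Units.map (φ : K →* L)

theorem um_val (φ : K →+* L) (a : Kˣ) : ((um φ a : Lˣ) : L) = φ a := rfl

/-- functoriality of `K₂` -/
def km (φ : K →+* L) : MilnorK2 K →+ MilnorK2 L :=
  liftK2 (fun a b => sym (um φ a) (um φ b)) (fun a a' b => by rw [map_mul, sym_mul_left])
    (fun a b b' => by rw [map_mul, sym_mul_right])
    (fun a b h => sym_steinberg _ _ (by rw [um_val, um_val, ← map_add, h, map_one]))
    (fun a => by
      have : um φ (-a) = - um φ a := by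
        ext
        rw [um_val, Units.val_neg, Units.val_neg, map_neg, um_val]
      rw [this, sym_neg_self])

theorem km_sym (φ : K →+* L) (a b : Kˣ) : km φ (sym a b) = sym (um φ a) (um φ b) := liftK2_sym _ _ _ _ _ a b

theorem km_comp (φ : K →+* L) (ψ : L →+* M) (x : MilnorK2 K) : km ψ (km φ x) = km (ψ.comp φ) x := by
  have : (km ψ).comp (km φ) = km (ψ.comp φ) := k2_ext (fun a b => by
    rw [AddMonoidHom.comp_apply, km_sym, km_sym, km_sym]
    rfl)
  exact DFunLike.congr_fun this x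

end Map

section Brauer

/-- the quaternion class `(a, b)` -/
def qa {K : Type} [Field K] (h2 : (2 : K) ≠ 0) (a b : Kˣ) : BrauerGroup.{0, 0} K := qt (prim_of_two h2) a b

variable {K : Type} [Field K] (h2 : (2 : K) ≠ 0)

theorem qa_mul_right (a b c : Kˣ) : qa h2 a (b * c) = qa h2 a b * qa h2 a c := qt_mul_right (prim_of_two h2) _ _ _
theorem qa_mul_left (a b c : Kˣ) : qa h2 (a * b) c = qa h2 a c * qa h2 b c := qt_mul_left (prim_of_two h2) _ _ _
theorem qa_one_right (a : Kˣ) : qa h2 a 1 = 1 := qt_one_right (prim_of_two h2) _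
theorem qa_one_left (a : Kˣ) : qa h2 1 a = 1 := qt_one_left (prim_of_two h2) _
theorem qa_sq (a b : Kˣ) : qa h2 a b ^ 2 = 1 := qt_sq (prim_of_two h2) _ _
theorem qa_mul_self (a b : Kˣ) : qa h2 a b * qa h2 a b = 1 := by rw [← sq, qa_sq]
theorem qa_inv (a b : Kˣ) : (qa h2 a b)⁻¹ = qa h2 a b := qt_inv (prim_of_two h2) _ _
theorem qa_comm (a b : Kˣ) : qa h2 a b = qa h2 b a := qt_comm (prim_of_two h2) _ _
theorem qa_steinberg (a b : Kˣ) (h : (a : K) + b = 1) : qa h2 a b = 1 := qt_steinberg (prim_of_two h2) _ _ h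
theorem qa_neg_self (a : Kˣ) : qa h2 a (-a) = 1 := qt_neg_self (prim_of_two h2) _
theorem qa_norm (a b : Kˣ) (A B : K) (h : (b : K) = A ^ 2 - a * B ^ 2) : qa h2 a b = 1 := qt_norm (prim_of_two h2) _ _ A B h
theorem norm_of_qa (d b : Kˣ) (hd : ∀ c : K, c ^ 2 ≠ d) (h : qa h2 d b = 1) :
    ∃ A B : K, (b : K) = A ^ 2 - d * B ^ 2 := norm_of_qt (prim_of_two h2) d b hd h

theorem qa_sq_right (a c : Kˣ) : qa h2 a (c ^ 2) = 1 := by
  rw [sq, qa_mul_right, qa_mul_self]

theorem qa_sq_left (a c : Kˣ) : qa h2 (c ^ 2) a = 1 := by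
  rw [qa_comm, qa_sq_right]

theorem qa_right_eq (a : Kˣ) {b c d : Kˣ} (h : b = c * d ^ 2) : qa h2 a b = qa h2 a c := by
  rw [h, qa_mul_right, qa_sq_right, mul_one]

theorem qa_left_eq (a : Kˣ) {b c d : Kˣ} (h : b = c * d ^ 2) : qa h2 b a = qa h2 c a := by
  rw [h, qa_mul_left, qa_sq_left, mul_one]

/-- the homomorphism `K₂(K) → Br(K)` -/
def hb : MilnorK2 K →+ Additive (BrauerGroup.{0, 0} K) :=
  liftK2 (fun a b => Additive.ofMul (qa h2 a b)) (fun a a' b => by rw [qa_mul_left, ofMul_mul])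
    (fun a b b' => by rw [qa_mul_right, ofMul_mul])
    (fun a b h => by rw [qa_steinberg h2 a b h, ofMul_one])
    (fun a => by rw [qa_neg_self, ofMul_one])

theorem hb_sym (a b : Kˣ) : hb h2 (sym a b) = Additive.ofMul (qa h2 a b) := liftK2_sym _ _ _ _ _ a b

/-- the Brauer class of an element of `K₂` -/
def hc (x : MilnorK2 K) : BrauerGroup.{0, 0} K := (hb h2 x).toMul

theorem hc_sym (a b : Kˣ) : hc h2 (sym a b) = qa h2 a b := by
  unfold hc
  rw [hb_sym, toMul_ofMul]

theorem hc_add (x y : MilnorK2 K) : hc h2 (x + y) = hc h2 x * hc h2 y := by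
  unfold hc
  rw [map_add, toMul_add]

theorem hc_zero : hc h2 (0 : MilnorK2 K) = 1 := by
  unfold hc
  rw [map_zero, toMul_zero]

theorem hc_neg (x : MilnorK2 K) : hc h2 (-x) = (hc h2 x)⁻¹ := by
  unfold hc
  rw [map_neg, toMul_neg]

theorem hc_sub (x y : MilnorK2 K) : hc h2 (x - y) = hc h2 x / hc h2 y := by
  rw [sub_eq_add_neg, hc_add, hc_neg, div_eq_mul_inv]

theorem hc_sq (x : MilnorK2 K) : hc h2 x * hc h2 x = 1 := by
  induction x using k2_induction with
  | h0 => rw [hc_zero, one_mul]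
  | hs a b => rw [hc_sym, qa_mul_self]
  | ha x y hx hy => rw [hc_add, mul_mul_mul_comm, hx, hy, one_mul]

theorem hc_two (x : MilnorK2 K) : hc h2 (x + x) = 1 := by rw [hc_add, hc_sq]

theorem hc_inv (x : MilnorK2 K) : (hc h2 x)⁻¹ = hc h2 x := inv_eq_of_mul_eq_one_right (hc_sq h2 x)

/-- the subgroup generated by quaternion classes -/
def QQ : Subgroup (BrauerGroup.{0, 0} K) where
  carrier := {x | ∃ u : MilnorK2 K, hc h2 u = x}
  mul_mem' := by
    rintro x y ⟨u, rfl⟩ ⟨v, rfl⟩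
    exact ⟨u + v, hc_add h2 u v⟩
  one_mem' := ⟨0, hc_zero h2⟩
  inv_mem' := by
    rintro x ⟨u, rfl⟩
    exact ⟨-u, hc_neg h2 u⟩

theorem mem_QQ {x : BrauerGroup.{0, 0} K} : x ∈ QQ h2 ↔ ∃ u : MilnorK2 K, hc h2 u = x := Iff.rfl

theorem qa_mem (a b : Kˣ) : qa h2 a b ∈ QQ h2 := ⟨sym a b, hc_sym h2 a b⟩

theorem QQ_sq {x : BrauerGroup.{0, 0} K} (hx : x ∈ QQ h2) : x * x = 1 := by
  obtain ⟨u, rfl⟩ := hx
  exact hc_sq h2 u

end Brauer

section Res

variable {K L M : Type} [Field K] [Field L] [Field M]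

/-- restriction of Brauer classes along a ring homomorphism -/
def rh (φ : K →+* L) : BrauerGroup.{0, 0} K →* BrauerGroup.{0, 0} L :=
  letI : Algebra K L := φ.toAlgebra
  res L

theorem two_ne_map (φ : K →+* L) (h2 : (2 : K) ≠ 0) : (2 : L) ≠ 0 := by
  rw [← map_ofNat φ 2]
  exact (map_ne_zero φ).2 h2

theorem rh_qa (φ : K →+* L) (h2 : (2 : K) ≠ 0) (h2' : (2 : L) ≠ 0) (a b : Kˣ) :
    rh φ (qa h2 a b) = qa h2' (um φ a) (um φ b) := by
  letI : Algebra K L := φ.toAlgebra
  have h1 := res_symCl (K := L) two_pos (prim_of_two h2) a b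
  change res L (symCl two_pos (prim_of_two h2) a b) = _
  rw [h1]
  exact symCl_congr (by rw [map_neg, map_one]) _ (prim_of_two h2') _ _

theorem rh_hc (φ : K →+* L) (h2 : (2 : K) ≠ 0) (h2' : (2 : L) ≠ 0) (x : MilnorK2 K) :
    rh φ (hc h2 x) = hc h2' (km φ x) := by
  induction x using k2_induction with
  | h0 => rw [hc_zero, map_one, map_zero, hc_zero]
  | hs a b => rw [hc_sym, rh_qa φ h2 h2', km_sym, hc_sym]
  | ha x y hx hy => rw [hc_add, map_mul, hx, hy, map_add, hc_add]

theorem base_tower (K L M : Type) [Field K] [Field L] [Field M] [Algebra K L] [Algebra L M] [Algebra K M]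
    [IsScalarTower K L M] (A : Type) [Ring A] [Algebra K A]
    [Algebra.IsCentral K A] [IsSimpleRing A] [FiniteDimensional K A] :
    Nonempty ((M ⊗[K] A) ≃ₐ[M] (M ⊗[L] (L ⊗[K] A))) := by
  haveI i1 : IsSimpleRing (L ⊗[K] A) := isSimple_base K L A
  haveI i3 : Algebra.IsCentral L (L ⊗[K] A) := isCentral_base K L A
  haveI i2 : IsSimpleRing (M ⊗[K] A) := isSimple_base K M A
  haveI i7 : IsSimpleRing (M ⊗[L] (L ⊗[K] A)) := isSimple_base L M (L ⊗[K] A)
  let C := M ⊗[L] (L ⊗[K] A)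
  let fA : A →ₐ[K] C := ((Algebra.TensorProduct.includeRight : (L ⊗[K] A) →ₐ[L] C).restrictScalars K).comp
    (Algebra.TensorProduct.includeRight : A →ₐ[K] L ⊗[K] A)
  let φ : M ⊗[K] A →ₐ[M] C := Algebra.TensorProduct.lift (Algebra.ofId M C) fA
    (fun x y => Algebra.commutes x _)
  exact equiv_of_hom φ (by
    rw [Module.finrank_baseChange, Module.finrank_baseChange, Module.finrank_baseChange])

theorem rh_comp (φ : K →+* L) (ψ : L →+* M) (x : BrauerGroup.{0, 0} K) : rh ψ (rh φ x) = rh (ψ.comp φ) x := by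
  letI i1 : Algebra K L := φ.toAlgebra
  letI i2 : Algebra L M := ψ.toAlgebra
  letI i3 : Algebra K M := (ψ.comp φ).toAlgebra
  haveI : IsScalarTower K L M := IsScalarTower.of_algebraMap_eq (fun _ => rfl)
  obtain ⟨A⟩ := x
  obtain ⟨e⟩ := base_tower K L M A
  exact Quotient.sound (BrEq.of_equiv e.symm)

theorem rh_id (x : BrauerGroup.{0, 0} K) : rh (RingHom.id K) x = x := by
  have e : (RingHom.id K).toAlgebra = Algebra.id K := Algebra.algebra_ext _ _ (fun _ => rfl)
  unfold rh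
  rw [e]
  obtain ⟨A⟩ := x
  have e2 : K ⊗[K] A ≃ₐ[K] A := Algebra.TensorProduct.lid K A
  exact Quotient.sound (BrEq.of_equiv e2)

theorem rh_QQ (φ : K →+* L) (h2 : (2 : K) ≠ 0) (h2' : (2 : L) ≠ 0) {x : BrauerGroup.{0, 0} K} (hx : x ∈ QQ h2) :
    rh φ x ∈ QQ h2' := by
  obtain ⟨u, rfl⟩ := hx
  exact ⟨km φ u, (rh_hc φ h2 h2' u).symm⟩

end Res

end Pool.Agent.H403.M
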