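import Mathlib
import Pool.Agent.H403.M.K2

/-! # The tame symbol of Laurent series fields and Brauer classes (helper403) -/

set_option autoImplicit false
set_option linter.all false

noncomputable section

namespace Pool.Agent.H403.M

open scoped TensorProduct
open Pool.Agent.TH132.W Pool.Agent.Y64.Cyc Pool.Agent.Helper18.Br Pool.Agent.H552R3.SymBr

section LS

variable {κ : Type} [Field κ]

/-- the uniformizer -/
def T : (LS κ)ˣ := Units.mk0 (HahnSeries.single 1 1) (by simp)

theorem T_zpow (n : ℤ) : ((T ^ n : (LS κ)ˣ) : LS κ) = HahnSeries.single n 1 := by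
  have h1 : ∀ m : ℕ, ((T ^ m : (LS κ)ˣ) : LS κ) = HahnSeries.single (m : ℤ) 1 := by
    intro m
    induction m with
    | zero => simp
    | succ m ih =>
      rw [pow_succ, Units.val_mul, ih]
      change HahnSeries.single (m : ℤ) (1 : κ) * HahnSeries.single (1 : ℤ) 1 = _
      rw [HahnSeries.single_mul_single]
      simp
  obtain ⟨m, rfl | rfl⟩ := n.eq_nat_or_neg
  · rw [zpow_natCast, h1]
  · rw [zpow_neg, zpow_natCast, Units.val_inv_eq_inv_val, h1]
    symm
    apply eq_inv_of_mul_eq_one_left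
    rw [HahnSeries.single_mul_single]
    simp

/-- order -/
def od (a : (LS κ)ˣ) : ℤ := (a : LS κ).order

/-- leading coefficient -/
def lc (a : (LS κ)ˣ) : κˣ := Units.mk0 (a : LS κ).leadingCoeff (HahnSeries.leadingCoeff_ne_zero.2 a.ne_zero)

theorem od_mul (a b : (LS κ)ˣ) : od (a * b) = od a + od b := by
  unfold od
  rw [Units.val_mul, HahnSeries.order_mul a.ne_zero b.ne_zero]

theorem lc_mul (a b : (LS κ)ˣ) : lc (a * b) = lc a * lc b := by
  ext
  change ((a * b : (LS κ)ˣ) : LS κ).leadingCoeff = (a : LS κ).leadingCoeff * (b : LS κ).leadingCoeff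
  rw [Units.val_mul, HahnSeries.leadingCoeff_mul]

/-- the order as a homomorphism -/
def odh : (LS κ)ˣ →* Multiplicative ℤ where
  toFun a := Multiplicative.ofAdd (od a)
  map_one' := by
    have := od_mul (1 : (LS κ)ˣ) 1
    rw [mul_one] at this
    rw [left_eq_add.1 this]
    rfl
  map_mul' a b := by rw [od_mul]; rfl

/-- the leading coefficient as a homomorphism -/
def lch : (LS κ)ˣ →* κˣ where
  toFun := lc
  map_one' := by
    have := lc_mul (1 : (LS κ)ˣ) 1
    rw [mul_one] at this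
    exact left_eq_mul.1 this
  map_mul' := lc_mul

theorem lc_one : lc (1 : (LS κ)ˣ) = 1 := lch.map_one
theorem od_one : od (1 : (LS κ)ˣ) = 0 := by
  have := od_mul (1 : (LS κ)ˣ) 1
  rw [mul_one] at this
  exact left_eq_add.1 this

theorem lc_inv (a : (LS κ)ˣ) : lc a⁻¹ = (lc a)⁻¹ := lch.map_inv a
theorem od_inv (a : (LS κ)ˣ) : od a⁻¹ = - od a := by
  have := od_mul a⁻¹ a
  rw [inv_mul_cancel, od_one] at this
  omega
theorem lc_div (a b : (LS κ)ˣ) : lc (a / b) = lc a / lc b := lch.map_div a b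
theorem od_div (a b : (LS κ)ˣ) : od (a / b) = od a - od b := by
  rw [div_eq_mul_inv, od_mul, od_inv, sub_eq_add_neg]
theorem lc_zpow (a : (LS κ)ˣ) (n : ℤ) : lc (a ^ n) = (lc a) ^ n := lch.map_zpow a n

/-- a Laurent series `t ^ n g` with `g(0) ≠ 0` has order `n` -/
theorem shape {a : (LS κ)ˣ} {n : ℤ} {g : PowerSeries κ} (h : (a : LS κ) = HahnSeries.single n 1 * oP g)
    (hg : PowerSeries.constantCoeff g ≠ 0) : od a = n ∧ ((lc a : κˣ) : κ) = PowerSeries.constantCoeff g := by
  have hc : ∀ m : ℕ, (oP g : LS κ).coeff (m : ℤ) = PowerSeries.coeff m g := by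
    intro m
    exact HahnSeries.ofPowerSeries_apply_coeff g m
  have hneg : ∀ m : ℤ, m < 0 → (oP g : LS κ).coeff m = 0 := by
    intro m hm
    rw [HahnSeries.ofPowerSeries_apply]
    refine HahnSeries.embDomain_notin_range ?_
    rintro ⟨k, hk⟩
    have : (k : ℤ) = m := hk
    omega
  have hco : ∀ m : ℤ, (a : LS κ).coeff (n + m) = (oP g : LS κ).coeff m := by
    intro m
    rw [h, add_comm n m, HahnSeries.coeff_single_mul_add, one_mul]
  have ha0 : (a : LS κ).coeff n ≠ 0 := by
    have := hco 0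
    rw [add_zero] at this
    rw [this]
    have h2 := hc 0
    rw [Nat.cast_zero] at h2
    rw [h2, PowerSeries.coeff_zero_eq_constantCoeff_apply]
    exact hg
  have hle : (a : LS κ).order ≤ n := HahnSeries.order_le_of_coeff_ne_zero ha0
  have hge : n ≤ (a : LS κ).order := by
    by_contra hlt
    rw [not_le] at hlt
    have h3 := hco ((a : LS κ).order - n)
    rw [add_sub_cancel, hneg _ (by omega)] at h3
    exact a.ne_zero (HahnSeries.coeff_order_eq_zero.1 h3)
  have ho : od a = n := le_antisymm hle hge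
  refine ⟨ho, ?_⟩
  change (a : LS κ).leadingCoeff = _
  rw [HahnSeries.leadingCoeff_eq]
  change (a : LS κ).coeff (od a) = _
  rw [ho]
  have := hco 0
  rw [add_zero] at this
  rw [this]
  have h2 := hc 0
  rw [Nat.cast_zero] at h2
  rw [h2, PowerSeries.coeff_zero_eq_constantCoeff_apply]

theorem exists_shape (a : (LS κ)ˣ) : ∃ g : PowerSeries κ, (a : LS κ) = HahnSeries.single (od a) 1 * oP g ∧
    PowerSeries.constantCoeff g = (lc a : κ) := by
  refine ⟨(a : LS κ).powerSeriesPart, ?_, ?_⟩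
  · exact (LaurentSeries.single_order_mul_powerSeriesPart (a : LS κ)).symm
  · rw [← PowerSeries.coeff_zero_eq_constantCoeff_apply, LaurentSeries.powerSeriesPart_coeff]
    change _ = (a : LS κ).leadingCoeff
    rw [HahnSeries.leadingCoeff_eq]
    simp

theorem lc_neg (a : (LS κ)ˣ) : lc (-a) = - lc a := by
  ext
  change ((-a : (LS κ)ˣ) : LS κ).leadingCoeff = -(a : LS κ).leadingCoeff
  rw [Units.val_neg, HahnSeries.leadingCoeff_neg]

theorem od_neg (a : (LS κ)ˣ) : od (-a) = od a := by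
  change ((-a : (LS κ)ˣ) : LS κ).order = (a : LS κ).order
  rw [Units.val_neg, HahnSeries.order_neg]

/-- constants -/
abbrev cst : κ →+* LS κ := HahnSeries.C

theorem lc_cst (c : κˣ) : lc (um cst c) = c := by
  have := shape (a := um cst c) (n := 0) (g := PowerSeries.C (c : κ)) (by
    rw [um_val, HahnSeries.ofPowerSeries_C]
    change _ = (1 : LS κ) * _
    rw [one_mul]) (by rw [PowerSeries.constantCoeff_C]; exact c.ne_zero)
  ext
  rw [this.2, PowerSeries.constantCoeff_C]

theorem od_cst (c : κˣ) : od (um cst c) = 0 := by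
  have := shape (a := um cst c) (n := 0) (g := PowerSeries.C (c : κ)) (by
    rw [um_val, HahnSeries.ofPowerSeries_C]
    change _ = (1 : LS κ) * _
    rw [one_mul]) (by rw [PowerSeries.constantCoeff_C]; exact c.ne_zero)
  exact this.1

theorem shape_T_zpow (n : ℤ) : od (T ^ n : (LS κ)ˣ) = n ∧ lc (T ^ n : (LS κ)ˣ) = 1 := by
  have := shape (a := (T ^ n : (LS κ)ˣ)) (n := n) (g := 1) (by rw [T_zpow, (oP (E := κ)).map_one, mul_one])
    (by rw [map_one]; exact one_ne_zero)
  refine ⟨this.1, ?_⟩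
  ext
  rw [this.2, map_one, Units.val_one]

theorem decomp (h2 : (2 : κ) ≠ 0) (a : (LS κ)ˣ) : ∃ w : (LS κ)ˣ, a = um cst (lc a) * T ^ (od a) * w ^ 2 := by
  obtain ⟨g, hg, hg0⟩ := exists_shape a
  obtain ⟨s, hs, hs1⟩ := exists_sqrt h2 (PowerSeries.C ((lc a : κ))⁻¹ * g) (by
    rw [map_mul, PowerSeries.constantCoeff_C, hg0, inv_mul_cancel₀ (lc a).ne_zero])
  have hs0 : (oP s : LS κ) ≠ 0 := by
    rw [Ne, map_eq_zero_iff _ (HahnSeries.ofPowerSeries_injective)]
    rintro rfl
    rw [map_zero] at hs1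
    exact zero_ne_one hs1
  refine ⟨Units.mk0 _ hs0, ?_⟩
  ext1
  rw [Units.val_mul, Units.val_mul, T_zpow, Units.val_pow_eq_pow_val, Units.val_mk0, ← map_pow, hs, map_mul,
    HahnSeries.ofPowerSeries_C, um_val]
  have h3 : (HahnSeries.C ((lc a : κ)) : LS κ) * HahnSeries.C ((lc a : κ))⁻¹ = 1 := by
    rw [← map_mul, mul_inv_cancel₀ (lc a).ne_zero, map_one]
  conv_lhs => rw [hg]
  linear_combination (-(HahnSeries.single (od a) (1 : κ)) * oP g) * h3

/-- the tame symbol on units -/
def tm (a b : (LS κ)ˣ) : κˣ := (-1) ^ (od a * od b) * (lc a ^ od b / lc b ^ od a)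

theorem tm_mul_left (a a' b : (LS κ)ˣ) : tm (a * a') b = tm a b * tm a' b := by
  unfold tm
  rw [od_mul, lc_mul, mul_zpow, zpow_add, add_mul, zpow_add, mul_mul_mul_comm, mul_div_mul_comm]

theorem tm_mul_right (a b b' : (LS κ)ˣ) : tm a (b * b') = tm a b * tm a b' := by
  unfold tm
  rw [od_mul, lc_mul, mul_zpow, zpow_add, mul_add, zpow_add, mul_mul_mul_comm, mul_div_mul_comm]

theorem tm_inv_swap (a b : (LS κ)ˣ) : tm b a = (tm a b)⁻¹ := by
  unfold tm
  rw [mul_inv, inv_div, mul_comm (od b)]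
  congr 1
  rcases Int.even_or_odd (od a * od b) with h | h
  · rw [h.neg_one_zpow, inv_one]
  · rw [h.neg_one_zpow, inv_neg, inv_one]

theorem tm_neg_self (a : (LS κ)ˣ) : tm a (-a) = 1 := by
  unfold tm
  rw [od_neg, lc_neg, neg_eq_neg_one_mul (lc a), mul_zpow]
  have h1 : (-1 : κˣ) ^ (od a * od a) * (-1) ^ (od a) = 1 := by
    rw [← zpow_add]
    have : Even (od a * od a + od a) := by
      have := Int.even_mul_succ_self (od a)
      rwa [mul_add, mul_one] at this
    exact this.neg_one_zpow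
  have h2 : ((-1 : κˣ) ^ (od a))⁻¹ = (-1) ^ (od a) := by
    rcases Int.even_or_odd (od a) with h | h
    · rw [h.neg_one_zpow, inv_one]
    · rw [h.neg_one_zpow, inv_neg, inv_one]
  rw [div_eq_mul_inv, mul_inv, h2, mul_left_comm (lc a ^ od a), mul_inv_cancel, mul_one, h1]

theorem tm_of_one (a b : (LS κ)ˣ) (h : od b = 0) (h1 : lc b = 1) : tm a b = 1 := by
  unfold tm
  rw [h, h1, mul_zero, zpow_zero, zpow_zero, one_zpow, div_one, one_mul]

theorem coeff_add_eq (a b : (LS κ)ˣ) (h : (a : LS κ) + b = 1) (m : ℤ) :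
    (a : LS κ).coeff m + (b : LS κ).coeff m = if m = 0 then 1 else 0 := by
  have h1 := congrArg (fun x : LS κ => x.coeff m) h
  simp only [HahnSeries.coeff_add] at h1
  rw [h1]
  change (1 : LS κ).coeff m = _
  rw [HahnSeries.coeff_one]
  split_ifs <;> rfl

theorem lc_val (a : (LS κ)ˣ) : ((lc a : κˣ) : κ) = (a : LS κ).coeff (od a) := by
  change (a : LS κ).leadingCoeff = _
  rw [HahnSeries.leadingCoeff_eq]
  rfl

theorem od_le {a : (LS κ)ˣ} {m : ℤ} (h : (a : LS κ).coeff m ≠ 0) : od a ≤ m := HahnSeries.order_le_of_coeff_ne_zero h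

theorem coeff_lt {a : (LS κ)ˣ} {m : ℤ} (h : m < od a) : (a : LS κ).coeff m = 0 :=
  HahnSeries.coeff_eq_zero_of_lt_order h

theorem coeff_od_ne (a : (LS κ)ˣ) : (a : LS κ).coeff (od a) ≠ 0 := by
  rw [← lc_val]
  exact (lc a).ne_zero

theorem tm_steinberg_aux (a b : (LS κ)ˣ) (h : (a : LS κ) + b = 1) (ha : 0 < od a) : tm a b = 1 := by
  have hc := coeff_add_eq a b h
  have h0 : (b : LS κ).coeff 0 = 1 := by
    have := hc 0
    rwa [coeff_lt ha, zero_add, if_pos rfl] at this
  have h1 : od b = 0 := by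
    refine le_antisymm (od_le (by rw [h0]; exact one_ne_zero)) ?_
    by_contra hlt
    rw [not_le] at hlt
    have := hc (od b)
    rw [coeff_lt (hlt.trans ha), zero_add, if_neg hlt.ne] at this
    exact coeff_od_ne b this
  refine tm_of_one a b h1 ?_
  ext
  rw [lc_val, h1, h0, Units.val_one]

theorem tm_steinberg (a b : (LS κ)ˣ) (h : (a : LS κ) + b = 1) : tm a b = 1 := by
  have hc := coeff_add_eq a b h
  rcases lt_trichotomy 0 (od a) with ha | ha | ha
  · exact tm_steinberg_aux a b h ha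
  · rcases lt_trichotomy 0 (od b) with hb | hb | hb
    · rw [tm_inv_swap b a, tm_steinberg_aux b a (by rw [add_comm, h]) hb, inv_one]
    · unfold tm
      rw [← ha, ← hb]
      simp
    · exfalso
      have := hc (od b)
      rw [coeff_lt (a := a) (by omega), zero_add, if_neg hb.ne] at this
      exact coeff_od_ne b this
  · have hb : od b = od a := by
      rcases lt_trichotomy (od a) (od b) with h3 | h3 | h3
      · exfalso
        have := hc (od a)
        rw [coeff_lt (a := b) h3, add_zero, if_neg ha.ne] at this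
        exact coeff_od_ne a this
      · exact h3.symm
      · exfalso
        have := hc (od b)
        rw [coeff_lt (a := a) h3, zero_add, if_neg (by omega)] at this
        exact coeff_od_ne b this
    have hl : lc b = - lc a := by
      ext
      have := hc (od a)
      rw [if_neg ha.ne] at this
      rw [lc_val, hb, Units.val_neg, lc_val]
      linear_combination this
    have := tm_neg_self a
    unfold tm at this ⊢
    rw [od_neg, lc_neg] at this
    rw [hb, hl]
    exact this

/-- the tame symbol -/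
def tL : MilnorK2 (LS κ) →+ Additive κˣ :=
  liftK2 (fun a b => Additive.ofMul (tm a b)) (fun a a' b => by rw [tm_mul_left, ofMul_mul])
    (fun a b b' => by rw [tm_mul_right, ofMul_mul])
    (fun a b h => by rw [tm_steinberg a b h, ofMul_one])
    (fun a => by rw [tm_neg_self, ofMul_one])

theorem tL_sym (a b : (LS κ)ˣ) : tL (sym a b) = Additive.ofMul (tm a b) := liftK2_sym _ _ _ _ _ a b

/-- tame symbol squares are compatible with the Brauer class of symbols -/
theorem hc_decomp (h2 : (2 : κ) ≠ 0) (h2' : (2 : LS κ) ≠ 0) (μ : MilnorK2 (LS κ)) :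
    ∃ z : MilnorK2 κ, hc h2' μ = qa h2' T (um cst (tL μ).toMul) * rh cst (hc h2 z) := by
  induction μ using k2_induction with
  | h0 => exact ⟨0, by rw [hc_zero, hc_zero, map_one, map_zero, toMul_zero, map_one, qa_one_right, one_mul]⟩
  | hs a b =>
    obtain ⟨w, hw⟩ := decomp h2 a
    obtain ⟨w', hw'⟩ := decomp h2 b
    refine ⟨sym (lc a) (lc b), ?_⟩
    rw [hc_sym, hc_sym, rh_qa cst h2 h2', tL_sym, toMul_ofMul]
    have e1 : qa h2' a b = qa h2' (um cst (lc a) * T ^ (od a)) (um cst (lc b) * T ^ (od b)) := by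
      rw [qa_left_eq h2' b hw, qa_right_eq h2' _ hw']
    rw [e1]
    unfold tm
    generalize od a = n
    generalize od b = m
    generalize lc a = u
    generalize lc b = v
    have hz1 : ∀ (c d : (LS κ)ˣ) (k : ℤ), qa h2' c (d ^ k) = qa h2' c d ^ k := by
      intro c d k
      let φ : (LS κ)ˣ →* BrauerGroup.{0, 0} (LS κ) := MonoidHom.mk' (fun x => qa h2' c x) (qa_mul_right h2' c)
      exact φ.map_zpow d k
    have hz2 : ∀ (c d : (LS κ)ˣ) (k : ℤ), qa h2' (c ^ k) d = qa h2' c d ^ k := by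
      intro c d k
      rw [qa_comm, hz1, qa_comm]
    have hTT : qa h2' T T = qa h2' T (-1) := by
      have e : (T : (LS κ)ˣ) = (-1) * (-(T : (LS κ)ˣ)) := by rw [neg_mul_neg, one_mul]
      have e2 : qa h2' T T = qa h2' T ((-1) * (-(T : (LS κ)ˣ))) := by rw [← e]
      rw [e2, qa_mul_right, qa_neg_self, mul_one]
    have hneg : um cst (-1 : κˣ) = (-1 : (LS κ)ˣ) := by
      ext1
      rw [um_val, Units.val_neg, Units.val_neg, map_neg, Units.val_one, Units.val_one, map_one]
    rw [qa_mul_left, qa_mul_right, qa_mul_right, hz1, hz1, hz2, hz2, map_mul, qa_mul_right, map_zpow, hz1, hneg, map_div,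
      map_zpow, map_zpow, div_eq_mul_inv, qa_mul_right, hz1, ← zpow_neg, hz1, hTT, qa_comm h2' (um cst u) T, ← zpow_mul]
    have hinv : qa h2' T (um cst v) ^ (-n) = qa h2' T (um cst v) ^ n := by
      rw [zpow_neg, ← inv_zpow, qa_inv]
    rw [hinv]
    ac_rfl
  | ha x y hx hy =>
    obtain ⟨z, hz⟩ := hx
    obtain ⟨z', hz'⟩ := hy
    refine ⟨z + z', ?_⟩
    rw [hc_add, hz, hz', map_add, toMul_add, map_mul, qa_mul_right, hc_add, map_mul, mul_mul_mul_comm]

/-- the substitution `t ↦ t²` -/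
def sub2 : LS κ →+* LS κ :=
  HahnSeries.embDomainRingHom (⟨⟨fun n => 2 * n, by simp⟩, by simp [mul_add]⟩ : ℤ →+ ℤ)
    (fun a b h => by simpa using h) (fun a b => by simp)

theorem sub2_cst (c : κ) : sub2 (cst c) = cst c := by
  unfold sub2 cst
  exact HahnSeries.embDomainRingHom_C

theorem sub2_T : um sub2 (T : (LS κ)ˣ) = T ^ 2 := by
  ext1
  have : ((T ^ (2 : ℤ) : (LS κ)ˣ) : LS κ) = HahnSeries.single 2 1 := T_zpow 2
  rw [um_val, show (T ^ 2 : (LS κ)ˣ) = T ^ (2 : ℤ) from (zpow_natCast _ _).symm, this]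
  change HahnSeries.embDomain _ (HahnSeries.single (1 : ℤ) (1 : κ)) = _
  rw [HahnSeries.embDomain_single]
  rfl

theorem T_not_norm (d : κˣ) (hd : ∀ c : κ, c ^ 2 ≠ d) (A B : LS κ) :
    ((T : (LS κ)ˣ) : LS κ) ≠ A ^ 2 - HahnSeries.C (d : κ) * B ^ 2 := by
  intro h
  have key : ∀ n : ℤ, (A ^ 2 - HahnSeries.C (d : κ) * B ^ 2).coeff (2 * n) = 0 := by
    intro n
    rw [← h]
    change (HahnSeries.single (1 : ℤ) (1 : κ)).coeff (2 * n) = 0
    exact HahnSeries.coeff_single_of_ne (by omega)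
  have hco : ∀ (n : ℤ), (A ^ 2 - HahnSeries.C (d : κ) * B ^ 2).coeff n = (A ^ 2).coeff n - d * (B ^ 2).coeff n := by
    intro n
    rw [HahnSeries.coeff_sub, HahnSeries.C_mul_eq_smul, HahnSeries.coeff_smul, smul_eq_mul]
  have hsq : ∀ (X : LS κ), (X ^ 2).coeff (2 * X.order) = X.leadingCoeff ^ 2 := by
    intro X
    rw [sq, two_mul, HahnSeries.coeff_mul_order_add_order, sq]
  have hlt : ∀ (X : LS κ) (n : ℤ), X ≠ 0 → n < 2 * X.order → (X ^ 2).coeff n = 0 := by
    intro X n hX hn
    refine HahnSeries.coeff_eq_zero_of_lt_order ?_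
    rw [sq, HahnSeries.order_mul hX hX]
    omega
  by_cases hA : A = 0
  · by_cases hB : B = 0
    · rw [hA, hB] at h
      simp only [ne_eq, OfNat.ofNat_ne_zero, not_false_eq_true, zero_pow, mul_zero, sub_zero] at h
      exact (T : (LS κ)ˣ).ne_zero h
    · have h1 := key B.order
      rw [hco, hsq, hA, zero_pow two_ne_zero, HahnSeries.coeff_zero, zero_sub, neg_eq_zero] at h1
      rcases mul_eq_zero.1 h1 with h3 | h3
      · exact d.ne_zero h3
      · exact HahnSeries.leadingCoeff_ne_zero.2 hB (pow_eq_zero_iff two_ne_zero |>.1 h3)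
  · by_cases hB : B = 0
    · have h1 := key A.order
      rw [hco, hsq, hB, zero_pow two_ne_zero, HahnSeries.coeff_zero, mul_zero, sub_zero] at h1
      exact HahnSeries.leadingCoeff_ne_zero.2 hA (pow_eq_zero_iff two_ne_zero |>.1 h1)
    · rcases lt_trichotomy A.order B.order with h3 | h3 | h3
      · have h1 := key A.order
        rw [hco, hsq, hlt B _ hB (by omega), mul_zero, sub_zero] at h1
        exact HahnSeries.leadingCoeff_ne_zero.2 hA (pow_eq_zero_iff two_ne_zero |>.1 h1)
      · have h1 := key A.order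
        rw [hco, hsq, h3, hsq] at h1
        refine hd (A.leadingCoeff / B.leadingCoeff) ?_
        rw [div_pow, div_eq_iff (pow_ne_zero 2 (HahnSeries.leadingCoeff_ne_zero.2 hB))]
        linear_combination h1
      · have h1 := key B.order
        rw [hco, hsq, hlt A _ hA (by omega), zero_sub, neg_eq_zero] at h1
        rcases mul_eq_zero.1 h1 with h4 | h4
        · exact d.ne_zero h4
        · exact HahnSeries.leadingCoeff_ne_zero.2 hB (pow_eq_zero_iff two_ne_zero |>.1 h4)

/-- **(R)**: if the class of `μ` comes from `κ`, the tame symbol of `μ` is a square. -/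
theorem tame_square (h2 : (2 : κ) ≠ 0) (h2' : (2 : LS κ) ≠ 0) (μ : MilnorK2 (LS κ)) (y : BrauerGroup.{0, 0} κ)
    (h : hc h2' μ = rh cst y) : ∃ c : κˣ, (tL μ).toMul = c ^ 2 := by
  obtain ⟨z, hz⟩ := hc_decomp h2 h2' μ
  generalize (tL μ).toMul = d at hz ⊢
  have h1 : qa h2' T (um cst d) = rh cst (y * (hc h2 z)⁻¹) := by
    rw [map_mul, map_inv, ← h, hz, mul_assoc, mul_inv_cancel, mul_one]
  have h3 : rh sub2 (qa h2' T (um cst d)) = 1 := by
    rw [rh_qa sub2 h2' h2', sub2_T, qa_sq_left]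
  have h4 : rh sub2 (rh cst (y * (hc h2 z)⁻¹)) = rh cst (y * (hc h2 z)⁻¹) := by
    rw [rh_comp]
    congr 1
    congr 1
    ext1 c
    exact sub2_cst c
  have h5 : qa h2' (um cst d) T = 1 := by
    rw [qa_comm, h1, ← h4, ← h1, h3]
  by_contra hcon
  have hns : ∀ c : κ, c ^ 2 ≠ d := by
    intro c hc
    have hc0 : c ≠ 0 := by
      rintro rfl
      rw [zero_pow two_ne_zero] at hc
      exact d.ne_zero hc.symm
    exact hcon ⟨Units.mk0 c hc0, by ext; exact hc.symm⟩
  obtain ⟨A, B, hAB⟩ := norm_of_qa h2' (um cst d) T (fun c => nonsquare_C (d : κ) hns c) h5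
  exact T_not_norm d hns A B hAB

end LS

end Pool.Agent.H403.M
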