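import Mathlib
import Pool.Agent.H403.M.L

/-! # Brauer classes over Laurent series fields (helper403) -/

set_option autoImplicit false
set_option linter.all false

noncomputable section

namespace Pool.Agent.H403.M

open scoped TensorProduct
open Pool.Agent.TH132.W Pool.Agent.Y64.Cyc Pool.Agent.Helper18.Br Pool.Agent.H552R3.SymBr

variable {κ : Type} [Field κ] (D : Type) [DivisionRing D] [Algebra κ D]

/-- extension of coefficients -/
def exh : LS κ →+* HahnSeries ℤ D where
  toFun a := HahnSeries.map a (algebraMap κ D)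
  map_one' := by
    ext n
    rw [HahnSeries.map_coeff, HahnSeries.coeff_one, HahnSeries.coeff_one]
    split_ifs <;> simp
  map_mul' a b := HahnSeries.map_mul (R := κ) (S := D) (Γ := ℤ) ((algebraMap κ D : κ →+* D) : κ →ₙ+* D)
  map_zero' := by
    ext n
    rw [HahnSeries.map_coeff, HahnSeries.coeff_zero, HahnSeries.coeff_zero, map_zero]
  map_add' a b := by
    ext n
    rw [HahnSeries.map_coeff, HahnSeries.coeff_add, HahnSeries.coeff_add, HahnSeries.map_coeff,
      HahnSeries.map_coeff, map_add]

theorem exh_coeff (a : LS κ) (n : ℤ) : (exh D a).coeff n = algebraMap κ D (a.coeff n) := rfl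

theorem exh_cst (c : κ) : exh D (cst c) = HahnSeries.C (algebraMap κ D c) := by
  ext n
  rw [exh_coeff, HahnSeries.C_apply, HahnSeries.C_apply, HahnSeries.coeff_single, HahnSeries.coeff_single]
  split_ifs <;> simp

theorem exh_comm (a : LS κ) (d : D) : exh D a * HahnSeries.C d = HahnSeries.C d * exh D a := by
  ext n
  rw [HahnSeries.C_apply, HahnSeries.coeff_mul_single_zero, HahnSeries.coeff_single_zero_mul, exh_coeff]
  exact Algebra.commutes _ _

theorem exh_coeff_mul (a : LS κ) (d : D) (n : ℤ) : (exh D a * HahnSeries.C d).coeff n = a.coeff n • d := by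
  rw [HahnSeries.C_apply, HahnSeries.coeff_mul_single_zero, exh_coeff, Algebra.smul_def]

theorem base_noZeroDiv (L : Type) [Field L] [Algebra κ L] (i : L →+* LS κ)
    (hi : ∀ c : κ, i (algebraMap κ L c) = cst c) [FiniteDimensional κ D] : NoZeroDivisors (L ⊗[κ] D) := by
  let f : L →ₐ[κ] HahnSeries ℤ D := { (exh D).comp i with
    commutes' := fun c => by
      change exh D (i (algebraMap κ L c)) = _
      rw [hi, exh_cst, HahnSeries.algebraMap_apply] }
  let g : D →ₐ[κ] HahnSeries ℤ D := { (HahnSeries.C : D →+* HahnSeries ℤ D) with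
    commutes' := fun c => by
      change HahnSeries.C (algebraMap κ D c) = _
      rw [HahnSeries.algebraMap_apply] }
  let θ : L ⊗[κ] D →ₐ[κ] HahnSeries ℤ D := Algebra.TensorProduct.lift f g (fun x y => exh_comm D (i x) y)
  have hθ : Function.Injective θ := by
    rw [injective_iff_map_eq_zero]
    intro t ht
    let b := Module.finBasis κ D
    obtain ⟨c, rfl⟩ : ∃ c : Fin (Module.finrank κ D) → L, t = ∑ j, c j ⊗ₜ[κ] b j := by
      refine ⟨fun j => (b.baseChange L).repr t j, ?_⟩
      conv_lhs => rw [← (b.baseChange L).sum_repr t]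
      refine Finset.sum_congr rfl fun j _ => ?_
      rw [Module.Basis.baseChange_apply, TensorProduct.smul_tmul', smul_eq_mul, mul_one]
    rw [map_sum] at ht
    have h1 : ∀ j, c j = 0 := by
      have h2 : ∀ n : ℤ, ∀ j, (i (c j)).coeff n = 0 := by
        intro n
        have h3 : ∑ j, (i (c j)).coeff n • b j = 0 := by
          have h4 := congrArg (fun x : HahnSeries ℤ D => x.coeff n) ht
          simp only [HahnSeries.coeff_sum, HahnSeries.coeff_zero] at h4
          rw [← h4]
          refine Finset.sum_congr rfl fun j _ => ?_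
          have h5 : θ (c j ⊗ₜ[κ] b j) = exh D (i (c j)) * HahnSeries.C (b j) :=
            Algebra.TensorProduct.lift_tmul f g (fun x y => exh_comm D (i x) y) (c j) (b j)
          rw [h5, exh_coeff_mul]
        exact Fintype.linearIndependent_iff.1 b.linearIndependent _ h3
      intro j
      apply i.injective
      rw [map_zero]
      ext n
      exact h2 n j
    exact Finset.sum_eq_zero fun j _ => by rw [h1, TensorProduct.zero_tmul]
  refine ⟨fun {x y} hxy => ?_⟩
  have h1 : θ x * θ y = 0 := by rw [← map_mul, hxy, map_zero]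
  rcases mul_eq_zero.1 h1 with h | h
  · left; exact hθ (by rw [h, map_zero])
  · right; exact hθ (by rw [h, map_zero])

theorem finrank_one_of_split (L : Type) [Field L] [Algebra κ L] (i : L →+* LS κ)
    (hi : ∀ c : κ, i (algebraMap κ L c) = cst c) [FiniteDimensional κ D]
    (h : BrEq L (L ⊗[κ] D) L) : Module.finrank κ D = 1 := by
  haveI := base_noZeroDiv D L i hi
  haveI : Nontrivial (L ⊗[κ] D) := by
    apply Module.nontrivial_of_finrank_pos (R := L)
    rw [Module.finrank_baseChange]
    exact Module.finrank_pos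
  haveI : IsDomain (L ⊗[κ] D) := NoZeroDivisors.to_isDomain _
  letI : DivisionRing (L ⊗[κ] D) := divisionRingOfFiniteDimensional L (L ⊗[κ] D)
  obtain ⟨p, q, hp, hq, ⟨e⟩⟩ := h
  have hpq := size_eq e.toRingEquiv
  have h1 := e.toLinearEquiv.finrank_eq
  rw [Module.finrank_matrix, Module.finrank_matrix, Module.finrank_self, Fintype.card_fin, Fintype.card_fin,
    Module.finrank_baseChange, hpq] at h1
  exact Nat.eq_of_mul_eq_mul_left (Nat.mul_pos (Nat.pos_of_ne_zero hq) (Nat.pos_of_ne_zero hq)) h1

/-- if `L` embeds in `κ((t))` over `κ` then `Br(κ) → Br(L)` is injective -/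
theorem rh_inj {L : Type} [Field L] (φ : κ →+* L) (i : L →+* LS κ) (hi : ∀ c : κ, i (φ c) = cst c)
    (x : BrauerGroup.{0, 0} κ) (hx : rh φ x = 1) : x = 1 := by
  obtain ⟨D, _, _, _, _, rfl⟩ := exists_div x
  letI : Algebra κ L := φ.toAlgebra
  haveI i1 : IsSimpleRing (L ⊗[κ] D) := isSimple_base κ L D
  haveI i3 : Algebra.IsCentral L (L ⊗[κ] D) := isCentral_base κ L D
  have h1 : brauerClass L (L ⊗[κ] D) = 1 := hx
  have h2 := finrank_one_of_split D L i hi (brauerClass_eq_one_iff.1 h1)
  obtain ⟨e⟩ := equiv_of_hom (Algebra.ofId κ D) (by rw [h2, Module.finrank_self])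
  exact brauerClass_eq_one_iff.2 (BrEq.of_equiv e.symm)

end Pool.Agent.H403.M
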