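import Mathlib
import Pool.Agent.H403.M.L

/-! # The coordinate ring of an anisotropic conic (helper403) -/

set_option autoImplicit false
set_option linter.all false

noncomputable section

namespace Pool.Agent.H403.M

open Polynomial

/-- the conic `y² = s x² + f` is smooth and has no rational point -/
class Con {F : Type} [Field F] (s f : F) : Prop where
  h2 : (2 : F) ≠ 0
  hs : ∀ c : F, c ^ 2 ≠ s
  hf : f ≠ 0
  hpt : ∀ x y : F, y ^ 2 ≠ s * x ^ 2 + f

/-- the coordinate ring of the affine conic -/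
abbrev CA {F : Type} [Field F] (s f : F) : Type := QuadraticAlgebra F[X] (C s * X ^ 2 + C f) 0

/-- the quadratic extension `F(√s)` -/
abbrev QE {F : Type} [Field F] (s : F) : Type := QuadraticAlgebra F s 0

section

variable {F : Type} [Field F] {s f : F} [hC : Con s f]

omit hC in
theorem s_ne_zero (hs : ∀ c : F, c ^ 2 ≠ s) : s ≠ 0 := by
  rintro rfl
  exact hs 0 (by rw [zero_pow two_ne_zero])

omit hC in
theorem pair_zero (hs : ∀ c : F, c ^ 2 ≠ s) {a b : F} (h : a * a - s * (b * b) = 0) : a = 0 ∧ b = 0 := by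
  by_cases hb : b = 0
  · subst hb
    refine ⟨?_, rfl⟩
    simpa using h
  · exfalso
    refine hs (a / b) ?_
    rw [div_pow, div_eq_iff (pow_ne_zero 2 hb)]
    linear_combination h

/-- the level -/
def lv (z : CA s f) : ℕ := max z.re.natDegree (X * z.im).natDegree

/-- the top coefficients -/
def tp (n : ℕ) (z : CA s f) : QE s := ⟨z.re.coeff n, (X * z.im).coeff n⟩

omit hC in
theorem lv_le {n : ℕ} {z : CA s f} : lv z ≤ n ↔ z.re.natDegree ≤ n ∧ (X * z.im).natDegree ≤ n := max_le_iff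

omit hC in
theorem im_coeff_zero {n m : ℕ} {z : CA s f} (h : lv z ≤ n) (hm : n ≤ m) : z.im.coeff m = 0 := by
  have h1 := (lv_le.1 h).2
  have h3 : (X * z.im).coeff (m + 1) = 0 := coeff_eq_zero_of_natDegree_lt (by omega)
  rwa [coeff_X_mul] at h3

omit hC in
theorem norm_coeff {n : ℕ} {z : CA s f} (h : lv z ≤ n) :
    (z.norm).coeff (n + n) = (tp n z).re * (tp n z).re - s * ((tp n z).im * (tp n z).im) := by
  obtain ⟨h1, h2⟩ := lv_le.1 h
  have e : z.norm = z.re * z.re - C s * ((X * z.im) * (X * z.im)) - C f * (z.im * z.im) := by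
    rw [QuadraticAlgebra.norm_def]
    ring
  have h3 : (z.im * z.im).coeff (n + n) = 0 := by
    by_cases hz : z.im = 0
    · rw [hz, zero_mul, coeff_zero]
    · refine coeff_eq_zero_of_natDegree_lt ?_
      rw [natDegree_X_mul hz] at h2
      rw [natDegree_mul hz hz]
      omega
  rw [e, coeff_sub, coeff_sub, coeff_C_mul, coeff_C_mul, h3, mul_zero, sub_zero,
    coeff_mul_add_eq_of_natDegree_le h1 h1, coeff_mul_add_eq_of_natDegree_le h2 h2]
  rfl

omit hC in
theorem tp_lv_ne {z : CA s f} (hz : z ≠ 0) : (tp (lv z) z).re ≠ 0 ∨ (tp (lv z) z).im ≠ 0 := by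
  by_contra hcon
  push Not at hcon
  obtain ⟨h1, h2⟩ := hcon
  change z.re.coeff (lv z) = 0 at h1
  change (X * z.im).coeff (lv z) = 0 at h2
  have key : ∀ p : F[X], p.natDegree = lv z → p.coeff (lv z) = 0 → p = 0 := by
    intro p hp h
    rw [← hp] at h
    exact leadingCoeff_eq_zero.1 h
  have hre0 : z.re = 0 ∧ X * z.im = 0 := by
    rcases max_choice z.re.natDegree (X * z.im).natDegree with h | h
    · have h3 := key z.re h.symm h1
      refine ⟨h3, ?_⟩
      have h4 : (X * z.im).natDegree ≤ 0 := by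
        have : lv z = 0 := by
          unfold lv
          rw [h, h3, natDegree_zero]
        rw [← this]
        exact le_max_right _ _
      refine key _ ?_ h2
      have : lv z = 0 := by
        unfold lv
        rw [h, h3, natDegree_zero]
      omega
    · have h3 := key (X * z.im) h.symm h2
      refine ⟨?_, h3⟩
      have : lv z = 0 := by
        unfold lv
        rw [h, h3, natDegree_zero]
      refine key _ ?_ h1
      have h5 : z.re.natDegree ≤ lv z := le_max_left _ _
      omega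
  refine hz (QuadraticAlgebra.ext hre0.1 ?_)
  exact (mul_eq_zero.1 hre0.2).resolve_left X_ne_zero

theorem norm_coeff_ne (hs : ∀ c : F, c ^ 2 ≠ s) {z : CA s f} (hz : z ≠ 0) : (z.norm).coeff (lv z + lv z) ≠ 0 := by
  rw [norm_coeff le_rfl]
  intro h
  obtain ⟨h1, h2⟩ := pair_zero hs h
  rcases tp_lv_ne hz with h3 | h3
  · exact h3 h1
  · exact h3 h2

theorem norm_ne (hs : ∀ c : F, c ^ 2 ≠ s) {z : CA s f} (hz : z ≠ 0) : z.norm ≠ 0 := by
  intro h
  refine norm_coeff_ne hs hz ?_
  rw [h, coeff_zero]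

omit hC in
theorem norm_natDegree_le {n : ℕ} {z : CA s f} (h : lv z ≤ n) : (z.norm).natDegree ≤ n + n := by
  obtain ⟨h1, h2⟩ := lv_le.1 h
  have e : z.norm = z.re * z.re - C s * ((X * z.im) * (X * z.im)) - C f * (z.im * z.im) := by
    rw [QuadraticAlgebra.norm_def]
    ring
  have h3 : (z.im * z.im).natDegree ≤ n + n := by
    by_cases hz : z.im = 0
    · rw [hz, zero_mul, natDegree_zero]
      omega
    · rw [natDegree_X_mul hz] at h2
      rw [natDegree_mul hz hz]
      omega
  rw [e]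
  refine (natDegree_sub_le _ _).trans (max_le ((natDegree_sub_le _ _).trans (max_le ?_ ?_)) ?_)
  · exact natDegree_mul_le.trans (add_le_add h1 h1)
  · exact (natDegree_C_mul_le _ _).trans (natDegree_mul_le.trans (add_le_add h2 h2))
  · exact (natDegree_C_mul_le _ _).trans h3

theorem norm_natDegree (hs : ∀ c : F, c ^ 2 ≠ s) {z : CA s f} (hz : z ≠ 0) : (z.norm).natDegree = lv z + lv z :=
  le_antisymm (norm_natDegree_le le_rfl) (le_natDegree_of_ne_zero (norm_coeff_ne hs hz))

instance : IsDomain (CA s f) := by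
  have hs := hC.hs
  haveI : NoZeroDivisors (CA s f) := ⟨by
    intro a b h
    by_contra hcon
    push Not at hcon
    have h1 : (a * b).norm ≠ 0 := by
      rw [map_mul]
      exact mul_ne_zero (norm_ne hs hcon.1) (norm_ne hs hcon.2)
    rw [h, QuadraticAlgebra.norm_zero] at h1
    exact h1 rfl⟩
  exact NoZeroDivisors.to_isDomain _

theorem lv_mul {a b : CA s f} (ha : a ≠ 0) (hb : b ≠ 0) : lv (a * b) = lv a + lv b := by
  have hs := hC.hs
  have h := norm_natDegree hs (mul_ne_zero ha hb)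
  rw [map_mul, natDegree_mul (norm_ne hs ha) (norm_ne hs hb), norm_natDegree hs ha, norm_natDegree hs hb] at h
  omega

omit hC in
theorem lv_add_le {n : ℕ} {a b : CA s f} (ha : lv a ≤ n) (hb : lv b ≤ n) : lv (a + b) ≤ n := by
  rw [lv_le] at ha hb ⊢
  refine ⟨?_, ?_⟩
  · rw [QuadraticAlgebra.re_add]
    exact (natDegree_add_le _ _).trans (max_le ha.1 hb.1)
  · rw [QuadraticAlgebra.im_add, mul_add]
    exact (natDegree_add_le _ _).trans (max_le ha.2 hb.2)

omit hC in
theorem lv_neg (a : CA s f) : lv (-a) = lv a := by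
  unfold lv
  rw [QuadraticAlgebra.re_neg, QuadraticAlgebra.im_neg, mul_neg, natDegree_neg, natDegree_neg]

omit hC in
theorem lv_sub_le {n : ℕ} {a b : CA s f} (ha : lv a ≤ n) (hb : lv b ≤ n) : lv (a - b) ≤ n := by
  rw [sub_eq_add_neg]
  exact lv_add_le ha (by rwa [lv_neg])

omit hC in
theorem lv_zero : lv (0 : CA s f) = 0 := by
  unfold lv
  rw [QuadraticAlgebra.re_zero, QuadraticAlgebra.im_zero, mul_zero, natDegree_zero, max_self]

theorem lv_mul_le (a b : CA s f) : lv (a * b) ≤ lv a + lv b := by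
  by_cases ha : a = 0
  · rw [ha, zero_mul, lv_zero]
    omega
  by_cases hb : b = 0
  · rw [hb, mul_zero, lv_zero]
    omega
  exact (lv_mul ha hb).le

/-- the constants -/
def kc (c : F) : CA s f := ⟨C c, 0⟩

omit hC in
theorem lv_kc (c : F) : lv (kc c : CA s f) = 0 := by
  unfold lv kc
  simp

omit hC in
theorem lv_eq_zero {z : CA s f} (h : lv z = 0) : ∃ c : F, z = kc c := by
  have h1 := lv_le.1 h.le
  refine ⟨z.re.coeff 0, QuadraticAlgebra.ext (eq_C_of_natDegree_le_zero h1.1) ?_⟩
  change z.im = 0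
  by_contra hz
  have := h1.2
  rw [natDegree_X_mul hz] at this
  omega

theorem dvd_lv {a b : CA s f} (hb : b ≠ 0) (h : a ∣ b) : lv a ≤ lv b := by
  obtain ⟨c, rfl⟩ := h
  rw [lv_mul (left_ne_zero_of_mul hb) (right_ne_zero_of_mul hb)]
  omega

omit hC in
theorem tp_add (n : ℕ) (a b : CA s f) : tp n (a + b) = tp n a + tp n b := by
  unfold tp
  ext
  · simp
  · simp [mul_add]

omit hC in
theorem tp_neg (n : ℕ) (a : CA s f) : tp n (-a) = - tp n a := by
  unfold tp
  ext
  · simp
  · simp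

omit hC in
theorem tp_sub (n : ℕ) (a b : CA s f) : tp n (a - b) = tp n a - tp n b := by
  rw [sub_eq_add_neg, tp_add, tp_neg, sub_eq_add_neg]

omit hC in
theorem tp_mul {m n : ℕ} {a b : CA s f} (ha : lv a ≤ m) (hb : lv b ≤ n) : tp (m + n) (a * b) = tp m a * tp n b := by
  obtain ⟨h1, h2⟩ := lv_le.1 ha
  obtain ⟨h3, h4⟩ := lv_le.1 hb
  have h5 : (a.im * b.im).coeff (m + n) = 0 := by
    by_cases hz : a.im = 0
    · rw [hz, zero_mul, coeff_zero]
    by_cases hz' : b.im = 0
    · rw [hz', mul_zero, coeff_zero]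
    refine coeff_eq_zero_of_natDegree_lt ?_
    rw [natDegree_X_mul hz] at h2
    rw [natDegree_X_mul hz'] at h4
    rw [natDegree_mul hz hz']
    omega
  unfold tp
  ext
  · change (a * b).re.coeff (m + n) = _
    rw [QuadraticAlgebra.re_mul, QuadraticAlgebra.re_mul]
    have e : a.re * b.re + (C s * X ^ 2 + C f) * a.im * b.im =
      a.re * b.re + C s * ((X * a.im) * (X * b.im)) + C f * (a.im * b.im) := by ring
    rw [e, coeff_add, coeff_add, coeff_C_mul, coeff_C_mul, h5, mul_zero, add_zero,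
      coeff_mul_add_eq_of_natDegree_le h1 h3, coeff_mul_add_eq_of_natDegree_le h2 h4, mul_assoc s]
  · change (X * (a * b).im).coeff (m + n) = _
    rw [QuadraticAlgebra.im_mul, QuadraticAlgebra.im_mul]
    have e : X * (a.re * b.im + a.im * b.re + 0 * a.im * b.im) = a.re * (X * b.im) + (X * a.im) * b.re := by ring
    rw [e, coeff_add, coeff_mul_add_eq_of_natDegree_le h1 h4, coeff_mul_add_eq_of_natDegree_le h2 h3]
    ring

omit hC in
theorem lv_le_of_tp {n : ℕ} {z : CA s f} (h : lv z ≤ n + 1) (ht : tp (n + 1) z = 0) : lv z ≤ n := by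
  obtain ⟨h1, h2⟩ := lv_le.1 h
  have hr : z.re.coeff (n + 1) = 0 := congrArg QuadraticAlgebra.re ht
  have hi : (X * z.im).coeff (n + 1) = 0 := congrArg QuadraticAlgebra.im ht
  have key : ∀ p : F[X], p.natDegree ≤ n + 1 → p.coeff (n + 1) = 0 → p.natDegree ≤ n := by
    intro p hp hc
    rw [natDegree_le_iff_coeff_eq_zero]
    intro N hN
    rcases Nat.lt_or_ge (n + 1) N with h3 | h3
    · exact coeff_eq_zero_of_natDegree_lt (by omega)
    · have : N = n + 1 := by omega
      rw [this]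
      exact hc
  exact lv_le.2 ⟨key _ h1 hr, key _ h2 hi⟩

omit hC in
theorem exists_tp (n : ℕ) (e : QE s) : ∃ z : CA s f, lv z ≤ n + 1 ∧ tp (n + 1) z = e := by
  refine ⟨⟨C e.re * X ^ (n + 1), C e.im * X ^ n⟩, lv_le.2 ⟨?_, ?_⟩, ?_⟩
  · exact natDegree_C_mul_X_pow_le _ _
  · change (X * (C e.im * X ^ n)).natDegree ≤ n + 1
    have : X * (C e.im * X ^ n) = C e.im * X ^ (n + 1) := by ring
    rw [this]
    exact natDegree_C_mul_X_pow_le _ _
  · unfold tp
    ext
    · change (C e.re * X ^ (n + 1)).coeff (n + 1) = _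
      simp
    · change (X * (C e.im * X ^ n)).coeff (n + 1) = _
      have : X * (C e.im * X ^ n) = C e.im * X ^ (n + 1) := by ring
      rw [this]
      simp

theorem division {n : ℕ} {π : CA s f} (hπ : π ≠ 0) (hn : lv π = n) :
    ∀ (k : ℕ) (z : CA s f), lv z ≤ n + k → ∃ g r : CA s f, z = π * g + r ∧ lv g ≤ k ∧ lv r ≤ n := by
  haveI : Fact (∀ r : F, r ^ 2 ≠ s + 0 * r) := ⟨fun r => by rw [zero_mul, add_zero]; exact hC.hs r⟩
  have htp : tp n π ≠ 0 := by
    intro h
    rcases tp_lv_ne hπ with h1 | h1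
    · rw [hn, h] at h1
      exact h1 rfl
    · rw [hn, h] at h1
      exact h1 rfl
  intro k
  induction k with
  | zero => exact fun z hz => ⟨0, z, by ring, by rw [lv_zero], hz⟩
  | succ k ih =>
    intro z hz
    obtain ⟨g₁, hg1, hg2⟩ := exists_tp (f := f) k ((tp (n + k + 1) z) / (tp n π))
    have h1 : lv (π * g₁) ≤ n + k + 1 := by
      refine (lv_mul_le _ _).trans ?_
      omega
    have h2 : tp (n + k + 1) (z - π * g₁) = 0 := by
      rw [tp_sub]
      have : tp (n + (k + 1)) (π * g₁) = tp n π * tp (k + 1) g₁ := tp_mul hn.le hg1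
      rw [show n + k + 1 = n + (k + 1) by ring, this, hg2, show n + k + 1 = n + (k + 1) by ring,
        mul_div_cancel₀ _ htp, sub_self]
    have h3 : lv (z - π * g₁) ≤ n + k := lv_le_of_tp (lv_sub_le (by omega) h1) h2
    obtain ⟨g, r, e, hg, hr⟩ := ih _ h3
    exact ⟨g₁ + g, r, by linear_combination e, lv_add_le hg1 (by omega), hr⟩

theorem division' {n : ℕ} {π : CA s f} (hπ : π ≠ 0) (hn : lv π = n) (z : CA s f) :
    ∃ g r : CA s f, z = π * g + r ∧ lv r ≤ n := by
  obtain ⟨g, r, h1, h2, h3⟩ := division hπ hn (lv z) z (by omega)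
  exact ⟨g, r, h1, h3⟩

end

end Pool.Agent.H403.M
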