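import Mathlib
import Pool.Agent.H403.M.A1
import Pool.Agent.H403.M.C1

/-! # Classes split by a cyclic extension; quadratic extensions (helper403) -/

set_option autoImplicit false
set_option linter.all false

noncomputable section

namespace Pool.Agent.H403.M

open scoped TensorProduct
open Pool.Agent.TH132.W Pool.Agent.Y64.Cyc Pool.Agent.Helper18.Br Pool.Agent.H552R3.SymBr

section cyc

variable {F K : Type} [Field F] [Field K] [Algebra F K]

theorem ker_cyc {σ : K ≃ₐ[F] K} {d : ℕ} (hσ : CycGen σ d) (x : BrauerGroup.{0, 0} F) (hx : res K x = 1) :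
    ∃ (m : ℕ) (_ : Nonempty (Fin m)) (P : Matrix (Fin m) (Fin m) K) (b : F) (hP : Tws σ d P b), x = cls hσ hP := by
  obtain ⟨D, _, _, _, _, rfl⟩ := exists_div x
  haveI i1 : IsSimpleRing (K ⊗[F] D) := isSimple_base F K D
  haveI i3 : Algebra.IsCentral K (K ⊗[F] D) := isCentral_base F K D
  have h1 : brauerClass K (K ⊗[F] D) = 1 := hx
  obtain ⟨m, ⟨e⟩⟩ := exists_matrix h1
  have h2 : Module.finrank F D = Fintype.card (Fin m) ^ 2 := by
    have h3 := e.toLinearEquiv.finrank_eq
    rw [Module.finrank_matrix, Module.finrank_self, Module.finrank_baseChange] at h3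
    rw [h3]
    ring
  have hm : Nonempty (Fin m) := by
    rw [← Fintype.card_pos_iff, Nat.pos_iff_ne_zero]
    intro h0
    rw [h0] at h2
    have h4 : 0 < Module.finrank F D := Module.finrank_pos
    omega
  let g : D →ₐ[F] Matrix (Fin m) (Fin m) K :=
    (e.toAlgHom.restrictScalars F).comp (Algebra.TensorProduct.includeRight : D →ₐ[F] K ⊗[F] D)
  obtain ⟨P, b, hP, hcl⟩ := exists_tw hσ D g h2
  exact ⟨m, hm, P, b, hP, hcl⟩

theorem ker_quad {σ : K ≃ₐ[F] K} (hσ : CycGen σ 2) (h2 : (2 : F) ≠ 0) (a : Fˣ) (ρ : K) (hρ : σ ρ = -ρ)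
    (ha : ρ ^ 2 = algebraMap F K a) (x : BrauerGroup.{0, 0} F) (hx : res K x = 1) : ∃ g : Fˣ, x = qa h2 a g := by
  obtain ⟨m, hm, P, b, hP, rfl⟩ := ker_cyc hσ x hx
  refine ⟨Units.mk0 b hP.ne, ?_⟩
  have hσ' : CycGen σ (2 * 1) := hσ
  have hQ : Tws σ (2 * 1) (symQ K b) b := by
    have := tws_symQ σ hP.ne 1
    rw [pow_one] at this
    exact this
  have h1 : cls hσ' hP = cls hσ' hQ := cls_eq hσ' hP hQ
  have h3 : cls hσ' hQ = cls hσ' (tws_symQ σ (Units.mk0 b hP.ne).ne_zero 1) := by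
    refine cls_eq hσ' hQ ?_
    have := tws_symQ σ (Units.mk0 b hP.ne).ne_zero 1
    rw [pow_one] at this
    exact this
  exact h1.trans (h3.trans (cls_symQ hσ' (prim_of_two h2) a (Units.mk0 b hP.ne) ρ hρ ha))

end cyc

section QEs

variable {F : Type} [Field F] {s : F}

/-- the nonsquare condition as a `Fact` -/
theorem qf (hs : ∀ c : F, c ^ 2 ≠ s) : Fact (∀ r : F, r ^ 2 ≠ s + 0 * r) :=
  ⟨fun r => by rw [zero_mul, add_zero]; exact hs r⟩

/-- the square root of `s` -/
def rt (s : F) : QE s := ⟨0, 1⟩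

theorem rt_sq (s : F) : rt s ^ 2 = algebraMap F (QE s) s := by
  rw [sq]
  ext1
  · rw [QuadraticAlgebra.re_mul]
    change (0 : F) * 0 + s * 1 * 1 = s
    ring
  · rw [QuadraticAlgebra.im_mul]
    change (0 : F) * 1 + 1 * 0 + 0 * 1 * 1 = 0
    ring

/-- conjugation -/
def cj2 (s : F) : QE s ≃ₐ[F] QE s where
  toFun z := ⟨z.re, -z.im⟩
  invFun z := ⟨z.re, -z.im⟩
  left_inv z := by
    ext1
    · rfl
    · exact neg_neg _
  right_inv z := by
    ext1
    · rfl
    · exact neg_neg _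
  map_mul' z w := by
    ext1
    · change (z * w).re = _
      rw [QuadraticAlgebra.re_mul, QuadraticAlgebra.re_mul]
      ring
    · change -(z * w).im = _
      rw [QuadraticAlgebra.im_mul, QuadraticAlgebra.im_mul]
      ring
  map_add' z w := by
    ext1
    · rfl
    · change -(z.im + w.im) = -z.im + -w.im
      ring
  commutes' c := by
    ext1
    · rfl
    · exact neg_zero

theorem cj2_re (z : QE s) : (cj2 s z).re = z.re := rfl
theorem cj2_im (z : QE s) : (cj2 s z).im = -z.im := rfl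

theorem cj2_rt : cj2 s (rt s) = - rt s := by
  ext1
  · exact neg_zero.symm
  · rfl

theorem cj2_cj2 (z : QE s) : cj2 s (cj2 s z) = z := by
  ext1
  · rfl
  · exact neg_neg _

theorem QE_eq (z : QE s) : z = algebraMap F (QE s) z.re + algebraMap F (QE s) z.im * rt s := by
  ext1
  · rw [QuadraticAlgebra.re_add, QuadraticAlgebra.re_mul]
    change z.re = z.re + (z.im * 0 + s * 0 * 1)
    ring
  · rw [QuadraticAlgebra.im_add, QuadraticAlgebra.im_mul]
    change z.im = 0 + (z.im * 1 + 0 * 0 + 0 * 0 * 1)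
    ring

theorem cycGen_cj2 (h2 : (2 : F) ≠ 0) (hs : ∀ c : F, c ^ 2 ≠ s) : letI := qf hs
    CycGen (cj2 s) 2 := by
  letI := qf hs
  refine ⟨two_pos, ?_, ?_⟩
  · refine orderOf_eq_prime ?_ ?_
    · ext z
      · rw [sq]; rfl
      · rw [sq]; exact neg_neg _
    · intro h
      have h1 := congrArg QuadraticAlgebra.im (DFunLike.congr_fun h (rt s))
      change -(1 : F) = 1 at h1
      apply h2
      linear_combination (-1 : F) * h1
  · intro x hx
    have h1 : -x.im = x.im := congrArg QuadraticAlgebra.im hx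
    have h3 : x.im = 0 := by
      have : (2 : F) * x.im = 0 := by linear_combination (-1 : F) * h1
      exact (mul_eq_zero.1 this).resolve_left h2
    refine ⟨x.re, ?_⟩
    ext1
    · rfl
    · exact h3.symm

/-- norm -/
theorem mul_cj2 (z : QE s) : z * cj2 s z = algebraMap F (QE s) (z.re ^ 2 - s * z.im ^ 2) := by
  ext1
  · rw [QuadraticAlgebra.re_mul, cj2_re, cj2_im]
    change _ = z.re ^ 2 - s * z.im ^ 2
    ring
  · rw [QuadraticAlgebra.im_mul, cj2_re, cj2_im]
    change _ = (0 : F)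
    ring

theorem ker_QE (h2 : (2 : F) ≠ 0) (s : Fˣ) (hs : ∀ c : F, c ^ 2 ≠ s) (x : BrauerGroup.{0, 0} F) :
    letI := qf hs
    rh (algebraMap F (QE (s : F))) x = 1 → ∃ g : Fˣ, x = qa h2 s g := by
  letI := qf hs
  intro hx
  have e : (algebraMap F (QE (s : F))).toAlgebra = (inferInstance : Algebra F (QE (s : F))) :=
    Algebra.algebra_ext _ _ (fun _ => rfl)
  have hx' : res (QE (s : F)) x = 1 := by
    unfold rh at hx
    rw [e] at hx
    exact hx
  exact ker_quad (cycGen_cj2 h2 hs) h2 s (rt (s : F)) cj2_rt (rt_sq _) x hx'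

end QEs

end Pool.Agent.H403.M
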