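import Mathlib
import Pool.Agent.H403.M.C1

/-! # Dimensions and prime ideals in the coordinate ring of an anisotropic conic (helper403) -/

set_option autoImplicit false
set_option linter.all false

noncomputable section

namespace Pool.Agent.H403.M

open Polynomial

section

variable {F : Type} [Field F] {s f : F} [hC : Con s f]

omit hC in
theorem lv_le_iff {n : ℕ} {z : CA s f} :
    lv z ≤ n ↔ (∀ m, n < m → z.re.coeff m = 0) ∧ (∀ m, n ≤ m → z.im.coeff m = 0) := by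
  rw [lv_le, natDegree_le_iff_coeff_eq_zero, natDegree_le_iff_coeff_eq_zero]
  refine and_congr Iff.rfl ⟨fun h m hm => ?_, fun h m hm => ?_⟩
  · have := h (m + 1) (by omega)
    rwa [coeff_X_mul] at this
  · obtain ⟨k, rfl⟩ : ∃ k, m = k + 1 := ⟨m - 1, by omega⟩
    rw [coeff_X_mul]
    exact h k (by omega)

variable (s f) in
/-- the functions of level at most `n` -/
def Ln (n : ℕ) : Submodule F (CA s f) where
  carrier := {z | lv z ≤ n}
  zero_mem' := by
    change lv (0 : CA s f) ≤ n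
    rw [lv_zero]
    omega
  add_mem' := fun ha hb => lv_add_le ha hb
  smul_mem' := by
    intro c z hz
    change lv (c • z) ≤ n
    change lv z ≤ n at hz
    rw [lv_le_iff] at hz ⊢
    refine ⟨fun m hm => ?_, fun m hm => ?_⟩
    · rw [QuadraticAlgebra.re_smul, coeff_smul, hz.1 m hm, smul_zero]
    · rw [QuadraticAlgebra.im_smul, coeff_smul, hz.2 m hm, smul_zero]

omit hC in
theorem mem_Ln {n : ℕ} {z : CA s f} : z ∈ Ln s f n ↔ lv z ≤ n := Iff.rfl

omit hC in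
theorem smul_eq_kc (c : F) (z : CA s f) : c • z = z * kc c := by
  ext1
  · rw [QuadraticAlgebra.re_smul, QuadraticAlgebra.re_mul, smul_eq_C_mul]
    change _ = z.re * C c + (C s * X ^ 2 + C f) * z.im * 0
    ring
  · rw [QuadraticAlgebra.im_smul, QuadraticAlgebra.im_mul, smul_eq_C_mul]
    change _ = z.re * 0 + z.im * C c + 0 * z.im * 0
    ring

variable (s f) in
/-- coordinates -/
def LnEquiv (n : ℕ) : Ln s f n ≃ₗ[F] (degreeLT F (n + 1)) × (degreeLT F n) where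
  toFun z := (⟨z.1.re, mem_degreeLT.2 ((degree_lt_iff_coeff_zero _ _).2 fun m hm =>
      (lv_le_iff.1 z.2).1 m (by omega))⟩,
    ⟨z.1.im, mem_degreeLT.2 ((degree_lt_iff_coeff_zero _ _).2 fun m hm => (lv_le_iff.1 z.2).2 m (by omega))⟩)
  invFun p := ⟨⟨p.1.1, p.2.1⟩, lv_le_iff.2 ⟨fun m hm =>
    (degree_lt_iff_coeff_zero _ _).1 (mem_degreeLT.1 p.1.2) m (by omega), fun m hm =>
    (degree_lt_iff_coeff_zero _ _).1 (mem_degreeLT.1 p.2.2) m (by omega)⟩⟩
  left_inv z := rfl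
  right_inv p := rfl
  map_add' a b := rfl
  map_smul' c a := rfl

instance (n : ℕ) : FiniteDimensional F (degreeLT F n) := Module.Finite.equiv (degreeLTEquiv F n).symm

omit hC in
instance Ln_fin (n : ℕ) : FiniteDimensional F (Ln s f n) := Module.Finite.equiv (LnEquiv s f n).symm

omit hC in
theorem finrank_Ln (n : ℕ) : Module.finrank F (Ln s f n) = 2 * n + 1 := by
  rw [(LnEquiv s f n).finrank_eq, Module.finrank_prod, (degreeLTEquiv F (n + 1)).finrank_eq,
    (degreeLTEquiv F n).finrank_eq, Module.finrank_fin_fun, Module.finrank_fin_fun]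
  omega

/-- the reduction -/
def qm (I : Ideal (CA s f)) (n : ℕ) : Ln s f n →ₗ[F] (CA s f ⧸ I) :=
  (Ideal.Quotient.mkₐ F I).toLinearMap ∘ₗ (Ln s f n).subtype

omit hC in
theorem qm_apply (I : Ideal (CA s f)) (n : ℕ) (z : Ln s f n) : qm I n z = Ideal.Quotient.mk I z.1 := rfl

theorem qm_surj {π : CA s f} (hπ : π ≠ 0) : Function.Surjective (qm (Ideal.span {π}) (lv π)) := by
  intro x
  obtain ⟨z, rfl⟩ := Ideal.Quotient.mk_surjective x
  obtain ⟨g, r, h1, h2⟩ := division' hπ rfl z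
  refine ⟨⟨r, h2⟩, ?_⟩
  rw [qm_apply]
  apply Ideal.Quotient.eq.2
  rw [Ideal.mem_span_singleton]
  exact ⟨-g, by rw [h1]; ring⟩

theorem qm_ker {π : CA s f} (hπ : π ≠ 0) : LinearMap.ker (qm (Ideal.span {π}) (lv π)) =
    Submodule.span F {(⟨π, mem_Ln.2 le_rfl⟩ : Ln s f (lv π))} := by
  ext z
  rw [LinearMap.mem_ker, qm_apply, Ideal.Quotient.eq_zero_iff_mem, Ideal.mem_span_singleton,
    Submodule.mem_span_singleton]
  constructor
  · rintro ⟨g, hg⟩
    by_cases hg0 : g = 0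
    · refine ⟨0, ?_⟩
      rw [zero_smul]
      ext1
      rw [hg, hg0, mul_zero]
      rfl
    · have h1 : lv z.1 ≤ lv π := z.2
      rw [hg, lv_mul hπ hg0] at h1
      obtain ⟨c, hc⟩ := lv_eq_zero (z := g) (by omega)
      refine ⟨c, ?_⟩
      ext1
      change c • π = z.1
      rw [hg, hc, smul_eq_kc]
  · rintro ⟨c, hc⟩
    refine ⟨kc c, ?_⟩
    rw [← hc]
    change c • π = _
    rw [smul_eq_kc]

theorem fd_quot {π : CA s f} (hπ : π ≠ 0) : FiniteDimensional F (CA s f ⧸ Ideal.span {π}) :=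
  Module.Finite.of_surjective _ (qm_surj hπ)

theorem finrank_quot {π : CA s f} (hπ : π ≠ 0) : Module.finrank F (CA s f ⧸ Ideal.span {π}) = 2 * lv π := by
  haveI := fd_quot hπ
  have h1 := LinearMap.finrank_range_add_finrank_ker (qm (Ideal.span {π}) (lv π))
  rw [qm_ker hπ, finrank_span_singleton, LinearMap.range_eq_top.2 (qm_surj hπ), finrank_top, finrank_Ln] at h1
  · omega
  · intro h
    exact hπ (congrArg Subtype.val h)

/-- the coordinate functions -/
def cx : CA s f := ⟨X, 0⟩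
/-- the coordinate functions -/
def cy : CA s f := ⟨0, 1⟩

omit hC in
theorem cy_sq : (cy : CA s f) * cy = kc s * (cx * cx) + kc f := by
  ext1
  · rw [QuadraticAlgebra.re_mul, QuadraticAlgebra.re_add, QuadraticAlgebra.re_mul, QuadraticAlgebra.re_mul]
    change (0 : F[X]) * 0 + (C s * X ^ 2 + C f) * 1 * 1 = C s * (X * X + (C s * X ^ 2 + C f) * 0 * 0) +
      (C s * X ^ 2 + C f) * 0 * _ + C f
    ring
  · simp [cy, cx, kc]

/-- every maximal ideal is principal -/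
theorem exists_gen {𝔪 : Ideal (CA s f)} (hm : 𝔪.IsMaximal) {π : CA s f} (hπ : π ≠ 0) (hπm : π ∈ 𝔪) :
    ∃ ρ : CA s f, ρ ≠ 0 ∧ 𝔪 = Ideal.span {ρ} := by
  have hle : Ideal.span {π} ≤ 𝔪 := (Ideal.span_singleton_le_iff_mem 𝔪).2 hπm
  haveI := fd_quot hπ
  haveI : FiniteDimensional F (CA s f ⧸ 𝔪) :=
    Module.Finite.of_surjective (Ideal.Quotient.factorₐ F hle).toLinearMap (Ideal.Quotient.factor_surjective hle)
  obtain ⟨m, hm2⟩ : ∃ m, Module.finrank F (CA s f ⧸ 𝔪) = 2 * m ∨ Module.finrank F (CA s f ⧸ 𝔪) + 1 = 2 * m :=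
    ⟨(Module.finrank F (CA s f ⧸ 𝔪) + 1) / 2, by omega⟩
  have hker : LinearMap.ker (qm 𝔪 m) ≠ ⊥ := LinearMap.ker_ne_bot_of_finrank_lt (by
    rw [finrank_Ln]
    omega)
  obtain ⟨ρ, hρ, hρ0⟩ := (Submodule.ne_bot_iff _).1 hker
  rw [LinearMap.mem_ker, qm_apply, Ideal.Quotient.eq_zero_iff_mem] at hρ
  have hρ0' : ρ.1 ≠ 0 := fun h => hρ0 (Subtype.ext h)
  have hρm : lv ρ.1 ≤ m := ρ.2
  generalize ρ.1 = ρ at hρ hρ0' hρm
  have hle' : Ideal.span {ρ} ≤ 𝔪 := (Ideal.span_singleton_le_iff_mem 𝔪).2 hρ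
  haveI := fd_quot hρ0'
  let φ : (CA s f ⧸ Ideal.span {ρ}) →ₗ[F] (CA s f ⧸ 𝔪) := (Ideal.Quotient.factorₐ F hle').toLinearMap
  have hφ : Function.Surjective φ := Ideal.Quotient.factor_surjective hle'
  have h1 := LinearMap.finrank_range_add_finrank_ker φ
  rw [LinearMap.range_eq_top.2 hφ, finrank_top, finrank_quot hρ0'] at h1
  refine ⟨ρ, hρ0', ?_⟩
  have hφ0 : ∀ z : CA s f, z ∈ 𝔪 ↔ φ (Ideal.Quotient.mk _ z) = 0 := by
    intro z
    rw [← Ideal.Quotient.eq_zero_iff_mem]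
    rfl
  by_cases hk0 : LinearMap.ker φ = ⊥
  · refine le_antisymm ?_ hle'
    intro z hz
    have h2 : Ideal.Quotient.mk (Ideal.span {ρ}) z ∈ LinearMap.ker φ := LinearMap.mem_ker.2 ((hφ0 z).1 hz)
    rw [hk0, Submodule.mem_bot] at h2
    exact Ideal.Quotient.eq_zero_iff_mem.1 h2
  · exfalso
    have h2 : 0 < Module.finrank F (LinearMap.ker φ) := by
      rw [Nat.pos_iff_ne_zero]
      intro h0
      exact hk0 (Submodule.finrank_eq_zero.1 h0)
    have h3 : Module.finrank F (LinearMap.ker φ) = 1 := by omega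
    obtain ⟨v, hv0, hv⟩ := finrank_eq_one_iff'.1 h3
    have hmul : ∀ a : CA s f, ∃ c : F, Ideal.Quotient.mk (Ideal.span {ρ}) a * v.1 = c • v.1 := by
      intro a
      have hmem : Ideal.Quotient.mk (Ideal.span {ρ}) a * v.1 ∈ LinearMap.ker φ := by
        rw [LinearMap.mem_ker]
        have h4 : φ v.1 = 0 := v.2
        change (Ideal.Quotient.factorₐ F hle') _ = 0
        rw [map_mul]
        change _ * φ v.1 = 0
        rw [h4, mul_zero]
      obtain ⟨c, hc⟩ := hv ⟨_, hmem⟩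
      exact ⟨c, (congrArg Subtype.val hc).symm⟩
    obtain ⟨x₀, hx⟩ := hmul cx
    obtain ⟨y₀, hy⟩ := hmul cy
    have hkc : ∀ (c : F) (w : CA s f ⧸ Ideal.span {ρ}), Ideal.Quotient.mk (Ideal.span {ρ}) (kc c) * w = c • w := by
      intro c w
      rw [Algebra.smul_def]
      rfl
    have h5 : (y₀ ^ 2 - (s * x₀ ^ 2 + f)) • v.1 = 0 := by
      have h6 : Ideal.Quotient.mk (Ideal.span {ρ}) ((cy : CA s f) * cy) * v.1 =
          Ideal.Quotient.mk (Ideal.span {ρ}) (kc s * (cx * cx) + kc f) * v.1 := by rw [cy_sq]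
      rw [map_mul, map_add, map_mul, map_mul, mul_assoc, hy, mul_smul_comm, hy, add_mul, mul_assoc, hkc, hkc,
        mul_assoc, hx, mul_smul_comm, hx, smul_smul, smul_smul, smul_smul] at h6
      rw [sub_smul, add_smul, sub_eq_zero, sq y₀, show s * x₀ ^ 2 = s * x₀ * x₀ by ring]
      exact h6
    rcases smul_eq_zero.1 h5 with h6 | h6
    · exact hC.hpt x₀ y₀ (sub_eq_zero.1 h6)
    · exact hv0 (Subtype.ext h6)

theorem span_ne_top {π : CA s f} (hπ : π ≠ 0) (h1 : 1 ≤ lv π) : Ideal.span {π} ≠ ⊤ := by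
  intro h
  rw [Ideal.span_singleton_eq_top] at h
  have h2 : π ∣ 1 := isUnit_iff_dvd_one.1 h
  have h3 := dvd_lv one_ne_zero h2
  have h4 : lv (1 : CA s f) = 0 := by
    unfold lv
    simp [QuadraticAlgebra.re_one, QuadraticAlgebra.im_one]
  omega

theorem kc_unit {c : F} (hc : c ≠ 0) : IsUnit (kc c : CA s f) := by
  refine isUnit_iff_exists_inv.2 ⟨kc c⁻¹, ?_⟩
  ext1
  · simp [kc, ← C_mul, mul_inv_cancel₀ hc, QuadraticAlgebra.re_one]
  · simp [kc, QuadraticAlgebra.im_one]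

/-- a function of positive level is prime or a product of functions of smaller level -/
theorem prime_or {π : CA s f} (hπ : π ≠ 0) (h1 : 1 ≤ lv π) :
    (Ideal.span {π}).IsMaximal ∨ ∃ ρ ρ' : CA s f, ρ ≠ 0 ∧ ρ' ≠ 0 ∧ π = ρ * ρ' ∧ lv ρ < lv π ∧ lv ρ' < lv π := by
  obtain ⟨𝔪, hm, hle⟩ := Ideal.exists_le_maximal _ (span_ne_top hπ h1)
  obtain ⟨ρ, hρ0, hρ⟩ := exists_gen hm hπ ((Ideal.span_singleton_le_iff_mem 𝔪).1 hle)
  have hρ1 : 1 ≤ lv ρ := by
    by_contra hcon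
    obtain ⟨c, hc⟩ := lv_eq_zero (z := ρ) (by omega)
    apply hm.ne_top
    rw [hρ, Ideal.span_singleton_eq_top, hc]
    refine kc_unit ?_
    rintro rfl
    apply hρ0
    rw [hc]
    ext1
    · simp [kc]
    · simp [kc]
  rw [hρ, Ideal.span_singleton_le_span_singleton] at hle
  obtain ⟨ρ', hρ'⟩ := hle
  have hρ'0 : ρ' ≠ 0 := by
    rintro rfl
    rw [mul_zero] at hρ'
    exact hπ hρ'
  have hl := lv_mul hρ0 hρ'0
  rw [← hρ'] at hl
  by_cases h2 : lv ρ' = 0
  · left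
    obtain ⟨c, hc⟩ := lv_eq_zero h2
    have hc0 : c ≠ 0 := by
      rintro rfl
      apply hρ'0
      rw [hc]
      ext1
      · simp [kc]
      · simp [kc]
    have h3 : Ideal.span {π} = 𝔪 := by
      rw [hρ, hρ', hc, Ideal.span_singleton_mul_right_unit (kc_unit hc0)]
    rw [h3]
    exact hm
  · right
    exact ⟨ρ, ρ', hρ0, hρ'0, hρ', by omega, by omega⟩

/-- every residue class is a quotient of classes of functions of small level -/
theorem quot_rep {π : CA s f} (hπ : π ≠ 0) (h2 : 2 ≤ lv π) (hm : (Ideal.span {π}).IsMaximal)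
    (e : CA s f ⧸ Ideal.span {π}) : ∃ g h : CA s f, lv g ≤ lv π - 1 ∧ lv h ≤ 1 ∧ h ≠ 0 ∧
      Ideal.Quotient.mk _ g = e * Ideal.Quotient.mk _ h := by
  haveI := fd_quot hπ
  let φ : (Ln s f (lv π - 1) × Ln s f 1) →ₗ[F] (CA s f ⧸ Ideal.span {π}) :=
    (qm (Ideal.span {π}) (lv π - 1)).coprod (-((LinearMap.mulLeft F e).comp (qm (Ideal.span {π}) 1)))
  have hker : LinearMap.ker φ ≠ ⊥ := LinearMap.ker_ne_bot_of_finrank_lt (by
    rw [Module.finrank_prod, finrank_Ln, finrank_Ln, finrank_quot hπ]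
    omega)
  obtain ⟨⟨g, h⟩, hgh, h0⟩ := (Submodule.ne_bot_iff _).1 hker
  rw [LinearMap.mem_ker] at hgh
  have h3 : Ideal.Quotient.mk (Ideal.span {π}) g.1 = e * Ideal.Quotient.mk _ h.1 := by
    have h4 : φ (g, h) = Ideal.Quotient.mk (Ideal.span {π}) g.1 - e * Ideal.Quotient.mk _ h.1 := by
      rw [sub_eq_add_neg]
      rfl
    rw [h4] at hgh
    exact sub_eq_zero.1 hgh
  refine ⟨g.1, h.1, g.2, h.2, ?_, h3⟩
  intro hh
  rw [hh, map_zero, mul_zero, Ideal.Quotient.eq_zero_iff_mem, Ideal.mem_span_singleton] at h3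
  have hg0 : g.1 = 0 := by
    by_contra hg
    have h5 := dvd_lv hg h3
    have h6 : lv g.1 ≤ lv π - 1 := g.2
    omega
  exact h0 (Prod.ext (Subtype.ext hg0) (Subtype.ext hh))

theorem mk_ne_zero {π z : CA s f} (hz : z ≠ 0) (h : lv z < lv π) : Ideal.Quotient.mk (Ideal.span {π}) z ≠ 0 := by
  rw [Ne, Ideal.Quotient.eq_zero_iff_mem, Ideal.mem_span_singleton]
  intro h1
  have := dvd_lv hz h1
  omega

end

end Pool.Agent.H403.M
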