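import Mathlib
import Pool.Agent.H403.M.C2

/-! # The function field of an anisotropic conic and its completions (helper403) -/

set_option autoImplicit false
set_option linter.all false

noncomputable section

namespace Pool.Agent.H403.M

open Polynomial
open Pool.Agent.TH132.W Pool.Agent.Y64.Cyc Pool.Agent.Helper18.Br Pool.Agent.H552R3.SymBr

section

variable {F : Type} [Field F] {s f : F}

theorem CA_eq (z : CA s f) : z = algebraMap F[X] (CA s f) z.re + algebraMap F[X] (CA s f) z.im * cy := by
  ext1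
  · rw [QuadraticAlgebra.re_add, QuadraticAlgebra.re_mul]
    change z.re = z.re + (z.im * 0 + (C s * X ^ 2 + C f) * 0 * 1)
    ring
  · rw [QuadraticAlgebra.im_add, QuadraticAlgebra.im_mul]
    change z.im = 0 + (z.im * 1 + 0 * 0 + 0 * 0 * 1)
    ring

theorem hom_ext {M : Type} [CommRing M] {φ ψ : CA s f →+* M} (h1 : ∀ c, φ (kc c) = ψ (kc c)) (h2 : φ cx = ψ cx)
    (h3 : φ cy = ψ cy) : φ = ψ := by
  have h4 : φ.comp (algebraMap F[X] (CA s f)) = ψ.comp (algebraMap F[X] (CA s f)) :=
    Polynomial.ringHom_ext (fun c => h1 c) h2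
  ext z
  rw [CA_eq z, map_add, map_add, map_mul, map_mul, h3]
  have h5 := fun p : F[X] => DFunLike.congr_fun h4 p
  rw [show φ (algebraMap F[X] (CA s f) z.re) = ψ (algebraMap F[X] (CA s f) z.re) from h5 _,
    show φ (algebraMap F[X] (CA s f) z.im) = ψ (algebraMap F[X] (CA s f) z.im) from h5 _]

/-- evaluation at a point -/
def cev {M : Type} [CommRing M] (ψ : F[X] →+* M) (y : M) (h : y * y = ψ (C s * X ^ 2 + C f)) : CA s f →+* M :=
  letI : Algebra F[X] M := ψ.toAlgebra
  ((QuadraticAlgebra.lift (R := F[X]) (a := C s * X ^ 2 + C f) (b := 0) (A := M) ⟨y, by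
    rw [h, zero_smul, add_zero, Algebra.smul_def, mul_one]
    rfl⟩ : CA s f →ₐ[F[X]] M) : CA s f →+* M)

theorem cev_apply {M : Type} [CommRing M] (ψ : F[X] →+* M) (y : M) (h : y * y = ψ (C s * X ^ 2 + C f)) (z : CA s f) :
    cev ψ y h z = ψ z.re + ψ z.im * y := by
  letI : Algebra F[X] M := ψ.toAlgebra
  have h1 : cev ψ y h z = z.re • (1 : M) + z.im • y := by
    unfold cev
    exact QuadraticAlgebra.lift_apply_apply _ _
  rw [h1, Algebra.smul_def, Algebra.smul_def, mul_one]
  rfl

theorem cev_alg {M : Type} [CommRing M] (ψ : F[X] →+* M) (y : M) (h : y * y = ψ (C s * X ^ 2 + C f)) (p : F[X]) :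
    cev ψ y h (algebraMap F[X] (CA s f) p) = ψ p := by
  rw [cev_apply]
  change ψ p + ψ 0 * y = ψ p
  rw [map_zero, zero_mul, add_zero]

theorem cev_kc {M : Type} [CommRing M] (ψ : F[X] →+* M) (y : M) (h : y * y = ψ (C s * X ^ 2 + C f)) (c : F) :
    cev ψ y h (kc c) = ψ (C c) := cev_alg ψ y h (C c)

theorem cev_cx {M : Type} [CommRing M] (ψ : F[X] →+* M) (y : M) (h : y * y = ψ (C s * X ^ 2 + C f)) :
    cev ψ y h cx = ψ X := cev_alg ψ y h X

theorem cev_cy {M : Type} [CommRing M] (ψ : F[X] →+* M) (y : M) (h : y * y = ψ (C s * X ^ 2 + C f)) :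
    cev ψ y h cy = y := by
  rw [cev_apply]
  change ψ 0 + ψ 1 * y = y
  rw [map_zero, map_one, one_mul, zero_add]

theorem cev_injective [hC : Con s f] {M : Type} [CommRing M] (ψ : F[X] →+* M) (y : M)
    (h : y * y = ψ (C s * X ^ 2 + C f)) (hψ : Function.Injective ψ) : Function.Injective (cev ψ y h) := by
  rw [injective_iff_map_eq_zero]
  intro z hz
  by_contra hz0
  have h1 := norm_ne hC.hs hz0
  have h2 : ψ z.norm = 0 := by
    rw [← cev_alg ψ y h, QuadraticAlgebra.algebraMap_norm_eq_mul_star, map_mul, hz, zero_mul]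
  exact h1 ((map_eq_zero_iff ψ hψ).1 h2)

variable [hC : Con s f]

variable (s f) in
/-- the function field of the conic -/
abbrev CK : Type := FractionRing (CA s f)

/-- nonzero functions as units of the function field -/
def el (z : CA s f) (hz : z ≠ 0) : (CK s f)ˣ := Units.mk0 (algebraMap (CA s f) (CK s f) z)
  ((map_ne_zero_iff _ (IsFractionRing.injective (CA s f) (CK s f))).2 hz)

theorem el_mul (z w : CA s f) (hz : z ≠ 0) (hw : w ≠ 0) : el (z * w) (mul_ne_zero hz hw) = el z hz * el w hw := by
  ext1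
  exact map_mul _ _ _

variable (s f) in
/-- the constants of the function field -/
def ci : F →+* CK s f := (algebraMap (CA s f) (CK s f)).comp ((algebraMap F[X] (CA s f)).comp C)

theorem ci_apply (c : F) : ci s f c = algebraMap (CA s f) (CK s f) (kc c) := rfl

/-- extension of an injective map to the function field -/
def cj {M : Type} [Field M] (φ : CA s f →+* M) (h : Function.Injective φ) : CK s f →+* M :=
  IsFractionRing.lift (A := CA s f) (K := CK s f) h

theorem cj_alg {M : Type} [Field M] (φ : CA s f →+* M) (h : Function.Injective φ) (z : CA s f) :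
    cj φ h (algebraMap (CA s f) (CK s f) z) = φ z := IsFractionRing.lift_algebraMap _ _

theorem CK_hom_ext {M : Type} [Field M] {φ ψ : CK s f →+* M} (h1 : ∀ c, φ (ci s f c) = ψ (ci s f c))
    (h2 : φ (algebraMap _ _ (cx : CA s f)) = ψ (algebraMap _ _ (cx : CA s f)))
    (h3 : φ (algebraMap _ _ (cy : CA s f)) = ψ (algebraMap _ _ (cy : CA s f))) : φ = ψ := by
  apply IsLocalization.ringHom_ext (nonZeroDivisors (CA s f))
  exact hom_ext h1 h2 h3

/-- a place of higher degree -/
structure Pl (π : CA s f) : Prop where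
  hπ : π ≠ 0
  h2 : 2 ≤ lv π
  hm : (Ideal.span {π}).IsMaximal

variable (π : CA s f)

/-- the residue ring -/
abbrev kp : Type := CA s f ⧸ Ideal.span {π}

/-- the residue field -/
abbrev kpF (hp : Pl π) : Field (kp π) :=
  haveI := hp.hm
  Ideal.Quotient.field (Ideal.span {π})

omit hC in
/-- the constants in the residue ring -/
def ki : F →+* kp π := (Ideal.Quotient.mk (Ideal.span {π})).comp ((algebraMap F[X] (CA s f)).comp C)

variable {π}

theorem lv_cy : lv (cy : CA s f) = 1 := by
  unfold lv cy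
  simp

theorem cy_res_ne (hp : Pl π) : Ideal.Quotient.mk (Ideal.span {π}) cy ≠ 0 := by
  refine mk_ne_zero ?_ ?_
  · intro h
    have h1 : (cy : CA s f).im = 0 := by rw [h]; rfl
    exact one_ne_zero h1
  · rw [lv_cy]
    exact hp.h2

section emb

variable (κ : Type) [Field κ] (i : F →+* κ) (x₀ : κ)

omit hC in
/-- expansion of polynomials at a point -/
def pev : F[X] →+* PowerSeries κ :=
  (Polynomial.coeToPowerSeries.ringHom).comp ((Polynomial.compRingHom (C x₀ + X)).comp (Polynomial.mapRingHom i))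

omit hC in
theorem pev_apply (p : F[X]) : pev κ i x₀ p = (((p.map i).comp (C x₀ + X) : κ[X]) : PowerSeries κ) := rfl

omit hC in
theorem pev_inj : Function.Injective (pev κ i x₀) := by
  rw [injective_iff_map_eq_zero]
  intro p hp
  rw [pev_apply, Polynomial.coe_eq_zero_iff, Polynomial.comp_eq_zero_iff] at hp
  rcases hp with hp | ⟨_, hp⟩
  · exact (Polynomial.map_eq_zero i).1 hp
  · exfalso
    have h1 := congrArg (fun q => q.coeff 1) hp
    simp [Polynomial.coeff_C] at h1

omit hC in
theorem pev_const (p : F[X]) : PowerSeries.constantCoeff (pev κ i x₀ p) = (p.map i).eval x₀ := by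
  rw [pev_apply, ← PowerSeries.coeff_zero_eq_constantCoeff_apply, Polynomial.coeff_coe,
    Polynomial.coeff_zero_eq_eval_zero, Polynomial.eval_comp]
  simp

omit hC in
theorem pev_C (c : F) : pev κ i x₀ (C c) = PowerSeries.C (i c) := by
  rw [pev_apply, Polynomial.map_C, Polynomial.C_comp, Polynomial.coe_C]

omit hC in
theorem pev_X : pev κ i x₀ X = PowerSeries.C x₀ + PowerSeries.X := by
  rw [pev_apply, Polynomial.map_X, Polynomial.X_comp, Polynomial.coe_add, Polynomial.coe_C, Polynomial.coe_X]

/-- the order of vanishing of a minimal polynomial -/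
theorem pev_order (p : ℕ) [ExpChar F p] (h2 : (2 : F) ≠ 0) (m : F[X]) (hirr : Irreducible m)
    (hroot : (m.map i).eval x₀ = 0) : ∃ (q : ℕ) (g : PowerSeries κ), Odd q ∧ PowerSeries.constantCoeff g ≠ 0 ∧
      pev κ i x₀ m = PowerSeries.X ^ q * g := by
  obtain ⟨g, hg, r, hgr⟩ := hirr.hasSeparableContraction p
  haveI : ExpChar κ p := expChar_of_injective_ringHom i.injective p
  haveI : ExpChar κ[X] p := expChar_of_injective_ringHom (C_injective) p
  let q := p ^ r
  have hq : Odd q := by
    apply Odd.pow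
    rcases ‹ExpChar F p› with _ | hp
    · exact odd_one
    · refine hp.odd_of_ne_two ?_
      rintro rfl
      exact h2 (CharTwo.two_eq_zero)
  let a : κ := x₀ ^ q
  have h1 : (m.map i).comp (C x₀ + X) = (g.map i).comp (C a + X ^ q) := by
    rw [← hgr, Polynomial.map_expand, Polynomial.expand_eq_comp_X_pow, Polynomial.comp_assoc]
    congr 1
    rw [Polynomial.X_pow_comp, add_pow_expChar_pow, ← C_pow]
  have h3 : (g.map i).IsRoot a := by
    rw [← hgr, Polynomial.map_expand, Polynomial.expand_eval] at hroot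
    exact hroot
  obtain ⟨g₁, hg₁⟩ := dvd_iff_isRoot.2 h3
  have h4 : g₁.eval a ≠ 0 := by
    have hsep : (g.map i).Separable := hg.map
    have h5 := hsep.eval₂_derivative_ne_zero (RingHom.id κ) (x := a) (by
      rw [eval₂_id]
      exact h3)
    rw [eval₂_id, hg₁, derivative_mul] at h5
    intro h6
    apply h5
    simp [h6]
  refine ⟨q, (((g₁.comp (C a + X ^ q)) : κ[X]) : PowerSeries κ), hq, ?_, ?_⟩
  · rw [← PowerSeries.coeff_zero_eq_constantCoeff_apply, Polynomial.coeff_coe,
      Polynomial.coeff_zero_eq_eval_zero, Polynomial.eval_comp]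
    have hq0 : q ≠ 0 := by
      rintro h0
      rw [h0] at hq
      exact (Nat.not_odd_zero) hq
    simpa [hq0] using h4
  · rw [pev_apply, h1, hg₁, Polynomial.mul_comp, Polynomial.sub_comp, Polynomial.X_comp, Polynomial.C_comp,
      add_sub_cancel_left, Polynomial.coe_mul, Polynomial.coe_pow, Polynomial.coe_X]

end emb

section place

variable (hp : Pl π)

/-- the completion at a place of degree at least two -/
theorem exists_emb : letI := kpF π hp
    ∃ j : CK s f →+* LS (kp π), (∀ c : F, j (ci s f c) = cst (ki π c)) ∧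
      (∀ (z : CA s f) (hz : z ≠ 0) (hr : Ideal.Quotient.mk (Ideal.span {π}) z ≠ 0),
        od (um j (el z hz)) = 0 ∧ lc (um j (el z hz)) = Units.mk0 _ hr) ∧
      Odd (od (um j (el π hp.hπ))) := by
  letI := kpF π hp
  let κ := kp π
  let i : F →+* κ := ki π
  let ρ : CA s f →+* κ := Ideal.Quotient.mk (Ideal.span {π})
  let x₀ : κ := ρ cx
  let y₀ : κ := ρ cy
  have hy₀ : y₀ ≠ 0 := cy_res_ne hp
  have h2 : (2 : F) ≠ 0 := hC.h2
  have h2κ : (2 : κ) ≠ 0 := two_ne_map i h2
  have hxy : y₀ * y₀ = i s * (x₀ * x₀) + i f := by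
    change ρ cy * ρ cy = ρ (kc s) * (ρ cx * ρ cx) + ρ (kc f)
    rw [← map_mul, cy_sq, map_add, map_mul, map_mul]
  obtain ⟨r, hr, hr1⟩ := exists_sqrt h2κ (PowerSeries.C (y₀ ^ 2)⁻¹ * pev κ i x₀ (C s * X ^ 2 + C f)) (by
    rw [map_mul, PowerSeries.constantCoeff_C, pev_const]
    simp only [Polynomial.map_add, Polynomial.map_mul, Polynomial.map_C, Polynomial.map_pow, Polynomial.map_X,
      eval_add, eval_mul, eval_C, eval_pow, eval_X]
    rw [inv_mul_eq_one₀ (pow_ne_zero 2 hy₀)]
    linear_combination hxy)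
  let Y : PowerSeries κ := PowerSeries.C y₀ * r
  have hY : Y * Y = pev κ i x₀ (C s * X ^ 2 + C f) := by
    change (PowerSeries.C y₀ * r) * (PowerSeries.C y₀ * r) = _
    have h3 : (PowerSeries.C (y₀ ^ 2) : PowerSeries κ) * PowerSeries.C (y₀ ^ 2)⁻¹ = 1 := by
      rw [← map_mul, mul_inv_cancel₀ (pow_ne_zero 2 hy₀), map_one]
    have h4 : (PowerSeries.C (y₀ ^ 2) : PowerSeries κ) = PowerSeries.C y₀ * PowerSeries.C y₀ := by
      rw [← map_mul, ← sq]
    calc (PowerSeries.C y₀ * r) * (PowerSeries.C y₀ * r) = (PowerSeries.C y₀ * PowerSeries.C y₀) * r ^ 2 := by ring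
      _ = PowerSeries.C (y₀ ^ 2) * (PowerSeries.C (y₀ ^ 2)⁻¹ * pev κ i x₀ (C s * X ^ 2 + C f)) := by rw [hr, h4]
      _ = _ := by rw [← mul_assoc, h3, one_mul]
  let φ : CA s f →+* PowerSeries κ := cev (pev κ i x₀) Y hY
  have hφ : Function.Injective φ := cev_injective _ _ _ (pev_inj κ i x₀)
  have hφρ : (PowerSeries.constantCoeff).comp φ = ρ := by
    apply hom_ext
    · intro c
      change PowerSeries.constantCoeff (φ (kc c)) = ρ (kc c)
      change PowerSeries.constantCoeff (cev (pev κ i x₀) Y hY (kc c)) = ρ (kc c)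
      rw [cev_kc, pev_C, PowerSeries.constantCoeff_C]
      rfl
    · change PowerSeries.constantCoeff (cev (pev κ i x₀) Y hY cx) = ρ cx
      rw [cev_cx, pev_X, map_add, PowerSeries.constantCoeff_C, PowerSeries.constantCoeff_X, add_zero]
    · change PowerSeries.constantCoeff (cev (pev κ i x₀) Y hY cy) = ρ cy
      rw [cev_cy, map_mul, PowerSeries.constantCoeff_C, hr1, mul_one]
  let Φ : CA s f →+* LS κ := (oP (E := κ)).comp φ
  have hΦ : Function.Injective Φ := (HahnSeries.ofPowerSeries_injective).comp hφ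
  let j : CK s f →+* LS κ := cj Φ hΦ
  have hj : ∀ z : CA s f, j (algebraMap _ _ z) = oP (φ z) := fun z => cj_alg Φ hΦ z
  have hunit : ∀ (z : CA s f) (hz : z ≠ 0) (hr : ρ z ≠ 0),
      od (um j (el z hz)) = 0 ∧ lc (um j (el z hz)) = Units.mk0 _ hr := by
    intro z hz hr
    have h5 : PowerSeries.constantCoeff (φ z) = ρ z := DFunLike.congr_fun hφρ z
    have h6 := shape (a := um j (el z hz)) (n := 0) (g := φ z) (by
      rw [um_val]
      change j (algebraMap _ _ z) = _
      rw [hj]
      change _ = (1 : LS κ) * _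
      rw [one_mul]) (by rw [h5]; exact hr)
    refine ⟨h6.1, ?_⟩
    ext1
    rw [h6.2, h5]
    rfl
  refine ⟨j, ?_, hunit, ?_⟩
  · intro c
    rw [ci_apply, hj]
    change oP (cev (pev κ i x₀) Y hY (kc c)) = _
    rw [cev_kc, pev_C, HahnSeries.ofPowerSeries_C]
  · haveI := fd_quot hp.hπ
    have hint : IsIntegral F (x₀ : kp π) := IsIntegral.of_finite F _
    let m : F[X] := minpoly F (x₀ : kp π)
    have hirr : Irreducible m := minpoly.irreducible hint
    have hroot : (m.map i).eval x₀ = 0 := by
      rw [eval_map]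
      exact minpoly.aeval F (x₀ : kp π)
    haveI := ringExpChar.expChar F
    obtain ⟨q, g, hq, hg, hqg⟩ := pev_order κ i x₀ (ringExpChar F) h2 m hirr hroot
    let mA : CA s f := algebraMap F[X] (CA s f) m
    have hmA0 : mA ≠ 0 := by
      intro h
      exact hirr.ne_zero (congrArg QuadraticAlgebra.re h)
    have hφm : φ mA = PowerSeries.X ^ q * g := by
      change cev (pev κ i x₀) Y hY (algebraMap F[X] (CA s f) m) = _
      rw [cev_alg, hqg]
    have hodm : od (um j (el mA hmA0)) = q := by
      refine (shape (a := um j (el mA hmA0)) (n := q) (g := g) ?_ hg).1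
      rw [um_val]
      change j (algebraMap _ _ mA) = _
      rw [hj, hφm, map_mul, map_pow, HahnSeries.ofPowerSeries_X, HahnSeries.single_pow]
      simp
    have hfin : FiniteMultiplicity π mA := by
      refine ⟨lv mA, ?_⟩
      intro hdvd
      have h7 := dvd_lv hmA0 hdvd
      have h8 : ∀ k : ℕ, lv (π ^ k) = k * lv π := by
        intro k
        induction k with
        | zero =>
          rw [pow_zero, zero_mul]
          unfold lv
          simp [QuadraticAlgebra.re_one, QuadraticAlgebra.im_one]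
        | succ k ih =>
          rw [pow_succ, lv_mul (pow_ne_zero _ hp.hπ) hp.hπ, ih]
          ring
      rw [h8] at h7
      have h9 := hp.h2
      nlinarith
    obtain ⟨k, hk⟩ := hfin.exists_eq_pow_mul_and_not_dvd
    obtain ⟨hk1, hk2⟩ := hk
    have hk0 : k ≠ 0 := by
      rintro rfl
      rw [mul_zero] at hk1
      exact hmA0 hk1
    have hρk : ρ k ≠ 0 := by
      change Ideal.Quotient.mk (Ideal.span {π}) k ≠ 0
      rw [Ne, Ideal.Quotient.eq_zero_iff_mem, Ideal.mem_span_singleton]
      exact hk2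
    have h10 : el mA hmA0 = (el π hp.hπ) ^ (multiplicity π mA) * el k hk0 := by
      ext1
      rw [Units.val_mul, Units.val_pow_eq_pow_val]
      change algebraMap _ _ mA = (algebraMap _ _ π) ^ _ * algebraMap _ _ k
      conv_lhs => rw [hk1]
      rw [map_mul, map_pow]
    have h11 : od (um j (el mA hmA0)) = (multiplicity π mA) * od (um j (el π hp.hπ)) := by
      rw [h10, map_mul, od_mul, (hunit k hk0 hρk).1, add_zero, map_pow]
      generalize multiplicity π mA = N
      induction N with
      | zero => simp [od_one]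
      | succ N ih =>
        rw [pow_succ, od_mul, ih]
        push_cast
        ring
    rw [hodm] at h11
    have h12 : Odd ((multiplicity π mA : ℤ) * od (um j (el π hp.hπ))) := by
      rw [← h11]
      exact_mod_cast hq
    exact (Int.odd_mul.1 h12).2

end place

end

end Pool.Agent.H403.M
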