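import Mathlib
import Pool.Agent.H403.M.A2
import Pool.Agent.H403.M.C3

/-! # The function field of a conic inside a rational function field (helper403) -/

set_option autoImplicit false
set_option linter.all false

noncomputable section

namespace Pool.Agent.H403.M

open scoped TensorProduct
open Polynomial Pool.Agent.TH132.W Pool.Agent.Y64.Cyc Pool.Agent.Helper18.Br Pool.Agent.H552R3.SymBr

section hom0

variable {R k : Type} [Field R] [Field k]

/-- polynomials as rational functions -/
abbrev af (k : Type) [Field k] : k[X] →+* FF k := algebraMap k[X] (FF k)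

theorem af_inj : Function.Injective (af k) := IsFractionRing.injective k[X] (FF k)

theorem af_X_ne : af k X ≠ 0 := by
  rw [Ne, ← map_zero (af k)]
  exact fun h => X_ne_zero (af_inj h)

/-- evaluation at `w / X` -/
def hom0 (i : R →+* k) (w : k[X]) : R[X] →+* FF k :=
  eval₂RingHom ((af k).comp (C.comp i)) (af k w / af k X)

theorem hom0_C (i : R →+* k) (w : k[X]) (c : R) : hom0 i w (C c) = af k (C (i c)) := eval₂_C _ _
theorem hom0_X (i : R →+* k) (w : k[X]) : hom0 i w X = af k w / af k X := eval₂_X _ _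

theorem hom0_spec (i : R →+* k) (w : k[X]) (p : R[X]) :
    ∃ P : k[X], af k P = af k X ^ p.natDegree * hom0 i w p ∧
      P.coeff 0 = i p.leadingCoeff * w.coeff 0 ^ p.natDegree ∧ (w.natDegree = 0 → P.natDegree ≤ p.natDegree) := by
  refine ⟨∑ j ∈ Finset.range (p.natDegree + 1), C (i (p.coeff j)) * w ^ j * X ^ (p.natDegree - j), ?_, ?_, ?_⟩
  · unfold hom0
    rw [map_sum, coe_eval₂RingHom, eval₂_eq_sum_range, Finset.mul_sum]
    refine Finset.sum_congr rfl fun j hj => ?_
    have hj' : j ≤ p.natDegree := by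
      have := Finset.mem_range.1 hj
      omega
    rw [map_mul, map_mul, map_pow, map_pow, div_pow]
    have h1 : af k X ^ p.natDegree = af k X ^ (p.natDegree - j) * af k X ^ j := by
      rw [← pow_add, Nat.sub_add_cancel hj']
    rw [h1]
    have h2 : af k X ^ j ≠ 0 := pow_ne_zero _ af_X_ne
    have h3 : ((af k).comp (C.comp i)) (p.coeff j) = af k (C (i (p.coeff j))) := rfl
    rw [h3]
    field_simp
  · rw [finset_sum_coeff, Finset.sum_eq_single p.natDegree]
    · rw [Nat.sub_self, pow_zero, mul_one, coeff_zero_eq_eval_zero, eval_mul, eval_pow, eval_C,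
        ← coeff_zero_eq_eval_zero]
      rfl
    · intro j hj hne
      have hj' : j < p.natDegree := by
        have := Finset.mem_range.1 hj
        omega
      rw [coeff_zero_eq_eval_zero, eval_mul, eval_pow, eval_X, zero_pow (by omega), mul_zero]
    · intro h
      exact absurd (Finset.mem_range.2 (Nat.lt_succ_self _)) h
  · intro hw
    refine natDegree_sum_le_of_forall_le _ _ fun j hj => ?_
    have hj' : j ≤ p.natDegree := by
      have := Finset.mem_range.1 hj
      omega
    rw [eq_C_of_natDegree_eq_zero hw, ← C_pow, ← C_mul]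
    refine (natDegree_C_mul_X_pow_le _ _).trans ?_
    omega

theorem hom0_inj (i : R →+* k) (w : k[X]) (hw : w.coeff 0 ≠ 0) : Function.Injective (hom0 i w) := by
  rw [injective_iff_map_eq_zero]
  intro p hp
  obtain ⟨P, h1, h2, _⟩ := hom0_spec i w p
  rw [hp, mul_zero] at h1
  have h3 : P = 0 := af_inj (by rw [h1, map_zero])
  rw [h3, coeff_zero] at h2
  by_contra hne
  have h4 : i p.leadingCoeff ≠ 0 := by
    rw [Ne, _root_.map_eq_zero]
    exact leadingCoeff_ne_zero.2 hne
  exact mul_ne_zero h4 (pow_ne_zero _ hw) h2.symm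

end hom0

section sgt

variable {k : Type} [Field k] (bar : k →+* k) (hb : ∀ c, bar (bar c) = c) (f : k) (hf : f ≠ 0) (hbf : bar f = f)

theorem coeff_C_ne : (C f : k[X]).coeff 0 = f := coeff_C_zero

/-- the semilinear automorphism `X ↦ f / X` -/
def sgt : FF k →+* FF k :=
  IsFractionRing.lift (A := k[X]) (K := FF k) (g := hom0 bar (C f)) (hom0_inj bar (C f) (by rw [coeff_C_zero]; exact hf))

theorem sg_af (p : k[X]) : sgt bar f hf (af k p) = hom0 bar (C f) p := IsFractionRing.lift_algebraMap _ _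

theorem sg_C (c : k) : sgt bar f hf (af k (C c)) = af k (C (bar c)) := by rw [sg_af, hom0_C]

theorem sg_X : sgt bar f hf (af k X) = af k (C f) / af k X := by rw [sg_af, hom0_X]

include hb hbf in
theorem sg_sg (x : FF k) : sgt bar f hf (sgt bar f hf x) = x := by
  have h : (sgt bar f hf).comp (sgt bar f hf) = RingHom.id _ := by
    apply ff_ext
    intro p
    have h2 : ((sgt bar f hf).comp (sgt bar f hf)).comp (af k) = (af k) := by
      apply Polynomial.ringHom_ext
      · intro c
        rw [RingHom.comp_apply, RingHom.comp_apply, sg_C, sg_C, hb]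
      · rw [RingHom.comp_apply, RingHom.comp_apply, sg_X, map_div₀, sg_C, sg_X, hbf, div_div_cancel₀]
        rw [Ne, ← map_zero (af k)]
        exact fun h => hf (C_injective ((af_inj h).trans C_0.symm))
    exact RingHom.congr_fun h2 p
  exact RingHom.congr_fun h x

include hb hbf in
/-- elements whose twisted norm is a constant -/
theorem norm_const (z : FF k) (g : k) (hg : g ≠ 0) (h : z * sgt bar f hf z = af k (C g)) :
    ∃ (γ : k) (n m : ℕ), γ ≠ 0 ∧ g * (γ * bar γ) * f ^ n = f ^ m := by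
  have hz : z ≠ 0 := by
    rintro rfl
    rw [zero_mul] at h
    exact hg (C_injective ((af_inj ((map_zero (af k)).trans h)).symm.trans C_0.symm))
  obtain ⟨p, q, hpq, hq⟩ : ∃ p q : k[X], IsCoprime p q ∧ q ≠ 0 ∧ z = af k p / af k q := by
    obtain ⟨p, q, hrel, hz'⟩ := IsFractionRing.exists_reduced_fraction (A := k[X]) (K := FF k) z
    refine ⟨p, q, isRelPrime_iff_isCoprime.1 hrel, nonZeroDivisors.ne_zero q.2, ?_⟩
    rw [← hz', IsFractionRing.mk'_eq_div]
  obtain ⟨hq0, hzpq⟩ := hq
  have hp0 : p ≠ 0 := by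
    rintro rfl
    rw [map_zero, zero_div] at hzpq
    exact hz hzpq
  obtain ⟨a, ha, ha0⟩ := Polynomial.exists_eq_pow_rootMultiplicity_mul_and_not_dvd p hp0 0
  obtain ⟨b, hb', hb0⟩ := Polynomial.exists_eq_pow_rootMultiplicity_mul_and_not_dvd q hq0 0
  rw [C_0, sub_zero] at ha ha0 hb' hb0
  have ha1 : a.coeff 0 ≠ 0 := fun h => ha0 (X_dvd_iff.2 h)
  have hb1 : b.coeff 0 ≠ 0 := fun h => hb0 (X_dvd_iff.2 h)
  generalize rootMultiplicity 0 p = i at ha
  generalize rootMultiplicity 0 q = j at hb'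
  have hab : IsCoprime a b := by
    rw [ha, hb'] at hpq
    exact (hpq.of_mul_left_right).of_mul_right_right
  obtain ⟨a', e1, c1, d1⟩ := hom0_spec bar (C f) a
  obtain ⟨b', e2, c2, d2⟩ := hom0_spec bar (C f) b
  have ha'0 : a'.coeff 0 ≠ 0 := by
    rw [c1, coeff_C_zero]
    refine mul_ne_zero ?_ (pow_ne_zero _ hf)
    rw [Ne, _root_.map_eq_zero, leadingCoeff_eq_zero]
    rintro rfl
    exact ha1 (coeff_zero 0)
  have hb'0 : b'.coeff 0 ≠ 0 := by
    rw [c2, coeff_C_zero]
    refine mul_ne_zero ?_ (pow_ne_zero _ hf)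
    rw [Ne, _root_.map_eq_zero, leadingCoeff_eq_zero]
    rintro rfl
    exact hb1 (coeff_zero 0)
  have hXn : af k X ≠ 0 := af_X_ne
  have hane : ∀ {c : k[X]}, c.coeff 0 ≠ 0 → af k c ≠ 0 := by
    intro c hc h
    rw [← map_zero (af k)] at h
    rw [af_inj h, coeff_zero] at hc
    exact hc rfl
  have hCf : af k (C f) ≠ 0 := hane (by rw [coeff_C_zero]; exact hf)
  -- the main equation
  have key : C f ^ i * X ^ b.natDegree * (a * a') = C g * C f ^ j * X ^ a.natDegree * (b * b') := by
    apply af_inj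
    rw [hzpq, map_div₀, ha, hb', map_mul (af k), map_mul (af k), map_pow, map_pow, map_mul (sgt bar f hf),
      map_mul (sgt bar f hf), map_pow, map_pow, sg_X, sg_af, sg_af] at h
    have h1 := hane ha1
    have h2 := hane hb1
    have h3 := hane ha'0
    have h4 := hane hb'0
    have h5 : hom0 bar (C f) b ≠ 0 := by
      intro h0
      rw [h0, mul_zero] at e2
      exact h4 e2
    have h6 : ∀ n : ℕ, af k X ^ n * (af k (C f) / af k X) ^ n = af k (C f) ^ n := by
      intro n
      rw [← mul_pow, mul_div_cancel₀ _ hXn]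
    have h7 : af k X ^ j * af k b * ((af k (C f) / af k X) ^ j * hom0 bar (C f) b) ≠ 0 :=
      mul_ne_zero (mul_ne_zero (pow_ne_zero _ hXn) h2) (mul_ne_zero (pow_ne_zero _ (div_ne_zero hCf hXn)) h5)
    rw [div_mul_div_comm, div_eq_iff h7] at h
    have h8 : af k (C f) ^ i * (af k a * hom0 bar (C f) a) = af k (C g) * (af k (C f) ^ j * (af k b * hom0 bar (C f) b)) := by
      rw [← h6 i, ← h6 j]
      linear_combination h
    simp only [map_mul, map_pow]
    rw [e1, e2]
    linear_combination (af k X ^ a.natDegree * af k X ^ b.natDegree) * h8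
  have hdeg : a.natDegree = b.natDegree := by
    have hne1 : C f ^ i * (a * a') ≠ 0 := by
      refine mul_ne_zero (pow_ne_zero _ (C_ne_zero.2 hf)) (mul_ne_zero ?_ ?_)
      · rintro rfl; exact ha1 (coeff_zero 0)
      · intro h0; rw [h0] at ha'0; exact ha'0 (coeff_zero 0)
    have hne2 : C g * C f ^ j * (b * b') ≠ 0 := by
      refine mul_ne_zero (mul_ne_zero (C_ne_zero.2 hg) (pow_ne_zero _ (C_ne_zero.2 hf))) (mul_ne_zero ?_ ?_)
      · rintro rfl; exact hb1 (coeff_zero 0)
      · intro h0; rw [h0] at hb'0; exact hb'0 (coeff_zero 0)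
    have t1 : (C f ^ i * (a * a')).natTrailingDegree = 0 := by
      refine natTrailingDegree_eq_zero_of_constantCoeff_ne_zero ?_
      rw [constantCoeff_apply, ← C_pow, coeff_C_mul, mul_coeff_zero]
      exact mul_ne_zero (pow_ne_zero _ hf) (mul_ne_zero ha1 ha'0)
    have t2 : (C g * C f ^ j * (b * b')).natTrailingDegree = 0 := by
      refine natTrailingDegree_eq_zero_of_constantCoeff_ne_zero ?_
      rw [constantCoeff_apply, ← C_pow, ← C_mul, coeff_C_mul, mul_coeff_zero]
      exact mul_ne_zero (mul_ne_zero hg (pow_ne_zero _ hf)) (mul_ne_zero hb1 hb'0)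
    have k1 : C f ^ i * X ^ b.natDegree * (a * a') = (C f ^ i * (a * a')) * X ^ b.natDegree := by ring
    have k2 : C g * C f ^ j * X ^ a.natDegree * (b * b') = (C g * C f ^ j * (b * b')) * X ^ a.natDegree := by ring
    have k3 := congrArg natTrailingDegree key
    rw [k1, k2, natTrailingDegree_mul_X_pow hne1, natTrailingDegree_mul_X_pow hne2, t1, t2] at k3
    omega
  have key2 : C f ^ i * (a * a') = C g * C f ^ j * (b * b') := by
    have hX : (X : k[X]) ^ b.natDegree ≠ 0 := pow_ne_zero _ X_ne_zero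
    apply mul_left_cancel₀ hX
    rw [hdeg] at key
    linear_combination key
  have hunit : ∀ c : k, c ≠ 0 → IsUnit (C c : k[X]) := fun c hc => isUnit_C.2 (isUnit_iff_ne_zero.2 hc)
  have dvd1 : a ∣ b' := by
    have h1 : a ∣ (C g * C f ^ j) * (b * b') := ⟨C f ^ i * a', by rw [← key2]; ring⟩
    have h2 : a ∣ b * b' := by
      rw [← C_pow, ← C_mul] at h1
      exact (IsUnit.dvd_mul_left (hunit _ (mul_ne_zero hg (pow_ne_zero _ hf)))).1 h1
    exact hab.dvd_of_dvd_mul_left h2
  have dvd2 : b ∣ a' := by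
    have h1 : b ∣ C f ^ i * (a * a') := ⟨C g * C f ^ j * b', by rw [key2]; ring⟩
    have h2 : b ∣ a * a' := by
      rw [← C_pow] at h1
      exact (IsUnit.dvd_mul_left (hunit _ (pow_ne_zero _ hf))).1 h1
    exact hab.symm.dvd_of_dvd_mul_left h2
  have hb'ne : b' ≠ 0 := by rintro rfl; exact hb'0 (coeff_zero 0)
  have ha'ne : a' ≠ 0 := by rintro rfl; exact ha'0 (coeff_zero 0)
  have hcon : ∀ {c d : k[X]}, c ∣ d → d ≠ 0 → d.natDegree ≤ c.natDegree → ∃ γ : k, γ ≠ 0 ∧ d = C γ * c := by
    rintro c d ⟨e, rfl⟩ hd hle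
    have he : e ≠ 0 := right_ne_zero_of_mul hd
    rw [natDegree_mul (left_ne_zero_of_mul hd) he] at hle
    have h0 : e.natDegree = 0 := by omega
    rw [eq_C_of_natDegree_eq_zero h0]
    refine ⟨e.coeff 0, ?_, mul_comm _ _⟩
    intro h1
    apply he
    rw [eq_C_of_natDegree_eq_zero h0, h1, C_0]
  obtain ⟨γ, hγ, hbγ⟩ := hcon dvd1 hb'ne (by rw [hdeg]; exact d2 (natDegree_C f))
  obtain ⟨γ', hγ', haγ⟩ := hcon dvd2 ha'ne (by rw [← hdeg]; exact d1 (natDegree_C f))
  have r1 : f ^ i * γ' = g * f ^ j * γ := by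
    rw [hbγ, haγ] at key2
    have hane0 : a * b ≠ 0 := by
      refine mul_ne_zero ?_ ?_
      · rintro rfl; exact ha1 (coeff_zero 0)
      · rintro rfl; exact hb1 (coeff_zero 0)
    have : C (f ^ i * γ') = C (g * f ^ j * γ) := by
      apply mul_right_cancel₀ hane0
      simp only [C_mul, C_pow]
      linear_combination key2
    exact C_injective this
  have r2 : bar γ * γ' = f ^ b.natDegree := by
    have h1 : af k X ^ b.natDegree * hom0 bar (C f) b = af k (C γ) * af k a := by
      rw [← e2, hbγ, map_mul]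
    have h2 := congrArg (sgt bar f hf) h1
    rw [map_mul, map_mul, map_pow, sg_X, sg_C, ← sg_af bar f hf b, sg_sg bar hb f hf hbf, sg_af] at h2
    have h3 : af k X ^ a.natDegree * hom0 bar (C f) a = af k (C γ') * af k b := by
      rw [← e1, haγ, map_mul]
    have h4 : af k b ≠ 0 := hane hb1
    rw [hdeg] at h3
    have h5 : af k (C (bar γ * γ')) = af k (C (f ^ b.natDegree)) := by
      apply mul_right_cancel₀ h4
      rw [C_mul, map_mul, C_pow, map_pow, mul_assoc, ← h3]
      have h6 : af k X ^ b.natDegree * (af k (C f) / af k X) ^ b.natDegree = af k (C f) ^ b.natDegree := by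
        rw [← mul_pow, mul_div_cancel₀ _ hXn]
      rw [← h6]
      linear_combination (-(af k X ^ b.natDegree)) * h2
    exact C_injective (af_inj h5)
  refine ⟨γ, j, i + b.natDegree, hγ, ?_⟩
  rw [pow_add, ← r2]
  linear_combination (-(bar γ)) * r1

end sgt

section conic

variable {F : Type} [Field F] {k : Type} [Field k]

/-- the polynomial `(X² - f) / (2 √s)` -/
def wx (i : F →+* k) (r : k) (f : F) : k[X] := (X ^ 2 - C (i f)) * C (2 * r)⁻¹

theorem wx_coeff (i : F →+* k) (r : k) (f : F) : (wx i r f).coeff 0 = -(i f) * (2 * r)⁻¹ := by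
  unfold wx
  rw [coeff_mul_C, coeff_sub, coeff_X_pow, coeff_C_zero]
  simp

theorem r_ne (s f : F) [hC : Con s f] (i : F →+* k) (r : k) (hr : r ^ 2 = i s) : r ≠ 0 := by
  rintro rfl
  have h1 : i s = 0 := by rw [← hr]; ring
  exact s_ne_zero hC.hs ((_root_.map_eq_zero i).1 h1)

theorem two_ne_k (s f : F) [hC : Con s f] (i : F →+* k) : (2 : k) ≠ 0 := two_ne_map i hC.h2

theorem wx_ne (s f : F) [hC : Con s f] (i : F →+* k) (r : k) (hr : r ^ 2 = i s) : (wx i r f).coeff 0 ≠ 0 := by
  rw [wx_coeff]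
  refine mul_ne_zero (neg_ne_zero.2 ?_) (inv_ne_zero (mul_ne_zero (two_ne_k s f i) (r_ne s f i r hr)))
  rw [Ne, _root_.map_eq_zero]
  exact hC.hf

/-- the second coordinate -/
def yy (i : F →+* k) (f : F) : FF k := (af k X + af k (C (i f)) / af k X) * af k (C (2 : k)⁻¹)

theorem yy_sq (s f : F) [hC : Con s f] (i : F →+* k) (r : k) (hr : r ^ 2 = i s) :
    yy i f * yy i f = hom0 i (wx i r f) (C s * X ^ 2 + C f) := by
  rw [map_add, map_mul, map_pow, hom0_C, hom0_C, hom0_X, ← hr]
  unfold yy wx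
  have h1 : af k X ≠ 0 := af_X_ne
  have h2 : af k (C (2 : k)⁻¹) = (2 : FF k)⁻¹ := by
    have h3 : af k (C (2 : k)⁻¹) * 2 = 1 := by
      have : (2 : FF k) = af k (C 2) := by rw [map_ofNat, map_ofNat]
      rw [this, ← map_mul, ← C_mul, inv_mul_cancel₀ (two_ne_k s f i), C_1, map_one]
    exact eq_inv_of_mul_eq_one_left h3
  have h2' : (2 : FF k) ≠ 0 := by
    intro h
    have : (2 : FF k) = af k (C 2) := by rw [map_ofNat, map_ofNat]
    rw [this, ← map_zero (af k)] at h
    exact two_ne_k s f i (C_injective ((af_inj h).trans C_0.symm))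
  have h4 : af k (C (2 * r)⁻¹) * (2 * af k (C r)) = 1 := by
    have : (2 : FF k) = af k (C 2) := by rw [map_ofNat, map_ofNat]
    rw [this, ← map_mul, ← C_mul, ← map_mul, ← C_mul, inv_mul_cancel₀
      (mul_ne_zero (two_ne_k s f i) (r_ne s f i r hr)), C_1, map_one]
  have h5 : af k (C r) ≠ 0 := by
    intro h
    rw [h, mul_zero, mul_zero] at h4
    exact zero_ne_one h4
  have h6 : af k (C (2 * r)⁻¹) = (2 * af k (C r))⁻¹ := eq_inv_of_mul_eq_one_left h4
  rw [h2, map_mul (af k), h6, map_sub, map_pow (af k), C_pow, map_pow (af k)]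
  field_simp
  ring

/-- the conic function field in the rational function field over the splitting extension -/
def th (s f : F) [hC : Con s f] (i : F →+* k) (r : k) (hr : r ^ 2 = i s) : CK s f →+* FF k :=
  cj (cev (hom0 i (wx i r f)) (yy i f) (yy_sq s f i r hr)) (cev_injective _ _ _ (hom0_inj i _ (wx_ne s f i r hr)))

section

variable (s f : F) [hC : Con s f] (i : F →+* k) (r : k) (hr : r ^ 2 = i s)

theorem th_ci (c : F) : th s f i r hr (ci s f c) = af k (C (i c)) := by
  unfold th
  rw [ci_apply, cj_alg, cev_kc, hom0_C]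

theorem th_cx : th s f i r hr (algebraMap (CA s f) (CK s f) cx) = af k (wx i r f) / af k X := by
  unfold th
  rw [cj_alg, cev_cx, hom0_X]

theorem th_cy : th s f i r hr (algebraMap (CA s f) (CK s f) cy) = yy i f := by
  unfold th
  rw [cj_alg, cev_cy]

include hC in
theorem if_ne : i f ≠ 0 := by
  rw [Ne, _root_.map_eq_zero]
  exact hC.hf

variable (bar : k →+* k) (hbi : ∀ c, bar (i c) = i c) (hbr : bar r = - r)

include hbi hbr in
theorem sg_th (x : CK s f) : sgt bar (i f) (if_ne s f i) (th s f i r hr x) = th s f i r hr x := by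
  have h : (sgt bar (i f) (if_ne s f i)).comp (th s f i r hr) = th s f i r hr := by
    have h1 : af k X ≠ 0 := af_X_ne
    have h5 : af k (C (i f)) ≠ 0 := by
      rw [← map_zero (af k)]
      exact fun h => if_ne s f i (C_injective ((af_inj h).trans C_0.symm))
    apply CK_hom_ext
    · intro c
      rw [RingHom.comp_apply, th_ci, sg_C, hbi]
    · rw [RingHom.comp_apply, th_cx, map_div₀, sg_X]
      unfold wx
      rw [map_mul (af k), map_sub, map_pow, map_mul, map_sub, map_pow, sg_X, sg_C, sg_C, hbi, map_inv₀ bar,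
        map_mul bar, map_ofNat, hbr]
      have h6 : af k (C (2 * -r)⁻¹) = - af k (C (2 * r)⁻¹) := by
        rw [mul_neg, inv_neg, C_neg, map_neg]
      rw [h6]
      field_simp
      ring
    · rw [RingHom.comp_apply, th_cy]
      unfold yy
      rw [map_mul, map_add, map_div₀, sg_X, sg_C, sg_C, hbi, map_inv₀ bar, map_ofNat, div_div_cancel₀ h5, add_comm]
  exact RingHom.congr_fun h x

end

end conic

section amitsur

variable {F : Type} [Field F]

/-- constants in the rational function field -/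
abbrev cf (k : Type) [Field k] : k →+* FF k := (af k).comp C

theorem ev_cst (k : Type) [Field k] (c : k) : ev (0 : k) 1 one_ne_zero (cf k c) = cst c := by
  rw [RingHom.comp_apply, ev_algebraMap, evp_C, HahnSeries.ofPowerSeries_C]

/-- the Brauer group of a field injects in that of the rational function field -/
theorem rh_cf_inj {k : Type} [Field k] (x : BrauerGroup.{0, 0} k) (hx : rh (cf k) x = 1) : x = 1 :=
  rh_inj (cf k) (ev (0 : k) 1 one_ne_zero) (ev_cst k) x hx

theorem cf_inj {k : Type} [Field k] : Function.Injective (cf k) := (cf k).injective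

theorem qa_pow_cases {K : Type} [Field K] (h2 : (2 : K) ≠ 0) (a b : Kˣ) (n : ℕ) :
    qa h2 a (b ^ n) = 1 ∨ qa h2 a (b ^ n) = qa h2 a b := by
  rcases Nat.even_or_odd' n with ⟨m, rfl | rfl⟩
  · left
    rw [mul_comm, pow_mul]
    exact qa_sq_right h2 a (b ^ m)
  · right
    rw [pow_succ, mul_comm 2 m, pow_mul, qa_mul_right, qa_sq_right, one_mul]

/-- the square root of `s` is not in the function field of the conic -/
theorem s_nonsquare (s f : F) [hC : Con s f] {k : Type} [Field k] (i : F →+* k) (r : k) (hr : r ^ 2 = i s)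
    (bar : k →+* k) (hbi : ∀ c, bar (i c) = i c) (hbr : bar r = - r) (c : CK s f) : c ^ 2 ≠ ci s f s := by
  intro h
  have h1 : (th s f i r hr c) ^ 2 = (cf k r) ^ 2 := by
    rw [← map_pow, h, th_ci, ← hr, ← map_pow]
    rfl
  have h2 := sg_th s f i r hr bar hbi hbr c
  have hrn : cf k r ≠ 0 := by
    rw [Ne, _root_.map_eq_zero]
    exact r_ne s f i r hr
  have h2k : (2 : FF k) ≠ 0 := two_ne_map (cf k) (two_ne_k s f i)
  have h3 : sgt bar (i f) (if_ne s f i) (cf k r) = - cf k r := by
    rw [RingHom.comp_apply, sg_C, hbr, C_neg, map_neg]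
  rcases sq_eq_sq_iff_eq_or_eq_neg.1 h1 with h4 | h4
  · rw [h4, h3] at h2
    have : (2 : FF k) * cf k r = 0 := by linear_combination (-1 : FF k) * h2
    exact (mul_ne_zero h2k hrn) this
  · rw [h4, map_neg, h3] at h2
    have : (2 : FF k) * cf k r = 0 := by linear_combination h2
    exact (mul_ne_zero h2k hrn) this

/-- Amitsur's theorem for conics, general form -/
theorem amitsur_gen (s f : Fˣ) [hC : Con (s : F) (f : F)] {k : Type} [Field k] (i : F →+* k) (r : k)
    (hr : r ^ 2 = i (s : F)) (bar : k →+* k)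
    (hb : ∀ c, bar (bar c) = c) (hbi : ∀ c, bar (i c) = i c) (hbr : bar r = - r)
    (hnm : ∀ z : k, z ≠ 0 → ∃ A B : F, z * bar z = i (A ^ 2 - s * B ^ 2))
    (hker : ∀ x : BrauerGroup.{0, 0} F, rh i x = 1 → ∃ g : Fˣ, x = qa hC.h2 s g)
    (x : BrauerGroup.{0, 0} F) (hx : rh (ci (s : F) (f : F)) x = 1) : x = 1 ∨ x = qa hC.h2 s f := by
  have h1 : rh i x = 1 := by
    apply rh_cf_inj
    rw [rh_comp]
    have h2 : (cf k).comp i = (th (s : F) (f : F) i r hr).comp (ci (s : F) (f : F)) := by
      refine RingHom.ext fun c => ?_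
      exact (th_ci (s : F) (f : F) i r hr c).symm
    rw [h2, ← rh_comp, hx, map_one]
  obtain ⟨g, rfl⟩ := hker x h1
  have h2' : (2 : CK (s : F) (f : F)) ≠ 0 := two_ne_map (ci (s : F) (f : F)) hC.h2
  rw [rh_qa (ci (s : F) (f : F)) hC.h2 h2'] at hx
  obtain ⟨A, B, hAB⟩ := norm_of_qa h2' _ _ (fun c => s_nonsquare (s : F) (f : F) i r hr bar hbi hbr c) hx
  let z : FF k := th (s : F) (f : F) i r hr A + cf k r * th (s : F) (f : F) i r hr B
  have hz : z * sgt bar (i (f : F)) (if_ne (s : F) (f : F) i) z = af k (C (i (g : F))) := by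
    have h3 : sgt bar (i (f : F)) (if_ne (s : F) (f : F) i) z =
        th (s : F) (f : F) i r hr A - cf k r * th (s : F) (f : F) i r hr B := by
      change sgt bar (i (f : F)) (if_ne (s : F) (f : F) i)
        (th (s : F) (f : F) i r hr A + cf k r * th (s : F) (f : F) i r hr B) = _
      rw [map_add, map_mul, sg_th (s : F) (f : F) i r hr bar hbi hbr, sg_th (s : F) (f : F) i r hr bar hbi hbr,
        RingHom.comp_apply, sg_C, hbr, C_neg, map_neg]
      ring
    rw [h3]
    have h4 := congrArg (th (s : F) (f : F) i r hr) hAB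
    rw [um_val, um_val, map_sub, map_mul, map_pow, map_pow, th_ci, th_ci, ← hr] at h4
    rw [h4, C_pow, map_pow]
    change (th (s : F) (f : F) i r hr A + af k (C r) * th (s : F) (f : F) i r hr B) * _ = _
    change _ * (_ - af k (C r) * _) = _
    ring
  obtain ⟨γ, n, m, hγ, hg⟩ := norm_const bar hb (i (f : F)) (if_ne (s : F) (f : F) i) (hbi _) z (i (g : F)) (by
    rw [Ne, _root_.map_eq_zero]; exact g.ne_zero) hz
  obtain ⟨A', B', hN⟩ := hnm γ hγ
  rw [hN, ← map_mul, ← map_pow, ← map_mul, ← map_pow] at hg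
  have hg' := i.injective hg
  have hN0 : (A' ^ 2 - s * B' ^ 2 : F) ≠ 0 := by
    intro h0
    rw [h0, map_zero] at hN
    have hbg : bar γ ≠ 0 := by rw [Ne, _root_.map_eq_zero]; exact hγ
    exact mul_ne_zero hγ hbg hN
  have h5 : g * Units.mk0 _ hN0 * f ^ n = f ^ m := by
    ext1
    simp only [Units.val_mul, Units.val_mk0, Units.val_pow_eq_pow_val]
    exact hg'
  have h6 := congrArg (qa hC.h2 s) h5
  rw [qa_mul_right, qa_mul_right, qa_norm hC.h2 s (Units.mk0 _ hN0) A' B' rfl, mul_one] at h6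
  rcases qa_pow_cases hC.h2 s f n with h7 | h7 <;> rcases qa_pow_cases hC.h2 s f m with h8 | h8
  · left; rw [h7, h8, mul_one] at h6; exact h6
  · right; rw [h7, h8, mul_one] at h6; exact h6
  · right
    rw [h7, h8] at h6
    rw [eq_inv_of_mul_eq_one_left h6, qa_inv]
  · left
    rw [h7, h8] at h6
    exact mul_eq_right.1 h6

/-- Amitsur's theorem for conics -/
theorem amitsur (s f : Fˣ) [hC : Con (s : F) (f : F)] (x : BrauerGroup.{0, 0} F)
    (hx : rh (ci (s : F) (f : F)) x = 1) : x = 1 ∨ x = qa hC.h2 s f := by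
  letI := qf hC.hs
  refine amitsur_gen s f (algebraMap F (QE (s : F))) (rt (s : F)) (rt_sq _) (cj2 (s : F) : QE (s : F) →+* QE (s : F))
    cj2_cj2 (fun c => (cj2 (s : F)).commutes c) cj2_rt (fun z _ => ⟨z.re, z.im, mul_cj2 z⟩)
    (fun x hx => ker_QE hC.h2 s hC.hs x hx) x hx

/-- the square root of `s` is not in the function field of the conic -/
theorem s_nonsq (s f : F) [hC : Con s f] (c : CK s f) : c ^ 2 ≠ ci s f s := by
  letI := qf hC.hs
  exact s_nonsquare s f (algebraMap F (QE s)) (rt s) (rt_sq _) (cj2 s : QE s →+* QE s)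
    (fun c => (cj2 s).commutes c) cj2_rt c

/-- nonsquares remain nonsquares over the function field of the conic -/
theorem nonsq (s f : F) [hC : Con s f] (a : F) (ha : ∀ c : F, c ^ 2 ≠ a) (c : CK s f) : c ^ 2 ≠ ci s f a := by
  letI := qf hC.hs
  intro h
  have h1 : (th s f (algebraMap F (QE s)) (rt s) (rt_sq s) c) ^ 2 = cf (QE s) (algebraMap F (QE s) a) := by
    rw [← map_pow, h, th_ci]
    rfl
  have h2 : ∃ z : QE s, z ^ 2 = algebraMap F (QE s) a := by
    by_contra hcon
    push Not at hcon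
    refine nonsquare_C (algebraMap F (QE s) a) hcon (ev (0 : QE s) 1 one_ne_zero (th s f (algebraMap F (QE s)) (rt s) (rt_sq s) c)) ?_
    rw [← map_pow, h1, ev_cst]
  obtain ⟨z, hz⟩ := h2
  have h3 : z.re * z.im = 0 := by
    have h4 := congrArg QuadraticAlgebra.im hz
    rw [sq, QuadraticAlgebra.im_mul] at h4
    change _ = (0 : F) at h4
    have h5 : (2 : F) * (z.re * z.im) = 0 := by linear_combination h4
    exact (mul_eq_zero.1 h5).resolve_left hC.h2
  have h4 : z.re ^ 2 + s * z.im ^ 2 = a := by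
    have h4 := congrArg QuadraticAlgebra.re hz
    rw [sq, QuadraticAlgebra.re_mul] at h4
    change _ = a at h4
    rw [← h4]
    ring
  rcases mul_eq_zero.1 h3 with h5 | h5
  · by_cases h6 : z.im = 0
    · rw [h5, h6] at h4
      exact ha 0 (by rw [← h4]; ring)
    · refine s_nonsq s f (c / ci s f z.im) ?_
      rw [div_pow, h, div_eq_iff (pow_ne_zero _ (by rw [Ne, _root_.map_eq_zero]; exact h6)), ← map_pow, ← map_mul, ← h4, h5]
      congr 1
      ring
  · rw [h5] at h4
    exact ha z.re (by rw [← h4]; ring)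

/-- a nonsplit quaternion algebra gives a conic without points -/
theorem con_of_ne (h2 : (2 : F) ≠ 0) (s f : Fˣ) (h : qa h2 s f ≠ 1) : Con (s : F) (f : F) where
  h2 := h2
  hs c hc := by
    apply h
    have hc0 : c ≠ 0 := by
      rintro rfl
      exact s.ne_zero (by rw [← hc]; ring)
    have : s = 1 * (Units.mk0 c hc0) ^ 2 := by
      ext1
      rw [one_mul, Units.val_pow_eq_pow_val, Units.val_mk0, hc]
    rw [qa_left_eq h2 f this, qa_one_left]
  hf := f.ne_zero
  hpt x y hxy := h (qa_norm h2 s f y x (by rw [hxy]; ring))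

theorem qa_ne_of_con (s f : Fˣ) [hC : Con (s : F) (f : F)] : qa hC.h2 s f ≠ 1 := by
  intro h
  obtain ⟨A, B, hAB⟩ := norm_of_qa hC.h2 s f hC.hs h
  exact hC.hpt B A (by rw [hAB]; ring)

end amitsur

end Pool.Agent.H403.M
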