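import Mathlib
import Pool.Agent.H403.M.C3

/-! # The level filtration of `K₂` of the function field of a conic (helper403) -/

set_option autoImplicit false
set_option linter.all false

noncomputable section

namespace Pool.Agent.H403.M

open Polynomial
open Pool.Agent.TH132.W Pool.Agent.Y64.Cyc Pool.Agent.Helper18.Br Pool.Agent.H552R3.SymBr

section

variable {F : Type} [Field F] {s f : F} [hC : Con s f]

variable (s f) in
/-- products of functions of level at most `n` -/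
def Un (n : ℕ) : Subgroup (CK s f)ˣ := Subgroup.closure {u | ∃ (z : CA s f) (hz : z ≠ 0), lv z ≤ n ∧ u = el z hz}

variable (s f) in
/-- symbols of functions of level at most `n` -/
def Mn (n : ℕ) : AddSubgroup (MilnorK2 (CK s f)) :=
  AddSubgroup.closure {v | ∃ (z w : CA s f) (hz : z ≠ 0) (hw : w ≠ 0), lv z ≤ n ∧ lv w ≤ n ∧ v = sym (el z hz) (el w hw)}

theorem el_mem {n : ℕ} {z : CA s f} (hz : z ≠ 0) (h : lv z ≤ n) : el z hz ∈ Un s f n :=
  Subgroup.subset_closure ⟨z, hz, h, rfl⟩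

theorem Un_mono {m n : ℕ} (h : m ≤ n) : Un s f m ≤ Un s f n := by
  unfold Un
  refine Subgroup.closure_mono ?_
  rintro u ⟨z, hz, hl, rfl⟩
  exact ⟨z, hz, hl.trans h, rfl⟩

theorem Mn_mono {m n : ℕ} (h : m ≤ n) : Mn s f m ≤ Mn s f n := by
  unfold Mn
  refine AddSubgroup.closure_mono ?_
  rintro u ⟨z, w, hz, hw, hl, hl', rfl⟩
  exact ⟨z, w, hz, hw, hl.trans h, hl'.trans h, rfl⟩

theorem sym_mem {n : ℕ} {a b : (CK s f)ˣ} (ha : a ∈ Un s f n) (hb : b ∈ Un s f n) : sym a b ∈ Mn s f n := by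
  induction ha using Subgroup.closure_induction with
  | mem x hx =>
    obtain ⟨z, hz, hl, rfl⟩ := hx
    induction hb using Subgroup.closure_induction with
    | mem y hy =>
      obtain ⟨w, hw, hl', rfl⟩ := hy
      exact AddSubgroup.subset_closure ⟨z, w, hz, hw, hl, hl', rfl⟩
    | one => rw [sym_one_right]; exact zero_mem _
    | mul x y _ _ hx hy => rw [sym_mul_right]; exact add_mem hx hy
    | inv x _ hx => rw [sym_inv_right]; exact neg_mem hx
  | one => rw [sym_one_left]; exact zero_mem _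
  | mul x y _ _ hx hy => rw [sym_mul_left]; exact add_mem hx hy
  | inv x _ hx => rw [sym_inv_left]; exact neg_mem hx

theorem kc_ne {c : F} (hc : c ≠ 0) : (kc c : CA s f) ≠ 0 := (kc_unit hc).ne_zero

variable (s f) in
/-- constant units -/
def ku : Fˣ →* (CK s f)ˣ := um (ci s f)

theorem ku_eq (c : Fˣ) : ku s f c = el (kc (c : F)) (kc_ne c.ne_zero) := by
  ext1
  rfl

theorem ku_mem (c : Fˣ) (n : ℕ) : ku s f c ∈ Un s f n := by
  rw [ku_eq]
  exact el_mem _ (by rw [lv_kc]; omega)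

theorem neg_one_mem (n : ℕ) : (-1 : (CK s f)ˣ) ∈ Un s f n := by
  have : (-1 : (CK s f)ˣ) = ku s f (-1) := by
    ext1
    change (-1 : CK s f) = ci s f ((-1 : Fˣ) : F)
    rw [Units.val_neg, Units.val_one, map_neg, map_one]
  rw [this]
  exact ku_mem _ _

theorem unit_mem (a : (CK s f)ˣ) : ∃ n, a ∈ Un s f n := by
  obtain ⟨z, w, hw, h⟩ := IsFractionRing.div_surjective (A := CA s f) (a : CK s f)
  have hw0 : w ≠ 0 := nonZeroDivisors.ne_zero hw
  have hz0 : z ≠ 0 := by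
    rintro rfl
    rw [map_zero, zero_div] at h
    exact a.ne_zero h.symm
  have e : a = el z hz0 / el w hw0 := by
    ext1
    rw [Units.val_div_eq_div_val, ← h]
    rfl
  refine ⟨max (lv z) (lv w), ?_⟩
  rw [e]
  exact div_mem (el_mem _ (le_max_left _ _)) (el_mem _ (le_max_right _ _))

theorem Mn_top (v : MilnorK2 (CK s f)) : ∃ n, v ∈ Mn s f n := by
  induction v using k2_induction with
  | h0 => exact ⟨0, zero_mem _⟩
  | hs a b =>
    obtain ⟨n, hn⟩ := unit_mem a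
    obtain ⟨m, hm⟩ := unit_mem b
    exact ⟨max n m, sym_mem (Un_mono (le_max_left _ _) hn) (Un_mono (le_max_right _ _) hm)⟩
  | ha x y hx hy =>
    obtain ⟨n, hn⟩ := hx
    obtain ⟨m, hm⟩ := hy
    exact ⟨max n m, add_mem (Mn_mono (le_max_left _ _) hn) (Mn_mono (le_max_right _ _) hm)⟩

/-- the basic relation -/
theorem rel_mem {π : CA s f} (hπ : π ≠ 0) (h2 : 2 ≤ lv π) {a b : CA s f} (ha : a ≠ 0) (hb : b ≠ 0)
    (hua : el a ha ∈ Un s f (lv π - 1)) (hub : el b hb ∈ Un s f (lv π - 1))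
    (hla : lv a ≤ 2 * lv π - 1) (hlb : lv b ≤ 2 * lv π - 1)
    (h : Ideal.Quotient.mk (Ideal.span {π}) a = Ideal.Quotient.mk (Ideal.span {π}) b) :
    sym (el π hπ) (el a ha) - sym (el π hπ) (el b hb) ∈ Mn s f (lv π - 1) := by
  rw [← sym_div_right]
  rw [Ideal.Quotient.eq, Ideal.mem_span_singleton] at h
  obtain ⟨k, hk⟩ := h
  by_cases hk0 : k = 0
  · have : a = b := by
      rw [hk0, mul_zero] at hk
      exact sub_eq_zero.1 hk
    subst this
    rw [div_self', sym_one_right]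
    exact zero_mem _
  · have h3 : lv (π * k) ≤ 2 * lv π - 1 := by
      rw [← hk]
      exact lv_sub_le hla hlb
    rw [lv_mul hπ hk0] at h3
    have h4 : el k hk0 ∈ Un s f (lv π - 1) := el_mem _ (by omega)
    rw [sym_rel (el π hπ) (el k hk0) (el a ha) (el b hb) (by
      change algebraMap _ _ a - algebraMap _ _ b = algebraMap _ _ π * algebraMap _ _ k
      rw [← map_sub, hk, map_mul])]
    have h5 := div_mem hua hub
    exact add_mem (sub_mem (neg_mem (sym_mem (neg_one_mem _) h5)) (sym_mem h4 h5)) (sym_mem hub h5)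

/-- the multiplicative relation -/
theorem rel_mul {π : CA s f} (hπ : π ≠ 0) (h2 : 2 ≤ lv π) {g g' g'' h h' h'' : CA s f} (hg : g ≠ 0) (hg' : g' ≠ 0)
    (hg'' : g'' ≠ 0) (hh : h ≠ 0) (hh' : h' ≠ 0) (hh'' : h'' ≠ 0)
    (lg : lv g ≤ lv π - 1) (lg' : lv g' ≤ lv π - 1) (lg'' : lv g'' ≤ lv π - 1)
    (lh : lv h ≤ 1) (lh' : lv h' ≤ 1) (lh'' : lv h'' ≤ 1)
    (e : Ideal.Quotient.mk (Ideal.span {π}) (g * g' * h'') = Ideal.Quotient.mk (Ideal.span {π}) (g'' * h * h')) :
    (sym (el π hπ) (el g hg) - sym (el π hπ) (el h hh)) + (sym (el π hπ) (el g' hg') - sym (el π hπ) (el h' hh'))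
      - (sym (el π hπ) (el g'' hg'') - sym (el π hπ) (el h'' hh'')) ∈ Mn s f (lv π - 1) := by
  have n1 : g * g' * h'' ≠ 0 := mul_ne_zero (mul_ne_zero hg hg') hh''
  have n2 : g'' * h * h' ≠ 0 := mul_ne_zero (mul_ne_zero hg'' hh) hh'
  have e1 : el (g * g' * h'') n1 = el g hg * el g' hg' * el h'' hh'' := by
    rw [el_mul _ _ (mul_ne_zero hg hg') hh'', el_mul _ _ hg hg']
  have e2 : el (g'' * h * h') n2 = el g'' hg'' * el h hh * el h' hh' := by
    rw [el_mul _ _ (mul_ne_zero hg'' hh) hh', el_mul _ _ hg'' hh]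
  have m1 : ∀ (z : CA s f) (hz : z ≠ 0), lv z ≤ 1 → el z hz ∈ Un s f (lv π - 1) :=
    fun z hz h => el_mem hz (by omega)
  have l1 : lv (g * g' * h'') ≤ 2 * lv π - 1 := by
    rw [lv_mul (mul_ne_zero hg hg') hh'', lv_mul hg hg']
    omega
  have l2 : lv (g'' * h * h') ≤ 2 * lv π - 1 := by
    rw [lv_mul (mul_ne_zero hg'' hh) hh', lv_mul hg'' hh]
    omega
  have := rel_mem hπ h2 n1 n2 (by
    rw [e1]
    exact mul_mem (mul_mem (el_mem _ lg) (el_mem _ lg')) (m1 _ _ lh'')) (by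
    rw [e2]
    exact mul_mem (mul_mem (el_mem _ lg'') (m1 _ _ lh)) (m1 _ _ lh')) l1 l2 e
  rw [e1, e2, sym_mul_right, sym_mul_right, sym_mul_right, sym_mul_right] at this
  convert this using 1
  abel

theorem el_one (h : (1 : CA s f) ≠ 0) : el (1 : CA s f) h = 1 := by
  ext1
  exact map_one _

/-- the homomorphism from the residue field -/
theorem exists_psi {π : CA s f} (hp : Pl π) : letI := kpF π hp
    ∃ ψ : Additive (kp π)ˣ →+ (MilnorK2 (CK s f) ⧸ Mn s f (lv π - 1)),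
      ∀ (z : CA s f) (hz : z ≠ 0) (hr : Ideal.Quotient.mk (Ideal.span {π}) z ≠ 0), lv z ≤ lv π - 1 →
        ψ (Additive.ofMul (Units.mk0 _ hr)) = QuotientAddGroup.mk (sym (el π hp.hπ) (el z hz)) := by
  letI := kpF π hp
  have hex : ∀ e : (kp π)ˣ, ∃ (g h : CA s f) (hg : g ≠ 0) (hh : h ≠ 0), lv g ≤ lv π - 1 ∧ lv h ≤ 1 ∧
      Ideal.Quotient.mk (Ideal.span {π}) g = (e : kp π) * Ideal.Quotient.mk (Ideal.span {π}) h := by
    intro e
    obtain ⟨g, h, lg, lh, hh, he⟩ := quot_rep hp.hπ hp.h2 hp.hm (e : kp π)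
    refine ⟨g, h, ?_, hh, lg, lh, he⟩
    rintro rfl
    rw [map_zero] at he
    have h3 : Ideal.Quotient.mk (Ideal.span {π}) h ≠ 0 := mk_ne_zero hh (by have := hp.h2; omega)
    exact (mul_ne_zero e.ne_zero h3) he.symm
  choose g h hg hh lg lh he using hex
  let ψ₀ : (kp π)ˣ → MilnorK2 (CK s f) := fun e => sym (el π hp.hπ) (el (g e) (hg e)) - sym (el π hp.hπ) (el (h e) (hh e))
  let ψ : Additive (kp π)ˣ →+ (MilnorK2 (CK s f) ⧸ Mn s f (lv π - 1)) := AddMonoidHom.mk'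
    (fun e => QuotientAddGroup.mk (ψ₀ e.toMul)) (by
      intro a b
      change QuotientAddGroup.mk (ψ₀ (a.toMul * b.toMul)) = QuotientAddGroup.mk (ψ₀ a.toMul) + QuotientAddGroup.mk (ψ₀ b.toMul)
      generalize a.toMul = a
      generalize b.toMul = b
      rw [← QuotientAddGroup.mk_add]
      symm
      rw [QuotientAddGroup.eq_iff_sub_mem]
      refine rel_mul hp.hπ hp.h2 (hg a) (hg b) (hg (a * b)) (hh a) (hh b) (hh (a * b)) (lg a) (lg b) (lg (a * b))
        (lh a) (lh b) (lh (a * b)) ?_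
      rw [map_mul, map_mul, map_mul, map_mul, he a, he b, he (a * b), Units.val_mul]
      ring)
  refine ⟨ψ, ?_⟩
  intro z hz hr lz
  change QuotientAddGroup.mk (ψ₀ (Units.mk0 _ hr)) = _
  rw [QuotientAddGroup.eq_iff_sub_mem]
  have h1 : (1 : CA s f) ≠ 0 := one_ne_zero
  have l1 : lv (1 : CA s f) = 0 := by
    unfold lv
    simp [QuadraticAlgebra.re_one, QuadraticAlgebra.im_one]
  have h3 := rel_mul hp.hπ hp.h2 (hg (Units.mk0 _ hr)) h1 hz (hh (Units.mk0 _ hr)) h1 h1 (lg (Units.mk0 _ hr))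
    (by omega) lz (lh (Units.mk0 _ hr)) (by omega) (by omega) (by
      rw [map_mul, map_mul, map_mul, map_mul, he (Units.mk0 _ hr), Units.val_mk0, map_one]
      ring)
  rw [el_one h1, sym_one_right, sub_zero, sub_zero, add_zero] at h3
  exact h3

end

end Pool.Agent.H403.M
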