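import Mathlib
import Pool.Agent.H403.M.C4

/-! # Descent of the level modulo squares (helper403) -/

set_option autoImplicit false
set_option linter.all false

noncomputable section

namespace Pool.Agent.H403.M

open Polynomial
open Pool.Agent.TH132.W Pool.Agent.Y64.Cyc Pool.Agent.Helper18.Br Pool.Agent.H552R3.SymBr

section

variable {F : Type} [Field F] {s f : F} [hC : Con s f]

/-- a chosen generator -/
def gn (I : Ideal (CA s f)) : CA s f := by
  classical
  exact if h : ∃ ρ, I = Ideal.span {ρ} then h.choose else 0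

omit hC in
theorem gn_span (π : CA s f) : Ideal.span {π} = Ideal.span {gn (Ideal.span {π})} := by
  have h : ∃ ρ, Ideal.span {π} = Ideal.span {ρ} := ⟨π, rfl⟩
  unfold gn
  rw [dif_pos h]
  exact h.choose_spec

/-- normalized places of level `n` -/
structure Gd (n : ℕ) (π : CA s f) : Prop where
  hp : Pl π
  hn : lv π = n
  hg : gn (Ideal.span {π}) = π

theorem Gd.not_mem {n : ℕ} {π π' : CA s f} (h : Gd n π) (h' : Gd n π') (hne : π' ≠ π) :
    Ideal.Quotient.mk (Ideal.span {π}) π' ≠ 0 := by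
  rw [Ne, Ideal.Quotient.eq_zero_iff_mem]
  intro hm
  have hle : Ideal.span {π'} ≤ Ideal.span {π} := (Ideal.span_singleton_le_iff_mem _).2 hm
  have he : Ideal.span {π'} = Ideal.span {π} := h'.hp.hm.eq_of_le h.hp.hm.ne_top hle
  apply hne
  rw [← h'.hg, ← h.hg, he]

variable (s f) in
/-- the subgroup generated by lower level and some places -/
def Pn (n : ℕ) (S : Finset (CA s f)) : AddSubgroup (MilnorK2 (CK s f)) :=
  Mn s f (n - 1) ⊔ AddSubgroup.closure {v | ∃ (π : CA s f) (hπ : π ≠ 0) (u : (CK s f)ˣ), π ∈ S ∧ u ∈ Un s f (n - 1) ∧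
    v = sym (el π hπ) u}

theorem Pn_mono {n : ℕ} {S S' : Finset (CA s f)} (h : S ⊆ S') : Pn s f n S ≤ Pn s f n S' := by
  unfold Pn
  refine sup_le_sup le_rfl (AddSubgroup.closure_mono ?_)
  rintro v ⟨π, hπ, u, h1, h2, rfl⟩
  exact ⟨π, hπ, u, h h1, h2, rfl⟩

theorem Mn_le_Pn (n : ℕ) (S : Finset (CA s f)) : Mn s f (n - 1) ≤ Pn s f n S := le_sup_left

theorem sym_mem_Pn {n : ℕ} {S : Finset (CA s f)} {π : CA s f} (hπ : π ≠ 0) (hS : π ∈ S) {u : (CK s f)ˣ}
    (hu : u ∈ Un s f (n - 1)) : sym (el π hπ) u ∈ Pn s f n S :=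
  (le_sup_right : _ ≤ Pn s f n S) (AddSubgroup.subset_closure ⟨π, hπ, u, hS, hu, rfl⟩)

/-- functions of level `n` up to lower level -/
theorem el_cases {n : ℕ} (hn : 2 ≤ n) {z : CA s f} (hz : z ≠ 0) (h : lv z ≤ n) :
    el z hz ∈ Un s f (n - 1) ∨ ∃ (π : CA s f) (hπ : Gd n π) (c : (CK s f)ˣ), c ∈ Un s f (n - 1) ∧
      el z hz = c * el π hπ.hp.hπ := by
  rcases Nat.lt_or_ge (lv z) n with h1 | h1
  · left
    exact el_mem _ (by omega)
  · have hl : lv z = n := le_antisymm h h1
    rcases prime_or hz (by omega) with hm | ⟨ρ, ρ', h3, h4, h5, h6, h7⟩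
    · right
      let π := gn (Ideal.span {z})
      have hsp : Ideal.span {z} = Ideal.span {π} := gn_span z
      have h8 : π ∣ z := by
        rw [← Ideal.span_singleton_le_span_singleton, hsp]
      obtain ⟨c, hc⟩ := h8
      have hπ0 : π ≠ 0 := by
        intro h0
        rw [h0, zero_mul] at hc
        exact hz hc
      have hc0 : c ≠ 0 := by
        intro h0
        rw [h0, mul_zero] at hc
        exact hz hc
      have h9 : z ∣ π := by
        rw [← Ideal.span_singleton_le_span_singleton, hsp]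
      have h10 : lv π = n := by
        refine le_antisymm ?_ ?_
        · have := dvd_lv hz ⟨c, hc⟩
          omega
        · rw [← hl]
          exact dvd_lv hπ0 h9
      have h11 : lv c = 0 := by
        have := lv_mul hπ0 hc0
        rw [← hc] at this
        omega
      refine ⟨π, ⟨⟨hπ0, by omega, by rw [← hsp]; exact hm⟩, h10, by rw [← hsp]⟩, el c hc0, el_mem _ (by omega), ?_⟩
      rw [mul_comm (el c hc0), ← el_mul _ _ hπ0 hc0]
      congr 1
    · left
      have : el z hz = el ρ h3 * el ρ' h4 := by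
        rw [← el_mul _ _ h3 h4]
        congr 1
      rw [this]
      exact mul_mem (el_mem _ (by omega)) (el_mem _ (by omega))

/-- symbols of two places -/
theorem sym_places {n : ℕ} {π π' : CA s f} (h : Gd n π) (h' : Gd n π') {S : Finset (CA s f)} (hS : π ∈ S) (hS' : π' ∈ S) :
    sym (el π h.hp.hπ) (el π' h'.hp.hπ) ∈ Pn s f n S := by
  have hn2 : 2 ≤ n := by
    have := h.hp.h2
    rw [h.hn] at this
    exact this
  by_cases hne : π' = π
  · subst hne
    rw [sym_self]
    exact sym_mem_Pn _ hS (neg_one_mem _)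
  · have hr := h.not_mem h' hne
    letI := kpF π h.hp
    obtain ⟨g, k, lg, lk, hk, e⟩ := quot_rep h.hp.hπ h.hp.h2 h.hp.hm (Ideal.Quotient.mk _ π')
    have hk1 : Ideal.Quotient.mk (Ideal.span {π}) k ≠ 0 := mk_ne_zero hk (by rw [h.hn]; omega)
    have hg : g ≠ 0 := by
      rintro rfl
      rw [map_zero] at e
      exact (mul_ne_zero hr hk1) e.symm
    rw [← map_mul, Ideal.Quotient.eq, Ideal.mem_span_singleton] at e
    obtain ⟨q, hq⟩ := e
    have hgU : el g hg ∈ Un s f (n - 1) := el_mem _ (by rw [h.hn] at lg; exact lg)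
    have hkU : el k hk ∈ Un s f (n - 1) := el_mem _ (by omega)
    have n1 : π' * k ≠ 0 := mul_ne_zero h'.hp.hπ hk
    have e1 : el (π' * k) n1 = el π' h'.hp.hπ * el k hk := el_mul _ _ _ _
    by_cases hq0 : q = 0
    · have h3 : π' * k = g := by
        rw [hq0, mul_zero] at hq
        exact (sub_eq_zero.1 hq).symm
      have h4 : el π' h'.hp.hπ = el g hg / el k hk := by
        rw [eq_div_iff_mul_eq', ← el_mul _ _ h'.hp.hπ hk]
        congr 1
      rw [h4]
      exact sym_mem_Pn _ hS (div_mem hgU hkU)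
    · have h3 : lv (π * q) ≤ n + 1 := by
        rw [← hq]
        refine lv_sub_le (lg.trans (by rw [h.hn]; omega)) ?_
        rw [lv_mul h'.hp.hπ hk, h'.hn]
        omega
      rw [lv_mul h.hp.hπ hq0, h.hn] at h3
      have hqU : el q hq0 ∈ Un s f (n - 1) := el_mem _ (by omega)
      have h5 := sym_rel (el π h.hp.hπ) (el q hq0) (el g hg) (el (π' * k) n1) (by
        change algebraMap _ _ g - algebraMap _ _ (π' * k) = algebraMap _ _ π * algebraMap _ _ q
        rw [← map_sub, hq, map_mul])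
      rw [e1] at h5
      -- terms with `c` of small level
      have key : ∀ c ∈ Un s f (n - 1), sym c (el g hg / (el π' h'.hp.hπ * el k hk)) ∈ Pn s f n S := by
        intro c hc
        rw [sym_div_right, sym_mul_right, sym_swap c (el π' h'.hp.hπ)]
        exact sub_mem (Mn_le_Pn _ _ (sym_mem hc hgU)) (add_mem (neg_mem (sym_mem_Pn _ hS' hc))
          (Mn_le_Pn _ _ (sym_mem hc hkU)))
      have h6 : sym (el π' h'.hp.hπ) (el g hg / (el π' h'.hp.hπ * el k hk)) ∈ Pn s f n S := by
        rw [sym_div_right, sym_mul_right, sym_self]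
        exact sub_mem (sym_mem_Pn _ hS' hgU) (add_mem (sym_mem_Pn _ hS' (neg_one_mem _)) (sym_mem_Pn _ hS' hkU))
      have h7 : sym (el π h.hp.hπ) (el g hg / (el π' h'.hp.hπ * el k hk)) ∈ Pn s f n S := by
        rw [h5, sym_mul_left]
        exact add_mem (sub_mem (neg_mem (key _ (neg_one_mem _))) (key _ hqU)) (add_mem h6 (key _ hkU))
      rw [sym_div_right, sym_mul_right] at h7
      have h8 : sym (el π h.hp.hπ) (el g hg) ∈ Pn s f n S := sym_mem_Pn _ hS hgU
      have h9 : sym (el π h.hp.hπ) (el k hk) ∈ Pn s f n S := sym_mem_Pn _ hS hkU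
      have h10 := sub_mem (sub_mem h8 h7) h9
      convert h10 using 1
      abel

theorem mem_Pn_of_Mn {n : ℕ} (hn : 2 ≤ n) (v : MilnorK2 (CK s f)) (hv : v ∈ Mn s f n) :
    ∃ S : Finset (CA s f), (∀ π ∈ S, Gd n π) ∧ v ∈ Pn s f n S := by
  classical
  induction hv using AddSubgroup.closure_induction with
  | mem x hx =>
    obtain ⟨z, w, hz, hw, lz, lw, rfl⟩ := hx
    rcases el_cases hn hz lz with h1 | ⟨π, hπ, c, hc, h1⟩
    · rcases el_cases hn hw lw with h2 | ⟨π', hπ', c', hc', h2⟩
      · exact ⟨∅, by simp, Mn_le_Pn _ _ (sym_mem h1 h2)⟩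
      · refine ⟨{π'}, by simpa using hπ', ?_⟩
        rw [h2, sym_mul_right, sym_swap _ (el π' _)]
        exact add_mem (Mn_le_Pn _ _ (sym_mem h1 hc')) (neg_mem (sym_mem_Pn _ (by simp) h1))
    · rcases el_cases hn hw lw with h2 | ⟨π', hπ', c', hc', h2⟩
      · refine ⟨{π}, by simpa using hπ, ?_⟩
        rw [h1, sym_mul_left]
        exact add_mem (Mn_le_Pn _ _ (sym_mem hc h2)) (sym_mem_Pn _ (by simp) h2)
      · refine ⟨{π, π'}, ?_, ?_⟩
        · intro ρ hρ
          rw [Finset.mem_insert, Finset.mem_singleton] at hρ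
          rcases hρ with rfl | rfl
          · exact hπ
          · exact hπ'
        · rw [h1, h2, sym_mul_left, sym_mul_right, sym_mul_right, sym_swap c (el π' _)]
          exact add_mem (add_mem (Mn_le_Pn _ _ (sym_mem hc hc')) (neg_mem (sym_mem_Pn _ (by simp) hc)))
            (add_mem (sym_mem_Pn _ (by simp) hc') (sym_places hπ hπ' (by simp) (by simp)))
  | zero => exact ⟨∅, by simp, zero_mem _⟩
  | add x y _ _ hx hy =>
    obtain ⟨S, hS, hx⟩ := hx
    obtain ⟨S', hS', hy⟩ := hy
    refine ⟨S ∪ S', ?_, add_mem (Pn_mono Finset.subset_union_left hx) (Pn_mono Finset.subset_union_right hy)⟩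
    intro π hπ
    rcases Finset.mem_union.1 hπ with h | h
    · exact hS π h
    · exact hS' π h
  | neg x _ hx =>
    obtain ⟨S, hS, hx⟩ := hx
    exact ⟨S, hS, neg_mem hx⟩

/-- all residues are squares -/
def AllSq (v : MilnorK2 (CK s f)) : Prop :=
  ∀ (κ : Type) [Field κ] (i : F →+* κ) (j : CK s f →+* LS κ), (∀ c : F, j (ci s f c) = cst (i c)) →
    ∃ c : κˣ, (tL (km j v)).toMul = c ^ 2

theorem AllSq.sub_two {v : MilnorK2 (CK s f)} (h : AllSq v) (k : MilnorK2 (CK s f)) : AllSq (v - (k + k)) := by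
  intro κ _ i j hj
  obtain ⟨c, hc⟩ := h κ i j hj
  refine ⟨c / (tL (km j k)).toMul, ?_⟩
  rw [map_sub, map_sub, map_add, map_add, toMul_sub, toMul_add, hc, div_pow, sq (tL (km j k)).toMul]

theorem tm_units {κ : Type} [Field κ] {a b : (LS κ)ˣ} (ha : od a = 0) (hb : od b = 0) : tm a b = 1 := by
  unfold tm
  rw [ha, hb]
  simp

theorem sq_of_odd {G : Type} [CommGroup G] (x c : G) (e : ℤ) (h : (x ^ (2 * e + 1))⁻¹ = c ^ 2) : ∃ d, x = d * d := by
  refine ⟨c⁻¹ / x ^ e, ?_⟩
  rw [div_mul_div_comm, eq_div_iff_mul_eq', ← mul_inv, ← sq c, ← h, inv_inv, zpow_add, two_mul, zpow_add, zpow_one,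
    mul_comm]

/-- the key step -/
theorem level_step {n : ℕ} (hn : 2 ≤ n) (S : Finset (CA s f)) : (∀ π ∈ S, Gd n π) → ∀ v ∈ Pn s f n S, AllSq v →
    ∃ k, v - (k + k) ∈ Mn s f (n - 1) := by
  classical
  induction S using Finset.induction_on with
  | empty =>
    intro _ v hv _
    refine ⟨0, ?_⟩
    unfold Pn at hv
    have : {v | ∃ (π : CA s f) (hπ : π ≠ 0) (u : (CK s f)ˣ), π ∈ (∅ : Finset (CA s f)) ∧ u ∈ Un s f (n - 1) ∧
        v = sym (el π hπ) u} = ∅ := by
      ext x
      simp
    rw [this, AddSubgroup.closure_empty, sup_bot_eq] at hv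
    simpa using hv
  | insert π S hπS ih =>
    intro hS v hv hsq
    have hπ : Gd n π := hS π (Finset.mem_insert_self _ _)
    -- decomposition
    have hdec : ∃ w ∈ Pn s f n S, ∃ u ∈ Un s f (n - 1), v = w + sym (el π hπ.hp.hπ) u := by
      let R : AddSubgroup (MilnorK2 (CK s f)) :=
        { carrier := {x | ∃ w ∈ Pn s f n S, ∃ u ∈ Un s f (n - 1), x = w + sym (el π hπ.hp.hπ) u}
          zero_mem' := ⟨0, zero_mem _, 1, one_mem _, by rw [sym_one_right, add_zero]⟩
          add_mem' := by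
            rintro x y ⟨w, hw, u, hu, rfl⟩ ⟨w', hw', u', hu', rfl⟩
            refine ⟨w + w', add_mem hw hw', u * u', mul_mem hu hu', ?_⟩
            rw [sym_mul_right]
            abel
          neg_mem' := by
            rintro x ⟨w, hw, u, hu, rfl⟩
            refine ⟨-w, neg_mem hw, u⁻¹, inv_mem hu, ?_⟩
            rw [sym_inv_right]
            abel }
      have hle : Pn s f n (insert π S) ≤ R := by
        unfold Pn
        refine sup_le ?_ ?_
        · intro x hx
          exact ⟨x, Mn_le_Pn _ _ hx, 1, one_mem _, by rw [sym_one_right, add_zero]⟩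
        · rw [AddSubgroup.closure_le]
          rintro x ⟨ρ, hρ, u, hρS, hu, rfl⟩
          rcases Finset.mem_insert.1 hρS with h | h
          · subst h
            exact ⟨0, zero_mem _, u, hu, by rw [zero_add]⟩
          · exact ⟨sym (el ρ hρ) u, sym_mem_Pn _ h hu, 1, one_mem _, by rw [sym_one_right, add_zero]⟩
      exact hle hv
    obtain ⟨w, hw, u, hu, rfl⟩ := hdec
    letI := kpF π hπ.hp
    obtain ⟨j, hjc, hju, hjo⟩ := exists_emb hπ.hp
    obtain ⟨ψ, hψ⟩ := exists_psi hπ.hp
    have hlow : ∀ x ∈ Un s f (n - 1), od (um j x) = 0 ∧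
        ψ (Additive.ofMul (lc (um j x))) = QuotientAddGroup.mk (sym (el π hπ.hp.hπ) x) := by
      intro x hx
      induction hx using Subgroup.closure_induction with
      | mem x hx =>
        obtain ⟨z, hz, lz, rfl⟩ := hx
        have hr : Ideal.Quotient.mk (Ideal.span {π}) z ≠ 0 := mk_ne_zero hz (by rw [hπ.hn]; omega)
        obtain ⟨h1, h2⟩ := hju z hz hr
        refine ⟨h1, ?_⟩
        rw [h2]
        exact hψ z hz hr (by rw [hπ.hn]; exact lz)
      | one =>
        rw [map_one, od_one, lc_one, ofMul_one, map_zero, sym_one_right]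
        exact ⟨rfl, rfl⟩
      | mul x y _ _ hx hy =>
        rw [map_mul, od_mul, lc_mul, ofMul_mul, map_add, hx.2, hy.2, sym_mul_right, hx.1, hy.1]
        exact ⟨rfl, rfl⟩
      | inv x _ hx =>
        rw [map_inv, od_inv, lc_inv, ofMul_inv, map_neg, hx.2, sym_inv_right, hx.1]
        exact ⟨rfl, rfl⟩
    -- the residue of `w` is trivial
    have hw1 : tL (km j w) = 0 := by
      have hle : Pn s f n S ≤ (tL.comp (km j)).ker := by
        unfold Pn
        refine sup_le ?_ ?_
        · unfold Mn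
          rw [AddSubgroup.closure_le]
          rintro x ⟨z, z', hz, hz', lz, lz', rfl⟩
          change tL (km j (sym _ _)) = 0
          rw [km_sym, tL_sym, tm_units (hlow _ (el_mem hz lz)).1 (hlow _ (el_mem hz' lz')).1]
          rfl
        · rw [AddSubgroup.closure_le]
          rintro x ⟨ρ, hρ, y, hρS, hy, rfl⟩
          change tL (km j (sym _ _)) = 0
          have hρ' : Gd n ρ := hS ρ (Finset.mem_insert_of_mem hρS)
          have hne : ρ ≠ π := by
            rintro rfl
            exact hπS hρS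
          have hr := hπ.not_mem hρ' hne
          rw [km_sym, tL_sym, tm_units (hju ρ hρ hr).1 (hlow _ hy).1]
          rfl
      exact hle hw
    obtain ⟨c, hc⟩ := hsq (kp π) (ki π) j hjc
    rw [map_add, map_add, hw1, zero_add, km_sym, tL_sym, toMul_ofMul] at hc
    unfold tm at hc
    rw [(hlow u hu).1, mul_zero, zpow_zero, one_mul, zpow_zero, one_div] at hc
    obtain ⟨e, he⟩ := hjo
    have hsq' : ∃ d : (kp π)ˣ, lc (um j u) = d * d := by
      rw [he] at hc
      exact sq_of_odd _ _ _ hc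
    obtain ⟨d, hd⟩ := hsq'
    obtain ⟨k₀, hk₀⟩ := QuotientAddGroup.mk_surjective (ψ (Additive.ofMul d))
    have h5 : sym (el π hπ.hp.hπ) u - (k₀ + k₀) ∈ Mn s f (n - 1) := by
      have h6 := (hlow u hu).2
      rw [hd, ofMul_mul, map_add, ← hk₀, ← QuotientAddGroup.mk_add] at h6
      have h7 := QuotientAddGroup.eq_iff_sub_mem.1 h6.symm
      rw [hπ.hn] at h7
      exact h7
    obtain ⟨k, hk⟩ := ih (fun ρ hρ => hS ρ (Finset.mem_insert_of_mem hρ))
      (w + (sym (el π hπ.hp.hπ) u - (k₀ + k₀))) (add_mem hw (Mn_le_Pn _ _ h5)) (by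
        have := hsq.sub_two k₀
        rw [add_sub_assoc] at this
        exact this)
    refine ⟨k + k₀, ?_⟩
    convert hk using 1
    abel

/-- **filtration theorem**: an element with square residues is of level one modulo squares -/
theorem level_one (v : MilnorK2 (CK s f)) (hv : AllSq v) : ∃ k, v - (k + k) ∈ Mn s f 1 := by
  obtain ⟨n, hn⟩ := Mn_top v
  have key : ∀ n : ℕ, ∀ v ∈ Mn s f (n + 1), AllSq v → ∃ k, v - (k + k) ∈ Mn s f 1 := by
    intro n
    induction n with
    | zero => exact fun v hv _ => ⟨0, by simpa using hv⟩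
    | succ n ih =>
      intro v hv hsq
      obtain ⟨S, hS, hvS⟩ := mem_Pn_of_Mn (by omega) v hv
      obtain ⟨k, hk⟩ := level_step (by omega) S hS v hvS hsq
      obtain ⟨k', hk'⟩ := ih _ hk (hsq.sub_two k)
      refine ⟨k + k', ?_⟩
      convert hk' using 1
      abel
  exact key n v (Mn_mono (by omega) hn) hv

end

end Pool.Agent.H403.M
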