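import Mathlib
import Pool.Agent.H403.M.C5

/-! # The quaternion algebra of a conic and functions of level one (helper403) -/

set_option autoImplicit false
set_option linter.all false

noncomputable section

namespace Pool.Agent.H403.M

open Polynomial
open Pool.Agent.TH132.W Pool.Agent.Y64.Cyc Pool.Agent.Helper18.Br Pool.Agent.H552R3.SymBr

/-- the quaternion algebra `(s, f)` -/
abbrev Hq {F : Type} [Field F] (s f : F) : Type := QuaternionAlgebra F s 0 f

section

variable {F : Type} [Field F] {s f : F}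

/-- scalars -/
abbrev sc (c : F) : Hq s f := QuaternionAlgebra.coe c

/-- the reduced norm -/
def nm (a : Hq s f) : F := a.re ^ 2 - s * a.imI ^ 2 - f * a.imJ ^ 2 + s * f * a.imK ^ 2

theorem nm_mul (a b : Hq s f) : nm (a * b) = nm a * nm b := by
  unfold nm
  simp only [QuaternionAlgebra.re_mul, QuaternionAlgebra.imI_mul, QuaternionAlgebra.imJ_mul, QuaternionAlgebra.imK_mul]
  ring

theorem mul_star' (a : Hq s f) : a * star a = sc (nm a) := by
  ext <;> simp only [QuaternionAlgebra.re_mul, QuaternionAlgebra.imI_mul, QuaternionAlgebra.imJ_mul,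
    QuaternionAlgebra.imK_mul, QuaternionAlgebra.re_star, QuaternionAlgebra.imI_star, QuaternionAlgebra.imJ_star,
    QuaternionAlgebra.imK_star, QuaternionAlgebra.re_coe, QuaternionAlgebra.imI_coe, QuaternionAlgebra.imJ_coe,
    QuaternionAlgebra.imK_coe] <;> (try unfold nm) <;> ring

theorem star_mul' (a : Hq s f) : star a * a = sc (nm a) := by
  ext <;> simp only [QuaternionAlgebra.re_mul, QuaternionAlgebra.imI_mul, QuaternionAlgebra.imJ_mul,
    QuaternionAlgebra.imK_mul, QuaternionAlgebra.re_star, QuaternionAlgebra.imI_star, QuaternionAlgebra.imJ_star,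
    QuaternionAlgebra.imK_star, QuaternionAlgebra.re_coe, QuaternionAlgebra.imI_coe, QuaternionAlgebra.imJ_coe,
    QuaternionAlgebra.imK_coe] <;> (try unfold nm) <;> ring

theorem nm_sc (c : F) : nm (sc c : Hq s f) = c ^ 2 := by
  unfold nm
  simp

theorem nm_star (a : Hq s f) : nm (star a) = nm a := by
  unfold nm
  simp

theorem nm_one : nm (1 : Hq s f) = 1 := by
  unfold nm
  simp [QuaternionAlgebra.re_one, QuaternionAlgebra.imI_one, QuaternionAlgebra.imJ_one, QuaternionAlgebra.imK_one]

variable [hC : Con s f]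

theorem nm_ne {a : Hq s f} (ha : a ≠ 0) : nm a ≠ 0 := by
  intro h
  unfold nm at h
  have hs0 := s_ne_zero hC.hs
  by_cases hD : a.imJ * a.imJ - s * (a.imK * a.imK) = 0
  · obtain ⟨h1, h2⟩ := pair_zero hC.hs hD
    have h3 : a.re * a.re - s * (a.imI * a.imI) = 0 := by
      rw [h1, h2] at h
      linear_combination h
    obtain ⟨h4, h5⟩ := pair_zero hC.hs h3
    exact ha (by ext <;> assumption)
  · refine hC.hpt ((a.re * a.imK - a.imI * a.imJ) / (a.imJ * a.imJ - s * (a.imK * a.imK)))
      ((a.re * a.imJ - s * a.imI * a.imK) / (a.imJ * a.imJ - s * (a.imK * a.imK))) ?_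
    have hD2 : (a.imJ * a.imJ - s * (a.imK * a.imK)) ^ 2 ≠ 0 := pow_ne_zero 2 hD
    rw [div_pow, div_pow, ← mul_div_assoc, div_add' _ _ _ hD2, div_left_inj' hD2]
    linear_combination (a.imJ ^ 2 - s * a.imK ^ 2) * h

instance : DivisionRing (Hq s f) := DivisionRing.ofIsUnitOrEqZero (fun a => by
  by_cases ha : a = 0
  · exact Or.inr ha
  · left
    have h := nm_ne ha
    refine ⟨⟨a, sc (nm a)⁻¹ * star a, ?_, ?_⟩, rfl⟩
    · have e : a * (sc (nm a)⁻¹ * star a) = sc (nm a)⁻¹ * (a * star a) := by
        rw [← mul_assoc, ← QuaternionAlgebra.coe_commutes, mul_assoc]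
      rw [e, mul_star', ← QuaternionAlgebra.coe_mul, inv_mul_cancel₀ h, QuaternionAlgebra.coe_one]
    · rw [mul_assoc, star_mul', ← QuaternionAlgebra.coe_mul, inv_mul_cancel₀ h, QuaternionAlgebra.coe_one])

omit hC in
/-- the constants of the coordinate ring as a ring homomorphism -/
def kr : F →+* CA s f := (algebraMap F[X] (CA s f)).comp C

omit hC in
theorem kr_apply (c : F) : (kr c : CA s f) = kc c := rfl

/-- the function of level one attached to a quaternion -/
def lf (a : Hq s f) : CA s f := kr a.imI + kr a.imJ * cx - kr a.imK * cy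

omit hC in
theorem lf_eq (a : Hq s f) : lf a = ⟨C a.imI + C a.imJ * X, - C a.imK⟩ := by
  ext1
  · change C a.imI + (C a.imJ * X + (C s * X ^ 2 + C f) * 0 * 0) - (C a.imK * 0 + (C s * X ^ 2 + C f) * 0 * 1) = _
    ring
  · change (0 : F[X]) + (C a.imJ * 0 + 0 * X + 0 * 0 * 0) - (C a.imK * 1 + 0 * 0 + 0 * 0 * 1) = _
    ring

omit hC in
theorem lf_add (a b : Hq s f) : lf (a + b) = lf a + lf b := by
  unfold lf
  simp only [QuaternionAlgebra.imI_add, QuaternionAlgebra.imJ_add, QuaternionAlgebra.imK_add, map_add]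
  ring

omit hC in
theorem lf_sc (c : F) : lf (sc c : Hq s f) = 0 := by
  unfold lf
  simp

omit hC in
theorem lf_smul (c : F) (a : Hq s f) : lf (sc c * a) = kr c * lf a := by
  unfold lf
  rw [QuaternionAlgebra.coe_mul_eq_smul]
  simp only [QuaternionAlgebra.imI_smul, QuaternionAlgebra.imJ_smul, QuaternionAlgebra.imK_smul, smul_eq_mul, map_mul]
  ring

omit hC in
theorem lf_star (a : Hq s f) : lf (star a) = - lf a := by
  unfold lf
  simp only [QuaternionAlgebra.imI_star, QuaternionAlgebra.imJ_star, QuaternionAlgebra.imK_star, map_neg]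
  ring

omit hC in
/-- the fundamental identity -/
theorem lf_identity (a b c : Hq s f) :
    lf (a * b) * lf (b * c) - lf b * lf (a * b * c) = kr (nm b) * (lf a * lf c) := by
  have hy : (cy : CA s f) * cy = kr s * (cx * cx) + kr f := cy_sq
  unfold lf nm
  simp only [QuaternionAlgebra.re_mul, QuaternionAlgebra.imI_mul, QuaternionAlgebra.imJ_mul, QuaternionAlgebra.imK_mul,
    map_add, map_sub, map_mul, map_pow, map_zero]
  generalize (kr a.re : CA s f) = a0
  generalize (kr a.imI : CA s f) = a1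
  generalize (kr a.imJ : CA s f) = a2
  generalize (kr a.imK : CA s f) = a3
  generalize (kr b.re : CA s f) = b0
  generalize (kr b.imI : CA s f) = b1
  generalize (kr b.imJ : CA s f) = b2
  generalize (kr b.imK : CA s f) = b3
  generalize (kr c.re : CA s f) = c0
  generalize (kr c.imI : CA s f) = c1
  generalize (kr c.imJ : CA s f) = c2
  generalize (kr c.imK : CA s f) = c3
  generalize (kr s : CA s f) = s' at *
  generalize (kr f : CA s f) = f' at *
  generalize (cx : CA s f) = x at *
  generalize (cy : CA s f) = y at *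
  linear_combination ((a0 * b3 + a1 * b2 - a2 * b1 + a3 * b0) * (b0 * c3 + b1 * c2 - b2 * c1 + b3 * c0)
    - b3 * ((a0 * b0 + s' * a1 * b1 + f' * a2 * b2 - s' * f' * a3 * b3) * c3
      + (a0 * b1 + a1 * b0 - f' * a2 * b3 + f' * a3 * b2) * c2
      - (a0 * b2 + s' * a1 * b3 + a2 * b0 - s' * a3 * b1) * c1
      + (a0 * b3 + a1 * b2 - a2 * b1 + a3 * b0) * c0)
    - (b0 ^ 2 - s' * b1 ^ 2 - f' * b2 ^ 2 + s' * f' * b3 ^ 2) * (a3 * c3)) * hy

omit hC in
theorem lf_eq_zero {a : Hq s f} : lf a = 0 ↔ a = sc a.re := by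
  constructor
  · intro h
    rw [lf_eq] at h
    have h1 : C a.imI + C a.imJ * X = (0 : F[X]) := congrArg QuadraticAlgebra.re h
    have h2 : - C a.imK = (0 : F[X]) := congrArg QuadraticAlgebra.im h
    have h3 : a.imI = 0 := by
      have := congrArg (fun p => p.coeff 0) h1
      simpa using this
    have h4 : a.imJ = 0 := by
      have := congrArg (fun p => p.coeff 1) h1
      simpa [coeff_C] using this
    have h5 : a.imK = 0 := by
      have := congrArg (fun p => p.coeff 0) h2
      simpa using this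
    ext <;> simp [h3, h4, h5]
  · intro h
    rw [h]
    exact lf_sc _

omit hC in
theorem lf_level (a : Hq s f) : lv (lf a) ≤ 1 := by
  rw [lf_eq, lv_le]
  refine ⟨?_, ?_⟩
  · change (C a.imI + C a.imJ * X).natDegree ≤ 1
    rw [add_comm]
    exact natDegree_linear_le
  · change (X * (-C a.imK)).natDegree ≤ 1
    have : X * (-C a.imK) = C (-a.imK) * X ^ 1 := by
      rw [C_neg]
      ring
    rw [this]
    exact natDegree_C_mul_X_pow_le _ _

omit hC in
theorem level_one_eq {z : CA s f} (h : lv z ≤ 1) : ∃ a : Hq s f, a.re = 0 ∧ z = lf a := by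
  obtain ⟨h1, h2⟩ := lv_le.1 h
  obtain ⟨p, q, hpq⟩ := exists_eq_X_add_C_of_natDegree_le_one h1
  have h3 : z.im = C (z.im.coeff 0) := by
    apply eq_C_of_natDegree_le_zero
    by_cases hz : z.im = 0
    · rw [hz, natDegree_zero]
    · rw [natDegree_X_mul hz] at h2
      omega
  refine ⟨⟨0, q, p, - z.im.coeff 0⟩, rfl, ?_⟩
  rw [lf_eq]
  ext1
  · change z.re = C q + C p * X
    rw [hpq, add_comm]
  · change z.im = - C (- z.im.coeff 0)
    rw [C_neg, neg_neg]
    exact h3

end

end Pool.Agent.H403.M
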