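import Mathlib
import Pool.Agent.H403.M.H1

/-! # Points of degree two on a conic (helper403) -/

set_option autoImplicit false
set_option linter.all false

noncomputable section

namespace Pool.Agent.H403.M

open Polynomial
open Pool.Agent.TH132.W Pool.Agent.Y64.Cyc Pool.Agent.Helper18.Br Pool.Agent.H552R3.SymBr

section

variable {F : Type} [Field F] {s f : F} [hC : Con s f]

omit hC in
theorem sc_comm (c : F) (x : Hq s f) : sc c * x = x * sc c := QuaternionAlgebra.coe_commutes c x

theorem comm_iff (a b : Hq s f) : a * b = b * a ↔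
    a.imJ * b.imK - a.imK * b.imJ = 0 ∧ a.imI * b.imK - a.imK * b.imI = 0 ∧ a.imI * b.imJ - a.imJ * b.imI = 0 := by
  have h2 := hC.h2
  have hf := hC.hf
  have hs := s_ne_zero hC.hs
  constructor
  · intro h
    have h1 := congrArg QuaternionAlgebra.imI h
    have h3 := congrArg QuaternionAlgebra.imJ h
    have h4 := congrArg QuaternionAlgebra.imK h
    simp only [QuaternionAlgebra.imI_mul, QuaternionAlgebra.imJ_mul, QuaternionAlgebra.imK_mul] at h1 h3 h4
    refine ⟨?_, ?_, ?_⟩
    · have : 2 * f * (a.imJ * b.imK - a.imK * b.imJ) = 0 := by linear_combination -h1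
      exact (mul_eq_zero.1 this).resolve_left (mul_ne_zero h2 hf)
    · have : 2 * s * (a.imI * b.imK - a.imK * b.imI) = 0 := by linear_combination h3
      exact (mul_eq_zero.1 this).resolve_left (mul_ne_zero h2 hs)
    · have : 2 * (a.imI * b.imJ - a.imJ * b.imI) = 0 := by linear_combination h4
      exact (mul_eq_zero.1 this).resolve_left h2
  · rintro ⟨h1, h3, h4⟩
    ext
    · simp only [QuaternionAlgebra.re_mul]
      ring
    · simp only [QuaternionAlgebra.imI_mul]
      linear_combination (-2 * f) * h1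
    · simp only [QuaternionAlgebra.imJ_mul]
      linear_combination (2 * s) * h3
    · simp only [QuaternionAlgebra.imK_mul]
      linear_combination 2 * h4

theorem comm_span {a b : Hq s f} (hb : lf b ≠ 0) (h : a * b = b * a) : ∃ p q : F, a = sc p + sc q * b := by
  obtain ⟨h1, h2, h3⟩ := (comm_iff a b).1 h
  have key : ∀ q : F, a.imI = q * b.imI → a.imJ = q * b.imJ → a.imK = q * b.imK →
      a = sc (a.re - q * b.re) + sc q * b := by
    intro q e1 e2 e3
    rw [QuaternionAlgebra.coe_mul_eq_smul]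
    ext
    · simp
    · simp [e1]
    · simp [e2]
    · simp [e3]
  have hb' : b.imI ≠ 0 ∨ b.imJ ≠ 0 ∨ b.imK ≠ 0 := by
    by_contra hcon
    push Not at hcon
    apply hb
    rw [lf_eq_zero]
    ext <;> simp [hcon.1, hcon.2.1, hcon.2.2]
  rcases hb' with h4 | h4 | h4
  · refine ⟨_, a.imI / b.imI, key _ ?_ ?_ ?_⟩
    · field_simp
    · field_simp
      linear_combination -h3
    · field_simp
      linear_combination -h2
  · refine ⟨_, a.imJ / b.imJ, key _ ?_ ?_ ?_⟩
    · field_simp
      linear_combination h3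
    · field_simp
    · field_simp
      linear_combination -h1
  · refine ⟨_, a.imK / b.imK, key _ ?_ ?_ ?_⟩
    · field_simp
      linear_combination h2
    · field_simp
      linear_combination h1
    · field_simp

/-- the square of a pure quaternion -/
def dl (r : Hq s f) : F := s * r.imI ^ 2 + f * r.imJ ^ 2 - s * f * r.imK ^ 2

/-- pure nonzero quaternions -/
structure Pu (r : Hq s f) : Prop where
  re0 : r.re = 0
  ne0 : r ≠ 0

omit hC in
theorem Pu.sq {r : Hq s f} (h : Pu r) : r * r = sc (dl r) := by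
  have h0 := h.re0
  ext <;> simp only [QuaternionAlgebra.re_mul, QuaternionAlgebra.imI_mul, QuaternionAlgebra.imJ_mul,
    QuaternionAlgebra.imK_mul, QuaternionAlgebra.re_coe, QuaternionAlgebra.imI_coe, QuaternionAlgebra.imJ_coe,
    QuaternionAlgebra.imK_coe] <;> (try unfold dl) <;> rw [h0] <;> ring

theorem Pu.nonsq {r : Hq s f} (h : Pu r) (c : F) : c ^ 2 ≠ dl r := by
  intro hc
  have h1 : r + sc c ≠ 0 := by
    intro h2
    apply h.ne0
    have e1 := congrArg QuaternionAlgebra.imI h2
    have e2 := congrArg QuaternionAlgebra.imJ h2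
    have e3 := congrArg QuaternionAlgebra.imK h2
    simp at e1 e2 e3
    ext
    · rw [h.re0]; rfl
    · rw [e1]; rfl
    · rw [e2]; rfl
    · rw [e3]; rfl
  apply nm_ne h1
  unfold nm
  unfold dl at hc
  simp [h.re0]
  linear_combination hc

omit hC in
theorem Pu.lf_ne {r : Hq s f} (h : Pu r) : lf r ≠ 0 := by
  rw [Ne, lf_eq_zero]
  intro h1
  apply h.ne0
  rw [h1, h.re0]
  rfl

variable (r : Hq s f)

/-- the subfield generated by a pure quaternion -/
def eH (hr : Pu r) : QE (dl r) →+* Hq s f :=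
  ((QuadraticAlgebra.lift (R := F) (a := dl r) (b := 0) (A := Hq s f) ⟨r, by
    rw [hr.sq, zero_smul, add_zero, Algebra.smul_def, mul_one]
    rfl⟩ : QE (dl r) →ₐ[F] Hq s f) : QE (dl r) →+* Hq s f)

variable {r}

theorem eH_apply (hr : Pu r) (μ : QE (dl r)) : eH r hr μ = sc μ.re + sc μ.im * r := by
  have h1 : eH r hr μ = μ.re • (1 : Hq s f) + μ.im • r := by
    unfold eH
    exact QuadraticAlgebra.lift_apply_apply _ _
  rw [h1, QuaternionAlgebra.coe_mul_eq_smul]
  congr 1
  rw [Algebra.smul_def, mul_one]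
  rfl

theorem eH_comm (hr : Pu r) (μ : QE (dl r)) : eH r hr μ * r = r * eH r hr μ := by
  rw [eH_apply, add_mul, mul_add, sc_comm, mul_assoc, sc_comm, sc_comm, ← mul_assoc]

theorem eH_surj (hr : Pu r) {x : Hq s f} (h : x * r = r * x) : ∃ μ, eH r hr μ = x := by
  obtain ⟨p, q, hpq⟩ := comm_span hr.lf_ne h
  exact ⟨⟨p, q⟩, by rw [eH_apply, hpq]⟩

theorem eH_inj (hr : Pu r) : Function.Injective (eH r hr) := by
  haveI : Fact (∀ c : F, c ^ 2 ≠ dl r + 0 * c) := ⟨fun c => by rw [zero_mul, add_zero]; exact hr.nonsq c⟩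
  exact (eH r hr).injective

theorem eH_star (hr : Pu r) (μ : QE (dl r)) : eH r hr (star μ) = star (eH r hr μ) := by
  rw [eH_apply, eH_apply]
  have h0 := hr.re0
  rw [QuaternionAlgebra.coe_mul_eq_smul, QuaternionAlgebra.coe_mul_eq_smul]
  ext <;> simp [h0]

theorem eH_nm (hr : Pu r) (μ : QE (dl r)) : nm (eH r hr μ) = μ.norm := by
  rw [eH_apply, QuadraticAlgebra.norm_def, QuaternionAlgebra.coe_mul_eq_smul]
  have h0 := hr.re0
  unfold nm
  simp [h0]
  unfold dl
  ring

theorem eH_coe (hr : Pu r) (c : F) : eH r hr (algebraMap F _ c) = sc c := by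
  rw [eH_apply]
  change sc c + sc (0 : F) * r = sc c
  have h0 : (sc (0 : F) : Hq s f) = 0 := rfl
  rw [h0, zero_mul, add_zero]

end

end Pool.Agent.H403.M
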