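import Mathlib
import Pool.Agent.H403.M.H2

/-! # The completion at a point of degree two (helper403) -/

set_option autoImplicit false
set_option linter.all false

noncomputable section

namespace Pool.Agent.H403.M

open Polynomial
open Pool.Agent.TH132.W Pool.Agent.Y64.Cyc Pool.Agent.Helper18.Br Pool.Agent.H552R3.SymBr

section

variable {F : Type} [Field F] {s f : F} [hC : Con s f]

omit hC in
theorem sc_add (a b : F) : (sc (a + b) : Hq s f) = sc a + sc b := QuaternionAlgebra.coe_add a b
omit hC in
theorem sc_mul (a b : F) : (sc (a * b) : Hq s f) = sc a * sc b := QuaternionAlgebra.coe_mul a b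
omit hC in
theorem sc_neg (a : F) : (sc (-a) : Hq s f) = - sc a := QuaternionAlgebra.coe_neg a
omit hC in
theorem sc_sub (a b : F) : (sc (a - b) : Hq s f) = sc a - sc b := QuaternionAlgebra.coe_sub a b
omit hC in
theorem sc_one : (sc (1 : F) : Hq s f) = 1 := QuaternionAlgebra.coe_one
omit hC in
theorem sc_zero : (sc (0 : F) : Hq s f) = 0 := QuaternionAlgebra.coe_zero

section lt

variable {R : Type} [CommRing R]

/-- the quadratic polynomial attached to a matrix -/
def lt (t : R) (m : Matrix (Fin 2) (Fin 2) R) : R := m 1 0 + (m 1 1 - m 0 0) * t - m 0 1 * t ^ 2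

theorem lt_identity (t : R) (X Y Z : Matrix (Fin 2) (Fin 2) R) :
    lt t (X * Y) * lt t (Y * Z) - lt t Y * lt t (X * Y * Z) = Y.det * (lt t X * lt t Z) := by
  unfold lt
  simp only [Matrix.mul_apply, Fin.sum_univ_two, Matrix.det_fin_two]
  ring

end lt

variable {r : Hq s f} (hr : Pu r)

include hr in
theorem exists_anti : ∃ g : Hq s f, g ≠ 0 ∧ g * r = -(r * g) := by
  have hx : ∃ x : Hq s f, x * r ≠ r * x := by
    by_contra hcon
    push Not at hcon
    have h1 := (comm_iff _ _).1 (hcon ⟨0, 1, 0, 0⟩)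
    have h2 := (comm_iff _ _).1 (hcon ⟨0, 0, 1, 0⟩)
    simp at h1 h2
    apply hr.ne0
    ext
    · exact hr.re0
    · rw [h2.2]; rfl
    · rw [h1.2]; rfl
    · rw [h1.1]; rfl
  obtain ⟨x, hx⟩ := hx
  refine ⟨x * r - r * x, sub_ne_zero.2 hx, ?_⟩
  rw [sub_mul, mul_sub, mul_assoc, hr.sq, ← mul_assoc r r x, hr.sq, ← sc_comm, mul_assoc r x r]
  abel

theorem exists_dec : ∃ g : Hq s f, g * r = -(r * g) ∧ ∀ x : Hq s f, ∃! p : QE (dl r) × QE (dl r),
    x = eH r hr p.1 + g * eH r hr p.2 := by
  haveI : Fact (∀ c : F, c ^ 2 ≠ dl r + 0 * c) := ⟨fun c => by rw [zero_mul, add_zero]; exact hr.nonsq c⟩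
  have h2 := hC.h2
  obtain ⟨g, hg0, hg⟩ := exists_anti hr
  refine ⟨g, hg, ?_⟩
  let φ : (QE (dl r) × QE (dl r)) →ₗ[F] Hq s f :=
    { toFun := fun p => eH r hr p.1 + g * eH r hr p.2
      map_add' := by
        intro p q
        rw [Prod.fst_add, Prod.snd_add, map_add, map_add, mul_add]
        abel
      map_smul' := by
        intro c p
        rw [Prod.smul_fst, Prod.smul_snd, Algebra.smul_def, Algebra.smul_def, map_mul, map_mul, eH_coe, ← mul_assoc,
          ← sc_comm, mul_assoc, ← mul_add, QuaternionAlgebra.coe_mul_eq_smul]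
        rfl }
  have hφ : Function.Injective φ := by
    rw [injective_iff_map_eq_zero]
    rintro ⟨α, γ⟩ h
    change eH r hr α + g * eH r hr γ = 0 at h
    have hγ : γ = 0 := by
      by_contra hγ
      have h1 : g = eH r hr (-(α * γ⁻¹)) := by
        have h3 : (eH r hr α + g * eH r hr γ) * eH r hr γ⁻¹ = 0 := by rw [h, zero_mul]
        rw [add_mul, mul_assoc, ← map_mul, ← map_mul, mul_inv_cancel₀ hγ, map_one, mul_one] at h3
        rw [map_neg]
        exact eq_neg_of_add_eq_zero_right h3
      have h4 : g * r = r * g := by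
        rw [h1]
        exact eH_comm hr _
      rw [hg] at h4
      have h5 : sc (2 : F) * (r * g) = 0 := by
        have e : (sc (2 : F) : Hq s f) = 1 + 1 := by
          have : (2 : F) = 1 + 1 := by norm_num
          rw [this, sc_add, sc_one]
        rw [e, add_mul, one_mul]
        nth_rewrite 1 [← h4]
        exact neg_add_cancel _
      rcases mul_eq_zero.1 h5 with h6 | h6
      · have := congrArg QuaternionAlgebra.re h6
        exact h2 this
      · rcases mul_eq_zero.1 h6 with h7 | h7
        · exact hr.ne0 h7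
        · exact hg0 h7
    rw [hγ, map_zero, mul_zero, add_zero, map_eq_zero_iff _ (eH_inj hr)] at h
    rw [h, hγ]
    rfl
  have hfr : Module.finrank F (QE (dl r) × QE (dl r)) = Module.finrank F (Hq s f) := by
    rw [Module.finrank_prod, QuadraticAlgebra.finrank_eq_two, QuaternionAlgebra.finrank_eq_four]
  have hsurj := (LinearMap.injective_iff_surjective_of_finrank_eq_finrank hfr).1 hφ
  intro x
  obtain ⟨p, hp⟩ := hsurj x
  refine ⟨p, hp.symm, ?_⟩
  intro q hq
  apply hφ
  rw [hp]
  exact hq.symm

/-- the matrix representation diagonalizing the subfield -/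
theorem exists_mat : ∃ M : Hq s f →+* Matrix (Fin 2) (Fin 2) (QE (dl r)),
    (∀ μ, M (eH r hr μ) = !![μ, 0; 0, star μ]) ∧ (∀ x, M x 1 0 = 0 → x * r = r * x) := by
  haveI : Fact (∀ c : F, c ^ 2 ≠ dl r + 0 * c) := ⟨fun c => by rw [zero_mul, add_zero]; exact hr.nonsq c⟩
  obtain ⟨g, hg, hdec⟩ := exists_dec hr
  choose p hp hpu using hdec
  have huniq : ∀ (x : Hq s f) (α γ : QE (dl r)), x = eH r hr α + g * eH r hr γ → (p x).1 = α ∧ (p x).2 = γ := by
    intro x α γ h
    have := hpu x (α, γ) h
    rw [← this]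
    exact ⟨rfl, rfl⟩
  have hlin : ∀ (x y : Hq s f) (μ ν : QE (dl r)), (p (x * eH r hr μ + y * eH r hr ν)).1 = (p x).1 * μ + (p y).1 * ν ∧
      (p (x * eH r hr μ + y * eH r hr ν)).2 = (p x).2 * μ + (p y).2 * ν := by
    intro x y μ ν
    apply huniq
    have hx : x = eH r hr (p x).1 + g * eH r hr (p x).2 := hp x
    have hy : y = eH r hr (p y).1 + g * eH r hr (p y).2 := hp y
    conv_lhs => rw [hx, hy]
    rw [map_add, map_add, map_mul, map_mul, map_mul, map_mul]
    noncomm_ring
  have hmul : ∀ (x y : Hq s f), (p (x * y)).1 = (p x).1 * (p y).1 + (p (x * g)).1 * (p y).2 ∧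
      (p (x * y)).2 = (p x).2 * (p y).1 + (p (x * g)).2 * (p y).2 := by
    intro x y
    have hy : y = eH r hr (p y).1 + g * eH r hr (p y).2 := hp y
    have e : x * y = x * eH r hr (p y).1 + (x * g) * eH r hr (p y).2 := by
      conv_lhs => rw [hy]
      rw [mul_add, mul_assoc]
    rw [e]
    exact hlin _ _ _ _
  have hadd : ∀ (x y : Hq s f), (p (x + y)).1 = (p x).1 + (p y).1 ∧ (p (x + y)).2 = (p x).2 + (p y).2 := by
    intro x y
    have := hlin x y 1 1
    rw [map_one, mul_one, mul_one, mul_one, mul_one, mul_one, mul_one] at this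
    exact this
  have he : ∀ μ, (p (eH r hr μ)).1 = μ ∧ (p (eH r hr μ)).2 = 0 := by
    intro μ
    apply huniq
    rw [map_zero, mul_zero, add_zero]
  have heg : ∀ μ, (p (eH r hr μ * g)).1 = 0 ∧ (p (eH r hr μ * g)).2 = star μ := by
    intro μ
    apply huniq
    rw [map_zero, zero_add, eH_apply, eH_apply, add_mul, mul_add, sc_comm, mul_assoc (sc μ.im) r g]
    have e1 : r * g = -(g * r) := by rw [hg, neg_neg]
    rw [e1]
    have e2 : (star μ).re = μ.re := by simp
    have e3 : (star μ).im = - μ.im := by simp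
    rw [e2, e3, sc_neg, mul_neg, ← mul_assoc, sc_comm μ.im g, neg_mul, mul_neg, mul_assoc]
  let M₀ : Hq s f → Matrix (Fin 2) (Fin 2) (QE (dl r)) := fun x => !![(p x).1, (p (x * g)).1; (p x).2, (p (x * g)).2]
  have hM₀e : ∀ μ, M₀ (eH r hr μ) = !![μ, 0; 0, star μ] := by
    intro μ
    change !![(p (eH r hr μ)).1, (p (eH r hr μ * g)).1; (p (eH r hr μ)).2, (p (eH r hr μ * g)).2] = _
    rw [(he μ).1, (he μ).2, (heg μ).1, (heg μ).2]
  let M : Hq s f →+* Matrix (Fin 2) (Fin 2) (QE (dl r)) :=
    { toFun := M₀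
      map_one' := by
        rw [← (eH r hr).map_one, hM₀e, star_one]
        exact Matrix.one_fin_two.symm
      map_zero' := by
        rw [← (eH r hr).map_zero, hM₀e, star_zero]
        apply Matrix.ext
        intro i j
        fin_cases i <;> fin_cases j <;> rfl
      map_add' := by
        intro x y
        apply Matrix.ext
        intro i j
        fin_cases i <;> fin_cases j
        · exact (hadd x y).1
        · change (p ((x + y) * g)).1 = (p (x * g)).1 + (p (y * g)).1
          rw [add_mul]
          exact (hadd _ _).1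
        · exact (hadd x y).2
        · change (p ((x + y) * g)).2 = (p (x * g)).2 + (p (y * g)).2
          rw [add_mul]
          exact (hadd _ _).2
      map_mul' := by
        intro x y
        apply Matrix.ext
        intro i j
        rw [Matrix.mul_apply, Fin.sum_univ_two]
        fin_cases i <;> fin_cases j
        · exact (hmul x y).1
        · change (p (x * y * g)).1 = (p x).1 * (p (y * g)).1 + (p (x * g)).1 * (p (y * g)).2
          rw [mul_assoc]
          exact (hmul _ _).1
        · exact (hmul x y).2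
        · change (p (x * y * g)).2 = (p x).2 * (p (y * g)).1 + (p (x * g)).2 * (p (y * g)).2
          rw [mul_assoc]
          exact (hmul _ _).2 }
  refine ⟨M, hM₀e, ?_⟩
  intro x hx
  have hx' : (p x).2 = 0 := hx
  have h1 : x = eH r hr (p x).1 + g * eH r hr (p x).2 := hp x
  rw [hx', map_zero, mul_zero, add_zero] at h1
  rw [h1]
  exact eH_comm hr _

end

end Pool.Agent.H403.M
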