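import Mathlib
import Pool.Agent.H403.M.H3

/-! # The completion at a point of degree two, continued (helper403) -/

set_option autoImplicit false
set_option linter.all false

noncomputable section

namespace Pool.Agent.H403.M

open Polynomial
open Pool.Agent.TH132.W Pool.Agent.Y64.Cyc Pool.Agent.Helper18.Br Pool.Agent.H552R3.SymBr

section

variable {F : Type} [Field F] {s f : F}

/-- normal form of the pure part of a quaternion -/
def nrm (x : Hq s f) : Hq s f := by
  classical
  exact if x.imI ≠ 0 then ⟨0, 1, x.imJ / x.imI, x.imK / x.imI⟩ else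
    if x.imJ ≠ 0 then ⟨0, 0, 1, x.imK / x.imJ⟩ else ⟨0, 0, 0, 1⟩

theorem nrm_pu (x : Hq s f) : Pu (nrm x) := by
  unfold nrm
  split_ifs
  · exact ⟨rfl, fun h => one_ne_zero (congrArg QuaternionAlgebra.imI h)⟩
  · exact ⟨rfl, fun h => one_ne_zero (congrArg QuaternionAlgebra.imJ h)⟩
  · exact ⟨rfl, fun h => one_ne_zero (congrArg QuaternionAlgebra.imK h)⟩

theorem nc_iff {x : Hq s f} : lf x ≠ 0 ↔ x.imI ≠ 0 ∨ x.imJ ≠ 0 ∨ x.imK ≠ 0 := by
  rw [Ne, lf_eq_zero]
  constructor
  · intro h
    by_contra hcon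
    push Not at hcon
    apply h
    ext <;> simp [hcon.1, hcon.2.1, hcon.2.2]
  · intro h h1
    have h2 := congrArg QuaternionAlgebra.imI h1
    have h3 := congrArg QuaternionAlgebra.imJ h1
    have h4 := congrArg QuaternionAlgebra.imK h1
    simp at h2 h3 h4
    rcases h with h | h | h
    · exact h h2
    · exact h h3
    · exact h h4

theorem nrm_spec {x : Hq s f} (hx : lf x ≠ 0) : ∃ q : F, q ≠ 0 ∧ x = sc x.re + sc q * nrm x := by
  rw [nc_iff] at hx
  by_cases h1 : x.imI ≠ 0
  · refine ⟨x.imI, h1, ?_⟩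
    rw [QuaternionAlgebra.coe_mul_eq_smul]
    unfold nrm
    rw [if_pos h1]
    ext
    · simp
    · simp
    · simp; field_simp
    · simp; field_simp
  · by_cases h2 : x.imJ ≠ 0
    · refine ⟨x.imJ, h2, ?_⟩
      rw [QuaternionAlgebra.coe_mul_eq_smul]
      unfold nrm
      rw [if_neg h1, if_pos h2]
      push Not at h1
      ext
      · simp
      · simp [h1]
      · simp
      · simp; field_simp
    · push Not at h1 h2
      have h3 : x.imK ≠ 0 := by
        rcases hx with h | h | h
        · exact absurd h1 h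
        · exact absurd h2 h
        · exact h
      refine ⟨x.imK, h3, ?_⟩
      rw [QuaternionAlgebra.coe_mul_eq_smul]
      unfold nrm
      rw [if_neg (by simpa using h1), if_neg (by simpa using h2)]
      ext
      · simp
      · simp [h1]
      · simp [h2]
      · simp

theorem nrm_scale (p q : F) (hq : q ≠ 0) (x : Hq s f) (hx : lf x ≠ 0) : nrm (sc p + sc q * x) = nrm x := by
  rw [QuaternionAlgebra.coe_mul_eq_smul]
  have e1 : (sc p + q • x : Hq s f).imI = q * x.imI := by simp
  have e2 : (sc p + q • x : Hq s f).imJ = q * x.imJ := by simp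
  have e3 : (sc p + q • x : Hq s f).imK = q * x.imK := by simp
  unfold nrm
  rw [e1, e2, e3]
  by_cases h1 : x.imI = 0
  · by_cases h2 : x.imJ = 0
    · rw [if_neg (by simp [h1]), if_neg (by simp [h2]), if_neg (by simp [h1]), if_neg (by simp [h2])]
    · rw [if_neg (by simp [h1]), if_pos (mul_ne_zero hq h2), if_neg (by simp [h1]), if_pos h2, mul_div_mul_left _ _ hq]
  · rw [if_pos (mul_ne_zero hq h1), if_pos h1, mul_div_mul_left _ _ hq, mul_div_mul_left _ _ hq]

variable [hC : Con s f]

theorem nrm_comm {x : Hq s f} (hx : lf x ≠ 0) : x * nrm x = nrm x * x := by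
  obtain ⟨q, hq, h⟩ := nrm_spec hx
  have h1 : (sc x.re + sc q * nrm x) * nrm x = nrm x * (sc x.re + sc q * nrm x) := by
    rw [add_mul, mul_add, sc_comm, mul_assoc, ← mul_assoc (nrm x) (sc q), ← sc_comm q, mul_assoc]
  rw [← h] at h1
  exact h1

theorem nrm_eq {x y : Hq s f} (hx : lf x ≠ 0) (hy : lf y ≠ 0) (h : x * y = y * x) : nrm x = nrm y := by
  obtain ⟨p, q, hpq⟩ := comm_span hy h
  have hq : q ≠ 0 := by
    rintro rfl
    apply hx
    rw [hpq, sc_zero, zero_mul, add_zero, lf_sc]
  rw [hpq, nrm_scale p q hq y hy]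

theorem nrm_nrm {x : Hq s f} (hx : lf x ≠ 0) : nrm (nrm x) = nrm x :=
  (nrm_eq hx (nrm_pu x).lf_ne (nrm_comm hx)).symm

variable (s f) in
/-- points of degree two -/
structure Pt where
  /-- the quaternion -/
  r : Hq s f
  pu : Pu r
  nz : nrm r = r

/-- the point of a noncentral quaternion -/
def pt (x : Hq s f) (hx : lf x ≠ 0) : Pt s f := ⟨nrm x, nrm_pu x, nrm_nrm hx⟩

theorem pt_eq_iff {x : Hq s f} (hx : lf x ≠ 0) {p : Pt s f} : pt x hx = p ↔ x * p.r = p.r * x := by
  constructor
  · rintro rfl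
    exact nrm_comm hx
  · intro h
    have h1 : nrm x = p.r := (nrm_eq hx p.pu.lf_ne h).trans p.nz
    cases p
    simp only [pt, Pt.mk.injEq]
    exact h1

instance (p : Pt s f) : Fact (∀ c : F, c ^ 2 ≠ dl p.r + 0 * c) :=
  ⟨fun c => by rw [zero_mul, add_zero]; exact p.pu.nonsq c⟩

/-- the residue field -/
abbrev kq (p : Pt s f) : Type := QE (dl p.r)

/-- the residue field inside the quaternion algebra -/
abbrev ep (p : Pt s f) : kq p →+* Hq s f := eH p.r p.pu

variable (p : Pt s f)

/-- scalars in the residue field -/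
abbrev kk : F →+* kq p := algebraMap F (kq p)

/-- integral Laurent series have order zero -/
theorem od_integral {κ : Type} [Field κ] (i : F →+* κ) (V : (LS κ)ˣ)
    (h : letI := ((cst (κ := κ)).comp i).toAlgebra; IsIntegral F (V : LS κ)) (hV : 0 < od V) : False := by
  letI := ((cst (κ := κ)).comp i).toAlgebra
  obtain ⟨g, hg, hg0⟩ := exists_shape V
  obtain ⟨n, hn⟩ : ∃ n : ℕ, od V = (n + 1 : ℕ) := ⟨(od V - 1).toNat, by omega⟩
  have h1 : (V : LS κ) = oP (PowerSeries.X ^ (n + 1) * g) := by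
    rw [hg, hn, map_mul, map_pow, HahnSeries.ofPowerSeries_X, HahnSeries.single_pow]
    simp
  have h2 := minpoly.aeval F (V : LS κ)
  have h3 : oP (((minpoly F (V : LS κ))).eval₂ ((PowerSeries.C (R := κ)).comp i) (PowerSeries.X ^ (n + 1) * g)) =
      (0 : LS κ) := by
    rw [hom_eval₂, ← h1, ← h2]
    change eval₂ _ _ _ = eval₂ _ _ _
    congr 1
    ext1 c
    exact HahnSeries.ofPowerSeries_C _
  have h4 : ((minpoly F (V : LS κ))).eval₂ ((PowerSeries.C (R := κ)).comp i) (PowerSeries.X ^ (n + 1) * g) = 0 := by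
    apply HahnSeries.ofPowerSeries_injective (Γ := ℤ) (R := κ)
    rw [h3, map_zero]
  have h5 := congrArg PowerSeries.constantCoeff h4
  rw [hom_eval₂, map_zero, map_mul, map_pow, PowerSeries.constantCoeff_X, zero_pow (Nat.succ_ne_zero n), zero_mul,
    eval₂_at_zero] at h5
  have h6 : (minpoly F (V : LS κ)).coeff 0 = 0 := by
    have h7 : i ((minpoly F (V : LS κ)).coeff 0) = 0 := by
      rw [RingHom.comp_apply, RingHom.comp_apply, PowerSeries.constantCoeff_C] at h5
      exact h5
    exact (map_eq_zero i).1 h7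
  exact V.ne_zero ((minpoly.coeff_zero_eq_zero h).1 h6)

end

end Pool.Agent.H403.M
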