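import Mathlib
import Pool.Agent.H403.M.H4

/-! # The completion at a point of degree two: existence (helper403) -/

set_option autoImplicit false
set_option linter.all false

noncomputable section

namespace Pool.Agent.H403.M

open Polynomial
open Pool.Agent.TH132.W Pool.Agent.Y64.Cyc Pool.Agent.Helper18.Br Pool.Agent.H552R3.SymBr

section

variable {F : Type} [Field F] {s f : F} [hC : Con s f]

/-- the data of a completion -/
structure PtD (p : Pt s f) where
  /-- the embedding -/
  j : CK s f →+* LS (kq p)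
  /-- the residue of level one functions -/
  m : Hq s f → kq p
  /-- the denominator -/
  D : (LS (kq p))ˣ
  jc : ∀ c : F, j (ci s f c) = cst (kk p c)
  ju : ∀ (x : Hq s f) (hx : lf x ≠ 0), x * p.r ≠ p.r * x → ∃ h : m x ≠ 0,
    od (um j (el (lf x) hx) * D) = 0 ∧ lc (um j (el (lf x) hx) * D) = Units.mk0 (m x) h
  jn : ∀ (x : Hq s f) (hx : lf x ≠ 0), x * p.r = p.r * x → od (um j (el (lf x) hx) * D) = 1
  mr : ∀ (x : Hq s f) (μ : kq p), m (x * ep p μ) = m x * μ
  ml : ∀ (x : Hq s f) (μ : kq p), m (ep p μ * x) = star μ * m x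
  mst : ∀ (x : Hq s f), m (star x) = - m x

theorem exists_ptD (p : Pt s f) : Nonempty (PtD p) := by
  have h2 := hC.h2
  have h2κ : (2 : kq p) ≠ 0 := two_ne_map (kk p) h2
  obtain ⟨M, hMe, hM0⟩ := exists_mat p.pu
  let κ := kq p
  let R := PowerSeries κ
  let Mp : Hq s f → Matrix (Fin 2) (Fin 2) R := fun x => (M x).map PowerSeries.C
  have hMpm : ∀ x y, Mp (x * y) = Mp x * Mp y := by
    intro x y
    change (M (x * y)).map _ = (M x).map _ * (M y).map _
    rw [map_mul]
    exact Matrix.map_mul
  let L : Hq s f → R := fun x => lt (PowerSeries.X : R) (Mp x)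
  have hLdef : ∀ x, L x = PowerSeries.C (M x 1 0) + (PowerSeries.C (M x 1 1) - PowerSeries.C (M x 0 0)) * PowerSeries.X
      - PowerSeries.C (M x 0 1) * PowerSeries.X ^ 2 := fun x => rfl
  have hLadd : ∀ x y, L (x + y) = L x + L y := by
    intro x y
    rw [hLdef, hLdef, hLdef, map_add]
    simp only [Matrix.add_apply, map_add]
    ring
  have hMsc : ∀ c : F, M (sc c) = !![kk p c, 0; 0, kk p c] := by
    intro c
    have e : star (algebraMap F (QE (dl p.r)) c) = algebraMap F (QE (dl p.r)) c := by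
      ext <;> simp
    rw [← eH_coe p.pu c, hMe, e]
  have hLsc : ∀ c : F, L (sc c) = 0 := by
    intro c
    rw [hLdef, hMsc]
    simp
  have hLmul : ∀ (c : F) x, L (sc c * x) = PowerSeries.C (kk p c) * L x := by
    intro c x
    rw [hLdef, hLdef, map_mul, hMsc]
    simp only [Matrix.mul_apply, Fin.sum_univ_two]
    simp
    ring
  have hL0 : ∀ x, PowerSeries.constantCoeff (L x) = M x 1 0 := by
    intro x
    rw [hLdef]
    simp
  have hLe : ∀ μ, L (eH p.r p.pu μ) = PowerSeries.C (star μ - μ) * PowerSeries.X := by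
    intro μ
    rw [hLdef, hMe]
    simp
  have hLr : L p.r = PowerSeries.C (-2 * QuadraticAlgebra.omega) * PowerSeries.X := by
    have e : p.r = eH p.r p.pu QuadraticAlgebra.omega := by
      rw [eH_apply]
      change p.r = sc (0 : F) + sc (1 : F) * p.r
      rw [sc_zero, sc_one, one_mul, zero_add]
    have e2 : (star (QuadraticAlgebra.omega : kq p) - QuadraticAlgebra.omega) = -2 * QuadraticAlgebra.omega := by
      have e3 : star (QuadraticAlgebra.omega : kq p) = - QuadraticAlgebra.omega := by
        ext <;> simp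
      rw [e3]
      ring
    conv_lhs => rw [e]
    rw [hLe, e2]
  have hω : (-2 * QuadraticAlgebra.omega : kq p) ≠ 0 := by
    refine mul_ne_zero (neg_ne_zero.2 h2κ) ?_
    intro h
    exact one_ne_zero (congrArg QuadraticAlgebra.im h)
  -- shapes
  have hcomm : ∀ x (hx : lf x ≠ 0), x * p.r = p.r * x → ∃ c : kq p, c ≠ 0 ∧ L x = PowerSeries.C c * PowerSeries.X := by
    intro x hx h
    obtain ⟨a, b, hab⟩ := comm_span p.pu.lf_ne h
    have hb : b ≠ 0 := by
      rintro rfl
      apply hx
      rw [hab, sc_zero, zero_mul, add_zero, lf_sc]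
    refine ⟨kk p b * (-2 * QuadraticAlgebra.omega), mul_ne_zero ((_root_.map_ne_zero _).2 hb) hω, ?_⟩
    rw [hab, hLadd, hLsc, hLmul, hLr, zero_add, map_mul PowerSeries.C (kk p b) (-2 * QuadraticAlgebra.omega)]
    ring
  have hncomm : ∀ x, x * p.r ≠ p.r * x → M x 1 0 ≠ 0 := fun x h h0 => h (hM0 x h0)
  have hLne : ∀ x (hx : lf x ≠ 0), (oP (L x) : LS κ) ≠ 0 := by
    intro x hx
    rw [Ne, map_eq_zero_iff _ (HahnSeries.ofPowerSeries_injective)]
    by_cases h : x * p.r = p.r * x
    · obtain ⟨c, hc, hc2⟩ := hcomm x hx h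
      rw [hc2]
      intro h3
      have := congrArg (PowerSeries.coeff 1) h3
      rw [PowerSeries.coeff_C_mul, PowerSeries.coeff_one_X, mul_one, map_zero] at this
      exact hc this
    · intro h3
      have := hL0 x
      rw [h3, map_zero] at this
      exact hncomm x h this.symm
  let Lu : ∀ x (hx : lf x ≠ 0), (LS κ)ˣ := fun x hx => Units.mk0 (oP (L x)) (hLne x hx)
  have hLun : ∀ x (hx : lf x ≠ 0), x * p.r ≠ p.r * x → od (Lu x hx) = 0 ∧ ((lc (Lu x hx) : κˣ) : κ) = M x 1 0 := by
    intro x hx h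
    have h3 := shape (a := Lu x hx) (n := 0) (g := L x) (by
      change _ = (1 : LS κ) * _
      rw [one_mul]
      rfl) (by rw [hL0]; exact hncomm x h)
    rw [hL0] at h3
    exact h3
  have hLuc : ∀ x (hx : lf x ≠ 0), x * p.r = p.r * x → od (Lu x hx) = 1 := by
    intro x hx h
    obtain ⟨c, hc, hc2⟩ := hcomm x hx h
    refine (shape (a := Lu x hx) (n := 1) (g := PowerSeries.C c) ?_ (by simpa using hc)).1
    change oP (L x) = _
    rw [hc2, map_mul, HahnSeries.ofPowerSeries_X, mul_comm]
  -- the quaternions `i`, `j`, `k`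
  let qi : Hq s f := ⟨0, 1, 0, 0⟩
  let qj : Hq s f := ⟨0, 0, 1, 0⟩
  let qk : Hq s f := ⟨0, 0, 0, 1⟩
  have hi0 : lf qi ≠ 0 := nc_iff.2 (Or.inl one_ne_zero)
  have hj0 : lf qj ≠ 0 := nc_iff.2 (Or.inr (Or.inl one_ne_zero))
  have hij : qi * qj = qk := by ext <;> simp [qi, qj, qk]
  have hji : qj * qi = sc (-1) * qk := by
    rw [QuaternionAlgebra.coe_mul_eq_smul]
    ext <;> simp [qi, qj, qk]
  have hiji : qi * qj * qi = sc (-s) * qj := by
    rw [QuaternionAlgebra.coe_mul_eq_smul]
    ext <;> simp [qi, qj]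
  have hjj : qj * qj = sc f := by ext <;> simp [qj]
  have hii : qi * qi = sc s := by ext <;> simp [qi]
  -- determinant
  have hdet : (M qj).det = - kk p f := by
    have hA : M qj * M qj = !![kk p f, 0; 0, kk p f] := by rw [← map_mul, hjj, hMsc]
    have a1 := congrFun (congrFun hA 0) 0
    have a2 := congrFun (congrFun hA 0) 1
    have a3 := congrFun (congrFun hA 1) 0
    have a4 := congrFun (congrFun hA 1) 1
    simp only [Matrix.mul_apply, Fin.sum_univ_two, Matrix.of_apply, Matrix.cons_val', Matrix.cons_val_zero,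
      Matrix.cons_val_one, Matrix.cons_val_fin_one] at a1 a2 a3 a4
    have htr : M qj 0 0 + M qj 1 1 = 0 := by
      by_contra htr
      have b1 : M qj 0 1 = 0 := by
        have : M qj 0 1 * (M qj 0 0 + M qj 1 1) = 0 := by linear_combination a2
        exact (mul_eq_zero.1 this).resolve_right htr
      have b2 : M qj 1 0 = 0 := by
        have : M qj 1 0 * (M qj 0 0 + M qj 1 1) = 0 := by linear_combination a3
        exact (mul_eq_zero.1 this).resolve_right htr
      have b3 : M qj 0 0 = M qj 1 1 := by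
        have : (M qj 0 0 - M qj 1 1) * (M qj 0 0 + M qj 1 1) = 0 := by linear_combination a1 - a4
        exact sub_eq_zero.1 ((mul_eq_zero.1 this).resolve_right htr)
      have b4 : M qj * M qi = M qi * M qj := by
        apply Matrix.ext
        intro i j
        rw [Matrix.mul_apply, Matrix.mul_apply, Fin.sum_univ_two, Fin.sum_univ_two]
        fin_cases i <;> fin_cases j
        · change M qj 0 0 * M qi 0 0 + M qj 0 1 * M qi 1 0 = M qi 0 0 * M qj 0 0 + M qi 0 1 * M qj 1 0
          rw [b1, b2]
          ring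
        · change M qj 0 0 * M qi 0 1 + M qj 0 1 * M qi 1 1 = M qi 0 0 * M qj 0 1 + M qi 0 1 * M qj 1 1
          rw [b1, b3]
          ring
        · change M qj 1 0 * M qi 0 0 + M qj 1 1 * M qi 1 0 = M qi 1 0 * M qj 0 0 + M qi 1 1 * M qj 1 0
          rw [b2, b3]
          ring
        · change M qj 1 0 * M qi 0 1 + M qj 1 1 * M qi 1 1 = M qi 1 0 * M qj 0 1 + M qi 1 1 * M qj 1 1
          rw [b1, b2]
          ring
      rw [← map_mul, ← map_mul] at b4
      have b5 := M.injective b4
      rw [hij, hji] at b5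
      have b6 := congrArg QuaternionAlgebra.imK b5
      rw [QuaternionAlgebra.coe_mul_eq_smul] at b6
      simp [qk] at b6
      apply h2
      linear_combination -b6
    rw [Matrix.det_fin_two]
    linear_combination (M qj 0 0) * htr - a1
  have hid : L qk * L qk = PowerSeries.C (kk p s) * (L qj * L qj) + PowerSeries.C (kk p f) * (L qi * L qi) := by
    have h3 := lt_identity (PowerSeries.X : R) (Mp qi) (Mp qj) (Mp qi)
    rw [← hMpm, ← hMpm, ← hMpm] at h3
    change L (qi * qj) * L (qj * qi) - L qj * L (qi * qj * qi) = (Mp qj).det * (L qi * L qi) at h3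
    rw [hiji, hij, hji, hLmul, hLmul] at h3
    have h4 : (Mp qj).det = PowerSeries.C (- kk p f) := by
      rw [← hdet]
      exact (RingHom.map_det _ _).symm
    rw [h4] at h3
    simp only [map_neg, map_one] at h3
    linear_combination -h3
  -- the embedding
  have hDi := hLne qi hi0
  let D : (LS κ)ˣ := Lu qi hi0
  let Z : LS κ := oP (L qj) / oP (L qi)
  let Y : LS κ := - (oP (L qk) / oP (L qi))
  let ψ : F[X] →+* LS κ := eval₂RingHom ((cst (κ := κ)).comp (kk p)) Z
  have hψC : ∀ c, ψ (C c) = cst (kk p c) := by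
    intro c
    change eval₂ _ _ _ = _
    rw [eval₂_C]
    rfl
  have hψX : ψ X = Z := by
    change eval₂ _ _ _ = _
    rw [eval₂_X]
  have hYY : Y * Y = ψ (C s * X ^ 2 + C f) := by
    rw [map_add, map_mul, map_pow, hψC, hψC, hψX]
    have h5 := congrArg (oP (E := κ)) hid
    rw [map_mul, map_add, map_mul, map_mul, map_mul, map_mul, HahnSeries.ofPowerSeries_C, HahnSeries.ofPowerSeries_C] at h5
    change -(oP (L qk) / oP (L qi)) * -(oP (L qk) / oP (L qi)) = cst (kk p s) * (oP (L qj) / oP (L qi)) ^ 2 + cst (kk p f)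
    rw [neg_mul_neg, div_mul_div_comm, h5, div_pow]
    field_simp
  have hψ : Function.Injective ψ := by
    letI : Algebra F (LS κ) := ((cst (κ := κ)).comp (kk p)).toAlgebra
    rw [injective_iff_map_eq_zero]
    intro P hP
    by_contra hP0
    have hZalg : IsAlgebraic F Z := ⟨P, hP0, hP⟩
    have hZint : IsIntegral F Z := hZalg.isIntegral
    by_cases hir : qi * p.r = p.r * qi
    · -- the point at infinity
      have hjr : qj * p.r ≠ p.r * qj := by
        intro hjr
        have h6 := (comm_iff _ _).1 hir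
        have h7 := (comm_iff _ _).1 hjr
        simp [qi, qj] at h6 h7
        apply p.pu.ne0
        ext
        · exact p.pu.re0
        · rw [h7.2]; rfl
        · rw [h6.2]; rfl
        · rw [h6.1]; rfl
      have hZu : Z ≠ 0 := div_ne_zero (hLne qj hj0) hDi
      have h8 : IsIntegral F ((Lu qi hi0 / Lu qj hj0 : (LS κ)ˣ) : LS κ) := by
        have e : ((Lu qi hi0 / Lu qj hj0 : (LS κ)ˣ) : LS κ) = Z⁻¹ := by
          rw [Units.val_div_eq_div_val]
          change oP (L qi) / oP (L qj) = (oP (L qj) / oP (L qi))⁻¹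
          rw [inv_div]
        rw [e]
        exact hZint.inv
      exact od_integral (kk p) _ h8 (by rw [od_div, hLuc qi hi0 hir, (hLun qj hj0 hjr).1]; norm_num)
    · have hYint : IsIntegral F Y := by
        apply IsIntegral.of_pow (n := 2) two_pos
        rw [sq, hYY, map_add, map_mul, map_pow, hψC, hψC, hψX]
        exact IsIntegral.add (IsIntegral.mul (isIntegral_algebraMap (x := s)) (hZint.pow 2)) (isIntegral_algebraMap (x := f))
      have hdecr : L p.r = PowerSeries.C (kk p p.r.imI) * L qi + PowerSeries.C (kk p p.r.imJ) * L qj +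
          PowerSeries.C (kk p p.r.imK) * L qk := by
        have e : p.r = sc p.r.imI * qi + sc p.r.imJ * qj + sc p.r.imK * qk := by
          rw [QuaternionAlgebra.coe_mul_eq_smul, QuaternionAlgebra.coe_mul_eq_smul, QuaternionAlgebra.coe_mul_eq_smul]
          ext <;> simp [qi, qj, qk, p.pu.re0]
        conv_lhs => rw [e]
        rw [hLadd, hLadd, hLmul, hLmul, hLmul]
      have h8 : IsIntegral F ((Lu p.r p.pu.lf_ne / Lu qi hi0 : (LS κ)ˣ) : LS κ) := by
        have e : ((Lu p.r p.pu.lf_ne / Lu qi hi0 : (LS κ)ˣ) : LS κ) = cst (kk p p.r.imI) + cst (kk p p.r.imJ) * Z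
            - cst (kk p p.r.imK) * Y := by
          rw [Units.val_div_eq_div_val]
          change oP (L p.r) / oP (L qi) = cst (kk p p.r.imI) + cst (kk p p.r.imJ) * (oP (L qj) / oP (L qi)) -
            cst (kk p p.r.imK) * -(oP (L qk) / oP (L qi))
          rw [hdecr, map_add, map_add, map_mul, map_mul, map_mul, HahnSeries.ofPowerSeries_C, HahnSeries.ofPowerSeries_C,
            HahnSeries.ofPowerSeries_C]
          field_simp
          ring
        rw [e]
        exact IsIntegral.sub (IsIntegral.add (isIntegral_algebraMap (x := p.r.imI))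
          (IsIntegral.mul (isIntegral_algebraMap (x := p.r.imJ)) hZint))
          (IsIntegral.mul (isIntegral_algebraMap (x := p.r.imK)) hYint)
      exact od_integral (kk p) _ h8 (by rw [od_div, hLuc p.r p.pu.lf_ne rfl, (hLun qi hi0 hir).1]; norm_num)
  let Φ : CA s f →+* LS κ := cev ψ Y hYY
  have hΦ : Function.Injective Φ := cev_injective ψ Y hYY hψ
  let j : CK s f →+* LS κ := cj Φ hΦ
  have hjl : ∀ x (hx : lf x ≠ 0), um j (el (lf x) hx) * D = Lu x hx := by
    intro x hx
    ext1
    rw [Units.val_mul, um_val]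
    change j (algebraMap _ _ (lf x)) * oP (L qi) = oP (L x)
    have h9 : j (algebraMap _ _ (lf x)) = Φ (lf x) := cj_alg Φ hΦ _
    rw [h9]
    have h10 : Φ (lf x) = cst (kk p x.imI) + cst (kk p x.imJ) * Z - cst (kk p x.imK) * Y := by
      change Φ (kr x.imI + kr x.imJ * cx - kr x.imK * cy) = _
      rw [map_sub, map_add, map_mul, map_mul]
      change cev ψ Y hYY (kc x.imI) + cev ψ Y hYY (kc x.imJ) * cev ψ Y hYY cx - cev ψ Y hYY (kc x.imK) * cev ψ Y hYY cy = _
      rw [cev_kc, cev_kc, cev_kc, cev_cx, cev_cy, hψC, hψC, hψC, hψX]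
    have h11 : L x = PowerSeries.C (kk p x.imI) * L qi + PowerSeries.C (kk p x.imJ) * L qj +
          PowerSeries.C (kk p x.imK) * L qk := by
      have e : x = sc x.re + (sc x.imI * qi + sc x.imJ * qj + sc x.imK * qk) := by
        rw [QuaternionAlgebra.coe_mul_eq_smul, QuaternionAlgebra.coe_mul_eq_smul, QuaternionAlgebra.coe_mul_eq_smul]
        ext <;> simp [qi, qj, qk]
      conv_lhs => rw [e]
      rw [hLadd, hLadd, hLadd, hLsc, hLmul, hLmul, hLmul, zero_add]
    rw [h10, h11, map_add, map_add, map_mul, map_mul, map_mul, HahnSeries.ofPowerSeries_C, HahnSeries.ofPowerSeries_C,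
      HahnSeries.ofPowerSeries_C]
    change (cst (kk p x.imI) + cst (kk p x.imJ) * (oP (L qj) / oP (L qi)) - cst (kk p x.imK) * -(oP (L qk) / oP (L qi))) *
      oP (L qi) = _
    field_simp
    ring
  refine ⟨⟨j, fun x => M x 1 0, D, ?_, ?_, ?_, ?_, ?_, ?_⟩⟩
  · intro c
    rw [ci_apply]
    have h9 : j (algebraMap _ _ (kc c)) = Φ (kc c) := cj_alg Φ hΦ _
    rw [h9]
    change cev ψ Y hYY (kc c) = _
    rw [cev_kc, hψC]
  · intro x hx h
    refine ⟨hncomm x h, ?_⟩
    rw [hjl x hx]
    refine ⟨(hLun x hx h).1, ?_⟩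
    ext1
    exact (hLun x hx h).2
  · intro x hx h
    rw [hjl x hx]
    exact hLuc x hx h
  · intro x μ
    change M (x * eH p.r p.pu μ) 1 0 = M x 1 0 * μ
    rw [map_mul, hMe, Matrix.mul_apply, Fin.sum_univ_two]
    simp
  · intro x μ
    change M (eH p.r p.pu μ * x) 1 0 = star μ * M x 1 0
    rw [map_mul, hMe, Matrix.mul_apply, Fin.sum_univ_two]
    simp
  · intro x
    have e' : ∀ c : F, c = 2 * x.re → star x = sc c - x := by
      intro c hc
      ext
      · simp
        rw [hc]
        ring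
      · simp
      · simp
      · simp
    have e : star x = sc (2 * x.re) - x := e' _ rfl
    change M (star x) 1 0 = - M x 1 0
    rw [e, map_sub, hMsc]
    simp

end

end Pool.Agent.H403.M
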