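import Mathlib
import Pool.Agent.H403.M.H5

/-! # A central extension of the multiplicative group of the quaternion algebra (helper403) -/

set_option autoImplicit false
set_option linter.all false

noncomputable section

namespace Pool.Agent.H403.M

open Polynomial
open Pool.Agent.TH132.W Pool.Agent.Y64.Cyc Pool.Agent.Helper18.Br Pool.Agent.H552R3.SymBr

section

variable {F : Type} [Field F] {s f : F} [hC : Con s f]

variable (s f) in
/-- symbols with a constant entry -/
def S0 : AddSubgroup (MilnorK2 (CK s f)) :=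
  AddSubgroup.closure {v | ∃ (z : CA s f) (hz : z ≠ 0) (c : Fˣ), lv z ≤ 1 ∧ v = sym (el z hz) (ku s f c)}

variable (s f) in
/-- the quotient by symbols with a constant entry -/
def TT : Type := MilnorK2 (CK s f) ⧸ S0 s f

instance : AddCommGroup (TT s f) := inferInstanceAs (AddCommGroup (MilnorK2 (CK s f) ⧸ S0 s f))

variable (s f) in
/-- the projection -/
def tmk : MilnorK2 (CK s f) →+ TT s f := QuotientAddGroup.mk' (S0 s f)

theorem tmk_eq_zero {v : MilnorK2 (CK s f)} : tmk s f v = 0 ↔ v ∈ S0 s f := QuotientAddGroup.eq_zero_iff _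

/-- the class of a symbol -/
def bb (x y : (CK s f)ˣ) : TT s f := tmk s f (sym x y)

theorem bb_mul_left (a a' b : (CK s f)ˣ) : bb (a * a') b = bb a b + bb a' b := by
  unfold bb
  rw [sym_mul_left, map_add]

theorem bb_mul_right (a b b' : (CK s f)ˣ) : bb a (b * b') = bb a b + bb a b' := by
  unfold bb
  rw [sym_mul_right, map_add]

theorem bb_one_left (b : (CK s f)ˣ) : bb 1 b = 0 := by
  unfold bb
  rw [sym_one_left, map_zero]

theorem bb_one_right (b : (CK s f)ˣ) : bb b 1 = 0 := by
  unfold bb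
  rw [sym_one_right, map_zero]

theorem bb_inv_left (a b : (CK s f)ˣ) : bb a⁻¹ b = - bb a b := by
  unfold bb
  rw [sym_inv_left, map_neg]

theorem bb_inv_right (a b : (CK s f)ˣ) : bb a b⁻¹ = - bb a b := by
  unfold bb
  rw [sym_inv_right, map_neg]

theorem bb_swap (a b : (CK s f)ˣ) : bb a b = - bb b a := by
  unfold bb
  rw [sym_swap, map_neg]

theorem bb_ku_right {x : (CK s f)ˣ} (hx : x ∈ Un s f 1) (c : Fˣ) : bb x (ku s f c) = 0 := by
  induction hx using Subgroup.closure_induction with
  | mem x hx =>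
    obtain ⟨z, hz, hl, rfl⟩ := hx
    exact tmk_eq_zero.2 (AddSubgroup.subset_closure ⟨z, hz, c, hl, rfl⟩)
  | one => exact bb_one_left _
  | mul x y _ _ hx hy => rw [bb_mul_left, hx, hy, add_zero]
  | inv x _ hx => rw [bb_inv_left, hx, neg_zero]

theorem bb_ku_left {x : (CK s f)ˣ} (hx : x ∈ Un s f 1) (c : Fˣ) : bb (ku s f c) x = 0 := by
  rw [bb_swap, bb_ku_right hx, neg_zero]

theorem ku_neg_one : (ku s f (-1) : (CK s f)ˣ) = -1 := by
  ext1
  change ci s f ((-1 : Fˣ) : F) = _
  rw [Units.val_neg, Units.val_one, map_neg, map_one, Units.val_neg, Units.val_one]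

theorem bb_self {x : (CK s f)ˣ} (hx : x ∈ Un s f 1) : bb x x = 0 := by
  unfold bb
  rw [sym_self, ← ku_neg_one]
  exact bb_ku_right hx _

/-- equality up to a constant -/
def Eqv (x y : (CK s f)ˣ) : Prop := ∃ c : Fˣ, x = ku s f c * y

theorem Eqv.left {x y z : (CK s f)ˣ} (h : Eqv x y) (hz : z ∈ Un s f 1) : bb x z = bb y z := by
  obtain ⟨c, rfl⟩ := h
  rw [bb_mul_left, bb_ku_left hz, zero_add]

theorem Eqv.right {x y z : (CK s f)ˣ} (h : Eqv x y) (hz : z ∈ Un s f 1) : bb z x = bb z y := by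
  obtain ⟨c, rfl⟩ := h
  rw [bb_mul_right, bb_ku_right hz, zero_add]

theorem Eqv.symm {x y : (CK s f)ˣ} (h : Eqv x y) : Eqv y x := by
  obtain ⟨c, rfl⟩ := h
  exact ⟨c⁻¹, by rw [map_inv, inv_mul_cancel_left]⟩

theorem Eqv.refl (x : (CK s f)ˣ) : Eqv x x := ⟨1, by rw [map_one, one_mul]⟩

theorem Eqv.trans {x y z : (CK s f)ˣ} (h : Eqv x y) (h' : Eqv y z) : Eqv x z := by
  obtain ⟨c, rfl⟩ := h
  obtain ⟨d, rfl⟩ := h'
  exact ⟨c * d, by rw [map_mul, mul_assoc]⟩

/-- the function of a quaternion, as a unit of the function field -/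
def lq (a : Hq s f) : (CK s f)ˣ := by
  classical
  exact if h : lf a ≠ 0 then el (lf a) h else 1

theorem lq_nc {a : Hq s f} (h : lf a ≠ 0) : lq a = el (lf a) h := by
  unfold lq
  rw [dif_pos h]

theorem lq_central {a : Hq s f} (h : lf a = 0) : lq a = 1 := by
  unfold lq
  rw [dif_neg (not_not.2 h)]

theorem lq_mem (a : Hq s f) : lq a ∈ Un s f 1 := by
  by_cases h : lf a = 0
  · rw [lq_central h]
    exact one_mem _
  · rw [lq_nc h]
    exact el_mem h (lf_level a)

theorem el_kr_mul {c : F} (hc : c ≠ 0) {z : CA s f} (hz : z ≠ 0) (h : kr c * z ≠ 0) :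
    el (kr c * z) h = ku s f (Units.mk0 c hc) * el z hz := by
  ext1
  exact map_mul _ _ _

theorem lq_smul {c : F} (hc : c ≠ 0) (a : Hq s f) : Eqv (lq (sc c * a)) (lq a) := by
  by_cases h : lf a = 0
  · rw [lq_central h, lq_central (by rw [lf_smul, h, mul_zero])]
    exact Eqv.refl _
  · have h1 : lf (sc c * a) = kr c * lf a := lf_smul c a
    have h2 : kr c * lf a ≠ 0 := mul_ne_zero (kc_ne hc) h
    have h3 : lf (sc c * a) ≠ 0 := by rw [h1]; exact h2
    refine ⟨Units.mk0 c hc, ?_⟩
    rw [lq_nc h, lq_nc h3, ← el_kr_mul hc h h2]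
    congr 1

theorem lq_star (a : Hq s f) : Eqv (lq (star a)) (lq a) := by
  by_cases h : lf a = 0
  · rw [lq_central h, lq_central (by rw [lf_star, h, neg_zero])]
    exact Eqv.refl _
  · have h1 : lf (star a) = kr (-1) * lf a := by
      rw [lf_star, map_neg, map_one, neg_one_mul]
    have h2 : kr (-1) * lf a ≠ 0 := by rw [← h1, lf_star]; exact neg_ne_zero.2 h
    have h3 : lf (star a) ≠ 0 := by rw [h1]; exact h2
    refine ⟨Units.mk0 (-1) (neg_ne_zero.2 one_ne_zero), ?_⟩
    rw [lq_nc h, lq_nc h3, ← el_kr_mul (neg_ne_zero.2 one_ne_zero) h h2]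
    congr 1

theorem lq_comm {a b : Hq s f} (ha : lf a ≠ 0) (hb : lf b ≠ 0) (h : a * b = b * a) : Eqv (lq a) (lq b) := by
  obtain ⟨p, q, rfl⟩ := comm_span hb h
  have h1 : lf (sc p + sc q * b) = kr q * lf b := by rw [lf_add, lf_sc, zero_add, lf_smul]
  have hq : q ≠ 0 := by
    rintro rfl
    apply ha
    rw [h1, map_zero, zero_mul]
  have h2 : kr q * lf b ≠ 0 := mul_ne_zero (kc_ne hq) hb
  refine ⟨Units.mk0 q hq, ?_⟩
  rw [lq_nc ha, lq_nc hb, ← el_kr_mul hq hb h2]
  congr 1

/-- the cocycle -/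
def tau (a b : Hq s f) : TT s f := bb (lq a) (lq b) - bb (lq a) (lq (a * b)) - bb (lq (a * b)) (lq b)

omit hC in
theorem central_of_lf {a : Hq s f} (h : lf a = 0) : ∃ c : F, a = sc c := ⟨a.re, lf_eq_zero.1 h⟩

omit hC in
theorem sc_ne {c : F} (h : (sc c : Hq s f) ≠ 0) : c ≠ 0 := by
  rintro rfl
  exact h rfl

theorem inv_eq_star {a : Hq s f} (ha : a ≠ 0) : a⁻¹ = sc (nm a)⁻¹ * star a := by
  rw [inv_eq_iff_eq_inv, eq_comm, inv_eq_iff_eq_inv, eq_comm]
  apply inv_eq_of_mul_eq_one_right
  rw [← mul_assoc, ← sc_comm, mul_assoc, mul_star', ← sc_mul, inv_mul_cancel₀ (nm_ne ha), sc_one]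

theorem lq_inv {a : Hq s f} (ha : a ≠ 0) : Eqv (lq a⁻¹) (lq a) := by
  rw [inv_eq_star ha]
  exact (lq_smul (inv_ne_zero (nm_ne ha)) _).trans (lq_star a)

theorem tau_cocycle {a b c : Hq s f} (ha : a ≠ 0) (hb : b ≠ 0) (hc : c ≠ 0) :
    tau a b + tau (a * b) c = tau b c + tau a (b * c) := by
  unfold tau
  have mA := lq_mem a
  have mB := lq_mem b
  have mC := lq_mem c
  have mP := lq_mem (a * b)
  have mQ := lq_mem (b * c)
  have mR := lq_mem (a * b * c)
  have assoc : a * (b * c) = a * b * c := (mul_assoc a b c).symm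
  rw [assoc]
  by_cases hA : lf a = 0
  · obtain ⟨l, rfl⟩ := central_of_lf hA
    have hl := sc_ne ha
    have e1 := lq_smul hl b
    have e2 : Eqv (lq (sc l * b * c)) (lq (b * c)) := by
      rw [mul_assoc]
      exact lq_smul hl _
    rw [lq_central hA, bb_one_left, bb_one_left, bb_one_left, bb_one_left, e1.left mB, e1.left mC, e1.left mR, e2.left mC,
      e2.right mB, e2.left mQ, bb_self mB, bb_self mQ]
    try abel
  by_cases hB : lf b = 0
  · obtain ⟨l, rfl⟩ := central_of_lf hB
    have hl := sc_ne hb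
    have e1 : Eqv (lq (a * sc l)) (lq a) := by
      rw [← sc_comm]
      exact lq_smul hl _
    have e2 := lq_smul hl c
    rw [lq_central hB, bb_one_left, bb_one_left, bb_one_right, bb_one_right, e1.right mA, e1.left mC, e1.left mR,
      e2.left mC, e2.right mA, e2.right mR, bb_self mA, bb_self mC]
    try abel
  by_cases hCc : lf c = 0
  · obtain ⟨l, rfl⟩ := central_of_lf hCc
    have hl := sc_ne hc
    have e1 : Eqv (lq (b * sc l)) (lq b) := by
      rw [← sc_comm]
      exact lq_smul hl _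
    have e2 : Eqv (lq (a * b * sc l)) (lq (a * b)) := by
      rw [← sc_comm]
      exact lq_smul hl _
    rw [lq_central hCc, bb_one_right, bb_one_right, bb_one_right, bb_one_right, e1.right mB, e1.right mA, e1.right mR,
      e2.right mP, e2.right mA, e2.left mB, bb_self mP, bb_self mB]
    try abel
  by_cases hP : lf (a * b) = 0
  · obtain ⟨l, hl'⟩ := central_of_lf hP
    have hl := sc_ne (s := s) (f := f) (c := l) (by rw [← hl']; exact mul_ne_zero ha hb)
    have e1 : Eqv (lq b) (lq a) := by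
      have : b = sc l * a⁻¹ := by
        rw [sc_comm, ← hl', inv_mul_cancel_left₀ ha]
      rw [this]
      exact (lq_smul hl _).trans (lq_inv ha)
    have e2 : Eqv (lq (a * b * c)) (lq c) := by
      rw [hl']
      exact lq_smul hl _
    rw [lq_central hP, bb_one_right, bb_one_left, bb_one_left, bb_one_left, e1.right mA, e2.left mC, e1.left mC, e1.left mQ,
      e2.right mA, e2.left mQ, bb_self mA, bb_self mC, bb_swap (lq c) (lq (b * c))]
    try abel
  by_cases hQ : lf (b * c) = 0
  · obtain ⟨l, hl'⟩ := central_of_lf hQ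
    have hl := sc_ne (s := s) (f := f) (c := l) (by rw [← hl']; exact mul_ne_zero hb hc)
    have e1 : Eqv (lq c) (lq b) := by
      have : c = sc l * b⁻¹ := by
        rw [sc_comm, ← hl', inv_mul_cancel_left₀ hb]
      rw [this]
      exact (lq_smul hl _).trans (lq_inv hb)
    have e2 : Eqv (lq (a * b * c)) (lq a) := by
      rw [mul_assoc, hl', ← sc_comm]
      exact lq_smul hl _
    rw [lq_central hQ, bb_one_right, bb_one_left, bb_one_right, bb_one_right, e1.right mP, e2.right mP, e1.right mR,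
      e1.right mB, e2.right mA, e2.left mB, bb_self mA, bb_self mB, bb_swap (lq (a * b)) (lq a)]
    try abel
  by_cases hR : lf (a * b * c) = 0
  · obtain ⟨l, hl'⟩ := central_of_lf hR
    have hl := sc_ne (s := s) (f := f) (c := l) (by rw [← hl']; exact mul_ne_zero (mul_ne_zero ha hb) hc)
    have e1 : Eqv (lq (a * b)) (lq c) := by
      have : a * b = sc l * c⁻¹ := by
        rw [← hl', mul_inv_cancel_right₀ hc]
      rw [this]
      exact (lq_smul hl _).trans (lq_inv hc)
    have e2 : Eqv (lq (b * c)) (lq a) := by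
      have : b * c = sc l * a⁻¹ := by
        rw [sc_comm, ← hl', mul_assoc, inv_mul_cancel_left₀ ha]
      rw [this]
      exact (lq_smul hl _).trans (lq_inv ha)
    rw [lq_central hR, bb_one_right, bb_one_left, bb_one_right, bb_one_left, e1.right mA, e1.left mB, e1.left mC,
      e2.right mB, e2.left mC, e2.right mA, bb_self mA, bb_self mC, bb_swap (lq c) (lq b), bb_swap (lq b) (lq a)]
    try abel
  -- the generic case
  have hid := lf_identity a b c
  have hnb := nm_ne hb
  have h0 : bb ((ku s f (Units.mk0 _ hnb)) * (lq a * lq c) / (lq (a * b) * lq (b * c)))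
      (lq b * lq (a * b * c) / (lq (a * b) * lq (b * c))) = 0 := by
    unfold bb
    rw [sym_steinberg, map_zero]
    · rw [Units.val_div_eq_div_val, Units.val_div_eq_div_val, ← add_div, div_eq_one_iff_eq (Units.ne_zero _),
        lq_nc hA, lq_nc hB, lq_nc hCc, lq_nc hP, lq_nc hQ, lq_nc hR]
      simp only [Units.val_mul]
      change algebraMap (CA s f) (CK s f) (kr (nm b)) * (algebraMap _ _ (lf a) * algebraMap _ _ (lf c)) +
        algebraMap _ _ (lf b) * algebraMap _ _ (lf (a * b * c)) =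
          algebraMap _ _ (lf (a * b)) * algebraMap _ _ (lf (b * c))
      rw [← map_mul, ← map_mul, ← map_mul, ← map_mul, ← map_add]
      refine congrArg (algebraMap (CA s f) (CK s f)) ?_
      linear_combination -hid
  generalize lq a = A at *
  generalize lq b = B at *
  generalize lq c = C at *
  generalize lq (a * b) = P at *
  generalize lq (b * c) = Q at *
  generalize lq (a * b * c) = R at *
  simp only [div_eq_mul_inv, mul_inv, bb_mul_left, bb_mul_right, bb_inv_left, bb_inv_right] at h0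
  rw [bb_ku_left mB, bb_ku_left mR, bb_ku_left mP, bb_ku_left mQ, bb_self mP, bb_self mQ, bb_swap Q P] at h0
  rw [bb_swap P C, bb_swap R C, bb_swap B C, bb_swap B Q, bb_swap Q C, bb_swap R Q, ← sub_eq_zero, ← h0]
  abel

end

end Pool.Agent.H403.M
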