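import Mathlib
import Pool.Agent.H403.M.H6

/-! # Commutators in the central extension (helper403) -/

set_option autoImplicit false
set_option linter.all false

noncomputable section

namespace Pool.Agent.H403.M

open Polynomial
open scoped commutatorElement
open Pool.Agent.TH132.W Pool.Agent.Y64.Cyc Pool.Agent.Helper18.Br Pool.Agent.H552R3.SymBr

section

variable {F : Type} [Field F] {s f : F} [hC : Con s f]

theorem tau_one_left (b : Hq s f) : tau 1 b = 0 := by
  unfold tau
  have h1 : lf (1 : Hq s f) = 0 := lf_sc 1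
  rw [one_mul, lq_central h1, bb_one_left, bb_self (lq_mem b), sub_zero, sub_zero]

theorem tau_one_right (a : Hq s f) : tau a 1 = 0 := by
  unfold tau
  have h1 : lf (1 : Hq s f) = 0 := lf_sc 1
  rw [mul_one, lq_central h1, bb_one_right, bb_self (lq_mem a), sub_zero, sub_zero]

theorem tau_comm {a b : Hq s f} (ha : a ≠ 0) (hb : b ≠ 0) (h : a * b = b * a) : tau a b = 0 := by
  unfold tau
  by_cases hA : lf a = 0
  · obtain ⟨l, rfl⟩ := central_of_lf hA
    have e1 := lq_smul (sc_ne ha) b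
    rw [lq_central hA, bb_one_left, bb_one_left, e1.left (lq_mem b), bb_self (lq_mem b)]
    abel
  by_cases hB : lf b = 0
  · obtain ⟨l, rfl⟩ := central_of_lf hB
    have e1 : Eqv (lq (a * sc l)) (lq a) := by
      rw [← sc_comm]
      exact lq_smul (sc_ne hb) a
    rw [lq_central hB, bb_one_right, bb_one_right, e1.right (lq_mem a), bb_self (lq_mem a)]
    abel
  have e1 := lq_comm hA hB h
  by_cases hP : lf (a * b) = 0
  · rw [lq_central hP, bb_one_right, bb_one_left, e1.left (lq_mem b), bb_self (lq_mem b)]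
    abel
  have e2 : Eqv (lq (a * b)) (lq b) := lq_comm hP hB (by
    conv_lhs => rw [h]
    rw [mul_assoc])
  rw [e1.left (lq_mem b), e1.left (lq_mem (a * b)), e2.right (lq_mem b), e2.left (lq_mem b), bb_self (lq_mem b)]
  abel

variable (s f) in
/-- the central extension -/
structure GH where
  /-- the central component -/
  t : TT s f
  /-- the quaternion -/
  a : (Hq s f)ˣ

theorem GH.ext' {x y : GH s f} (h1 : x.t = y.t) (h2 : x.a = y.a) : x = y := by
  cases x
  cases y
  simp only [GH.mk.injEq]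
  exact ⟨h1, h2⟩

instance : Mul (GH s f) := ⟨fun x y => ⟨x.t + y.t + tau (x.a : Hq s f) (y.a : Hq s f), x.a * y.a⟩⟩
instance : One (GH s f) := ⟨⟨0, 1⟩⟩
instance : Inv (GH s f) := ⟨fun x => ⟨- x.t - tau ((x.a⁻¹ : (Hq s f)ˣ) : Hq s f) (x.a : Hq s f), x.a⁻¹⟩⟩

theorem GH.mul_t (x y : GH s f) : (x * y).t = x.t + y.t + tau (x.a : Hq s f) (y.a : Hq s f) := rfl
theorem GH.mul_a (x y : GH s f) : (x * y).a = x.a * y.a := rfl
theorem GH.one_t : (1 : GH s f).t = 0 := rfl
theorem GH.one_a : (1 : GH s f).a = 1 := rfl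
theorem GH.inv_a (x : GH s f) : (x⁻¹).a = x.a⁻¹ := rfl
theorem GH.inv_t (x : GH s f) : (x⁻¹).t = - x.t - tau ((x.a⁻¹ : (Hq s f)ˣ) : Hq s f) (x.a : Hq s f) := rfl

instance : Group (GH s f) := Group.ofLeftAxioms
  (by
    intro x y z
    refine GH.ext' ?_ (mul_assoc _ _ _)
    rw [GH.mul_t, GH.mul_t, GH.mul_t, GH.mul_t, GH.mul_a, GH.mul_a, Units.val_mul, Units.val_mul]
    have h := tau_cocycle (s := s) (f := f) x.a.ne_zero y.a.ne_zero z.a.ne_zero
    have h' : x.t + y.t + z.t + (tau (x.a : Hq s f) (y.a : Hq s f) + tau ((x.a : Hq s f) * (y.a : Hq s f)) (z.a : Hq s f)) =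
      x.t + y.t + z.t + (tau (y.a : Hq s f) (z.a : Hq s f) + tau (x.a : Hq s f) ((y.a : Hq s f) * (z.a : Hq s f))) := by
      rw [h]
    calc _ = x.t + y.t + z.t + (tau (x.a : Hq s f) (y.a : Hq s f) +
        tau ((x.a : Hq s f) * (y.a : Hq s f)) (z.a : Hq s f)) := by abel
      _ = _ := h'
      _ = _ := by abel)
  (by
    intro x
    refine GH.ext' ?_ (one_mul _)
    rw [GH.mul_t, GH.one_t, GH.one_a, Units.val_one, tau_one_left, zero_add, add_zero])
  (by
    intro x
    refine GH.ext' ?_ (inv_mul_cancel _)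
    rw [GH.mul_t, GH.inv_t, GH.inv_a, GH.one_t]
    abel)

/-- the central subgroup -/
def io (t : TT s f) : GH s f := ⟨t, 1⟩

/-- the set-theoretic section -/
def sg (a : (Hq s f)ˣ) : GH s f := ⟨0, a⟩

theorem io_central (t : TT s f) (x : GH s f) : io t * x = x * io t := by
  refine GH.ext' ?_ ?_
  · rw [GH.mul_t, GH.mul_t]
    change t + x.t + tau ((1 : (Hq s f)ˣ) : Hq s f) _ = x.t + t + tau _ ((1 : (Hq s f)ˣ) : Hq s f)
    rw [Units.val_one, tau_one_left, tau_one_right]
    abel
  · rw [GH.mul_a, GH.mul_a]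
    change 1 * x.a = x.a * 1
    rw [one_mul, mul_one]

theorem GH.eq (x : GH s f) : x = io x.t * sg x.a := by
  refine GH.ext' ?_ ?_
  · rw [GH.mul_t]
    change x.t = x.t + 0 + tau ((1 : (Hq s f)ˣ) : Hq s f) _
    rw [Units.val_one, tau_one_left]
    abel
  · rw [GH.mul_a]
    change x.a = 1 * x.a
    rw [one_mul]

theorem io_add (t u : TT s f) : io (t + u) = io t * io u := by
  refine GH.ext' ?_ ?_
  · rw [GH.mul_t]
    change t + u = t + u + tau ((1 : (Hq s f)ˣ) : Hq s f) ((1 : (Hq s f)ˣ) : Hq s f)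
    rw [Units.val_one, tau_one_left, add_zero]
  · rw [GH.mul_a]
    change (1 : (Hq s f)ˣ) = 1 * 1
    rw [one_mul]

theorem io_zero : io (0 : TT s f) = 1 := rfl

/-- the central subgroup as a homomorphism -/
def ioh : Multiplicative (TT s f) →* GH s f where
  toFun t := io t.toAdd
  map_one' := rfl
  map_mul' t u := io_add _ _

theorem sg_mul (a b : (Hq s f)ˣ) : sg a * sg b = io (tau (a : Hq s f) (b : Hq s f)) * sg (a * b) := by
  refine GH.ext' ?_ ?_
  · rw [GH.mul_t, GH.mul_t]
    change (0 : TT s f) + 0 + tau _ _ = tau _ _ + 0 + tau ((1 : (Hq s f)ˣ) : Hq s f) _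
    rw [Units.val_one, tau_one_left]
    abel
  · rw [GH.mul_a, GH.mul_a]
    change a * b = 1 * (a * b)
    rw [one_mul]

theorem sg_mul_comm {a b : (Hq s f)ˣ} (h : a * b = b * a) : sg a * sg b = sg (a * b) := by
  rw [sg_mul, tau_comm a.ne_zero b.ne_zero (by
    have := congrArg (fun x : (Hq s f)ˣ => (x : Hq s f)) h
    simpa using this), io_zero, one_mul]

theorem sg_commute {a b : (Hq s f)ˣ} (h : a * b = b * a) : sg a * sg b = sg b * sg a := by
  rw [sg_mul_comm h, sg_mul_comm h.symm, h]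

theorem comm_io (t : TT s f) (x y : GH s f) : ⁅io t * x, y⁆ = ⁅x, y⁆ := by
  rw [commutatorElement_def, commutatorElement_def, mul_inv_rev]
  calc io t * x * y * (x⁻¹ * (io t)⁻¹) * y⁻¹ = io t * (x * y * x⁻¹) * (io t)⁻¹ * y⁻¹ := by group
    _ = (x * y * x⁻¹) * io t * (io t)⁻¹ * y⁻¹ := by rw [io_central]
    _ = x * y * x⁻¹ * y⁻¹ := by group

theorem comm_io' (t : TT s f) (x y : GH s f) : ⁅x, io t * y⁆ = ⁅x, y⁆ := by
  rw [← inv_inj, commutatorElement_inv, commutatorElement_inv, comm_io]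

theorem comm_sg (x y : GH s f) : ⁅x, y⁆ = ⁅sg x.a, sg y.a⁆ := by
  conv_lhs => rw [GH.eq x, GH.eq y]
  rw [comm_io, comm_io']

/-- first move -/
theorem cc_move1 {a c z : (Hq s f)ˣ} (h : z * c = c * z) : ⁅sg (a * z), sg c⁆ = ⁅sg a, sg c⁆ := by
  have e : ⁅sg a * sg z, sg c⁆ = ⁅sg (a * z), sg c⁆ := by rw [sg_mul, comm_io]
  rw [← e, commutatorElement_def, commutatorElement_def, mul_inv_rev]
  have h1 := sg_commute h
  calc sg a * sg z * sg c * ((sg z)⁻¹ * (sg a)⁻¹) * (sg c)⁻¹ = sg a * (sg z * sg c) * (sg z)⁻¹ * (sg a)⁻¹ * (sg c)⁻¹ := by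
        group
    _ = sg a * (sg c * sg z) * (sg z)⁻¹ * (sg a)⁻¹ * (sg c)⁻¹ := by rw [h1]
    _ = _ := by group

/-- second move -/
theorem cc_move2 {a c z : (Hq s f)ˣ} (h : z * a = a * z) : ⁅sg a, sg (c * z)⁆ = ⁅sg a, sg c⁆ := by
  rw [← inv_inj, commutatorElement_inv, commutatorElement_inv]
  exact cc_move1 h

theorem cc_of_comm {a c : (Hq s f)ˣ} (h : a * c = c * a) : ⁅sg a, sg c⁆ = 1 := by
  rw [commutatorElement_eq_one_iff_mul_comm]
  exact sg_commute h

/-- the real part is a trace -/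
theorem re_mul_comm (a b : Hq s f) : (a * b).re = (b * a).re := by
  simp only [QuaternionAlgebra.re_mul]
  ring

omit hC in
theorem sq_eq (c : Hq s f) : c * c = sc (2 * c.re) * c - sc (nm c) := by
  have h : star c = sc (2 * c.re) - c := by
    have e' : ∀ d : F, d = 2 * c.re → star c = sc d - c := by
      intro d hd
      ext
      · simp
        rw [hd]
        ring
      · simp
      · simp
      · simp
    exact e' _ rfl
  have h1 := star_mul' c
  rw [h, sub_mul] at h1
  rw [← h1]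
  abel

/-- decomposition with respect to a noncommuting pair -/
theorem decompose {a c : Hq s f} (h : a * c ≠ c * a) (x : Hq s f) : ∃ p q u v : F,
    x = sc p + sc q * c + a * (sc u + sc v * c) := by
  have hc0 : lf c ≠ 0 := by
    intro h0
    obtain ⟨l, rfl⟩ := central_of_lf h0
    exact h (sc_comm l a).symm
  let φ : (Fin 4 → F) →ₗ[F] Hq s f :=
    { toFun := fun w => sc (w 0) + sc (w 1) * c + a * (sc (w 2) + sc (w 3) * c)
      map_add' := by
        intro w w'
        simp only [Pi.add_apply, sc_add]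
        noncomm_ring
      map_smul' := by
        intro l w
        simp only [Pi.smul_apply, smul_eq_mul, sc_mul, RingHom.id_apply]
        rw [← QuaternionAlgebra.coe_mul_eq_smul]
        have e : a * (sc l * sc (w 2) + sc l * sc (w 3) * c) = sc l * (a * (sc (w 2) + sc (w 3) * c)) := by
          rw [mul_assoc, ← mul_add, ← mul_assoc, ← sc_comm, mul_assoc]
        rw [e]
        noncomm_ring }
  have hφ : Function.Injective φ := by
    rw [injective_iff_map_eq_zero]
    intro w hw
    change sc (w 0) + sc (w 1) * c + a * (sc (w 2) + sc (w 3) * c) = 0 at hw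
    have hcc : ∀ p q : F, (sc p + sc q * c) * c = c * (sc p + sc q * c) := by
      intro p q
      rw [add_mul, mul_add, sc_comm, mul_assoc, ← mul_assoc c, ← sc_comm q, mul_assoc]
    have hz : sc (w 2) + sc (w 3) * c = 0 := by
      by_contra hz
      apply h
      have h1 : a = -((sc (w 0) + sc (w 1) * c) * (sc (w 2) + sc (w 3) * c)⁻¹) := by
        rw [eq_neg_iff_add_eq_zero, ← mul_inv_cancel_right₀ hz a, ← add_mul, add_comm, hw, zero_mul]
      have h2 : (sc (w 2) + sc (w 3) * c)⁻¹ * c = c * (sc (w 2) + sc (w 3) * c)⁻¹ := by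
        have := hcc (w 2) (w 3)
        rw [inv_mul_eq_iff_eq_mul₀ hz, ← mul_assoc, this, mul_assoc, mul_inv_cancel₀ hz, mul_one]
      rw [h1, neg_mul, mul_neg, mul_assoc, h2, ← mul_assoc, hcc, mul_assoc]
    have hlin : ∀ p q : F, sc p + sc q * c = 0 → p = 0 ∧ q = 0 := by
      intro p q hpq
      have h3 : lf (sc p + sc q * c) = 0 := by rw [hpq]; exact lf_sc 0
      rw [lf_add, lf_sc, zero_add, lf_smul] at h3
      have hq : q = 0 := by
        by_contra hq
        exact (mul_ne_zero (kc_ne hq) hc0) h3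
      rw [hq, sc_zero, zero_mul, add_zero] at hpq
      exact ⟨congrArg QuaternionAlgebra.re hpq, hq⟩
    rw [hz, mul_zero, add_zero] at hw
    obtain ⟨h4, h5⟩ := hlin _ _ hw
    obtain ⟨h6, h7⟩ := hlin _ _ hz
    funext i
    fin_cases i
    · exact h4
    · exact h5
    · exact h6
    · exact h7
  have hfr : Module.finrank F (Fin 4 → F) = Module.finrank F (Hq s f) := by
    rw [QuaternionAlgebra.finrank_eq_four, Module.finrank_fin_fun]
  have hsurj := (LinearMap.injective_iff_surjective_of_finrank_eq_finrank hfr).1 hφ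
  obtain ⟨w, hw⟩ := hsurj x
  exact ⟨w 0, w 1, w 2, w 3, hw.symm⟩

theorem re_ne_one {x : Hq s f} (hn : nm x = 1) (hx : x ≠ 1) : x.re ≠ 1 := by
  intro h
  have h1 : x - 1 ≠ 0 := sub_ne_zero.2 hx
  apply nm_ne h1
  unfold nm at hn ⊢
  simp only [QuaternionAlgebra.re_sub, QuaternionAlgebra.imI_sub, QuaternionAlgebra.imJ_sub, QuaternionAlgebra.imK_sub,
    QuaternionAlgebra.re_one, QuaternionAlgebra.imI_one, QuaternionAlgebra.imJ_one, QuaternionAlgebra.imK_one, sub_zero]
  rw [h] at hn ⊢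
  linear_combination hn

theorem nm_inv' {a : Hq s f} (ha : a ≠ 0) : nm a * nm a⁻¹ = 1 := by
  rw [← nm_mul, mul_inv_cancel₀ ha, nm_one]

theorem nm_comm_eq_one {a c : Hq s f} (ha : a ≠ 0) (hc : c ≠ 0) : nm (a * c * a⁻¹ * c⁻¹) = 1 := by
  rw [nm_mul, nm_mul, nm_mul]
  have h1 := nm_inv' ha
  have h2 := nm_inv' hc
  linear_combination (nm c * nm c⁻¹) * h1 + h2

theorem move_aux {a c d : Hq s f} (ha : a ≠ 0) (hc : c ≠ 0) (hne : a * c ≠ c * a)
    (hd : ((a * c * a⁻¹ * c⁻¹) * d).re = d.re) : ∃ p u v : F, d = c * (sc p + a * (sc u + sc v * c)) := by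
  obtain ⟨p, q, u, v, hx⟩ := decompose hne (c⁻¹ * d)
  generalize hx' : (a * c * a⁻¹ * c⁻¹) = x at hd
  have hxc : x * c = a * c * a⁻¹ := by
    rw [← hx', inv_mul_cancel_right₀ hc]
  have hd2 : d = c * (sc p + sc q * c + a * (sc u + sc v * c)) := by
    rw [← hx, mul_inv_cancel_left₀ hc]
  have hcz : (sc u + sc v * c) * c = c * (sc u + sc v * c) := by
    rw [add_mul, mul_add, sc_comm, mul_assoc, ← mul_assoc c (sc v), ← sc_comm v, mul_assoc]
  -- the coefficient `q` vanishes
  have hq : q = 0 := by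
    have e1 : (x * (c * (a * (sc u + sc v * c)))).re = (c * (a * (sc u + sc v * c))).re := by
      have e0 : x * (c * (a * (sc u + sc v * c))) = a * c * (sc u + sc v * c) := by
        rw [← mul_assoc x, hxc, ← mul_assoc, inv_mul_cancel_right₀ ha]
      rw [e0, mul_assoc, ← hcz, re_mul_comm, mul_assoc]
      rw [re_mul_comm, mul_assoc]
    have e2 : (x * c).re = c.re := by
      rw [hxc, re_mul_comm, inv_mul_cancel_left₀ ha]
    have e3 : (x * (c * c)).re - (c * c).re = nm c * (1 - x.re) := by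
      rw [sq_eq, mul_sub, ← sc_comm (nm c) x, ← mul_assoc x, ← sc_comm _ x, mul_assoc]
      simp only [QuaternionAlgebra.re_sub, QuaternionAlgebra.coe_mul_eq_smul, QuaternionAlgebra.re_smul, e2, smul_eq_mul,
        QuaternionAlgebra.re_coe]
      ring
    have e4 : (x * d).re - d.re = q * (nm c * (1 - x.re)) := by
      rw [← e3, hd2]
      have e5 : c * (sc p + sc q * c + a * (sc u + sc v * c)) =
          sc p * c + sc q * (c * c) + c * (a * (sc u + sc v * c)) := by
        rw [mul_add, mul_add, ← sc_comm p, ← mul_assoc c (sc q), ← sc_comm q, mul_assoc]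
      rw [e5, mul_add, mul_add, ← mul_assoc x, ← sc_comm p x, mul_assoc, ← mul_assoc x (sc q), ← sc_comm q x, mul_assoc]
      generalize c * (a * (sc u + sc v * c)) = w at e1 ⊢
      simp only [QuaternionAlgebra.re_add, QuaternionAlgebra.coe_mul_eq_smul, QuaternionAlgebra.re_smul, smul_eq_mul]
      rw [e1, e2]
      ring
    rw [hd, sub_self] at e4
    have hnx : nm x = 1 := by rw [← hx']; exact nm_comm_eq_one ha hc
    have hx1 : x ≠ 1 := by
      intro h1
      rw [h1, one_mul] at hxc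
      apply hne
      have h2 : c * a = a * c * a⁻¹ * a := by rw [← hxc]
      rw [inv_mul_cancel_right₀ ha] at h2
      exact h2.symm
    rcases mul_eq_zero.1 e4.symm with h1 | h1
    · exact h1
    · exfalso
      rcases mul_eq_zero.1 h1 with h2 | h2
      · exact nm_ne hc h2
      · exact re_ne_one hnx hx1 (sub_eq_zero.1 h2).symm
  rw [hq, sc_zero, zero_mul, add_zero] at hd2
  exact ⟨p, u, v, hd2⟩

/-- **the move lemma** -/
theorem move {a c d : (Hq s f)ˣ} (h : a * c ≠ c * a)
    (hd : ((((a * c * a⁻¹ * c⁻¹ : (Hq s f)ˣ)) : Hq s f) * (d : Hq s f)).re = (d : Hq s f).re) :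
    ∃ a₁ : (Hq s f)ˣ, ⁅sg a, sg c⁆ = ⁅sg a₁, sg d⁆ := by
  have ha := a.ne_zero
  have hc := c.ne_zero
  have hne : (a : Hq s f) * (c : Hq s f) ≠ (c : Hq s f) * (a : Hq s f) := by
    intro h1
    apply h
    ext1
    rw [Units.val_mul, Units.val_mul, h1]
  rw [Units.val_mul, Units.val_mul, Units.val_mul, Units.val_inv_eq_inv_val, Units.val_inv_eq_inv_val] at hd
  obtain ⟨p, u, v, hd2⟩ := move_aux ha hc hne hd
  have hcz : (sc u + sc v * (c : Hq s f)) * (c : Hq s f) = (c : Hq s f) * (sc u + sc v * (c : Hq s f)) := by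
    rw [add_mul, mul_add, sc_comm, mul_assoc, ← mul_assoc (c : Hq s f) (sc v), ← sc_comm v, mul_assoc]
  by_cases hz : sc u + sc v * (c : Hq s f) = 0
  · rw [hz, mul_zero, add_zero] at hd2
    have hp : (sc p : Hq s f) ≠ 0 := by
      intro h0
      rw [h0, mul_zero] at hd2
      exact d.ne_zero hd2
    refine ⟨a, ?_⟩
    have e : d = c * Units.mk0 _ hp := by
      ext1
      exact hd2
    rw [e, cc_move2]
    ext1
    exact sc_comm p _
  · let z : (Hq s f)ˣ := Units.mk0 _ hz
    have h1 : ⁅sg a, sg c⁆ = ⁅sg (a * z), sg c⁆ := (cc_move1 (by ext1; exact hcz)).symm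
    have hw : sc p + (a : Hq s f) * (sc u + sc v * (c : Hq s f)) ≠ 0 := by
      intro h0
      rw [h0, mul_zero] at hd2
      exact d.ne_zero hd2
    refine ⟨a * z, ?_⟩
    have e : d = c * Units.mk0 _ hw := by
      ext1
      exact hd2
    rw [h1, e, cc_move2]
    ext1
    rw [Units.val_mul, Units.val_mul, Units.val_mul]
    change (sc p + (a : Hq s f) * (sc u + sc v * (c : Hq s f))) * ((a : Hq s f) * (sc u + sc v * (c : Hq s f))) =
      ((a : Hq s f) * (sc u + sc v * (c : Hq s f))) * (sc p + (a : Hq s f) * (sc u + sc v * (c : Hq s f)))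
    generalize (a : Hq s f) * (sc u + sc v * (c : Hq s f)) = W
    rw [add_mul, mul_add, sc_comm]

/-- the product of two commutators is a commutator -/
theorem comm_mul (a c a' c' : (Hq s f)ˣ) : ∃ X Y : GH s f, ⁅sg a, sg c⁆ * ⁅sg a', sg c'⁆ = ⁅X, Y⁆ := by
  by_cases h : a * c = c * a
  · exact ⟨sg a', sg c', by rw [cc_of_comm h, one_mul]⟩
  by_cases h' : c' * a' = a' * c'
  · exact ⟨sg a, sg c, by rw [cc_of_comm h'.symm, mul_one]⟩
  let x : Hq s f := ((a * c * a⁻¹ * c⁻¹ : (Hq s f)ˣ) : Hq s f)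
  let y : Hq s f := ((c' * a' * c'⁻¹ * a'⁻¹ : (Hq s f)ˣ) : Hq s f)
  let φ : Hq s f →ₗ[F] (F × F) :=
    { toFun := fun d => ((x * d).re - d.re, (y * d).re - d.re)
      map_add' := by
        intro d e
        simp only [mul_add, QuaternionAlgebra.re_add, Prod.mk_add_mk]
        ext <;> simp only <;> ring
      map_smul' := by
        intro l d
        simp only [mul_smul_comm, QuaternionAlgebra.re_smul, RingHom.id_apply, Prod.smul_mk, smul_eq_mul]
        ext <;> simp only <;> ring }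
  have hker : LinearMap.ker φ ≠ ⊥ := LinearMap.ker_ne_bot_of_finrank_lt (by
    rw [QuaternionAlgebra.finrank_eq_four, Module.finrank_prod, Module.finrank_self]
    norm_num)
  obtain ⟨d, hd, hd0⟩ := (Submodule.ne_bot_iff _).1 hker
  rw [LinearMap.mem_ker] at hd
  have hd1 : (x * d).re - d.re = 0 := congrArg Prod.fst hd
  have hd2 : (y * d).re - d.re = 0 := congrArg Prod.snd hd
  let D : (Hq s f)ˣ := Units.mk0 d hd0
  obtain ⟨a₁, h1⟩ := move (d := D) h (sub_eq_zero.1 hd1)
  obtain ⟨b₁, h2⟩ := move (d := D) h' (sub_eq_zero.1 hd2)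
  have h3 : ⁅sg a', sg c'⁆ = ⁅sg D, sg b₁⁆ := by
    rw [← commutatorElement_inv, h2, commutatorElement_inv]
  rw [h1, h3]
  refine ⟨sg a₁ * sg D * (sg a₁)⁻¹, sg b₁ * (sg a₁)⁻¹, ?_⟩
  rw [commutatorElement_def, commutatorElement_def, commutatorElement_def]
  group

/-- the commutator subgroup consists of commutators -/
theorem mem_commutator {x : GH s f} (hx : x ∈ commutator (GH s f)) : ∃ X Y : GH s f, x = ⁅X, Y⁆ := by
  rw [commutator_eq_closure] at hx
  induction hx using Subgroup.closure_induction with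
  | mem x hx =>
    obtain ⟨X, Y, h⟩ := hx
    exact ⟨X, Y, h.symm⟩
  | one => exact ⟨1, 1, by rw [commutatorElement_one_right]⟩
  | mul x y _ _ hx hy =>
    obtain ⟨X, Y, rfl⟩ := hx
    obtain ⟨X', Y', rfl⟩ := hy
    rw [comm_sg X Y, comm_sg X' Y']
    exact comm_mul _ _ _ _
  | inv x _ hx =>
    obtain ⟨X, Y, rfl⟩ := hx
    exact ⟨Y, X, commutatorElement_inv _ _⟩

/-- the central subgroup meets the commutator subgroup trivially -/
theorem io_mem_commutator {t : TT s f} (h : io t ∈ commutator (GH s f)) : t = 0 := by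
  obtain ⟨X, Y, h⟩ := mem_commutator h
  have h1 : (io t).a = (⁅X, Y⁆ : GH s f).a := by rw [h]
  rw [commutatorElement_def, GH.mul_a, GH.mul_a, GH.mul_a, GH.inv_a, GH.inv_a] at h1
  have h2 : X.a * Y.a = Y.a * X.a := by
    have h3 : (1 : (Hq s f)ˣ) = X.a * Y.a * X.a⁻¹ * Y.a⁻¹ := h1
    rw [eq_mul_inv_iff_mul_eq, one_mul, eq_mul_inv_iff_mul_eq] at h3
    exact h3.symm
  rw [comm_sg, cc_of_comm h2] at h
  exact congrArg GH.t h

/-- elements with the same trace and norm are conjugate -/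
theorem conj_of_eq {b c : Hq s f} (hc : lf c ≠ 0) (h1 : b.re = c.re) (h2 : nm b = nm c) :
    ∃ a : Hq s f, a ≠ 0 ∧ b * a = a * c := by
  have key : ∀ z : Hq s f, b * (b * z - z * star c) = (b * z - z * star c) * c := by
    intro z
    have e1 : b * (b * z) = sc (2 * b.re) * b * z - sc (nm b) * z := by
      rw [← mul_assoc, sq_eq, sub_mul]
    have e2 : z * star c * c = sc (nm c) * z := by
      rw [mul_assoc, star_mul', sc_comm]
    have e3 : star c = sc (2 * c.re) - c := by
      have e' : ∀ d : F, d = 2 * c.re → star c = sc d - c := by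
        intro d hd
        ext
        · simp
          rw [hd]
          ring
        · simp
        · simp
        · simp
      exact e' _ rfl
    have e4 : b * (z * star c) = sc (2 * c.re) * b * z - b * z * c := by
      rw [e3, mul_sub, mul_sub, ← mul_assoc, ← mul_assoc, ← sc_comm, mul_assoc (sc _) b z]
    rw [mul_sub, sub_mul, e1, e2, e4, h1, h2]
    abel
  by_contra hcon
  push Not at hcon
  have h0 : ∀ z : Hq s f, b * z - z * star c = 0 := by
    intro z
    by_contra hz
    exact hcon _ hz (key z)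
  have hb : b = star c := by
    have := h0 1
    rw [mul_one, one_mul] at this
    exact sub_eq_zero.1 this
  have hcen : ∀ z : Hq s f, star c * z = z * star c := by
    intro z
    have := h0 z
    rw [hb] at this
    exact sub_eq_zero.1 this
  have h4 := (comm_iff _ _).1 (hcen ⟨0, 1, 0, 0⟩)
  have h5 := (comm_iff _ _).1 (hcen ⟨0, 0, 1, 0⟩)
  simp at h4 h5
  rw [nc_iff] at hc
  rcases hc with h | h | h
  · exact h h5.2
  · exact h h4.2
  · exact h h4.1

/-- elements of norm one are commutators -/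
theorem commutator_of_nm_one {x : Hq s f} (hx : nm x = 1) : ∃ a c : (Hq s f)ˣ,
    x = ((a * c * a⁻¹ * c⁻¹ : (Hq s f)ˣ) : Hq s f) := by
  by_cases h1 : x = 1
  · exact ⟨1, 1, by rw [h1]; simp⟩
  let φ : Hq s f →ₗ[F] F :=
    { toFun := fun d => (x * d).re - d.re
      map_add' := by
        intro d e
        simp only [mul_add, QuaternionAlgebra.re_add]
        ring
      map_smul' := by
        intro l d
        simp only [mul_smul_comm, QuaternionAlgebra.re_smul, RingHom.id_apply, smul_eq_mul]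
        ring }
  have hker : LinearMap.ker φ ≠ ⊥ := LinearMap.ker_ne_bot_of_finrank_lt (by
    rw [QuaternionAlgebra.finrank_eq_four, Module.finrank_self]
    norm_num)
  obtain ⟨c, hc, hc0⟩ := (Submodule.ne_bot_iff _).1 hker
  have hc1 : (x * c).re = c.re := sub_eq_zero.1 (LinearMap.mem_ker.1 hc)
  have hlc : lf c ≠ 0 := by
    intro h0
    obtain ⟨l, rfl⟩ := central_of_lf h0
    have hl := sc_ne hc0
    rw [← sc_comm, QuaternionAlgebra.coe_mul_eq_smul, QuaternionAlgebra.re_smul, QuaternionAlgebra.re_coe,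
      smul_eq_mul] at hc1
    apply re_ne_one hx h1
    exact mul_left_cancel₀ hl (by rw [hc1, mul_one])
  obtain ⟨a, ha0, ha⟩ := conj_of_eq (b := x * c) hlc hc1 (by rw [nm_mul, hx, one_mul])
  refine ⟨Units.mk0 a ha0, Units.mk0 c hc0, ?_⟩
  rw [Units.val_mul, Units.val_mul, Units.val_mul, Units.val_inv_eq_inv_val, Units.val_inv_eq_inv_val, Units.val_mk0,
    Units.val_mk0, ← ha, mul_inv_cancel_right₀ ha0, mul_inv_cancel_right₀ hc0]

end

end Pool.Agent.H403.M
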