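import Mathlib
import Pool.Agent.H403.M.H7

/-! # Residues of symbols of level one (helper403) -/

set_option autoImplicit false
set_option linter.all false

noncomputable section

namespace Pool.Agent.H403.M

open Polynomial
open scoped commutatorElement
open Pool.Agent.TH132.W Pool.Agent.Y64.Cyc Pool.Agent.Helper18.Br Pool.Agent.H552R3.SymBr

section

variable {F : Type} [Field F] {s f : F} [hC : Con s f]

/-- a chosen completion -/
def pd (p : Pt s f) : PtD p := Classical.choice (exists_ptD p)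

/-- the residue map at a point of degree two -/
def dv (p : Pt s f) : MilnorK2 (CK s f) →+ Additive (kq p)ˣ := tL.comp (km (pd p).j)

theorem dv_sym (p : Pt s f) (a b : (CK s f)ˣ) : dv p (sym a b) = Additive.ofMul (tm (um (pd p).j a) (um (pd p).j b)) := by
  unfold dv
  rw [AddMonoidHom.comp_apply, km_sym, tL_sym]

/-- the quaternion `i` -/
def qi : Hq s f := ⟨0, 1, 0, 0⟩

omit hC in
theorem qi_nc : lf (qi : Hq s f) ≠ 0 := nc_iff.2 (Or.inl one_ne_zero)

omit hC in
theorem lf_qi : lf (qi : Hq s f) = 1 := by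
  unfold lf qi
  simp

theorem lq_qi : lq (qi : Hq s f) = 1 := by
  rw [lq_nc qi_nc]
  ext1
  change algebraMap _ _ (lf qi) = _
  rw [lf_qi, map_one, Units.val_one]

variable (s f) in
/-- the point at infinity -/
def pinf : Pt s f := pt qi qi_nc

theorem jD_nc (p : Pt s f) {x : Hq s f} (hx : lf x ≠ 0) (h : pt x hx ≠ p) : ∃ hm : (pd p).m x ≠ 0,
    od (um (pd p).j (lq x) * (pd p).D) = 0 ∧ lc (um (pd p).j (lq x) * (pd p).D) = Units.mk0 _ hm := by
  rw [lq_nc hx]
  exact (pd p).ju x hx (fun h1 => h ((pt_eq_iff hx).2 h1))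

theorem jD_c (p : Pt s f) {x : Hq s f} (hx : lf x ≠ 0) (h : pt x hx = p) :
    od (um (pd p).j (lq x) * (pd p).D) = 1 := by
  rw [lq_nc hx]
  exact (pd p).jn x hx ((pt_eq_iff hx).1 h)

open Classical in
theorem odD (p : Pt s f) : od (pd p).D = if pinf s f = p then 1 else 0 := by
  have e : (pd p).D = um (pd p).j (lq qi) * (pd p).D := by rw [lq_qi, map_one, one_mul]
  split_ifs with h
  · rw [e]
    exact jD_c p qi_nc h
  · rw [e]
    obtain ⟨_, h1, _⟩ := jD_nc p qi_nc h
    exact h1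

open Classical in
theorem odj (p : Pt s f) {x : Hq s f} (hx : lf x ≠ 0) :
    od (um (pd p).j (lq x)) = (if pt x hx = p then 1 else 0) - (if pinf s f = p then 1 else 0) := by
  have e : od (um (pd p).j (lq x)) = od (um (pd p).j (lq x) * (pd p).D) - od (pd p).D := by
    rw [od_mul]
    ring
  rw [e, odD]
  congr 1
  split_ifs with h
  · exact jD_c p hx h
  · obtain ⟨_, h1, _⟩ := jD_nc p hx h
    exact h1

theorem j_ku (p : Pt s f) (c : Fˣ) : um (pd p).j (ku s f c) = um cst (um (kk p) c) := by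
  ext1
  exact (pd p).jc c

theorem dv_const (p : Pt s f) (x : (CK s f)ˣ) (c : Fˣ) :
    dv p (sym x (ku s f c)) = Additive.ofMul ((um (kk p) c) ^ (- od (um (pd p).j x))) := by
  rw [dv_sym, j_ku]
  unfold tm
  rw [od_cst, lc_cst, mul_zero, zpow_zero, zpow_zero, one_mul, one_div, zpow_neg]

/-- the basic symbols -/
def ts (a b : Hq s f) : MilnorK2 (CK s f) := sym (lq a / lq (a * b)) (lq b / lq (a * b))

theorem tmk_ts (a b : Hq s f) : tmk s f (ts a b) = tau a b := by
  unfold ts tau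
  have h : sym (lq a / lq (a * b)) (lq b / lq (a * b)) = sym (lq a) (lq b) - sym (lq a) (lq (a * b)) -
      (sym (lq (a * b)) (lq b) - sym (lq (a * b)) (lq (a * b))) := by
    rw [sym_div_left, sym_div_right, sym_div_right]
  rw [h, map_sub, map_sub, map_sub]
  change bb (lq a) (lq b) - bb (lq a) (lq (a * b)) - (bb (lq (a * b)) (lq b) - bb (lq (a * b)) (lq (a * b))) = _
  rw [bb_self (lq_mem _), sub_zero]

theorem comm_trans {a b n : Hq s f} (hn : lf n ≠ 0) (ha : a * n = n * a) (hb : b * n = n * b) : a * b = b * a := by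
  obtain ⟨p₁, q₁, rfl⟩ := comm_span hn ha
  obtain ⟨p₂, q₂, rfl⟩ := comm_span hn hb
  have e : (sc q₁ * n) * (sc q₂ * n) = (sc q₂ * n) * (sc q₁ * n) := by
    rw [mul_assoc, ← mul_assoc n, ← sc_comm q₂, mul_assoc (sc q₂) n (sc q₁ * n), ← mul_assoc n (sc q₁), ← sc_comm q₁ n,
      ← mul_assoc, ← mul_assoc, ← mul_assoc, ← mul_assoc, sc_comm q₁ (sc q₂)]
  rw [add_mul, mul_add, mul_add, add_mul, mul_add, mul_add, e, ← sc_mul, ← sc_mul, mul_comm p₁ p₂,
    sc_comm p₂ (sc q₁ * n), ← sc_comm p₁ (sc q₂ * n)]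
  abel

section pairs

variable {a b : Hq s f} (h : a * b ≠ b * a)

include h

theorem pair_a : lf a ≠ 0 := by
  intro h0
  obtain ⟨l, rfl⟩ := central_of_lf h0
  exact h (sc_comm _ _)

theorem pair_b : lf b ≠ 0 := by
  intro h0
  obtain ⟨l, rfl⟩ := central_of_lf h0
  exact h (sc_comm _ _).symm

theorem ne_a : a ≠ 0 := by
  rintro rfl
  exact pair_a h (lf_sc 0)

theorem ne_b : b ≠ 0 := by
  rintro rfl
  exact pair_b h (lf_sc 0)

theorem pair_ab : lf (a * b) ≠ 0 := by
  intro h0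
  obtain ⟨l, hl⟩ := central_of_lf h0
  apply h
  have h1 : b = a⁻¹ * sc l := by rw [← hl, inv_mul_cancel_left₀ (ne_a h)]
  rw [hl, h1, ← sc_comm, mul_assoc, inv_mul_cancel₀ (ne_a h), mul_one]

theorem pt_ab_ne : pt a (pair_a h) ≠ pt b (pair_b h) := by
  intro he
  have h2 : a * nrm b = nrm b * a := (pt_eq_iff (pair_a h)).1 he
  have h3 : b * nrm b = nrm b * b := nrm_comm (pair_b h)
  exact h (comm_trans (nrm_pu b).lf_ne h2 h3)

end pairs

theorem pt_eq_of_comm {a b : Hq s f} (ha : lf a ≠ 0) (hb : lf b ≠ 0) (h : a * b = b * a) : pt a ha = pt b hb := by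
  unfold pt
  simp only [Pt.mk.injEq]
  exact nrm_eq ha hb h

theorem pair_a_ab {a b : Hq s f} (h : a * b ≠ b * a) : a * (a * b) ≠ (a * b) * a := by
  intro h1
  rw [mul_assoc] at h1
  exact h (mul_left_cancel₀ (ne_a h) h1)

theorem pair_b_ab {a b : Hq s f} (h : a * b ≠ b * a) : b * (a * b) ≠ (a * b) * b := by
  intro h1
  rw [← mul_assoc] at h1
  exact h (mul_right_cancel₀ (ne_b h) h1).symm

theorem pt_a_ab {a b : Hq s f} (h : a * b ≠ b * a) : pt a (pair_a h) ≠ pt (a * b) (pair_ab h) :=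
  pt_ab_ne (pair_a_ab h)

theorem pt_b_ab {a b : Hq s f} (h : a * b ≠ b * a) : pt b (pair_b h) ≠ pt (a * b) (pair_ab h) :=
  pt_ab_ne (pair_b_ab h)

/-- reduction of the residue of a basic symbol -/
theorem dv_ts (p : Pt s f) (a b : Hq s f) : dv p (ts a b) = Additive.ofMul
    (tm ((um (pd p).j (lq a) * (pd p).D) / (um (pd p).j (lq (a * b)) * (pd p).D))
      ((um (pd p).j (lq b) * (pd p).D) / (um (pd p).j (lq (a * b)) * (pd p).D))) := by
  unfold ts
  rw [dv_sym, _root_.map_div, _root_.map_div, mul_div_mul_right_eq_div, mul_div_mul_right_eq_div]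

/-- residue at the first point -/
theorem dv_ts_a {a b : Hq s f} (h : a * b ≠ b * a) {p : Pt s f} (hp : pt a (pair_a h) = p) (μ : kq p)
    (hμ : ep p μ = a) : ((dv p (ts a b)).toMul : kq p) = star μ := by
  have h1 := jD_c p (pair_a h) hp
  obtain ⟨hm2, h2, h2'⟩ := jD_nc p (pair_b h) (fun e => pt_ab_ne h (hp.trans e.symm))
  obtain ⟨hm3, h3, h3'⟩ := jD_nc p (pair_ab h) (fun e => pt_a_ab h (hp.trans e.symm))
  rw [dv_ts, toMul_ofMul]
  unfold tm
  rw [od_div, od_div, h1, h2, h3, lc_div, lc_div, h2', h3']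
  simp only [sub_zero, mul_zero, zpow_zero, one_mul, zpow_one, one_div, inv_div]
  rw [Units.val_div_eq_div_val, Units.val_mk0, Units.val_mk0]
  rw [div_eq_iff hm2]
  conv_lhs => rw [← hμ]
  exact (pd p).ml b μ

/-- residue at the second point -/
theorem dv_ts_b {a b : Hq s f} (h : a * b ≠ b * a) {p : Pt s f} (hp : pt b (pair_b h) = p) (μ : kq p)
    (hμ : ep p μ = b) : ((dv p (ts a b)).toMul : kq p) = μ⁻¹ := by
  have h1 := jD_c p (pair_b h) hp
  obtain ⟨hm2, h2, h2'⟩ := jD_nc p (pair_a h) (fun e => pt_ab_ne h (e.trans hp.symm))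
  obtain ⟨hm3, h3, h3'⟩ := jD_nc p (pair_ab h) (fun e => pt_b_ab h (hp.trans e.symm))
  rw [dv_ts, toMul_ofMul]
  unfold tm
  rw [od_div, od_div, h1, h2, h3, lc_div, lc_div, h2', h3']
  simp only [sub_zero, mul_one, zpow_zero, one_mul, zpow_one, div_one]
  rw [Units.val_div_eq_div_val, Units.val_mk0, Units.val_mk0]
  have e : (pd p).m (a * b) = (pd p).m a * μ := by
    conv_lhs => rw [← hμ]
    exact (pd p).mr a μ
  rw [e]
  have hm4 : (pd p).m a * μ ≠ 0 := by rw [← e]; exact hm3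
  rw [div_eq_iff hm4, mul_comm, mul_assoc, mul_inv_cancel₀ (right_ne_zero_of_mul hm4), mul_one]

theorem grp_aux {G : Type} [CommGroup G] (L x y : G) : L / x / (L / y) = y / x := by
  rw [div_div_div_eq, mul_comm L y, mul_div_mul_right_eq_div]

/-- residue at the third point -/
theorem dv_ts_ab {a b : Hq s f} (h : a * b ≠ b * a) {p : Pt s f} (hp : pt (a * b) (pair_ab h) = p) (μ : kq p)
    (hμ : ep p μ = a * b) : ((dv p (ts a b)).toMul : kq p) * kk p (nm a) = μ := by
  have h1 := jD_c p (pair_ab h) hp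
  obtain ⟨hm2, h2, h2'⟩ := jD_nc p (pair_a h) (fun e => pt_a_ab h (e.trans hp.symm))
  obtain ⟨hm3, h3, h3'⟩ := jD_nc p (pair_b h) (fun e => pt_b_ab h (e.trans hp.symm))
  rw [dv_ts, toMul_ofMul]
  unfold tm
  rw [od_div, od_div, h1, h2, h3, lc_div, lc_div, h2', h3']
  have hb := ne_b h
  have hnb : kk p (nm b) ≠ 0 := (_root_.map_ne_zero _).2 (nm_ne hb)
  have e1 : kk p (nm b) * (pd p).m a = - (star μ * (pd p).m b) := by
    have e2 : a * sc (nm b) = ep p μ * star b := by
      rw [hμ, mul_assoc, mul_star']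
    have e3 : (pd p).m (a * sc (nm b)) = (pd p).m a * kk p (nm b) := by
      rw [← eH_coe p.pu]
      exact (pd p).mr a _
    rw [mul_comm, ← e3, e2, (pd p).ml, (pd p).mst]
    ring
  have e4 : μ * star μ = kk p (nm a) * kk p (nm b) := by
    rw [← map_mul, ← nm_mul, ← hμ, eH_nm, QuadraticAlgebra.algebraMap_norm_eq_mul_star]
  generalize hLab : lc (um (pd p).j (lq (a * b)) * (pd p).D) = L
  rw [show (0 : ℤ) - 1 = -1 by ring, show (-1 : ℤ) * -1 = 1 by ring, zpow_one, zpow_neg_one, zpow_neg_one, inv_div, inv_div,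
    grp_aux, Units.val_mul, Units.val_div_eq_div_val, Units.val_mk0, Units.val_mk0, Units.val_neg,
    Units.val_one]
  have e5 : μ * (pd p).m a = - (kk p (nm a) * (pd p).m b) := by
    apply mul_left_cancel₀ hnb
    calc kk p (nm b) * (μ * (pd p).m a) = μ * (kk p (nm b) * (pd p).m a) := by ring
      _ = μ * (-(star μ * (pd p).m b)) := by rw [e1]
      _ = -((μ * star μ) * (pd p).m b) := by ring
      _ = -((kk p (nm a) * kk p (nm b)) * (pd p).m b) := by rw [e4]
      _ = _ := by ring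
  rw [← mul_div_assoc, div_mul_eq_mul_div, div_eq_iff hm2, e5]
  ring

/-- residue elsewhere -/
theorem dv_ts_other {a b : Hq s f} (h : a * b ≠ b * a) {p : Pt s f} (h1 : pt a (pair_a h) ≠ p) (h2 : pt b (pair_b h) ≠ p)
    (h3 : pt (a * b) (pair_ab h) ≠ p) : dv p (ts a b) = 0 := by
  obtain ⟨_, e1, _⟩ := jD_nc p (pair_a h) h1
  obtain ⟨_, e2, _⟩ := jD_nc p (pair_b h) h2
  obtain ⟨_, e3, _⟩ := jD_nc p (pair_ab h) h3
  rw [dv_ts, tm_units (by rw [od_div, e1, e3, sub_zero]) (by rw [od_div, e2, e3, sub_zero]), ofMul_one]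

end

end Pool.Agent.H403.M
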