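import Mathlib
import Pool.Agent.H403.M.H8

/-! # Symbols of level one with trivial residues (helper403) -/

set_option autoImplicit false
set_option linter.all false

noncomputable section

namespace Pool.Agent.H403.M

open Polynomial
open scoped commutatorElement
open Pool.Agent.TH132.W Pool.Agent.Y64.Cyc Pool.Agent.Helper18.Br Pool.Agent.H552R3.SymBr

section

variable {F : Type} [Field F] {s f : F} [hC : Con s f]

/-- the units of the residue field in the quaternion group -/
abbrev eu (p : Pt s f) : (kq p)ˣ →* (Hq s f)ˣ := Units.map (ep p : kq p →* Hq s f)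

theorem eu_comm (p : Pt s f) (u v : (kq p)ˣ) : eu p u * eu p v = eu p v * eu p u := by
  rw [← map_mul, ← map_mul, mul_comm u v]

/-- the local homomorphism to the central extension -/
def sgm (p : Pt s f) : (kq p)ˣ →* GH s f := MonoidHom.mk' (fun u => sg (eu p u)) (fun u v => by
  rw [map_mul, sg_mul_comm (eu_comm p u v)])

/-- the local homomorphism to the abelianization -/
def sgab (p : Pt s f) : (kq p)ˣ →* Abelianization (GH s f) := (Abelianization.of).comp (sgm p)

theorem sgab_eq (p : Pt s f) (u : (kq p)ˣ) (X : (Hq s f)ˣ) (h : ep p (u : kq p) = (X : Hq s f)) :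
    sgab p u = Abelianization.of (sg X) := by
  have : eu p u = X := by
    ext1
    exact h
  rw [← this]
  rfl

/-- scalars as units -/
def scu (c : Fˣ) : (Hq s f)ˣ := Units.mk0 (sc (c : F)) (by
  intro h
  exact c.ne_zero (congrArg QuaternionAlgebra.re h))

theorem sgab_kk (p : Pt s f) (c : Fˣ) : sgab p (um (kk p) c) = Abelianization.of (sg (scu c)) := by
  apply sgab_eq
  rw [um_val]
  exact eH_coe p.pu (c : F)

open Classical in
/-- the total transfer -/
def Th (S : Finset (Pt s f)) (v : MilnorK2 (CK s f)) : Abelianization (GH s f) := ∏ p ∈ S, sgab p (dv p v).toMul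

theorem Th_add (S : Finset (Pt s f)) (v w : MilnorK2 (CK s f)) : Th S (v + w) = Th S v * Th S w := by
  unfold Th
  rw [← Finset.prod_mul_distrib]
  refine Finset.prod_congr rfl fun p _ => ?_
  rw [map_add, toMul_add, map_mul]

theorem Th_zero (S : Finset (Pt s f)) : Th S (0 : MilnorK2 (CK s f)) = 1 := by
  unfold Th
  refine Finset.prod_eq_one fun p _ => ?_
  rw [map_zero, toMul_zero, map_one]

theorem Th_neg (S : Finset (Pt s f)) (v : MilnorK2 (CK s f)) : Th S (-v) = (Th S v)⁻¹ := by
  apply eq_inv_of_mul_eq_one_left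
  rw [← Th_add, neg_add_cancel, Th_zero]

/-- the central subgroup in the abelianization -/
def ioa (t : TT s f) : Abelianization (GH s f) := Abelianization.of (io t)

theorem ioa_add (t u : TT s f) : ioa (t + u) = ioa t * ioa u := by
  unfold ioa
  rw [io_add, map_mul]

theorem ioa_zero : ioa (0 : TT s f) = 1 := by
  unfold ioa
  rw [io_zero, map_one]

theorem ioa_neg (t : TT s f) : ioa (-t) = (ioa t)⁻¹ := by
  apply eq_inv_of_mul_eq_one_left
  rw [← ioa_add, neg_add_cancel, ioa_zero]

theorem ioa_inj {t : TT s f} (h : ioa t = 1) : t = 0 := by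
  apply io_mem_commutator
  have h1 : io t ∈ (Abelianization.of (G := GH s f)).ker := h
  rwa [Abelianization.ker_of] at h1

/-- the transfer formula -/
def TF (v : MilnorK2 (CK s f)) : Prop :=
  ∃ S₀ : Finset (Pt s f), ∀ S : Finset (Pt s f), S₀ ⊆ S → Th S v = ioa (- tmk s f v)

theorem TF_zero : TF (0 : MilnorK2 (CK s f)) := ⟨∅, fun S _ => by rw [Th_zero, map_zero, neg_zero, ioa_zero]⟩

theorem TF_add {v w : MilnorK2 (CK s f)} (hv : TF v) (hw : TF w) : TF (v + w) := by
  classical
  obtain ⟨S, hS⟩ := hv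
  obtain ⟨S', hS'⟩ := hw
  refine ⟨S ∪ S', fun R hR => ?_⟩
  rw [Th_add, hS R (Finset.subset_union_left.trans hR), hS' R (Finset.subset_union_right.trans hR), ← ioa_add, map_add]
  congr 1
  abel

theorem TF_neg {v : MilnorK2 (CK s f)} (hv : TF v) : TF (-v) := by
  obtain ⟨S, hS⟩ := hv
  refine ⟨S, fun R hR => ?_⟩
  rw [Th_neg, hS R hR, ← ioa_neg, map_neg]

variable (s f) in
/-- the subgroup on which the transfer formula holds -/
def TFs : AddSubgroup (MilnorK2 (CK s f)) where
  carrier := {v | TF v}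
  zero_mem' := TF_zero
  add_mem' := TF_add
  neg_mem' := TF_neg

/-- a noncentral element is a residue at its point -/
theorem exists_mu {x : Hq s f} (hx : lf x ≠ 0) {p : Pt s f} (hp : pt x hx = p) : ∃ μ : kq p, ep p μ = x :=
  eH_surj p.pu ((pt_eq_iff hx).1 hp)

theorem mu_ne {p : Pt s f} {μ : kq p} {x : Hq s f} (hμ : ep p μ = x) (hx : x ≠ 0) : μ ≠ 0 := by
  rintro rfl
  rw [map_zero] at hμ
  exact hx hμ.symm

theorem sg_inv (a : (Hq s f)ˣ) : sg a⁻¹ = (sg a)⁻¹ := by
  apply eq_inv_of_mul_eq_one_left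
  rw [sg_mul_comm (by rw [inv_mul_cancel, mul_inv_cancel]), inv_mul_cancel]
  rfl

theorem scu_comm (c : Fˣ) (a : (Hq s f)ˣ) : scu c * a = a * scu c := by
  ext1
  exact sc_comm _ _

theorem ts_TF {a b : (Hq s f)ˣ} (h : (a : Hq s f) * (b : Hq s f) ≠ (b : Hq s f) * (a : Hq s f)) :
    TF (ts (a : Hq s f) (b : Hq s f)) := by
  classical
  let pa := pt _ (pair_a h)
  let pb := pt _ (pair_b h)
  let pc := pt _ (pair_ab h)
  obtain ⟨μ, hμ⟩ := exists_mu (p := pa) (pair_a h) rfl
  obtain ⟨ν, hν⟩ := exists_mu (p := pb) (pair_b h) rfl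
  obtain ⟨ξ, hξ⟩ := exists_mu (p := pc) (pair_ab h) rfl
  have na : nm (a : Hq s f) ≠ 0 := nm_ne a.ne_zero
  refine ⟨{pa, pb, pc}, fun S hS => ?_⟩
  have h1 : Th S (ts (a : Hq s f) (b : Hq s f)) = Th {pa, pb, pc} (ts (a : Hq s f) (b : Hq s f)) := by
    unfold Th
    symm
    refine Finset.prod_subset hS fun p _ hp => ?_
    simp only [Finset.mem_insert, Finset.mem_singleton, not_or] at hp
    rw [dv_ts_other h (fun e => hp.1 e.symm) (fun e => hp.2.1 e.symm) (fun e => hp.2.2 e.symm), toMul_zero, map_one]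
  have hab : pa ≠ pb := pt_ab_ne h
  have hac : pa ≠ pc := pt_a_ab h
  have hbc : pb ≠ pc := pt_b_ab h
  rw [h1]
  unfold Th
  rw [Finset.prod_insert (by simp [hab, hac]), Finset.prod_insert (by simp [hbc]), Finset.prod_singleton]
  let n : (Hq s f)ˣ := scu (Units.mk0 _ na)
  have e1 : sgab pa (dv pa (ts (a : Hq s f) (b : Hq s f))).toMul = Abelianization.of (sg n * (sg a)⁻¹) := by
    rw [sgab_eq pa _ (n * a⁻¹), ← sg_inv, sg_mul_comm (scu_comm _ _)]
    rw [dv_ts_a h rfl μ hμ, eH_star, hμ, Units.val_mul, Units.val_inv_eq_inv_val]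
    change _ = sc (nm (a : Hq s f)) * _
    rw [← star_mul', mul_inv_cancel_right₀ a.ne_zero]
  have e2 : sgab pb (dv pb (ts (a : Hq s f) (b : Hq s f))).toMul = Abelianization.of (sg b)⁻¹ := by
    rw [sgab_eq pb _ b⁻¹, ← sg_inv]
    rw [dv_ts_b h rfl ν hν, Units.val_inv_eq_inv_val, map_inv₀, hν]
  have e3 : sgab pc (dv pc (ts (a : Hq s f) (b : Hq s f))).toMul = Abelianization.of (sg (a * b) * (sg n)⁻¹) := by
    rw [sgab_eq pc _ (a * b * n⁻¹), ← sg_inv, sg_mul_comm (by
      rw [← inv_inj, mul_inv_rev, mul_inv_rev, inv_inv]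
      exact scu_comm _ _)]
    have h4 := dv_ts_ab h (p := pc) rfl ξ hξ
    have h5 : ((dv pc (ts (a : Hq s f) (b : Hq s f))).toMul : kq pc) = ξ * (kk pc (nm (a : Hq s f)))⁻¹ := by
      rw [← h4, mul_inv_cancel_right₀ ((_root_.map_ne_zero _).2 na)]
    rw [h5, map_mul, hξ, map_inv₀, Units.val_mul, Units.val_mul, Units.val_inv_eq_inv_val]
    congr 2
    exact eH_coe pc.pu _
  rw [e1, e2, e3, ioa_neg]
  unfold ioa
  rw [tmk_ts]
  have e4 : io (tau (a : Hq s f) (b : Hq s f)) = sg a * sg b * (sg (a * b))⁻¹ := by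
    rw [sg_mul, mul_inv_cancel_right]
  rw [e4]
  simp only [map_mul, map_inv, mul_inv, inv_inv]
  generalize Abelianization.of (sg n) = x
  generalize Abelianization.of (sg a) = y
  generalize Abelianization.of (sg b) = z
  generalize Abelianization.of (sg (a * b)) = w
  calc x * y⁻¹ * (z⁻¹ * (w * x⁻¹)) = (x * x⁻¹) * (y⁻¹ * z⁻¹ * w) := by ac_rfl
    _ = y⁻¹ * z⁻¹ * w := by rw [mul_inv_cancel, one_mul]

theorem const_TF {x : Hq s f} (hx : lf x ≠ 0) (c : Fˣ) : TF (sym (lq x) (ku s f c)) := by
  classical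
  refine ⟨{pt x hx, pinf s f}, fun S hS => ?_⟩
  have h1 : tmk s f (sym (lq x) (ku s f c)) = 0 := bb_ku_right (lq_mem x) c
  rw [h1, neg_zero, ioa_zero]
  unfold Th
  have h2 : ∀ p ∈ S, sgab p (dv p (sym (lq x) (ku s f c))).toMul =
      (Abelianization.of (sg (scu c))) ^ ((if pinf s f = p then (1 : ℤ) else 0) - (if pt x hx = p then 1 else 0)) := by
    intro p _
    rw [dv_const, toMul_ofMul, map_zpow, sgab_kk, odj p hx, neg_sub]
  rw [Finset.prod_congr rfl h2]
  have h3 : ∀ q ∈ S, ∏ p ∈ S, (Abelianization.of (sg (scu c)) : Abelianization (GH s f)) ^ (if q = p then (1 : ℤ) else 0) =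
      Abelianization.of (sg (scu c)) := by
    intro q hq
    rw [Finset.prod_eq_single q]
    · rw [if_pos rfl, zpow_one]
    · intro p _ hp
      rw [if_neg (Ne.symm hp), zpow_zero]
    · intro h
      exact absurd hq h
  simp only [zpow_sub]
  rw [Finset.prod_mul_distrib, Finset.prod_inv_distrib, h3 _ (hS (by simp)), h3 _ (hS (by simp)), mul_inv_cancel]

variable (s f) in
/-- generators of the group of symbols of level one -/
def G1 : AddSubgroup (MilnorK2 (CK s f)) := AddSubgroup.closure
  ({v | ∃ a b : (Hq s f)ˣ, (a : Hq s f) * (b : Hq s f) ≠ (b : Hq s f) * (a : Hq s f) ∧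
    v = ts (a : Hq s f) (b : Hq s f)} ∪ {v | ∃ (x : Hq s f) (_ : lf x ≠ 0) (c : Fˣ), v = sym (lq x) (ku s f c)})

theorem G1_c {x : Hq s f} (hx : lf x ≠ 0) (c : Fˣ) : sym (lq x) (ku s f c) ∈ G1 s f :=
  AddSubgroup.subset_closure (Or.inr ⟨x, hx, c, rfl⟩)

theorem ku_lq (c : Fˣ) : ku s f c = lq (sc (c : F) * qi) := by
  have h1 : lf (sc (c : F) * qi : Hq s f) = kr (c : F) := by rw [lf_smul, lf_qi, mul_one]
  have h2 : lf (sc (c : F) * qi : Hq s f) ≠ 0 := by rw [h1]; exact kc_ne c.ne_zero
  rw [lq_nc h2]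
  ext1
  change ci s f (c : F) = algebraMap _ _ (lf (sc (c : F) * qi : Hq s f))
  rw [h1]
  rfl

theorem ku_nc (c : Fˣ) : lf (sc (c : F) * qi : Hq s f) ≠ 0 := by
  rw [lf_smul, lf_qi, mul_one]
  exact kc_ne c.ne_zero

theorem G1_cc (c d : Fˣ) : sym (ku s f c) (ku s f d) ∈ G1 s f := by
  rw [ku_lq c]
  exact G1_c (ku_nc c) d

theorem G1_uc {u : (CK s f)ˣ} (hu : u ∈ Un s f 1) (c : Fˣ) : sym u (ku s f c) ∈ G1 s f := by
  induction hu using Subgroup.closure_induction with
  | mem x hx =>
    obtain ⟨z, hz, hl, rfl⟩ := hx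
    obtain ⟨a, ha, rfl⟩ := level_one_eq hl
    rw [← lq_nc hz]
    exact G1_c hz c
  | one => rw [sym_one_left]; exact zero_mem _
  | mul x y _ _ hx hy => rw [sym_mul_left]; exact add_mem hx hy
  | inv x _ hx => rw [sym_inv_left]; exact neg_mem hx

theorem G1_cu {u : (CK s f)ˣ} (hu : u ∈ Un s f 1) (c : Fˣ) : sym (ku s f c) u ∈ G1 s f := by
  rw [sym_swap]
  exact neg_mem (G1_uc hu c)

theorem lq_congr {a b : Hq s f} (h : lf a = lf b) : lq a = lq b := by
  by_cases h0 : lf b = 0
  · rw [lq_central h0, lq_central (h.trans h0)]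
  · have h1 : lf a ≠ 0 := by rw [h]; exact h0
    rw [lq_nc h0, lq_nc h1]
    ext1
    change algebraMap (CA s f) (CK s f) (lf a) = algebraMap (CA s f) (CK s f) (lf b)
    rw [h]

theorem G1_pair {x y : Hq s f} (hx : lf x ≠ 0) (hy : lf y ≠ 0) : sym (lq x) (lq y) ∈ G1 s f := by
  have mx := lq_mem x
  have my := lq_mem y
  by_cases hx0 : x.imJ = 0 ∧ x.imK = 0
  · have hi : x.imI ≠ 0 := by
      rcases nc_iff.1 hx with h | h | h
      · exact h
      · exact absurd hx0.1 h
      · exact absurd hx0.2 h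
    have e : lq x = ku s f (Units.mk0 _ hi) := by
      rw [lq_nc hx]
      ext1
      change algebraMap (CA s f) (CK s f) (lf x) = algebraMap (CA s f) (CK s f) (kr x.imI)
      refine congrArg _ ?_
      unfold lf
      rw [hx0.1, hx0.2, map_zero, zero_mul, zero_mul, add_zero, sub_zero]
    rw [e]
    exact G1_cu my _
  by_cases hy0 : y.imJ = 0 ∧ y.imK = 0
  · have hi : y.imI ≠ 0 := by
      rcases nc_iff.1 hy with h | h | h
      · exact h
      · exact absurd hy0.1 h
      · exact absurd hy0.2 h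
    have e : lq y = ku s f (Units.mk0 _ hi) := by
      rw [lq_nc hy]
      ext1
      change algebraMap (CA s f) (CK s f) (lf y) = algebraMap (CA s f) (CK s f) (kr y.imI)
      refine congrArg _ ?_
      unfold lf
      rw [hy0.1, hy0.2, map_zero, zero_mul, zero_mul, add_zero, sub_zero]
    rw [e]
    exact G1_uc mx _
  by_cases hdet : x.imJ * y.imK - x.imK * y.imJ = 0
  · -- proportional
    obtain ⟨q, hq1, hq2⟩ : ∃ q : F, y.imJ = q * x.imJ ∧ y.imK = q * x.imK := by
      by_cases h1 : x.imJ = 0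
      · have h2 : x.imK ≠ 0 := fun h => hx0 ⟨h1, h⟩
        refine ⟨y.imK / x.imK, ?_, ?_⟩
        · field_simp
          linear_combination -hdet
        · field_simp
      · refine ⟨y.imJ / x.imJ, ?_, ?_⟩
        · field_simp
        · field_simp
          linear_combination hdet
    have hq : q ≠ 0 := by
      rintro rfl
      exact hy0 ⟨by rw [hq1, zero_mul], by rw [hq2, zero_mul]⟩
    have hly : lf y = kr q * lf x + kr (y.imI - q * x.imI) := by
      unfold lf
      rw [hq1, hq2]
      simp only [map_mul, map_sub]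
      ring
    by_cases hd : y.imI - q * x.imI = 0
    · have e : lq y = ku s f (Units.mk0 q hq) * lq x := by
        rw [lq_nc hx, lq_nc hy]
        ext1
        rw [Units.val_mul]
        change algebraMap (CA s f) (CK s f) (lf y) = algebraMap (CA s f) (CK s f) (kr q) * algebraMap (CA s f) (CK s f) (lf x)
        rw [hly, hd, map_zero, add_zero, map_mul]
      rw [e, sym_mul_right, sym_self, ← ku_neg_one]
      exact add_mem (G1_uc mx _) (G1_uc mx _)
    · let d : Fˣ := Units.mk0 _ hd
      let r : Fˣ := -(Units.mk0 q hq / d)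
      have h0 : sym (ku s f r * lq x) (lq y / ku s f d) = 0 := by
        apply sym_steinberg
        rw [Units.val_div_eq_div_val, Units.val_mul, lq_nc hx, lq_nc hy]
        change ci s f (r : F) * algebraMap (CA s f) (CK s f) (lf x) + algebraMap (CA s f) (CK s f) (lf y) / ci s f (d : F) = 1
        have hd' : ci s f (d : F) ≠ 0 := (_root_.map_ne_zero _).2 hd
        have hr : ci s f (r : F) = - (ci s f q / ci s f (d : F)) := by
          change ci s f (((-(Units.mk0 q hq / d) : Fˣ)) : F) = _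
          rw [Units.val_neg, Units.val_div_eq_div_val, map_neg, map_div₀]
          rfl
        have hly' : algebraMap (CA s f) (CK s f) (lf y) = ci s f q * algebraMap (CA s f) (CK s f) (lf x) + ci s f (d : F) := by
          rw [hly, map_add, map_mul]
          rfl
        rw [hr, hly']
        field_simp
        ring
      rw [sym_mul_left, sym_div_right, sym_div_right] at h0
      have h1 : sym (lq x) (lq y) = sym (lq x) (ku s f d) - (sym (ku s f r) (lq y) - sym (ku s f r) (ku s f d)) := by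
        rw [← sub_eq_zero, ← h0]
        abel
      rw [h1]
      exact sub_mem (G1_uc mx _) (sub_mem (G1_cu my _) (G1_cc _ _))
  · -- general position
    let l : F := -((x.imJ * (x * y).imK - x.imK * (x * y).imJ)) / (x.imJ * y.imK - x.imK * y.imJ)
    let m : F := ((y.imJ * (x * y).imK - y.imK * (x * y).imJ)) / (x.imJ * y.imK - x.imK * y.imJ)
    have hl : l * (x.imJ * y.imK - x.imK * y.imJ) = -((x.imJ * (x * y).imK - x.imK * (x * y).imJ)) := div_mul_cancel₀ _ hdet
    have hm : m * (x.imJ * y.imK - x.imK * y.imJ) = ((y.imJ * (x * y).imK - y.imK * (x * y).imJ)) := div_mul_cancel₀ _ hdet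
    let a : Hq s f := x + sc l
    let b : Hq s f := y + sc m
    have hJ : (a * b).imJ = 0 := by
      have e : (a * b).imJ = (x * y).imJ + m * x.imJ + l * y.imJ := by
        simp only [a, b, add_mul, mul_add, ← sc_mul, ← sc_comm m x, QuaternionAlgebra.imJ_add,
          QuaternionAlgebra.coe_mul_eq_smul, QuaternionAlgebra.imJ_smul, QuaternionAlgebra.imJ_coe, smul_eq_mul]
        ring
      apply mul_right_cancel₀ hdet
      rw [e, zero_mul]
      linear_combination x.imJ * hm + y.imJ * hl
    have hK : (a * b).imK = 0 := by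
      have e : (a * b).imK = (x * y).imK + m * x.imK + l * y.imK := by
        simp only [a, b, add_mul, mul_add, ← sc_mul, ← sc_comm m x, QuaternionAlgebra.imK_add,
          QuaternionAlgebra.coe_mul_eq_smul, QuaternionAlgebra.imK_smul, QuaternionAlgebra.imK_coe, smul_eq_mul]
        ring
      apply mul_right_cancel₀ hdet
      rw [e, zero_mul]
      linear_combination x.imK * hm + y.imK * hl
    have hla : lf a = lf x := by rw [show a = x + sc l from rfl, lf_add, lf_sc, add_zero]
    have hlb : lf b = lf y := by rw [show b = y + sc m from rfl, lf_add, lf_sc, add_zero]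
    have hqa : lq a = lq x := lq_congr hla
    have hqb : lq b = lq y := lq_congr hlb
    have hne : a * b ≠ b * a := by
      intro h
      have h1 := ((comm_iff a b).1 h).1
      apply hdet
      simpa [a, b] using h1
    have ha0 := ne_a hne
    have hb0 := ne_b hne
    have hab : ∃ c : Fˣ, lq (a * b) = ku s f c := by
      by_cases h0 : lf (a * b) = 0
      · exact ⟨1, by rw [lq_central h0, map_one]⟩
      · have hi : (a * b).imI ≠ 0 := by
          rcases nc_iff.1 h0 with h | h | h
          · exact h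
          · exact absurd hJ h
          · exact absurd hK h
        refine ⟨Units.mk0 _ hi, ?_⟩
        rw [lq_nc h0]
        ext1
        change algebraMap (CA s f) (CK s f) (lf (a * b)) = algebraMap (CA s f) (CK s f) (kr (a * b).imI)
        refine congrArg _ ?_
        unfold lf
        rw [hJ, hK, map_zero, zero_mul, zero_mul, add_zero, sub_zero]
    obtain ⟨c, hc⟩ := hab
    have ht : ts a b ∈ G1 s f := AddSubgroup.subset_closure (Or.inl ⟨Units.mk0 a ha0, Units.mk0 b hb0, hne, rfl⟩)
    unfold ts at ht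
    rw [hc, hqa, hqb, sym_div_left, sym_div_right, sym_div_right] at ht
    have h1 : sym (lq x) (lq y) = (sym (lq x) (lq y) - sym (lq x) (ku s f c) -
        (sym (ku s f c) (lq y) - sym (ku s f c) (ku s f c))) + sym (lq x) (ku s f c) +
          (sym (ku s f c) (lq y) - sym (ku s f c) (ku s f c)) := by abel
    rw [h1]
    exact add_mem (add_mem ht (G1_uc mx _)) (sub_mem (G1_cu my _) (G1_cc _ _))

theorem Mn_le_G1 : Mn s f 1 ≤ G1 s f := by
  unfold Mn
  rw [AddSubgroup.closure_le]
  rintro v ⟨z, w, hz, hw, lz, lw, rfl⟩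
  obtain ⟨a, ha, rfl⟩ := level_one_eq lz
  obtain ⟨b, hb, rfl⟩ := level_one_eq lw
  rw [← lq_nc hz, ← lq_nc hw]
  exact G1_pair hz hw

theorem G1_TF {v : MilnorK2 (CK s f)} (hv : v ∈ G1 s f) : TF v := by
  have hle : G1 s f ≤ TFs s f := by
    unfold G1
    rw [AddSubgroup.closure_le]
    rintro v (⟨a, b, h, rfl⟩ | ⟨x, hx, c, rfl⟩)
    · exact ts_TF h
    · exact const_TF hx c
  exact hle hv

/-- an element of level one with trivial residues is a sum of symbols with a constant entry -/
theorem mem_S0_of_dv {v : MilnorK2 (CK s f)} (hv : v ∈ Mn s f 1) (h : ∀ p, dv p v = 0) : v ∈ S0 s f := by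
  obtain ⟨S, hS⟩ := G1_TF (Mn_le_G1 hv)
  have h1 := hS S subset_rfl
  have h2 : Th S v = 1 := by
    unfold Th
    refine Finset.prod_eq_one fun p _ => ?_
    rw [h p, toMul_zero, map_one]
  rw [h2] at h1
  have h3 := ioa_inj h1.symm
  rw [neg_eq_zero, tmk_eq_zero] at h3
  exact h3

end

end Pool.Agent.H403.M
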