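import Mathlib
import Pool.Agent.H403.M.H9

/-! # Elements of `K₂` of the function field of a conic with square residues (helper403) -/

set_option autoImplicit false
set_option linter.all false

noncomputable section

namespace Pool.Agent.H403.M

open Polynomial
open scoped commutatorElement
open Pool.Agent.TH132.W Pool.Agent.Y64.Cyc Pool.Agent.Helper18.Br Pool.Agent.H552R3.SymBr

section

variable {F : Type} [Field F] {s f : F} [hC : Con s f]

theorem dv_cc (p : Pt s f) (x : MilnorK2 F) : dv p (km (ci s f) x) = 0 := by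
  induction x using k2_induction with
  | h0 => rw [map_zero, map_zero]
  | hs a b =>
    rw [km_sym]
    change dv p (sym (ku s f a) (ku s f b)) = 0
    rw [dv_const, j_ku, od_cst, neg_zero, zpow_zero, ofMul_one]
  | ha x y hx hy => rw [map_add, map_add, hx, hy, add_zero]

open Classical in
theorem dv_r (p q : Pt s f) (c : Fˣ) : dv p (sym (lq q.r) (ku s f c)) =
    Additive.ofMul ((um (kk p) c) ^ ((if pinf s f = p then (1 : ℤ) else 0) - (if q = p then 1 else 0))) := by
  have h : pt q.r q.pu.lf_ne = q := by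
    rw [pt_eq_iff]
  rw [dv_const, odj p q.pu.lf_ne, neg_sub, h]

theorem kk_inj (p : Pt s f) {c : Fˣ} (h : um (kk p) c = 1) : c = 1 := by
  ext1
  have h1 := congrArg (fun x : (kq p)ˣ => (x : kq p)) h
  simp only [um_val, Units.val_one] at h1
  rw [← map_one (kk p)] at h1
  exact (kk p).injective h1

/-- a sum of symbols with a constant entry with trivial residues is constant -/
theorem mem_range_of_S0 {v : MilnorK2 (CK s f)} (hv : v ∈ S0 s f) (h : ∀ p, dv p v = 0) :
    ∃ y : MilnorK2 F, v = km (ci s f) y := by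
  classical
  let W : Finset (Pt s f) → AddSubgroup (MilnorK2 (CK s f)) := fun S =>
    (km (ci s f)).range ⊔ AddSubgroup.closure {v | ∃ p ∈ S, ∃ c : Fˣ, v = sym (lq p.r) (ku s f c)}
  have hWm : ∀ S S' : Finset (Pt s f), S ⊆ S' → W S ≤ W S' := by
    intro S S' hS
    refine sup_le_sup le_rfl (AddSubgroup.closure_mono ?_)
    rintro v ⟨p, hp, c, rfl⟩
    exact ⟨p, hS hp, c, rfl⟩
  have hcc : ∀ S (c d : Fˣ), sym (ku s f c) (ku s f d) ∈ W S := fun S c d =>
    (le_sup_left : _ ≤ W S) ⟨sym c d, km_sym _ _ _⟩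
  have hex : ∃ S : Finset (Pt s f), pinf s f ∉ S ∧ v ∈ W S := by
    clear h
    induction hv using AddSubgroup.closure_induction with
    | mem v hv =>
      obtain ⟨z, hz, c, hl, rfl⟩ := hv
      obtain ⟨x, hx, rfl⟩ := level_one_eq hl
      rw [← lq_nc hz]
      have hc : x * (pt x hz).r = (pt x hz).r * x := (pt_eq_iff hz).1 rfl
      obtain ⟨d, hd⟩ := lq_comm hz (pt x hz).pu.lf_ne hc
      by_cases hp : pt x hz = pinf s f
      · refine ⟨∅, by simp, ?_⟩
        have hc2 : (pt x hz).r * qi = qi * (pt x hz).r := by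
          have := (pt_eq_iff qi_nc).1 hp.symm
          exact this.symm
        obtain ⟨e, he⟩ := lq_comm (pt x hz).pu.lf_ne qi_nc hc2
        rw [hd, he, lq_qi, mul_one, ← map_mul]
        exact hcc _ _ _
      · refine ⟨{pt x hz}, by simpa using fun h => hp h.symm, ?_⟩
        rw [hd, sym_mul_left]
        exact add_mem (hcc _ _ _) ((le_sup_right : _ ≤ W _) (AddSubgroup.subset_closure ⟨_, by simp, c, rfl⟩))
    | zero => exact ⟨∅, by simp, zero_mem _⟩
    | add x y _ _ hx hy =>
      obtain ⟨S, hS, hx⟩ := hx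
      obtain ⟨S', hS', hy⟩ := hy
      exact ⟨S ∪ S', by simp [hS, hS'], add_mem (hWm _ _ Finset.subset_union_left hx)
        (hWm _ _ Finset.subset_union_right hy)⟩
    | neg x _ hx =>
      obtain ⟨S, hS, hx⟩ := hx
      exact ⟨S, hS, neg_mem hx⟩
  obtain ⟨S, hS, hvS⟩ := hex
  have hker : ∀ (S : Finset (Pt s f)) (p : Pt s f), pinf s f ≠ p → p ∉ S → ∀ w ∈ W S, dv p w = 0 := by
    intro S p hp hpS w hw
    have hle : W S ≤ (dv p).ker := by
      refine sup_le ?_ ?_
      · rintro _ ⟨y, rfl⟩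
        exact dv_cc p y
      · rw [AddSubgroup.closure_le]
        rintro _ ⟨q, hq, c, rfl⟩
        change dv p _ = 0
        rw [dv_r, if_neg hp, if_neg (fun e => hpS (by rw [← e]; exact hq)), sub_zero, zpow_zero, ofMul_one]
    exact hle hw
  have key : ∀ S : Finset (Pt s f), pinf s f ∉ S → ∀ v ∈ W S, (∀ p, dv p v = 0) → ∃ y : MilnorK2 F, v = km (ci s f) y := by
    intro S
    induction S using Finset.induction_on with
    | empty =>
      intro _ v hv _
      have : {v : MilnorK2 (CK s f) | ∃ p ∈ (∅ : Finset (Pt s f)), ∃ c : Fˣ, v = sym (lq p.r) (ku s f c)} = ∅ := by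
        ext x
        simp
      change v ∈ (km (ci s f)).range ⊔ _ at hv
      rw [this, AddSubgroup.closure_empty, sup_bot_eq] at hv
      obtain ⟨y, hy⟩ := hv
      exact ⟨y, hy.symm⟩
    | insert p S hpS ih =>
      intro hinf v hv h
      have hpi : pinf s f ≠ p := by
        rintro rfl
        exact hinf (Finset.mem_insert_self _ _)
      have hdec : ∃ w ∈ W S, ∃ c : Fˣ, v = w + sym (lq p.r) (ku s f c) := by
        let R : AddSubgroup (MilnorK2 (CK s f)) :=
          { carrier := {x | ∃ w ∈ W S, ∃ c : Fˣ, x = w + sym (lq p.r) (ku s f c)}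
            zero_mem' := ⟨0, zero_mem _, 1, by rw [map_one, sym_one_right, add_zero]⟩
            add_mem' := by
              rintro x y ⟨w, hw, u, rfl⟩ ⟨w', hw', u', rfl⟩
              refine ⟨w + w', add_mem hw hw', u * u', ?_⟩
              rw [map_mul, sym_mul_right]
              abel
            neg_mem' := by
              rintro x ⟨w, hw, u, rfl⟩
              refine ⟨-w, neg_mem hw, u⁻¹, ?_⟩
              rw [map_inv, sym_inv_right]
              abel }
        have hle : W (insert p S) ≤ R := by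
          refine sup_le ?_ ?_
          · intro x hx
            exact ⟨x, (le_sup_left : _ ≤ W S) hx, 1, by rw [map_one, sym_one_right, add_zero]⟩
          · rw [AddSubgroup.closure_le]
            rintro x ⟨q, hq, c, rfl⟩
            rcases Finset.mem_insert.1 hq with h | h
            · subst h
              exact ⟨0, zero_mem _, c, by rw [zero_add]⟩
            · exact ⟨sym (lq q.r) (ku s f c), (le_sup_right : _ ≤ W S) (AddSubgroup.subset_closure ⟨q, h, c, rfl⟩), 1,
                by rw [map_one, sym_one_right, add_zero]⟩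
        exact hle hv
      obtain ⟨w, hw, c, rfl⟩ := hdec
      have h1 := h p
      rw [map_add, hker S p hpi hpS w hw, zero_add, dv_r, if_neg hpi, if_pos rfl, zero_sub, zpow_neg_one] at h1
      have h2 : um (kk p) c = 1 := by
        have : (um (kk p) c)⁻¹ = 1 := h1
        rwa [inv_eq_one] at this
      have h3 := kk_inj p h2
      rw [h3, map_one, sym_one_right, add_zero] at h ⊢
      exact ih (fun h => hinf (Finset.mem_insert_of_mem h)) w hw h
  exact key S hS v hvS h

/-- all residues at points of degree two -/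
def dall : MilnorK2 (CK s f) →+ ((p : Pt s f) → Additive (kq p)ˣ) := Pi.addMonoidHom (fun p => dv p)

theorem dall_apply (v : MilnorK2 (CK s f)) (p : Pt s f) : dall v p = dv p v := rfl

variable (s f) in
/-- the cokernel of the residues -/
def QQ' : Type := ((p : Pt s f) → Additive (kq p)ˣ) ⧸ (AddSubgroup.map dall (Mn s f 1))

instance : AddCommGroup (QQ' s f) :=
  inferInstanceAs (AddCommGroup (((p : Pt s f) → Additive (kq p)ˣ) ⧸ (AddSubgroup.map dall (Mn s f 1))))

variable (s f) in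
/-- the projection -/
def qmk : ((p : Pt s f) → Additive (kq p)ˣ) →+ QQ' s f := QuotientAddGroup.mk' (AddSubgroup.map dall (Mn s f 1))

theorem qmk_eq_zero {d : (p : Pt s f) → Additive (kq p)ˣ} : qmk s f d = 0 ↔ d ∈ AddSubgroup.map dall (Mn s f 1) :=
  QuotientAddGroup.eq_zero_iff _

open Classical in
/-- the class of a residue -/
def cl (p : Pt s f) (u : (kq p)ˣ) : QQ' s f := qmk s f (Pi.single p (Additive.ofMul u))

theorem cl_mul (p : Pt s f) (u v : (kq p)ˣ) : cl p (u * v) = cl p u + cl p v := by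
  classical
  unfold cl
  rw [ofMul_mul, Pi.single_add, map_add]

theorem cl_one (p : Pt s f) : cl p 1 = 0 := by
  have := cl_mul p 1 1
  rw [mul_one] at this
  exact left_eq_add.1 this

theorem cl_inv (p : Pt s f) (u : (kq p)ˣ) : cl p u⁻¹ = - cl p u := by
  have := cl_mul p u⁻¹ u
  rw [inv_mul_cancel, cl_one] at this
  exact eq_neg_of_add_eq_zero_left this.symm

theorem cl_div (p : Pt s f) (u v : (kq p)ˣ) : cl p (u / v) = cl p u - cl p v := by
  rw [div_eq_mul_inv, cl_mul, cl_inv, sub_eq_add_neg]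

theorem cl_kk (p : Pt s f) (c : Fˣ) : cl p (um (kk p) c) = cl (pinf s f) (um (kk (pinf s f)) c) := by
  classical
  have h : dall (sym (lq p.r) (ku s f c)) = Pi.single (pinf s f) (Additive.ofMul (um (kk (pinf s f)) c)) -
      Pi.single p (Additive.ofMul (um (kk p) c)) := by
    funext q
    rw [dall_apply, dv_r, Pi.sub_apply, zpow_sub, ofMul_mul, ofMul_inv, ← sub_eq_add_neg]
    congr 1
    · by_cases h1 : pinf s f = q
      · subst h1
        rw [if_pos rfl, zpow_one, Pi.single_eq_same]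
      · rw [if_neg h1, zpow_zero, Pi.single_eq_of_ne (Ne.symm h1), ofMul_one]
    · by_cases h1 : p = q
      · subst h1
        rw [if_pos rfl, zpow_one, Pi.single_eq_same]
      · rw [if_neg h1, zpow_zero, Pi.single_eq_of_ne (Ne.symm h1), ofMul_one]
  have h2 : qmk s f (dall (sym (lq p.r) (ku s f c))) = 0 :=
    qmk_eq_zero.2 ⟨_, sym_mem (lq_mem _) (ku_mem _ _), rfl⟩
  rw [h, map_sub, sub_eq_zero] at h2
  exact h2.symm

/-- the multiplicative relation in the cokernel -/
theorem cl_pair {a b : Hq s f} (h : a * b ≠ b * a) {pa pb pc : Pt s f} (hpa : pt a (pair_a h) = pa)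
    (hpb : pt b (pair_b h) = pb) (hpc : pt (a * b) (pair_ab h) = pc) (μ : (kq pa)ˣ) (ν : (kq pb)ˣ)
    (ξ : (kq pc)ˣ) (hμ : ep pa (μ : kq pa) = a) (hν : ep pb (ν : kq pb) = b)
    (hξ : ep pc (ξ : kq pc) = a * b) : cl pc ξ = cl pa μ + cl pb ν := by
  classical
  have na : nm a ≠ 0 := nm_ne (ne_a h)
  let n : Fˣ := Units.mk0 _ na
  have hab : pa ≠ pb := by rw [← hpa, ← hpb]; exact pt_ab_ne h
  have hac : pa ≠ pc := by rw [← hpa, ← hpc]; exact pt_a_ab h
  have hbc : pb ≠ pc := by rw [← hpb, ← hpc]; exact pt_b_ab h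
  have e1 : dv pa (ts a b) = Additive.ofMul (um (kk pa) n / μ) := by
    have h1 := dv_ts_a h hpa (μ : kq pa) hμ
    have h2 : (dv pa (ts a b)).toMul = um (kk pa) n / μ := by
      ext1
      rw [h1, Units.val_div_eq_div_val, um_val, eq_div_iff μ.ne_zero]
      change star (μ : kq pa) * (μ : kq pa) = kk pa (nm a)
      rw [← hμ, eH_nm, QuadraticAlgebra.algebraMap_norm_eq_mul_star, mul_comm]
    rw [← h2]
    rfl
  have e2 : dv pb (ts a b) = Additive.ofMul ν⁻¹ := by
    have h1 := dv_ts_b h hpb (ν : kq pb) hν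
    have h2 : (dv pb (ts a b)).toMul = ν⁻¹ := by
      ext1
      rw [h1, Units.val_inv_eq_inv_val]
    rw [← h2]
    rfl
  have e3 : dv pc (ts a b) = Additive.ofMul (ξ / um (kk pc) n) := by
    have h1 := dv_ts_ab h hpc (ξ : kq pc) hξ
    have h2 : (dv pc (ts a b)).toMul = ξ / um (kk pc) n := by
      ext1
      rw [Units.val_div_eq_div_val, um_val, eq_div_iff ((_root_.map_ne_zero _).2 n.ne_zero)]
      exact h1
    rw [← h2]
    rfl
  have h5 : dall (ts a b) = Pi.single pa (Additive.ofMul (um (kk pa) n / μ)) + Pi.single pb (Additive.ofMul ν⁻¹) +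
      Pi.single pc (Additive.ofMul (ξ / um (kk pc) n)) := by
    funext q
    rw [dall_apply, Pi.add_apply, Pi.add_apply]
    by_cases h1 : pa = q
    · subst h1
      rw [Pi.single_eq_same, Pi.single_eq_of_ne hab, Pi.single_eq_of_ne hac, add_zero, add_zero, e1]
    · by_cases h2 : pb = q
      · subst h2
        rw [Pi.single_eq_same, Pi.single_eq_of_ne (Ne.symm hab), Pi.single_eq_of_ne hbc, zero_add, add_zero, e2]
      · by_cases h3 : pc = q
        · subst h3
          rw [Pi.single_eq_same, Pi.single_eq_of_ne (Ne.symm hac), Pi.single_eq_of_ne (Ne.symm hbc), zero_add, zero_add, e3]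
        · rw [Pi.single_eq_of_ne (Ne.symm h1), Pi.single_eq_of_ne (Ne.symm h2), Pi.single_eq_of_ne (Ne.symm h3),
            zero_add, zero_add]
          exact dv_ts_other h (by rw [hpa]; exact h1) (by rw [hpb]; exact h2) (by rw [hpc]; exact h3)
  have h6 : qmk s f (dall (ts a b)) = 0 := by
    refine qmk_eq_zero.2 ⟨_, ?_, rfl⟩
    exact sym_mem (div_mem (lq_mem _) (lq_mem _)) (div_mem (lq_mem _) (lq_mem _))
  rw [h5, map_add, map_add] at h6
  change cl pa _ + cl pb _ + cl pc _ = 0 at h6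
  rw [cl_div, cl_inv, cl_div, cl_kk pa, cl_kk pc] at h6
  rw [← sub_eq_zero, ← h6]
  abel

theorem exists_pt_comm {x y : Hq s f} (hx : x ≠ 0) (hy : y ≠ 0) (h : x * y = y * x) : ∃ (p : Pt s f) (u v : (kq p)ˣ),
    ep p (u : kq p) = x ∧ ep p (v : kq p) = y := by
  have key : ∀ p : Pt s f, x * p.r = p.r * x → y * p.r = p.r * y → ∃ u v : (kq p)ˣ,
      ep p (u : kq p) = x ∧ ep p (v : kq p) = y := by
    intro p h1 h2
    obtain ⟨μ, hμ⟩ := eH_surj p.pu h1
    obtain ⟨ν, hν⟩ := eH_surj p.pu h2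
    exact ⟨Units.mk0 μ (mu_ne hμ hx), Units.mk0 ν (mu_ne hν hy), hμ, hν⟩
  by_cases hlx : lf x = 0
  · obtain ⟨c, rfl⟩ := central_of_lf hlx
    by_cases hly : lf y = 0
    · obtain ⟨d, rfl⟩ := central_of_lf hly
      exact ⟨pinf s f, key _ (sc_comm _ _) (sc_comm _ _)⟩
    · exact ⟨pt y hly, key _ (sc_comm _ _) ((pt_eq_iff hly).1 rfl)⟩
  · refine ⟨pt x hlx, key _ ((pt_eq_iff hlx).1 rfl) ?_⟩
    have h1 : (pt x hlx).r * x = x * (pt x hlx).r := ((pt_eq_iff hlx).1 rfl).symm
    exact (comm_trans hlx h1 h.symm).symm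

theorem exists_ps (x : (Hq s f)ˣ) : ∃ q : QQ' s f, ∀ (p : Pt s f) (u : (kq p)ˣ), ep p (u : kq p) = (x : Hq s f) →
    q = cl p u := by
  obtain ⟨p, u, v, hu, hv⟩ := exists_pt_comm x.ne_zero x.ne_zero rfl
  refine ⟨cl p u, ?_⟩
  intro p' u' hu'
  by_cases hx : lf (x : Hq s f) = 0
  · obtain ⟨c, hc⟩ := central_of_lf hx
    have hc0 : c ≠ 0 := by
      rintro rfl
      exact x.ne_zero hc
    have key : ∀ (p : Pt s f) (u : (kq p)ˣ), ep p (u : kq p) = (x : Hq s f) → u = um (kk p) (Units.mk0 c hc0) := by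
      intro p u hu
      ext1
      apply eH_inj p.pu
      rw [um_val]
      change ep p (u : kq p) = eH p.r p.pu (algebraMap F _ c)
      rw [hu, hc, eH_coe]
    rw [key p u hu, key p' u' hu', cl_kk p, cl_kk p']
  · have key : ∀ (p : Pt s f) (u : (kq p)ˣ), ep p (u : kq p) = (x : Hq s f) → pt (x : Hq s f) hx = p := by
      intro p u hu
      rw [pt_eq_iff, ← hu]
      exact eH_comm p.pu _
    have h1 := key p u hu
    have h2 := key p' u' hu'
    subst h1
    subst h2
    congr 1
    ext1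
    apply eH_inj (pt (x : Hq s f) hx).pu
    exact hu.trans hu'.symm

/-- the class of a quaternion in the cokernel -/
def ps (x : (Hq s f)ˣ) : QQ' s f := (exists_ps x).choose

theorem ps_eq (x : (Hq s f)ˣ) (p : Pt s f) (u : (kq p)ˣ) (h : ep p (u : kq p) = (x : Hq s f)) : ps x = cl p u :=
  (exists_ps x).choose_spec p u h

theorem ps_mul (x y : (Hq s f)ˣ) : ps (x * y) = ps x + ps y := by
  by_cases h : (x : Hq s f) * (y : Hq s f) = (y : Hq s f) * (x : Hq s f)
  · obtain ⟨p, u, v, hu, hv⟩ := exists_pt_comm x.ne_zero y.ne_zero h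
    rw [ps_eq x p u hu, ps_eq y p v hv, ps_eq (x * y) p (u * v), cl_mul]
    rw [Units.val_mul, Units.val_mul, map_mul, hu, hv]
  · obtain ⟨μ, hμ⟩ := exists_mu (pair_a h) rfl
    obtain ⟨ν, hν⟩ := exists_mu (pair_b h) rfl
    obtain ⟨ξ, hξ⟩ := exists_mu (pair_ab h) rfl
    have h1 := cl_pair h rfl rfl rfl (Units.mk0 μ (mu_ne hμ x.ne_zero)) (Units.mk0 ν (mu_ne hν y.ne_zero))
      (Units.mk0 ξ (mu_ne hξ (mul_ne_zero x.ne_zero y.ne_zero))) hμ hν hξ
    rw [ps_eq x _ (Units.mk0 μ (mu_ne hμ x.ne_zero)) hμ, ps_eq y _ (Units.mk0 ν (mu_ne hν y.ne_zero)) hν, ← h1]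
    exact ps_eq (x * y) _ (Units.mk0 ξ (mu_ne hξ (mul_ne_zero x.ne_zero y.ne_zero))) hξ

/-- the class as a homomorphism -/
def psh : (Hq s f)ˣ →* Multiplicative (QQ' s f) := MonoidHom.mk' (fun x => Multiplicative.ofAdd (ps x)) (fun x y => by
  rw [ps_mul]
  rfl)

theorem ps_nm_one {x : (Hq s f)ˣ} (h : nm (x : Hq s f) = 1) : ps x = 0 := by
  obtain ⟨a, c, hac⟩ := commutator_of_nm_one h
  have e : x = a * c * a⁻¹ * c⁻¹ := by
    ext1
    exact hac
  have h1 : psh x = 1 := by
    rw [e, map_mul, map_mul, map_mul, map_inv, map_inv, mul_comm (psh a) (psh c), mul_inv_cancel_right, mul_inv_cancel]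
  exact h1

theorem cl_sum (S : Finset (Pt s f)) (d : (p : Pt s f) → (kq p)ˣ) : ∃ X : (Hq s f)ˣ,
    nm (X : Hq s f) = ∏ p ∈ S, (d p : kq p).norm ∧ ps X = ∑ p ∈ S, cl p (d p) := by
  classical
  induction S using Finset.induction_on with
  | empty =>
    refine ⟨1, ?_, ?_⟩
    · rw [Units.val_one, nm_one, Finset.prod_empty]
    · rw [Finset.sum_empty]
      exact ps_nm_one (by rw [Units.val_one, nm_one])
  | insert p S hp ih =>
    obtain ⟨X, h1, h2⟩ := ih
    refine ⟨eu p (d p) * X, ?_, ?_⟩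
    · rw [Finset.prod_insert hp, Units.val_mul, nm_mul, h1]
      congr 1
      exact eH_nm p.pu _
    · rw [Finset.sum_insert hp, ps_mul, h2, ps_eq (eu p (d p)) p (d p) rfl]

theorem exists_dall (S : Finset (Pt s f)) (d : (p : Pt s f) → (kq p)ˣ) (hd : ∀ p, p ∉ S → d p = 1)
    (hn : ∏ p ∈ S, (d p : kq p).norm = 1) : ∃ k ∈ Mn s f 1, ∀ p, dv p k = Additive.ofMul (d p) := by
  classical
  obtain ⟨X, h1, h2⟩ := cl_sum S d
  rw [hn] at h1
  rw [ps_nm_one h1] at h2
  have h3 : qmk s f (fun p => Additive.ofMul (d p)) = 0 := by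
    have e : (fun p => Additive.ofMul (d p) : (p : Pt s f) → Additive (kq p)ˣ) =
        ∑ p ∈ S, Pi.single p (Additive.ofMul (d p)) := by
      funext q
      rw [Finset.sum_apply]
      by_cases hq : q ∈ S
      · rw [Finset.sum_eq_single q]
        · rw [Pi.single_eq_same]
        · intro p _ hp
          rw [Pi.single_eq_of_ne (Ne.symm hp)]
        · intro h
          exact absurd hq h
      · rw [Finset.sum_eq_zero, hd q hq]
        · rfl
        · intro p hp
          rw [Pi.single_eq_of_ne]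
          rintro rfl
          exact hq hp
    rw [e, map_sum, h2]
    rfl
  obtain ⟨k, hk, hk2⟩ := qmk_eq_zero.1 h3
  exact ⟨k, hk, fun p => congrFun hk2 p⟩

/-- elements divisible by two up to constants -/
def Good (v : MilnorK2 (CK s f)) : Prop := ∃ (k : MilnorK2 (CK s f)) (y : MilnorK2 F), v = k + k + km (ci s f) y

theorem good_of_norm {v : MilnorK2 (CK s f)} (hv : v ∈ Mn s f 1) (S : Finset (Pt s f)) (d : (p : Pt s f) → (kq p)ˣ)
    (hd : ∀ p, p ∉ S → d p = 1) (hn : ∏ p ∈ S, (d p : kq p).norm = 1) (hvd : ∀ p, (dv p v).toMul = d p ^ 2) : Good v := by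
  obtain ⟨k, hk, hkd⟩ := exists_dall S d hd hn
  have h1 : ∀ p, dv p (v - (k + k)) = 0 := by
    intro p
    have h2 : dv p v = Additive.ofMul (d p ^ 2) := by rw [← hvd p]; rfl
    rw [map_sub, map_add, hkd p, h2, sq, ofMul_mul, sub_self]
  have h2 := mem_S0_of_dv (sub_mem hv (add_mem hk hk)) h1
  obtain ⟨y, hy⟩ := mem_range_of_S0 h2 h1
  exact ⟨k, y, by rw [← hy]; abel⟩

end

end Pool.Agent.H403.M
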