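import Mathlib
import Pool.Agent.H403.M.H10

/-! # The sign dichotomy (helper403) -/

set_option autoImplicit false
set_option linter.all false

noncomputable section

namespace Pool.Agent.H403.M

open Polynomial
open Pool.Agent.TH132.W Pool.Agent.Y64.Cyc Pool.Agent.Helper18.Br Pool.Agent.H552R3.SymBr

section

variable {F : Type} [Field F] {s f : F} [hC : Con s f]

/-- finite support of residues -/
def FSp (v : MilnorK2 (CK s f)) : Prop := ∃ S₀ : Finset (Pt s f), ∀ p, p ∉ S₀ → dv p v = 0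

variable (s f) in
/-- elements with residues of finite support -/
def FSs : AddSubgroup (MilnorK2 (CK s f)) where
  carrier := {v | FSp v}
  zero_mem' := ⟨∅, fun p _ => map_zero _⟩
  add_mem' := by
    classical
    rintro v w ⟨S, hS⟩ ⟨S', hS'⟩
    refine ⟨S ∪ S', fun p hp => ?_⟩
    rw [Finset.mem_union, not_or] at hp
    rw [map_add, hS p hp.1, hS' p hp.2, add_zero]
  neg_mem' := by
    rintro v ⟨S, hS⟩
    exact ⟨S, fun p hp => by rw [map_neg, hS p hp, neg_zero]⟩

theorem Mn_FS {v : MilnorK2 (CK s f)} (hv : v ∈ Mn s f 1) : FSp v := by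
  classical
  have hle : G1 s f ≤ FSs s f := by
    unfold G1
    rw [AddSubgroup.closure_le]
    rintro v (⟨a, b, h, rfl⟩ | ⟨x, hx, c, rfl⟩)
    · refine ⟨{pt _ (pair_a h), pt _ (pair_b h), pt _ (pair_ab h)}, fun p hp => ?_⟩
      simp only [Finset.mem_insert, Finset.mem_singleton, not_or] at hp
      exact dv_ts_other h (fun e => hp.1 e.symm) (fun e => hp.2.1 e.symm) (fun e => hp.2.2 e.symm)
    · refine ⟨{pt x hx, pinf s f}, fun p hp => ?_⟩
      simp only [Finset.mem_insert, Finset.mem_singleton, not_or] at hp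
      rw [dv_const, odj p hx, if_neg (fun e => hp.1 e.symm), if_neg (fun e => hp.2 e.symm), sub_zero, neg_zero, zpow_zero,
        ofMul_one]
  exact hle (Mn_le_G1 hv)

variable (s f) in
/-- the reduced norm on the extension -/
def NG : GH s f →* Fˣ := MonoidHom.mk' (fun x => Units.mk0 (nm (x.a : Hq s f)) (nm_ne x.a.ne_zero)) (fun x y => by
  ext1
  rw [Units.val_mul, Units.val_mk0, Units.val_mk0, Units.val_mk0, GH.mul_a, Units.val_mul, nm_mul])

variable (s f) in
/-- the reduced norm on the abelianization -/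
def NA : Abelianization (GH s f) →* Fˣ := Abelianization.lift (NG s f)

theorem NA_sgab (p : Pt s f) (u : (kq p)ˣ) : ((NA s f (sgab p u) : Fˣ) : F) = (u : kq p).norm := by
  have : NA s f (sgab p u) = NG s f (sgm p u) := Abelianization.lift_apply_of _ _
  rw [this]
  exact eH_nm p.pu _

theorem NA_ioa (t : TT s f) : NA s f (ioa t) = 1 := by
  have : NA s f (ioa t) = NG s f (io t) := Abelianization.lift_apply_of _ _
  rw [this]
  ext1
  change nm ((1 : (Hq s f)ˣ) : Hq s f) = 1
  rw [Units.val_one, nm_one]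

theorem half {v : MilnorK2 (CK s f)} (hv : v ∈ Mn s f 1) (hsq : AllSq v) : ∃ (S : Finset (Pt s f))
    (d : (p : Pt s f) → (kq p)ˣ), (∀ p, p ∉ S → d p = 1) ∧ (∀ p, (dv p v).toMul = d p ^ 2) ∧
      (∏ p ∈ S, (d p : kq p).norm = 1 ∨ ∏ p ∈ S, (d p : kq p).norm = -1) := by
  classical
  obtain ⟨S₁, h1⟩ := G1_TF (Mn_le_G1 hv)
  obtain ⟨S₂, h2⟩ := Mn_FS hv
  have hc : ∀ p : Pt s f, ∃ c : (kq p)ˣ, (dv p v).toMul = c ^ 2 := fun p => hsq (kq p) (kk p) (pd p).j (pd p).jc
  choose c hc using hc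
  let S := S₁ ∪ S₂
  let d : (p : Pt s f) → (kq p)ˣ := fun p => if p ∈ S then c p else 1
  have hd1 : ∀ p, p ∉ S → d p = 1 := fun p hp => if_neg hp
  have hd2 : ∀ p, (dv p v).toMul = d p ^ 2 := by
    intro p
    by_cases hp : p ∈ S
    · rw [show d p = c p from if_pos hp, hc p]
    · rw [hd1 p hp, h2 p (fun h => hp (Finset.mem_union_right _ h)), toMul_zero, one_pow]
  refine ⟨S, d, hd1, hd2, ?_⟩
  have h3 := h1 S Finset.subset_union_left
  have h4 : ((NA s f (Th S v) : Fˣ) : F) = 1 := by rw [h3, NA_ioa, Units.val_one]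
  unfold Th at h4
  rw [map_prod, Units.coe_prod] at h4
  have h5 : (∏ p ∈ S, (d p : kq p).norm) ^ 2 = 1 := by
    rw [← h4, ← Finset.prod_pow]
    refine Finset.prod_congr rfl fun p _ => ?_
    rw [NA_sgab, hd2, Units.val_pow_eq_pow_val, map_pow]
  generalize (∏ p ∈ S, (d p : kq p).norm) = x at h5 ⊢
  have h6 : (x - 1) * (x + 1) = 0 := by linear_combination h5
  rcases mul_eq_zero.1 h6 with h7 | h7
  · exact Or.inl (sub_eq_zero.1 h7)
  · exact Or.inr (eq_neg_of_add_eq_zero_left h7)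

theorem Good.of_sub {v k : MilnorK2 (CK s f)} (h : Good (v - (k + k))) : Good v := by
  obtain ⟨l, y, hl⟩ := h
  refine ⟨l + k, y, ?_⟩
  rw [sub_eq_iff_eq_add] at hl
  rw [hl]
  abel

theorem AllSq.sub {v w : MilnorK2 (CK s f)} (hv : AllSq v) (hw : AllSq w) : AllSq (v - w) := by
  intro κ _ i j hj
  obtain ⟨c, hc⟩ := hv κ i j hj
  obtain ⟨d, hd⟩ := hw κ i j hj
  refine ⟨c / d, ?_⟩
  rw [map_sub, map_sub, toMul_sub, hc, hd, div_pow]

theorem dicho_one {v w : MilnorK2 (CK s f)} (hv1 : v ∈ Mn s f 1) (hw1 : w ∈ Mn s f 1) (hv : AllSq v) (hw : AllSq w) :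
    Good v ∨ Good w ∨ Good (v - w) := by
  classical
  obtain ⟨S, d, hd1, hd2, hd3⟩ := half hv1 hv
  obtain ⟨S', d', hd1', hd2', hd3'⟩ := half hw1 hw
  rcases hd3 with h | h
  · exact Or.inl (good_of_norm hv1 S d hd1 h hd2)
  rcases hd3' with h' | h'
  · exact Or.inr (Or.inl (good_of_norm hw1 S' d' hd1' h' hd2'))
  right
  right
  refine good_of_norm (sub_mem hv1 hw1) (S ∪ S') (fun p => d p / d' p) ?_ ?_ ?_
  · intro p hp
    rw [Finset.mem_union, not_or] at hp
    rw [hd1 p hp.1, hd1' p hp.2, div_one]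
  · have e1 : ∏ p ∈ S ∪ S', (d p : kq p).norm = -1 := by
      rw [← h]
      symm
      refine Finset.prod_subset Finset.subset_union_left fun p _ hp => ?_
      rw [hd1 p hp, Units.val_one, map_one]
    have e2 : ∏ p ∈ S ∪ S', (d' p : kq p).norm = -1 := by
      rw [← h']
      symm
      refine Finset.prod_subset Finset.subset_union_right fun p _ hp => ?_
      rw [hd1' p hp, Units.val_one, map_one]
    have e3 : (∏ p ∈ S ∪ S', ((d p / d' p : (kq p)ˣ) : kq p).norm) * ∏ p ∈ S ∪ S', (d' p : kq p).norm =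
        ∏ p ∈ S ∪ S', (d p : kq p).norm := by
      rw [← Finset.prod_mul_distrib]
      refine Finset.prod_congr rfl fun p _ => ?_
      rw [← map_mul, ← Units.val_mul, div_mul_cancel]
    rw [e1, e2] at e3
    linear_combination -e3
  · intro p
    rw [map_sub, toMul_sub, hd2, hd2', div_pow]

/-- **the dichotomy** -/
theorem dicho {v w : MilnorK2 (CK s f)} (hv : AllSq v) (hw : AllSq w) : Good v ∨ Good w ∨ Good (v - w) := by
  obtain ⟨k, hk⟩ := level_one v hv
  obtain ⟨l, hl⟩ := level_one w hw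
  rcases dicho_one hk hl (hv.sub_two k) (hw.sub_two l) with h | h | h
  · exact Or.inl h.of_sub
  · exact Or.inr (Or.inl h.of_sub)
  · right
    right
    have e : v - (k + k) - (w - (l + l)) = (v - w) - ((k - l) + (k - l)) := by abel
    rw [e] at h
    exact h.of_sub

end

end Pool.Agent.H403.M
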