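import Mathlib
import Pool.Agent.H403.M.A3
import Pool.Agent.H403.M.H11

/-! # Descent along the function field of a conic (helper403) -/

set_option autoImplicit false
set_option linter.all false

noncomputable section

namespace Pool.Agent.H403.M

open scoped TensorProduct
open Pool.Agent.TH132.W Pool.Agent.Y64.Cyc Pool.Agent.Helper18.Br Pool.Agent.H552R3.SymBr

variable {F : Type} [Field F]

theorem allSq_of (s f : F) [hC : Con s f] (h2' : (2 : CK s f) ≠ 0) (ν : MilnorK2 (CK s f)) (x : BrauerGroup.{0, 0} F)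
    (h : hc h2' ν = rh (ci s f) x) : AllSq ν := by
  intro κ _ i j hj
  have hk2 : (2 : κ) ≠ 0 := two_ne_map i hC.h2
  have hl2 : (2 : LS κ) ≠ 0 := two_ne_map cst hk2
  refine tame_square hk2 hl2 (km j ν) (rh i x) ?_
  rw [← rh_hc j h2' hl2, h, rh_comp, rh_comp]
  congr 1
  exact congrArg rh (RingHom.ext hj)

theorem good_hc (s f : F) [hC : Con s f] (h2' : (2 : CK s f) ≠ 0) {v : MilnorK2 (CK s f)} (hv : Good v) :
    ∃ q ∈ QQ hC.h2, hc h2' v = rh (ci s f) q := by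
  obtain ⟨k, y, rfl⟩ := hv
  refine ⟨hc hC.h2 y, ⟨y, rfl⟩, ?_⟩
  rw [hc_add, hc_two, one_mul, rh_hc (ci s f) hC.h2 h2']

/-- descent of quaternionic classes along the function field of a conic -/
theorem D1 (s f : Fˣ) [hC : Con (s : F) (f : F)] (h2' : (2 : CK (s : F) (f : F)) ≠ 0)
    (y x : BrauerGroup.{0, 0} F) (hy : y * y = qa hC.h2 s f)
    (hyK : rh (ci (s : F) (f : F)) y ∈ QQ h2') (hxK : rh (ci (s : F) (f : F)) x ∈ QQ h2') :
    x ∈ QQ hC.h2 ∨ x / y ∈ QQ hC.h2 := by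
  obtain ⟨ν, hν⟩ := hxK
  obtain ⟨w, hw⟩ := hyK
  have hQ : ∀ z : BrauerGroup.{0, 0} F, (∃ q ∈ QQ hC.h2, rh (ci (s : F) (f : F)) z = rh (ci (s : F) (f : F)) q) →
      z ∈ QQ hC.h2 := by
    rintro z ⟨q, hq, hz⟩
    have h1 : rh (ci (s : F) (f : F)) (z / q) = 1 := by rw [map_div, hz, div_self']
    rcases amitsur s f _ h1 with h3 | h3
    · rw [div_eq_one.1 h3]; exact hq
    · rw [div_eq_iff_eq_mul.1 h3]
      exact mul_mem (qa_mem _ _ _) hq
  rcases dicho (allSq_of (s : F) (f : F) h2' ν x hν) (allSq_of (s : F) (f : F) h2' w y hw) with h | h | h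
  · left
    obtain ⟨q, hq, e⟩ := good_hc (s : F) (f : F) h2' h
    exact hQ x ⟨q, hq, by rw [← hν, e]⟩
  · exfalso
    obtain ⟨q, hq, e⟩ := good_hc (s : F) (f : F) h2' h
    have h1 := hQ y ⟨q, hq, by rw [← hw, e]⟩
    exact qa_ne_of_con s f (by rw [← hy]; exact QQ_sq _ h1)
  · right
    obtain ⟨q, hq, e⟩ := good_hc (s : F) (f : F) h2' h
    exact hQ (x / y) ⟨q, hq, by rw [map_div, ← hν, ← hw, ← hc_sub, e]⟩

end Pool.Agent.H403.M
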