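import Mathlib
import Pool.Agent.H403.M.D1

/-! # Quadratic extensions, projection formula type identities (helper403) -/

set_option autoImplicit false
set_option linter.all false

noncomputable section

namespace Pool.Agent.H403.M

open scoped TensorProduct
open Pool.Agent.TH132.W Pool.Agent.Y64.Cyc Pool.Agent.Helper18.Br Pool.Agent.H552R3.SymBr

/-- nonsquares -/
class NS {F : Type} [Field F] (a : F) : Prop where
  ns : ∀ c : F, c ^ 2 ≠ a

instance {F : Type} [Field F] (a : F) [h : NS a] : Fact (∀ r : F, r ^ 2 ≠ a + 0 * r) := qf h.ns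

section

variable {F : Type} [Field F]

/-- the inclusion of `F` in the quadratic extension -/
abbrev qin (a : F) : F →+* QE a := algebraMap F (QE a)

theorem ker_qin (h2 : (2 : F) ≠ 0) (a : Fˣ) [h : NS (a : F)] (x : BrauerGroup.{0, 0} F)
    (hx : rh (qin (a : F)) x = 1) : ∃ g : Fˣ, x = qa h2 a g := ker_QE h2 a h.ns x hx

theorem two_ne_qin (h2 : (2 : F) ≠ 0) (a : F) [NS a] : (2 : QE a) ≠ 0 := two_ne_map (qin a) h2

theorem NS.ne_zero (a : F) [h : NS a] : a ≠ 0 := s_ne_zero h.ns

/-- the norm -/
def nq {a : F} (z : QE a) : F := z.re ^ 2 - a * z.im ^ 2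

theorem mul_bar {a : F} (z : QE a) : z * cj2 a z = qin a (nq z) := mul_cj2 z

theorem nq_ne {a : F} [h : NS a] {z : QE a} (hz : z ≠ 0) : nq z ≠ 0 := by
  intro h0
  obtain ⟨h1, h2⟩ := pair_zero h.ns (a := z.re) (b := z.im) (by unfold nq at h0; linear_combination h0)
  exact hz (QuadraticAlgebra.ext h1 h2)

/-- the norm on units -/
def nu {a : F} [NS a] (z : (QE a)ˣ) : Fˣ := Units.mk0 (nq (z : QE a)) (nq_ne z.ne_zero)

theorem nu_val {a : F} [NS a] (z : (QE a)ˣ) : ((nu z : Fˣ) : F) = nq (z : QE a) := rfl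

theorem qin_nu {a : F} [NS a] (z : (QE a)ˣ) : um (qin a) (nu z) = z * um (cj2 a : QE a →+* QE a) z := by
  ext1
  rw [Units.val_mul]
  exact (mul_bar (z : QE a)).symm

/-- a symbol `(r, f)` over a quadratic extension with `(N r, f)` trivial is defined over `F` -/
theorem VV (h2 : (2 : F) ≠ 0) (a : F) [hN : NS a] (h2E : (2 : QE a) ≠ 0) (r : (QE a)ˣ) (f : Fˣ)
    (h : qa h2 (nu r) f = 1) : ∃ c : Fˣ, qa h2E r (um (qin a) f) = rh (qin a) (qa h2 c f) := by
  by_cases hf : ∃ g : F, g ^ 2 = f
  · obtain ⟨g, hg⟩ := hf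
    have hg0 : g ≠ 0 := by
      rintro rfl
      exact f.ne_zero (by rw [← hg]; ring)
    have h1 : f = 1 * (Units.mk0 g hg0) ^ 2 := by
      ext1
      rw [one_mul, Units.val_pow_eq_pow_val, Units.val_mk0, hg]
    have h3 : um (qin a) f = 1 * (um (qin a) (Units.mk0 g hg0)) ^ 2 := by
      conv_lhs => rw [h1]
      rw [map_mul, map_pow, map_one]
    exact ⟨1, by rw [qa_right_eq h2E r h3, qa_one_right, qa_one_left, map_one]⟩
  push Not at hf
  rw [qa_comm] at h
  obtain ⟨m0, m1, hm⟩ := norm_of_qa h2 f (nu r) hf h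
  rw [nu_val] at hm
  have hm' : (r : QE a) * cj2 a (r : QE a) = qin a m0 ^ 2 - qin a f * qin a m1 ^ 2 := by
    rw [mul_bar, hm, map_sub, map_mul, map_pow, map_pow]
  have htr : (r : QE a) + cj2 a (r : QE a) = qin a (2 * (r : QE a).re) := by
    ext1
    · change (r : QE a).re + (r : QE a).re = 2 * (r : QE a).re
      ring
    · change (r : QE a).im + -(r : QE a).im = 0
      ring
  have fin : ∀ (m : F), m ^ 2 = m0 ^ 2 → ∀ hc : 2 * (r : QE a).re + 2 * m ≠ 0,
      qa h2E r (um (qin a) f) = rh (qin a) (qa h2 (Units.mk0 _ hc) f) := by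
    intro m hmm hc
    rw [rh_qa (qin a) h2 h2E]
    have e1 : qa h2E (um (qin a) f) (r * um (qin a) (Units.mk0 _ hc)) = 1 := by
      refine qa_norm h2E _ _ ((r : QE a) + qin a m) (qin a m1) ?_
      rw [Units.val_mul, um_val, um_val, Units.val_mk0, map_add, ← htr, map_mul, map_ofNat]
      have e2 : qin a m ^ 2 = qin a m0 ^ 2 := by rw [← map_pow, hmm, map_pow]
      linear_combination hm' - e2
    rw [qa_mul_right] at e1
    rw [qa_comm h2E r, qa_comm h2E (um (qin a) (Units.mk0 _ hc)), eq_inv_of_mul_eq_one_left e1, qa_inv]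
  by_cases hc : 2 * (r : QE a).re + 2 * m0 = 0
  · by_cases hc' : 2 * (r : QE a).re + 2 * (-m0) = 0
    · have hre : (r : QE a).re = 0 := by
        have : (2 : F) * (2 * (r : QE a).re) = 0 := by linear_combination hc + hc'
        exact (mul_eq_zero.1 ((mul_eq_zero.1 this).resolve_left h2)).resolve_left h2
      have hm0 : m0 = 0 := by
        rw [hre] at hc
        exact (mul_eq_zero.1 (by linear_combination hc : (2 : F) * m0 = 0)).resolve_left h2
      have him : (r : QE a).im ≠ 0 := by
        intro h0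
        exact r.ne_zero (QuadraticAlgebra.ext hre h0)
      have hm2 : a * (r : QE a).im ^ 2 = f * m1 ^ 2 := by
        unfold nq at hm
        rw [hre, hm0] at hm
        linear_combination (-1 : F) * hm
      have hm1 : m1 ≠ 0 := by
        rintro rfl
        have : a * (r : QE a).im ^ 2 = 0 := by rw [hm2]; ring
        exact mul_ne_zero (NS.ne_zero a) (pow_ne_zero 2 him) this
      have hg0 : rt a * qin a ((r : QE a).im / m1) ≠ 0 := by
        intro h0
        have := congrArg (fun z => z ^ 2) h0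
        simp only [mul_pow, rt_sq, ← map_pow, ← map_mul] at this
        rw [zero_pow two_ne_zero, _root_.map_eq_zero] at this
        exact mul_ne_zero (NS.ne_zero a) (pow_ne_zero 2 (div_ne_zero him hm1)) this
      have h3 : um (qin a) f = 1 * (Units.mk0 _ hg0) ^ 2 := by
        ext1
        rw [one_mul, Units.val_pow_eq_pow_val, Units.val_mk0, mul_pow, rt_sq, um_val, ← map_pow, ← map_mul]
        congr 1
        rw [div_pow, mul_div_assoc', hm2, mul_div_cancel_right₀ _ (pow_ne_zero 2 hm1)]
      exact ⟨1, by rw [qa_right_eq h2E r h3, qa_one_right, qa_one_left, map_one]⟩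
    · exact ⟨_, fin (-m0) (by ring) hc'⟩
  · exact ⟨_, fin m0 rfl hc⟩

end

section qm

variable {F K M : Type} [Field F] [Field K] [Field M]

/-- functoriality of quadratic extensions -/
def qm2 (φ : F →+* K) (a : F) : QE a →+* QE (φ a) where
  toFun z := ⟨φ z.re, φ z.im⟩
  map_one' := by
    ext1
    · exact map_one φ
    · exact map_zero φ
  map_zero' := by
    ext1
    · exact map_zero φ
    · exact map_zero φ
  map_add' z w := by
    ext1
    · exact map_add φ _ _
    · exact map_add φ _ _
  map_mul' z w := by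
    ext1
    · change φ (z * w).re = _
      rw [QuadraticAlgebra.re_mul, QuadraticAlgebra.re_mul, map_add, map_mul, map_mul, map_mul]
    · change φ (z * w).im = _
      rw [QuadraticAlgebra.im_mul, QuadraticAlgebra.im_mul, map_add, map_add, map_mul, map_mul, zero_mul, zero_mul,
        map_zero, zero_mul, zero_mul]

theorem qm2_re (φ : F →+* K) (a : F) (z : QE a) : (qm2 φ a z).re = φ z.re := rfl
theorem qm2_im (φ : F →+* K) (a : F) (z : QE a) : (qm2 φ a z).im = φ z.im := rfl

theorem qm2_qin (φ : F →+* K) (a c : F) : qm2 φ a (qin a c) = qin (φ a) (φ c) := by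
  ext1
  · rfl
  · exact map_zero φ

theorem qm2_comp (φ : F →+* K) (a : F) : (qm2 φ a).comp (qin a) = (qin (φ a)).comp φ := RingHom.ext fun c => qm2_qin φ a c

theorem nq_qm2 (φ : F →+* K) (a : F) (z : QE a) : nq (qm2 φ a z) = φ (nq z) := by
  unfold nq
  rw [qm2_re, qm2_im, map_sub, map_mul, map_pow, map_pow]

/-- a root of `a` gives a homomorphism from the quadratic extension -/
def qroot (φ : F →+* K) (a : F) (b : K) (hb : b ^ 2 = φ a) : QE a →+* K where
  toFun z := φ z.re + φ z.im * b
  map_one' := by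
    change φ 1 + φ 0 * b = 1
    rw [map_one, map_zero, zero_mul, add_zero]
  map_zero' := by
    change φ 0 + φ 0 * b = 0
    rw [map_zero, zero_mul, add_zero]
  map_add' z w := by
    change φ (z.re + w.re) + φ (z.im + w.im) * b = _
    rw [map_add, map_add]
    ring
  map_mul' z w := by
    rw [QuadraticAlgebra.re_mul, QuadraticAlgebra.im_mul, map_add, map_add, map_add, map_mul, map_mul, map_mul, map_mul,
      map_mul, map_mul, map_mul, map_zero, ← hb]
    ring

theorem qroot_qin (φ : F →+* K) (a : F) (b : K) (hb : b ^ 2 = φ a) (c : F) : qroot φ a b hb (qin a c) = φ c := by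
  change φ c + φ 0 * b = φ c
  rw [map_zero, zero_mul, add_zero]

theorem qroot_comp (φ : F →+* K) (a : F) (b : K) (hb : b ^ 2 = φ a) : (qroot φ a b hb).comp (qin a) = φ :=
  RingHom.ext fun c => qroot_qin φ a b hb c

end qm

end Pool.Agent.H403.M
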