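import Mathlib
import Pool.Agent.H403.M.V1

/-! # Cyclic quartic extensions and classes of cyclic algebras of degree four (helper403) -/

set_option autoImplicit false
set_option linter.all false

noncomputable section

namespace Pool.Agent.H403.M

open scoped TensorProduct
open Pool.Agent.TH132.W Pool.Agent.Y64.Cyc Pool.Agent.Helper18.Br Pool.Agent.H552R3.SymBr

/-- classes that behave like a cyclic class with square `(s, f)` -/
def Yp {F : Type} [Field F] (h2 : (2 : F) ≠ 0) (s f : Fˣ) (y : BrauerGroup.{0, 0} F) : Prop :=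
  ((∃ c : F, c ^ 2 = s) ∧ y = 1) ∨
    ((∀ c : F, c ^ 2 ≠ s) ∧ y * y = qa h2 s f ∧
      ∀ (K : Type) [Field K] (φ : F →+* K) (h2K : (2 : K) ≠ 0), (∀ c : K, c ^ 2 ≠ φ s) →
        qa h2K (um φ s) (um φ f) = 1 → rh φ y ∈ QQ h2K)

theorem cls_eq' {F K : Type} [Field F] [Field K] [Algebra F K] {m n : Type} [Fintype m] [DecidableEq m] [Fintype n]
    [DecidableEq n] [Nonempty m] [Nonempty n] {σ : K ≃ₐ[F] K} {d : ℕ} (hσ : CycGen σ d)
    {P : Matrix m m K} {Q : Matrix n n K} {b b' : F} (hP : Tws σ d P b) (hQ : Tws σ d Q b') (h : b = b') :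
    cls hσ hP = cls hσ hQ := by
  subst h
  exact cls_eq hσ hP hQ

section quartic

variable {F : Type} [Field F] (h2 : (2 : F) ≠ 0) (s α β : F) [hs : NS s] (hab : s = α ^ 2 + β ^ 2)

/-- `c = s + α √s` -/
def cc : QE s := ⟨s, α⟩

/-- `d = β √s / c` -/
def dd : QE s := qin s β * rt s / cc s α

include hab hs in
theorem beta_ne : β ≠ 0 := by
  rintro rfl
  exact hs.ns α (by rw [hab]; ring)

include hab in
theorem nq_cc : nq (cc s α) = s * β ^ 2 := by
  change s ^ 2 - s * α ^ 2 = _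
  rw [show s ^ 2 = s * (α ^ 2 + β ^ 2) by rw [← hab]; ring]
  ring

theorem cc_ne : cc s α ≠ 0 := by
  intro h
  exact NS.ne_zero s (congrArg QuadraticAlgebra.re h)

theorem nq_mul (z w : QE s) : nq (z * w) = nq z * nq w := by
  unfold nq
  rw [QuadraticAlgebra.re_mul, QuadraticAlgebra.im_mul]
  ring

include hab in
theorem cc_ns : NS (cc s α) := ⟨by
  intro z hz
  have h1 := nq_cc s α β hab
  rw [← hz, sq, nq_mul, ← sq] at h1
  refine hs.ns (nq z / β) ?_
  rw [div_pow, h1, mul_div_assoc, div_self (pow_ne_zero 2 (beta_ne s α β hab)), mul_one]⟩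

include hab in
theorem dd_sq : cc s α * dd s α β ^ 2 = cj2 s (cc s α) := by
  have hc := cc_ne s α
  have h1 := mul_bar (cc s α)
  rw [nq_cc s α β hab, map_mul, map_pow] at h1
  unfold dd
  have h3 := rt_sq s
  apply mul_left_cancel₀ hc
  rw [h1]
  field_simp
  linear_combination (qin s β ^ 2) * h3

include hab in
theorem dd_bar : dd s α β * cj2 s (dd s α β) = -1 := by
  have hc := cc_ne s α
  have h1 := mul_bar (cc s α)
  rw [nq_cc s α β hab, map_mul, map_pow] at h1
  have hc' : cj2 s (cc s α) ≠ 0 := by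
    rw [Ne, EmbeddingLike.map_eq_zero_iff]
    exact hc
  unfold dd
  have h3 := rt_sq s
  rw [map_div₀, map_mul, cj2_rt, AlgEquiv.commutes]
  rw [div_mul_div_comm, div_eq_iff (mul_ne_zero hc hc')]
  linear_combination (-(qin s β ^ 2)) * h3 + h1

/-- the quartic extension -/
abbrev Lq {F : Type} [Field F] (s α : F) [NS s] : Type := QE (cc s α)

include hab in
theorem Lq_mul (z w : Lq s α) : (⟨cj2 s (z * w).re, cj2 s (z * w).im * dd s α β⟩ : Lq s α) =
    ⟨cj2 s z.re, cj2 s z.im * dd s α β⟩ * ⟨cj2 s w.re, cj2 s w.im * dd s α β⟩ := by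
  have h1 := dd_sq s α β hab
  ext1
  · rw [QuadraticAlgebra.re_mul, QuadraticAlgebra.re_mul]
    change cj2 s (z.re * w.re + cc s α * z.im * w.im) = cj2 s z.re * cj2 s w.re +
      cc s α * (cj2 s z.im * dd s α β) * (cj2 s w.im * dd s α β)
    rw [map_add, map_mul, map_mul, map_mul, ← h1]
    ring
  · rw [QuadraticAlgebra.im_mul, QuadraticAlgebra.im_mul]
    change cj2 s (z.re * w.im + z.im * w.re + 0 * z.im * w.im) * dd s α β = cj2 s z.re * (cj2 s w.im * dd s α β) +
      (cj2 s z.im * dd s α β) * cj2 s w.re + 0 * (cj2 s z.im * dd s α β) * (cj2 s w.im * dd s α β)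
    rw [zero_mul, zero_mul, zero_mul, zero_mul, add_zero, add_zero, map_add, map_mul, map_mul]
    ring

/-- the generator of the Galois group -/
def sq4 : Lq s α →ₐ[F] Lq s α where
  toFun z := ⟨cj2 s z.re, cj2 s z.im * dd s α β⟩
  map_one' := by
    ext1
    · exact map_one (cj2 s)
    · change cj2 s 0 * dd s α β = 0
      rw [map_zero, zero_mul]
  map_zero' := by
    ext1
    · exact map_zero (cj2 s)
    · change cj2 s 0 * dd s α β = 0
      rw [map_zero, zero_mul]
  map_add' z w := by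
    ext1
    · exact map_add (cj2 s) _ _
    · change cj2 s (z.im + w.im) * dd s α β = cj2 s z.im * dd s α β + cj2 s w.im * dd s α β
      rw [map_add, add_mul]
  map_mul' z w := Lq_mul s α β hab z w
  commutes' c := by
    ext1
    · exact (cj2 s).commutes c
    · change cj2 s 0 * dd s α β = 0
      rw [map_zero, zero_mul]

theorem sq4_re (z : Lq s α) : (sq4 s α β hab z).re = cj2 s z.re := rfl
theorem sq4_im (z : Lq s α) : (sq4 s α β hab z).im = cj2 s z.im * dd s α β := rfl

theorem sq4_sq4 (z : Lq s α) : sq4 s α β hab (sq4 s α β hab z) = ⟨z.re, -z.im⟩ := by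
  ext1
  · rw [sq4_re, sq4_re, cj2_cj2]
  · rw [sq4_im, sq4_im, map_mul, cj2_cj2, mul_assoc, mul_comm (cj2 s (dd s α β)), dd_bar s α β hab, mul_neg, mul_one]

/-- the generator as an equivalence -/
def s4 : Lq s α ≃ₐ[F] Lq s α :=
  AlgEquiv.ofAlgHom (sq4 s α β hab) ((sq4 s α β hab).comp ((sq4 s α β hab).comp (sq4 s α β hab)))
    (by
      ext1 z
      change sq4 s α β hab (sq4 s α β hab (sq4 s α β hab (sq4 s α β hab z))) = z
      rw [sq4_sq4, sq4_sq4]
      ext1
      · rfl
      · exact neg_neg _)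
    (by
      ext1 z
      change sq4 s α β hab (sq4 s α β hab (sq4 s α β hab (sq4 s α β hab z))) = z
      rw [sq4_sq4, sq4_sq4]
      ext1
      · rfl
      · exact neg_neg _)

theorem s4_apply (z : Lq s α) : s4 s α β hab z = ⟨cj2 s z.re, cj2 s z.im * dd s α β⟩ := rfl

theorem s4_sq (z : Lq s α) : (s4 s α β hab ^ 2) z = ⟨z.re, -z.im⟩ := sq4_sq4 s α β hab z


theorem cycGen_s4 (h2 : (2 : F) ≠ 0) : letI := cc_ns s α β hab
    CycGen (s4 s α β hab) (2 * 2) := by
  letI := cc_ns s α β hab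
  have h2' : (2 : QE s) ≠ 0 := two_ne_qin h2 s
  refine ⟨by norm_num, ?_, ?_⟩
  · refine orderOf_eq_prime_pow (p := 2) (n := 1) ?_ ?_
    · intro h
      rw [pow_one] at h
      have h1 := congrArg QuadraticAlgebra.im ((s4_sq s α β hab (rt (cc s α))).symm.trans (DFunLike.congr_fun h _))
      change -(1 : QE s) = 1 at h1
      exact h2' (by linear_combination (-1 : QE s) * h1)
    · ext1 z
      change ((s4 s α β hab) ^ (2 * 2)) z = z
      rw [pow_mul, sq, AlgEquiv.mul_apply, s4_sq, s4_sq]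
      ext1
      · rfl
      · exact neg_neg _
  · intro x hx
    have h1 : (s4 s α β hab ^ 2) x = x := by rw [sq, AlgEquiv.mul_apply, hx, hx]
    rw [s4_sq] at h1
    have h3 : -x.im = x.im := congrArg QuadraticAlgebra.im h1
    have h4 : x.im = 0 := by
      have : (2 : QE s) * x.im = 0 := by linear_combination (-1 : QE s) * h3
      exact (mul_eq_zero.1 this).resolve_left h2'
    have h5 : cj2 s x.re = x.re := congrArg QuadraticAlgebra.re hx
    obtain ⟨c, hc⟩ := (cycGen_cj2 h2 hs.ns).fix x.re h5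
    refine ⟨c, ?_⟩
    ext1
    · exact hc
    · exact h4.symm

/-- a companion matrix -/
def P4 (K : Type) [Field K] [Algebra F K] (b : F) : Matrix (Fin 4) (Fin 4) K :=
  !![0, 0, 0, algebraMap F K b; 1, 0, 0, 0; 0, 1, 0, 0; 0, 0, 1, 0]

omit s hs in
theorem P4_map {K : Type} [Field K] [Algebra F K] (σ : K ≃ₐ[F] K) (b : F) : (P4 K b).map σ = P4 K b := by
  ext i j
  fin_cases i <;> fin_cases j <;> simp [P4]

theorem P4_pow {K : Type} [Field K] [Algebra F K] (b : F) : P4 K b ^ 4 = algebraMap F (Matrix (Fin 4) (Fin 4) K) b := by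
  have h1 : P4 K b ^ 4 = (P4 K b * P4 K b) * (P4 K b * P4 K b) := by
    rw [← sq, ← sq, ← pow_mul]
  rw [h1]
  ext i j
  fin_cases i <;> fin_cases j <;>
    simp [P4, Matrix.mul_apply, Fin.sum_univ_four, Matrix.algebraMap_matrix_apply] <;>
    exact (Algebra.algebraMap_eq_smul_one b).symm

theorem tws_P4 {K : Type} [Field K] [Algebra F K] (σ : K ≃ₐ[F] K) {b : F} (hb : b ≠ 0) : Tws σ (2 * 2) (P4 K b) b where
  ne := hb
  nrm := by
    rw [nrm_fixed σ (P4_map σ b)]
    exact P4_pow b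

/-- the class of a cyclic algebra of degree four -/
def yc (h2 : (2 : F) ≠ 0) (f : Fˣ) : BrauerGroup.{0, 0} F :=
  letI := cc_ns s α β hab
  cls (cycGen_s4 s α β hab h2) (tws_P4 (s4 s α β hab) f.ne_zero)

theorem yc_sq (h2 : (2 : F) ≠ 0) (f : Fˣ) : yc s α β hab h2 f * yc s α β hab h2 f = qa h2 (Units.mk0 s (NS.ne_zero s)) f := by
  letI := cc_ns s α β hab
  have hσ := cycGen_s4 s α β hab h2
  rw [← sq]
  unfold yc
  rw [cls_pow hσ (tws_P4 (s4 s α β hab) f.ne_zero) 2 (tws_symQ (s4 s α β hab) f.ne_zero 2)]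
  refine cls_symQ (e := 2) hσ (prim_of_two h2) (Units.mk0 s (NS.ne_zero s)) f (qin (cc s α) (rt s)) ?_ ?_
  · ext1
    · exact cj2_rt
    · change cj2 s 0 * dd s α β = -0
      rw [map_zero, zero_mul, neg_zero]
  · rw [← map_pow, rt_sq]
    rfl

/-- the class over the quadratic subextension -/
theorem yc_res (h2 : (2 : F) ≠ 0) (h2' : (2 : QE s) ≠ 0) (f : Fˣ) :
    rh (qin s) (yc s α β hab h2 f) = qa h2' (Units.mk0 (cc s α) (cc_ne s α)) (um (qin s) f) := by
  letI := cc_ns s α β hab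
  have hσ := cycGen_s4 s α β hab h2
  have e : (qin s).toAlgebra = (inferInstance : Algebra F (QE s)) :=
    Algebra.algebra_ext _ _ (fun _ => rfl)
  have h1 : rh (qin s) (yc s α β hab h2 f) = res (QE s) (yc s α β hab h2 f) := by
    unfold rh
    rw [e]
  rw [h1]
  have hσ' : CycGen (cj2 (cc s α)) (2 * 1) := cycGen_cj2 h2' (cc_ns s α β hab).ns
  have hh : ∀ x : Lq s α, (RingHom.id (Lq s α)) ((s4 s α β hab ^ 2) x) = cj2 (cc s α) ((RingHom.id (Lq s α)) x) :=
    fun x => s4_sq s α β hab x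
  have hm : ∀ c : F, (RingHom.id (Lq s α)) (algebraMap F (Lq s α) c) =
      algebraMap (QE s) (Lq s α) (algebraMap F (QE s) c) := fun c => rfl
  have hb := cls_base (F := F) (K := Lq s α) (F' := QE s) (K' := Lq s α) (σ := s4 s α β hab) (σ' := cj2 (cc s α))
    (Φ := RingHom.id (Lq s α)) (r := 2) (d' := 2 * 1) hσ hσ' hh hm (tws_P4 (s4 s α β hab) f.ne_zero)
  have h3 := cls_symQ (e := 1) hσ' (prim_of_two h2') (Units.mk0 (cc s α) (cc_ne s α)) (um (qin s) f)
    (rt (cc s α)) cj2_rt (rt_sq _)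
  refine hb.trans (Eq.trans ?_ h3)
  exact cls_eq' hσ' _ _ (pow_one _).symm

end quartic

end Pool.Agent.H403.M
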