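import Mathlib
import Pool.Agent.H403.M.P1

/-! # Descent along quadratic extensions (helper403) -/

set_option autoImplicit false
set_option linter.all false

noncomputable section

namespace Pool.Agent.H403.M

open scoped TensorProduct
open Pool.Agent.TH132.W Pool.Agent.Y64.Cyc Pool.Agent.Helper18.Br Pool.Agent.H552R3.SymBr

theorem um_um {F K M : Type} [Field F] [Field K] [Field M] (φ : F →+* K) (ψ : K →+* M) (a : Fˣ) :
    um ψ (um φ a) = um (ψ.comp φ) a := rfl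

section

variable {F : Type} [Field F]

theorem yc_Yp (h2 : (2 : F) ≠ 0) (s : Fˣ) [hs : NS (s : F)] (α β : F) (hab : (s : F) = α ^ 2 + β ^ 2) (f : Fˣ) :
    Yp h2 s f (yc (s : F) α β hab h2 f) := by
  right
  refine ⟨hs.ns, ?_, ?_⟩
  · rw [yc_sq]
    congr 1
    ext1
    rfl
  · intro K _ φ h2K hns hq
    letI hN : NS (φ (s : F)) := ⟨hns⟩
    letI hN' : NS ((um φ s : Kˣ) : K) := ⟨hns⟩
    have h2E : (2 : QE (φ (s : F))) ≠ 0 := two_ne_qin h2K _
    have h2' : (2 : QE (s : F)) ≠ 0 := two_ne_qin h2 _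
    have e1 : rh (qin (φ (s : F))) (rh φ (yc (s : F) α β hab h2 f)) =
        qa h2E (um (qm2 φ (s : F)) (Units.mk0 (cc (s : F) α) (cc_ne (s : F) α))) (um (qin (φ (s : F))) (um φ f)) := by
      rw [rh_comp, ← qm2_comp, ← rh_comp, yc_res (s : F) α β hab h2 h2' f, rh_qa _ h2' h2E, um_um, um_um, qm2_comp]
    have hβ := beta_ne (s : F) α β hab
    have e2 : nu (um (qm2 φ (s : F)) (Units.mk0 (cc (s : F) α) (cc_ne (s : F) α))) =
        um φ s * (um φ (Units.mk0 β hβ)) ^ 2 := by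
      ext1
      rw [nu_val, um_val, nq_qm2, Units.val_mk0, nq_cc (s : F) α β hab, Units.val_mul, Units.val_pow_eq_pow_val, um_val,
        um_val, Units.val_mk0, map_mul, map_pow]
    obtain ⟨c, hc⟩ := VV h2K (φ (s : F)) h2E (um (qm2 φ (s : F)) (Units.mk0 (cc (s : F) α) (cc_ne (s : F) α)))
      (um φ f) (by rw [qa_left_eq h2K (um φ f) e2]; exact hq)
    have e3 : rh (qin (φ (s : F))) (rh φ (yc (s : F) α β hab h2 f) / qa h2K c (um φ f)) = 1 := by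
      rw [map_div, e1, hc, div_self']
    obtain ⟨g, hg⟩ := ker_qin h2K (um φ s) _ e3
    rw [div_eq_iff_eq_mul.1 hg]
    exact mul_mem (qa_mem _ _ _) (qa_mem _ _ _)

/-- for a sum of two squares there is a class as required -/
theorem exists_Yp (h2 : (2 : F) ≠ 0) (s f : Fˣ) (α β : F) (hab : (s : F) = α ^ 2 + β ^ 2) :
    ∃ y : BrauerGroup.{0, 0} F, Yp h2 s f y ∧ (y = 1 ∨ ∃ (_ : NS (s : F)), y = yc (s : F) α β hab h2 f) := by
  by_cases hs : ∃ c : F, c ^ 2 = s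
  · exact ⟨1, Or.inl ⟨hs, rfl⟩, Or.inl rfl⟩
  · push Not at hs
    letI : NS (s : F) := ⟨hs⟩
    exact ⟨_, yc_Yp h2 s α β hab f, Or.inr ⟨inferInstance, rfl⟩⟩

theorem Yp.sq {h2 : (2 : F) ≠ 0} {s f : Fˣ} {y : BrauerGroup.{0, 0} F} (h : Yp h2 s f y) : y * y = qa h2 s f := by
  rcases h with ⟨⟨c, hc⟩, rfl⟩ | ⟨_, h, _⟩
  · have hc0 : c ≠ 0 := by
      rintro rfl
      exact s.ne_zero (by rw [← hc]; ring)
    have : s = 1 * (Units.mk0 c hc0) ^ 2 := by
      ext1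
      rw [one_mul, Units.val_pow_eq_pow_val, Units.val_mk0, hc]
    rw [qa_left_eq h2 f this, qa_one_left, one_mul]
  · exact h

end

/-- the data in the descent argument -/
structure Tr (F : Type) [Field F] (a : F) [NS a] where
  r : (QE a)ˣ
  f : Fˣ
  y : BrauerGroup.{0, 0} F

variable {F : Type} [Field F]

/-- the class of the data over the quadratic extension -/
def Tr.cl {a : F} [NS a] (h2E : (2 : QE a) ≠ 0) (t : Tr F a) : BrauerGroup.{0, 0} (QE a) := qa h2E t.r (um (qin a) t.f)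

/-- base change of data -/
def Tr.bc {a : F} [NS a] {K : Type} [Field K] (φ : F →+* K) [NS (φ a)] (t : Tr F a) : Tr K (φ a) where
  r := um (qm2 φ a) t.r
  f := um φ t.f
  y := rh φ t.y

theorem Tr.bc_cl {a : F} [NS a] {K : Type} [Field K] (φ : F →+* K) [NS (φ a)] (h2E : (2 : QE a) ≠ 0)
    (h2E' : (2 : QE (φ a)) ≠ 0) (t : Tr F a) : (t.bc φ).cl h2E' = rh (qm2 φ a) (t.cl h2E) := by
  unfold Tr.cl
  rw [rh_qa _ h2E h2E', um_um, qm2_comp]
  rfl

theorem Tr.nu_bc {a : F} [NS a] {K : Type} [Field K] (φ : F →+* K) [NS (φ a)] (t : Tr F a) :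
    nu (t.bc φ).r = um φ (nu t.r) := by
  ext1
  rw [nu_val, um_val, nu_val]
  exact nq_qm2 φ a _

theorem Yp.bc {h2 : (2 : F) ≠ 0} {s f : Fˣ} {y : BrauerGroup.{0, 0} F} (h : Yp h2 s f y) {K : Type} [Field K]
    (φ : F →+* K) (h2K : (2 : K) ≠ 0) (hns : (∀ c : F, c ^ 2 ≠ s) → ∀ c : K, c ^ 2 ≠ φ s) :
    Yp h2K (um φ s) (um φ f) (rh φ y) := by
  rcases h with ⟨⟨c, hc⟩, rfl⟩ | ⟨h1, h3, h4⟩
  · exact Or.inl ⟨⟨φ c, by rw [um_val, ← hc, map_pow]⟩, map_one _⟩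
  · right
    refine ⟨hns h1, ?_, ?_⟩
    · rw [← map_mul, h3, rh_qa φ h2 h2K]
    · intro M _ ψ h2M h5 h6
      rw [rh_comp]
      exact h4 M (ψ.comp φ) h2M h5 h6

/-- the subgroup generated by quaternion classes and the given classes -/
def QY (h2 : (2 : F) ≠ 0) (S : Set (BrauerGroup.{0, 0} F)) : Subgroup (BrauerGroup.{0, 0} F) :=
  QQ h2 ⊔ Subgroup.closure S

theorem QY_mono (h2 : (2 : F) ≠ 0) {S S' : Set (BrauerGroup.{0, 0} F)} (h : S ⊆ S') : QY h2 S ≤ QY h2 S' :=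
  sup_le_sup le_rfl (Subgroup.closure_mono h)

theorem QQ_le_QY (h2 : (2 : F) ≠ 0) (S : Set (BrauerGroup.{0, 0} F)) : QQ h2 ≤ QY h2 S := le_sup_left

theorem mem_QY_of (h2 : (2 : F) ≠ 0) {S : Set (BrauerGroup.{0, 0} F)} {y : BrauerGroup.{0, 0} F} (h : y ∈ S) :
    y ∈ QY h2 S := (le_sup_right : Subgroup.closure S ≤ QY h2 S) (Subgroup.subset_closure h)

/-- the statement of the descent theorem, for a given number of symbols -/
def QDs (l : ℕ) : Prop := ∀ (F : Type) [Field F] (h2 : (2 : F) ≠ 0) (a : Fˣ) [NS (a : F)] (h2E : (2 : QE (a : F)) ≠ 0)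
  (L : List (Tr F (a : F))), L.length = l → (∀ t ∈ L, Yp h2 (nu t.r) t.f t.y) → ∀ x : BrauerGroup.{0, 0} F,
    rh (qin (a : F)) x = (L.map (Tr.cl h2E)).prod →
      x ∈ QY h2 {y | ∃ t ∈ L, y = t.y} ∧ (x * x = 1 → x ∈ QQ h2)

theorem conic_eq (s f : F) : (kc f : CA s f) = cy ^ 2 - kc s * cx ^ 2 := by
  have h := cy_sq (s := s) (f := f)
  generalize (cy : CA s f) = u at h ⊢
  generalize (cx : CA s f) = v at h ⊢
  generalize (kc s : CA s f) = w at h ⊢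
  generalize (kc f : CA s f) = z at h ⊢
  linear_combination (-1 : CA s f) * h

theorem QD_zero : QDs 0 := by
  intro F _ h2 a _ h2E L hL hY x hx
  rw [List.length_eq_zero_iff] at hL
  subst hL
  rw [List.map_nil, List.prod_nil] at hx
  obtain ⟨g, rfl⟩ := ker_qin h2 a x hx
  exact ⟨QQ_le_QY _ _ (qa_mem _ _ _), fun _ => qa_mem _ _ _⟩

theorem QD_case1 {l : ℕ} (IH : QDs l) (F : Type) [Field F] (h2 : (2 : F) ≠ 0) (a : Fˣ) [NS (a : F)]
    (h2E : (2 : QE (a : F)) ≠ 0) (t : Tr F (a : F)) (L : List (Tr F (a : F))) (hL : L.length = l)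
    (hY : ∀ t ∈ L, Yp h2 (nu t.r) t.f t.y) (ht : qa h2 (nu t.r) t.f = 1) (x : BrauerGroup.{0, 0} F)
    (hx : rh (qin (a : F)) x = ((t :: L).map (Tr.cl h2E)).prod) :
      x ∈ QY h2 {y | ∃ t ∈ L, y = t.y} ∧ (x * x = 1 → x ∈ QQ h2) := by
  obtain ⟨c, hc⟩ := VV h2 (a : F) h2E t.r t.f ht
  rw [List.map_cons, List.prod_cons] at hx
  have h1 : rh (qin (a : F)) (x / qa h2 c t.f) = (L.map (Tr.cl h2E)).prod := by
    rw [map_div, hx]
    change qa h2E t.r (um (qin (a : F)) t.f) * _ / _ = _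
    rw [hc, mul_div_cancel_left]
  obtain ⟨h3, h4⟩ := IH F h2 a h2E L hL hY _ h1
  constructor
  · have := mul_mem h3 (QQ_le_QY h2 {y | ∃ t ∈ L, y = t.y} (qa_mem h2 c t.f))
    rwa [div_mul_cancel] at this
  · intro hx2
    have h5 := h4 (by rw [div_mul_div_comm, hx2, qa_mul_self, div_one])
    have := mul_mem h5 (qa_mem h2 c t.f)
    rwa [div_mul_cancel] at this

theorem QD_succ {l : ℕ} (IH : QDs l) : QDs (l + 1) := by
  intro F _ h2 a hN h2E L hL hY x hx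
  obtain _ | ⟨t, L⟩ := L
  · simp at hL
  rw [List.length_cons, Nat.add_right_cancel_iff] at hL
  have hYL : ∀ t ∈ L, Yp h2 (nu t.r) t.f t.y := fun t' ht' => hY t' (List.mem_cons_of_mem _ ht')
  have hYt := hY t List.mem_cons_self
  have hsub : {y | ∃ t ∈ L, y = t.y} ⊆ {y | ∃ t' ∈ (t :: L), y = t'.y} := by
    rintro y ⟨t', ht', rfl⟩
    exact ⟨t', List.mem_cons_of_mem _ ht', rfl⟩
  by_cases ht : qa h2 (nu t.r) t.f = 1
  · obtain ⟨h3, h4⟩ := QD_case1 IH F h2 a h2E t L hL hYL ht x hx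
    exact ⟨QY_mono h2 hsub h3, h4⟩
  -- the conic
  haveI hC : Con ((nu t.r : Fˣ) : F) (t.f : F) := con_of_ne h2 _ _ ht
  let φ := ci ((nu t.r : Fˣ) : F) (t.f : F)
  have h2K : (2 : CK ((nu t.r : Fˣ) : F) (t.f : F)) ≠ 0 := two_ne_map φ h2
  haveI hNK : NS (φ (a : F)) := ⟨nonsq _ _ _ hN.ns⟩
  haveI hNK' : NS ((um φ a : (CK ((nu t.r : Fˣ) : F) (t.f : F))ˣ) : CK ((nu t.r : Fˣ) : F) (t.f : F)) := hNK
  have h2EK : (2 : QE (φ (a : F))) ≠ 0 := two_ne_qin h2K _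
  have hsplit : qa h2K (nu (t.bc φ).r) (t.bc φ).f = 1 := by
    rw [Tr.nu_bc]
    have e1 : ((um φ t.f : (CK ((nu t.r : Fˣ) : F) (t.f : F))ˣ) : CK ((nu t.r : Fˣ) : F) (t.f : F)) =
        (algebraMap (CA ((nu t.r : Fˣ) : F) (t.f : F)) (CK ((nu t.r : Fˣ) : F) (t.f : F)) cy) ^ 2 -
          ((um φ (nu t.r) : (CK ((nu t.r : Fˣ) : F) (t.f : F))ˣ) : CK ((nu t.r : Fˣ) : F) (t.f : F)) *
          (algebraMap (CA ((nu t.r : Fˣ) : F) (t.f : F)) (CK ((nu t.r : Fˣ) : F) (t.f : F)) cx) ^ 2 := by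
      rw [um_val, um_val]
      change algebraMap (CA ((nu t.r : Fˣ) : F) (t.f : F)) (CK ((nu t.r : Fˣ) : F) (t.f : F)) (kc (t.f : F)) = _ -
        algebraMap (CA ((nu t.r : Fˣ) : F) (t.f : F)) (CK ((nu t.r : Fˣ) : F) (t.f : F)) (kc ((nu t.r : Fˣ) : F)) * _
      rw [← map_pow, ← map_pow, ← map_mul, ← map_sub]
      exact congrArg _ (conic_eq _ _)
    exact qa_norm h2K _ _ _ _ e1
  have hxK : rh (qin (φ (a : F))) (rh φ x) = (((t.bc φ) :: (L.map (Tr.bc φ))).map (Tr.cl h2EK)).prod := by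
    rw [rh_comp, ← qm2_comp, ← rh_comp, hx, map_list_prod, List.map_map, List.map_cons, List.map_cons, List.map_map]
    congr 2
    · exact (Tr.bc_cl φ h2E h2EK t).symm
    · refine List.map_congr_left fun t' _ => ?_
      exact (Tr.bc_cl φ h2E h2EK t').symm
  have hYK : ∀ t' ∈ L.map (Tr.bc φ), Yp h2K (nu t'.r) t'.f t'.y := by
    intro t' ht'
    obtain ⟨t0, ht0, rfl⟩ := List.mem_map.1 ht'
    rw [Tr.nu_bc]
    exact (hYL t0 ht0).bc φ h2K (fun h c => nonsq _ _ _ h c)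
  obtain ⟨h3, h4⟩ := QD_case1 IH (CK ((nu t.r : Fˣ) : F) (t.f : F)) h2K (um φ a) h2EK (t.bc φ) (L.map (Tr.bc φ))
    ((List.length_map _).trans hL) hYK hsplit (rh φ x) hxK
  have hyt : t.y * t.y = qa h2 (nu t.r) t.f := hYt.sq
  have hytK : rh φ t.y ∈ QQ h2K := by
    rcases hYt with ⟨⟨c, hc⟩, _⟩ | ⟨_, _, h5⟩
    · exact absurd hc (hC.hs c)
    · refine h5 _ φ h2K (s_nonsq _ _) ?_
      rw [← Tr.nu_bc]
      exact hsplit
  constructor
  · -- general part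
    have h6 : QY h2K {y | ∃ t ∈ L.map (Tr.bc φ), y = t.y} ≤
        QQ h2K ⊔ (Subgroup.closure {y | ∃ t ∈ L, y = t.y}).map (rh φ) := by
      refine sup_le le_sup_left ?_
      rw [Subgroup.closure_le]
      rintro y ⟨t', ht', rfl⟩
      obtain ⟨t0, ht0, rfl⟩ := List.mem_map.1 ht'
      exact SetLike.le_def.1 le_sup_right (Subgroup.mem_map_of_mem _ (Subgroup.subset_closure ⟨t0, ht0, rfl⟩))
    obtain ⟨q, hq, z', ⟨z, hz, rfl⟩, hqz⟩ := Subgroup.mem_sup.1 (h6 h3)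
    have h7 : rh φ (x / z) ∈ QQ h2K := by
      rw [map_div, ← hqz, mul_div_cancel_right]
      exact hq
    have hz' : z ∈ QY h2 {y | ∃ t' ∈ (t :: L), y = t'.y} :=
      SetLike.le_def.1 le_sup_right (Subgroup.closure_mono hsub hz)
    rcases D1 (nu t.r) t.f h2K t.y (x / z) hyt hytK h7 with h8 | h8
    · have := mul_mem (QQ_le_QY h2 {y | ∃ t' ∈ (t :: L), y = t'.y} h8) hz'
      rwa [div_mul_cancel] at this
    · have h9 : t.y ∈ QY h2 {y | ∃ t' ∈ (t :: L), y = t'.y} := mem_QY_of h2 ⟨t, List.mem_cons_self, rfl⟩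
      have := mul_mem (mul_mem (QQ_le_QY h2 {y | ∃ t' ∈ (t :: L), y = t'.y} h8) h9) hz'
      rwa [div_mul_cancel, div_mul_cancel] at this
  · intro hx2
    have h6 := h4 (by rw [← map_mul, hx2, map_one])
    rcases D1 (nu t.r) t.f h2K t.y x hyt hytK h6 with h8 | h8
    · exact h8
    · exfalso
      apply ht
      have h9 := QQ_sq h2 h8
      rw [div_mul_div_comm, hx2, hyt, one_div, inv_eq_one] at h9
      exact h9

/-- the descent theorem -/
theorem QD (l : ℕ) : QDs l := by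
  induction l with
  | zero => exact QD_zero
  | succ l IH => exact QD_succ IH

end Pool.Agent.H403.M
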