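import Mathlib
import Pool.Agent.H403.M.Q1

/-! # Classes split by towers of quadratic extensions: exponent two (helper403) -/

set_option autoImplicit false
set_option linter.all false

noncomputable section

namespace Pool.Agent.H403.M

open scoped TensorProduct
open Pool.Agent.TH132.W Pool.Agent.Y64.Cyc Pool.Agent.Helper18.Br Pool.Agent.H552R3.SymBr

section gen

variable {F : Type} [Field F]

theorem qa_self (h2 : (2 : F) ≠ 0) (a : Fˣ) : qa h2 a a = qa h2 a (-1) := by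
  have h := qa_neg_self h2 a
  rw [neg_eq_neg_one_mul, qa_mul_right] at h
  rw [eq_inv_of_mul_eq_one_right h, qa_inv]

/-- products of symbols with second entry in the base field -/
def RF (a : F) [NS a] (h2E : (2 : QE a) ≠ 0) : Subgroup (BrauerGroup.{0, 0} (QE a)) where
  carrier := {x | ∃ L : List ((QE a)ˣ × Fˣ), x = (L.map fun p => qa h2E p.1 (um (qin a) p.2)).prod}
  one_mem' := ⟨[], rfl⟩
  mul_mem' := by
    rintro x y ⟨L, rfl⟩ ⟨L', rfl⟩
    exact ⟨L ++ L', by rw [List.map_append, List.prod_append]⟩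
  inv_mem' := by
    rintro x ⟨L, rfl⟩
    refine ⟨L, ?_⟩
    induction L with
    | nil => exact inv_one
    | cons p L ih => rw [List.map_cons, List.prod_cons, mul_inv, ih, qa_inv]

theorem qa_mem_RF (a : F) [NS a] (h2E : (2 : QE a) ≠ 0) (r : (QE a)ˣ) (f : Fˣ) : qa h2E r (um (qin a) f) ∈ RF a h2E :=
  ⟨[(r, f)], by rw [List.map_cons, List.prod_cons, List.map_nil, List.prod_nil, mul_one]⟩

theorem qa_mem_RF' (a : F) [NS a] (h2E : (2 : QE a) ≠ 0) (r : (QE a)ˣ) (f : Fˣ) : qa h2E (um (qin a) f) r ∈ RF a h2E := by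
  rw [qa_comm]
  exact qa_mem_RF a h2E r f

theorem neg_one_um (a : F) [NS a] : (-1 : (QE a)ˣ) = um (qin a) (-1) := by
  ext1
  rw [um_val, Units.val_neg, Units.val_neg, Units.val_one, Units.val_one, map_neg, map_one]

theorem QE_unit_cases (a : F) [NS a] (u : (QE a)ˣ) : (∃ c : Fˣ, u = um (qin a) c) ∨
    ∃ (q : Fˣ) (e : F) (A : (QE a)ˣ), (A : QE a) = rt a + qin a e ∧ u = um (qin a) q * A := by
  by_cases h : (u : QE a).im = 0
  · left
    have h1 : (u : QE a).re ≠ 0 := fun h1 => u.ne_zero (QuadraticAlgebra.ext h1 h)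
    refine ⟨Units.mk0 _ h1, ?_⟩
    ext1
    exact QuadraticAlgebra.ext rfl h
  · right
    have e1 : (u : QE a) = qin a (u : QE a).im * (rt a + qin a ((u : QE a).re / (u : QE a).im)) := by
      rw [mul_add, ← map_mul, mul_div_cancel₀ _ h, add_comm]
      exact QE_eq _
    have h1 : (rt a + qin a ((u : QE a).re / (u : QE a).im)) ≠ 0 := by
      intro h0
      rw [h0, mul_zero] at e1
      exact u.ne_zero e1
    refine ⟨Units.mk0 _ h, (u : QE a).re / (u : QE a).im, Units.mk0 _ h1, rfl, ?_⟩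
    ext1
    exact e1

theorem qa_RF (a : F) [NS a] (h2E : (2 : QE a) ≠ 0) (u v : (QE a)ˣ) : qa h2E u v ∈ RF a h2E := by
  rcases QE_unit_cases a u with ⟨c, rfl⟩ | ⟨q, e, A, hA, rfl⟩
  · exact qa_mem_RF' a h2E v c
  rcases QE_unit_cases a v with ⟨c, rfl⟩ | ⟨q', e', B, hB, rfl⟩
  · exact qa_mem_RF a h2E _ c
  rw [qa_mul_left, qa_mul_right h2E A]
  refine mul_mem (qa_mem_RF' a h2E _ q) (mul_mem (qa_mem_RF a h2E _ q') ?_)
  by_cases he : e = e'
  · have hAB : A = B := by
      ext1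
      rw [hA, hB, he]
    rw [hAB, qa_self, neg_one_um]
    exact qa_mem_RF a h2E _ _
  · have hd : e - e' ≠ 0 := sub_ne_zero.2 he
    let δ : Fˣ := Units.mk0 _ hd
    have h1 : ((A * um (qin a) δ⁻¹ : (QE a)ˣ) : QE a) + (((-1) * B * um (qin a) δ⁻¹ : (QE a)ˣ) : QE a) = 1 := by
      rw [Units.val_mul, Units.val_mul, Units.val_mul, Units.val_neg, Units.val_one, um_val, hA, hB, ← add_mul]
      have h3 : rt a + qin a e + -1 * (rt a + qin a e') = qin a (e - e') := by
        rw [map_sub]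
        ring
      rw [h3, ← map_mul, Units.val_inv_eq_inv_val, Units.val_mk0, mul_inv_cancel₀ hd, map_one]
    have h3 := qa_steinberg h2E _ _ h1
    rw [qa_mul_left, qa_mul_right h2E A, qa_mul_right h2E A] at h3
    have h4 : qa h2E A B = (qa h2E A (-1))⁻¹ * (qa h2E A (um (qin a) δ⁻¹))⁻¹ *
        (qa h2E (um (qin a) δ⁻¹) (-1 * B * um (qin a) δ⁻¹))⁻¹ := by
      generalize qa h2E A (-1) = x1 at h3 ⊢
      generalize qa h2E A (um (qin a) δ⁻¹) = x2 at h3 ⊢
      generalize qa h2E (um (qin a) δ⁻¹) (-1 * B * um (qin a) δ⁻¹) = x3 at h3 ⊢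
      generalize qa h2E A B = x4 at h3 ⊢
      rw [← mul_inv, ← mul_inv, eq_inv_iff_mul_eq_one, ← h3]
      simp only [mul_assoc, mul_left_comm, mul_comm]
    rw [h4, neg_one_um]
    exact mul_mem (mul_mem (inv_mem (qa_mem_RF a h2E _ _)) (inv_mem (qa_mem_RF a h2E _ _)))
      (inv_mem (qa_mem_RF' a h2E _ _))

theorem QQ_le_RF (a : F) [NS a] (h2E : (2 : QE a) ≠ 0) : QQ h2E ≤ RF a h2E := by
  rintro x ⟨u, rfl⟩
  induction u using k2_induction with
  | h0 => rw [hc_zero]; exact one_mem _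
  | hs u v => rw [hc_sym]; exact qa_RF a h2E u v
  | ha x y hx hy => rw [hc_add]; exact mul_mem hx hy

end gen

/-- classes split by a finite tower of quadratic extensions -/
inductive TwoSplit : ∀ (F : Type) [Field F], BrauerGroup.{0, 0} F → Prop
  | one (F : Type) [Field F] : TwoSplit F 1
  | step (F : Type) [Field F] (a : F) [NS a] (x : BrauerGroup.{0, 0} F) (h : TwoSplit (QE a) (rh (qin a) x)) : TwoSplit F x

theorem TwoSplit.bc {F : Type} [hF : Field F] {x : BrauerGroup.{0, 0} F} (h : TwoSplit F x) :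
    ∀ (K : Type) [Field K] (φ : F →+* K), TwoSplit K (rh φ x) := by
  induction h with
  | one F =>
    intro K _ φ
    rw [map_one]
    exact TwoSplit.one K
  | step F a x h ih =>
    intro K _ φ
    by_cases hb : ∃ b : K, b ^ 2 = φ a
    · obtain ⟨b, hb⟩ := hb
      have h1 := ih K (qroot φ a b hb)
      rwa [rh_comp, qroot_comp] at h1
    · push Not at hb
      haveI : NS (φ a) := ⟨hb⟩
      have h1 := ih (QE (φ a)) (qm2 φ a)
      rw [rh_comp, qm2_comp, ← rh_comp] at h1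
      exact TwoSplit.step K (φ a) _ h1

theorem TwoSplit.mul {F : Type} [hF : Field F] {x : BrauerGroup.{0, 0} F} (h : TwoSplit F x) :
    ∀ y, TwoSplit F y → TwoSplit F (x * y) := by
  induction h with
  | one F => intro y hy; rwa [one_mul]
  | step F a x h ih =>
    intro y hy
    refine TwoSplit.step F a _ ?_
    rw [map_mul]
    exact ih _ (hy.bc _ _)

theorem TwoSplit.inv {F : Type} [hF : Field F] {x : BrauerGroup.{0, 0} F} (h : TwoSplit F x) : TwoSplit F x⁻¹ := by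
  induction h with
  | one F => rw [inv_one]; exact TwoSplit.one F
  | step F a x h ih =>
    refine TwoSplit.step F a _ ?_
    rw [map_inv]
    exact ih

theorem TwoSplit.div {F : Type} [hF : Field F] {x y : BrauerGroup.{0, 0} F} (h : TwoSplit F x) (h' : TwoSplit F y) :
    TwoSplit F (x / y) := by
  rw [div_eq_mul_inv]
  exact h.mul _ h'.inv

variable {F : Type} [Field F]

theorem qa_square_left (h2 : (2 : F) ≠ 0) (a b : Fˣ) (c : F) (hc : c ^ 2 = a) : qa h2 a b = 1 := by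
  have hc0 : c ≠ 0 := by
    rintro rfl
    exact a.ne_zero (by rw [← hc]; ring)
  have : a = 1 * (Units.mk0 c hc0) ^ 2 := by
    ext1
    rw [one_mul, Units.val_pow_eq_pow_val, Units.val_mk0, hc]
  rw [qa_left_eq h2 b this, qa_one_left]

theorem twoSplit_qa (h2 : (2 : F) ≠ 0) (a b : Fˣ) : TwoSplit F (qa h2 a b) := by
  by_cases ha : ∃ c : F, c ^ 2 = a
  · obtain ⟨c, hc⟩ := ha
    rw [qa_square_left h2 a b c hc]
    exact TwoSplit.one F
  · push Not at ha
    haveI : NS (a : F) := ⟨ha⟩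
    refine TwoSplit.step F (a : F) _ ?_
    rw [rh_qa _ h2 (two_ne_qin h2 _), qa_square_left _ _ _ (rt (a : F)) (by rw [rt_sq]; rfl)]
    exact TwoSplit.one _

theorem twoSplit_QQ (h2 : (2 : F) ≠ 0) {x : BrauerGroup.{0, 0} F} (hx : x ∈ QQ h2) : TwoSplit F x := by
  obtain ⟨u, rfl⟩ := hx
  induction u using k2_induction with
  | h0 => rw [hc_zero]; exact TwoSplit.one F
  | hs u v => rw [hc_sym]; exact twoSplit_qa h2 u v
  | ha x y hx hy => rw [hc_add]; exact hx.mul _ hy

theorem twoSplit_yc (h2 : (2 : F) ≠ 0) (s α β : F) [hs : NS s] (hab : s = α ^ 2 + β ^ 2) (f : Fˣ) :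
    TwoSplit F (yc s α β hab h2 f) := by
  refine TwoSplit.step F s _ ?_
  rw [yc_res s α β hab h2 (two_ne_qin h2 s) f]
  exact twoSplit_qa _ _ _

/-- the set of classes of cyclic algebras of degree four -/
def YS (h2 : (2 : F) ≠ 0) : Set (BrauerGroup.{0, 0} F) :=
  {y | ∃ (s α β : F) (_ : NS s) (hab : s = α ^ 2 + β ^ 2) (f : Fˣ), y = yc s α β hab h2 f}

/-- descent along a quadratic extension whose norms are sums of two squares -/
theorem desc_quad (h2 : (2 : F) ≠ 0) (a : F) [hN : NS a] (h2E : (2 : QE a) ≠ 0)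
    (hsum : ∀ z : QE a, ∃ α β : F, nq z = α ^ 2 + β ^ 2) (x : BrauerGroup.{0, 0} F)
    (hx : rh (qin a) x ∈ QQ h2E) : x ∈ QY h2 (YS h2) ∧ (x * x = 1 → x ∈ QQ h2) := by
  obtain ⟨L, hL⟩ := QQ_le_RF a h2E hx
  have hex : ∀ p : (QE a)ˣ × Fˣ, ∃ y : BrauerGroup.{0, 0} F, Yp h2 (nu p.1) p.2 y ∧ (y = 1 ∨ y ∈ YS h2) := by
    intro p
    obtain ⟨α, β, hab⟩ := hsum (p.1 : QE a)
    obtain ⟨y, h1, h3⟩ := exists_Yp h2 (nu p.1) p.2 α β hab
    refine ⟨y, h1, ?_⟩
    rcases h3 with h3 | ⟨h3, h4⟩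
    · exact Or.inl h3
    · exact Or.inr ⟨_, α, β, h3, hab, p.2, h4⟩
  choose y hy1 hy2 using hex
  let T : List (Tr F a) := L.map fun p => ⟨p.1, p.2, y p⟩
  haveI hN' : NS ((Units.mk0 a (NS.ne_zero a) : Fˣ) : F) := hN
  have h1 := QD T.length F h2 (Units.mk0 a (NS.ne_zero a)) h2E T rfl (by
    intro t ht
    obtain ⟨p, _, rfl⟩ := List.mem_map.1 ht
    exact hy1 p) x (hL.trans (by
      change _ = (List.map (Tr.cl h2E) (L.map fun p => (⟨p.1, p.2, y p⟩ : Tr F a))).prod
      rw [List.map_map]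
      rfl))
  refine ⟨?_, h1.2⟩
  refine SetLike.le_def.1 ?_ h1.1
  refine sup_le le_sup_left ?_
  rw [Subgroup.closure_le]
  rintro z ⟨t, ht, rfl⟩
  obtain ⟨p, _, rfl⟩ := List.mem_map.1 ht
  rcases hy2 p with h | h
  · change y p ∈ _
    rw [h]
    exact one_mem _
  · exact mem_QY_of h2 h

theorem T1i {x : BrauerGroup.{0, 0} F} (h : TwoSplit F x) : ∀ (h2 : (2 : F) ≠ 0) (ι : F), ι ^ 2 = -1 → x * x = 1 →
    x ∈ QQ h2 := by
  induction h with
  | one F => intro h2 ι _ _; exact one_mem _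
  | step F a x h ih =>
    intro h2 ι hι hx
    have h2E : (2 : QE a) ≠ 0 := two_ne_qin h2 a
    have h1 := ih h2E (qin a ι) (by rw [← map_pow, hι, map_neg, map_one]) (by rw [← map_mul, hx, map_one])
    have hι0 : ι ≠ 0 := by
      rintro rfl
      rw [zero_pow two_ne_zero] at hι
      exact one_ne_zero (neg_eq_zero.1 hι.symm)
    exact (desc_quad h2 a h2E (fun z => ⟨(nq z + 1) / 2, (nq z - 1) / (2 * ι), by
      rw [div_pow, div_pow, mul_pow, hι]
      field_simp
      ring⟩) x h1).2 hx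

/-- classes of exponent two split by a tower of quadratic extensions are products of quaternion classes -/
theorem T1 {x : BrauerGroup.{0, 0} F} (h : TwoSplit F x) (h2 : (2 : F) ≠ 0) (hx : x * x = 1) : x ∈ QQ h2 := by
  by_cases hι : ∃ ι : F, ι ^ 2 = -1
  · obtain ⟨ι, hι⟩ := hι
    exact T1i h h2 ι hι hx
  · push Not at hι
    haveI : NS (-1 : F) := ⟨hι⟩
    have h2E : (2 : QE (-1 : F)) ≠ 0 := two_ne_qin h2 _
    have h1 := T1i (h.bc (QE (-1 : F)) (qin _)) h2E (rt _) (by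
      rw [rt_sq, map_neg, map_one]) (by rw [← map_mul, hx, map_one])
    exact (desc_quad h2 (-1) h2E (fun z => ⟨z.re, z.im, by
      unfold nq
      ring⟩) x h1).2 hx

end Pool.Agent.H403.M
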