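import Mathlib
import Pool.Agent.H403.M.T1

/-! # Classes split by towers of quadratic extensions: exponent four (helper403) -/

set_option autoImplicit false
set_option linter.all false

noncomputable section

namespace Pool.Agent.H403.M

open scoped TensorProduct
open Pool.Agent.TH132.W Pool.Agent.Y64.Cyc Pool.Agent.Helper18.Br Pool.Agent.H552R3.SymBr Pool.Agent.H552R3.SymPred

section four

variable {E : Type} [Field E]

theorem prim4 (h2 : (2 : E) ≠ 0) (ι : E) (hι : ι ^ 2 = -1) : IsPrimitiveRoot ι 4 := by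
  have h11 : (-1 : E) ≠ 1 := by
    intro h
    exact h2 (by linear_combination (-1 : E) * h)
  refine IsPrimitiveRoot.mk_of_lt ι (by norm_num) ?_ ?_
  · rw [show (4 : ℕ) = 2 * 2 from rfl, pow_mul, hι, neg_one_sq]
  · intro l hl hl4 h
    interval_cases l
    · rw [pow_one] at h
      rw [h, one_pow] at hι
      exact h11 hι.symm
    · rw [hι] at h
      exact h11 h
    · rw [pow_succ, hι] at h
      have h3 : ι = -1 := by linear_combination (-1 : E) * h
      rw [h3, neg_one_sq] at hι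
      exact h11 hι.symm

theorem four_pos' : 0 < 4 := by norm_num

/-- symbol classes of degree four -/
def s4c {ι : E} (hι : IsPrimitiveRoot ι 4) (a b : Eˣ) : BrauerGroup.{0, 0} E := symCl four_pos' hι a b

theorem s4c_mul_left {ι : E} (hι : IsPrimitiveRoot ι 4) (a b c : Eˣ) : s4c hι (a * b) c = s4c hι a c * s4c hι b c :=
  symCl_mul_left _ hι _ _ _

theorem prim4_sq {ι : E} (hι : IsPrimitiveRoot ι 4) : ι ^ 2 = -1 := by
  have h1 : ι ^ 2 ≠ 1 := hι.pow_ne_one_of_pos_of_lt (by norm_num) (by norm_num)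
  have h2 : (ι ^ 2 - 1) * (ι ^ 2 + 1) = 0 := by
    have := hι.pow_eq_one
    linear_combination this
  rcases mul_eq_zero.1 h2 with h | h
  · exact absurd (sub_eq_zero.1 h) h1
  · exact eq_neg_of_add_eq_zero_left h

theorem s4c_sq {ι : E} (hι : IsPrimitiveRoot ι 4) (h2 : (2 : E) ≠ 0) (a b : Eˣ) : s4c hι a b * s4c hι a b = qa h2 a b := by
  rw [← s4c_mul_left]
  symm
  refine (isSym_iff four_pos' hι (a * a) b _).1 ?_
  obtain ⟨A, _, _, _, _, _, hA, hcl, x, y, hx, hy, hyx⟩ := (isSym_iff two_pos (prim_of_two h2) a b _).2 rfl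
  have hι2 := prim4_sq hι
  have hxx : x * x = algebraMap E A a := by rw [← sq, hx]
  have hyy : y * y = algebraMap E A b := by rw [← sq, hy]
  have hp4 : ∀ M : Matrix (Fin 2) (Fin 2) A, M ^ 4 = (M * M) * (M * M) := fun M => by
    rw [← sq, ← sq, ← pow_mul]
  refine ⟨Matrix (Fin 2) (Fin 2) A, inferInstance, inferInstance, inferInstance, inferInstance, inferInstance, ?_, ?_,
    !![ι • x, 0; 0, x], !![0, y; 1, 0], ?_, ?_, ?_⟩
  · rw [Module.finrank_matrix, hA, Fintype.card_fin]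
    norm_num
  · change _ = symCl two_pos (prim_of_two h2) a b
    rw [← hcl]
    exact brauerClass_eq_iff.2 (BrEq.of_matrix two_ne_zero AlgEquiv.refl)
  · have h3 : !![ι • x, 0; 0, x] * !![ι • x, 0; 0, x] = !![-(algebraMap E A a), 0; 0, algebraMap E A a] := by
      rw [Matrix.mul_fin_two]
      simp only [mul_zero, zero_mul, add_zero, zero_add]
      rw [smul_mul_smul_comm, ← sq ι, hι2, hxx, neg_one_smul]
    rw [hp4, h3, Matrix.mul_fin_two]
    simp only [mul_zero, zero_mul, add_zero, zero_add, neg_mul_neg, ← map_mul]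
    ext i j
    fin_cases i <;> fin_cases j <;> simp [Matrix.algebraMap_matrix_apply]
  · have h3 : !![0, y; 1, 0] * !![0, y; 1, 0] = !![y, 0; 0, y] := by
      rw [Matrix.mul_fin_two]
      simp only [mul_zero, zero_mul, add_zero, zero_add, mul_one, one_mul]
    rw [hp4, h3, Matrix.mul_fin_two]
    simp only [mul_zero, zero_mul, add_zero, zero_add, hyy]
    ext i j
    fin_cases i <;> fin_cases j <;> simp [Matrix.algebraMap_matrix_apply]
  · rw [Matrix.mul_fin_two, Matrix.mul_fin_two]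
    simp only [mul_zero, zero_mul, add_zero, zero_add, mul_one, one_mul]
    rw [hyx, neg_one_smul]
    ext i j
    fin_cases i <;> fin_cases j <;> simp [smul_smul, ← sq, hι2]

theorem s4c_sqrt {ι : E} (hι : IsPrimitiveRoot ι 4) (h2 : (2 : E) ≠ 0) (a b : Eˣ) (c : E) (hc : c ^ 2 = a) :
    ∃ c' : Eˣ, s4c hι a b = qa h2 c' b := by
  have hc0 : c ≠ 0 := by
    rintro rfl
    exact a.ne_zero (by rw [← hc]; ring)
  refine ⟨Units.mk0 c hc0, ?_⟩
  have : a = Units.mk0 c hc0 * Units.mk0 c hc0 := by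
    ext1
    rw [Units.val_mul, Units.val_mk0, ← sq, hc]
  rw [this, s4c_mul_left, s4c_sq hι h2]

theorem symCl_congr' {K : Type} [Field K] {ζ ζ' : K} (h : ζ = ζ') (hζ : IsPrimitiveRoot ζ 4)
    (hζ' : IsPrimitiveRoot ζ' 4) (a b : Kˣ) : s4c hζ a b = s4c hζ' a b := by
  subst h
  rfl

theorem rh_s4c {K : Type} [Field K] (φ : E →+* K) {ι : E} (hι : IsPrimitiveRoot ι 4) {ι' : K}
    (hι' : IsPrimitiveRoot ι' 4) (h : φ ι = ι') (a b : Eˣ) : rh φ (s4c hι a b) = s4c hι' (um φ a) (um φ b) := by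
  letI : Algebra E K := φ.toAlgebra
  have h1 := res_symCl (K := K) four_pos' hι a b
  change res K (symCl four_pos' hι a b) = _
  rw [h1]
  exact symCl_congr' h _ hι' _ _

theorem s4c_conj {ι ι' : E} (hι : IsPrimitiveRoot ι 4) (hι' : IsPrimitiveRoot ι' 4) (h : ι' = -ι) (a b : Eˣ) :
    s4c hι' a b = (s4c hι a b)⁻¹ := by
  have h1 : s4c hι b a = (s4c hι a b)⁻¹ := symCl_anti _ hι b a
  rw [← h1]
  symm
  refine (isSym_iff four_pos' hι' a b _).1 ?_
  obtain ⟨A, _, _, _, _, _, hA, hcl, x, y, hx, hy, hyx⟩ := (isSym_iff four_pos' hι b a _).2 rfl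
  refine ⟨A, inferInstance, inferInstance, inferInstance, inferInstance, inferInstance, hA, hcl, y, x, hy, hx, ?_⟩
  rw [hyx, smul_smul, h, neg_mul, ← sq, prim4_sq hι, neg_neg, one_smul]

theorem twoSplit_s4c {ι : E} (hι : IsPrimitiveRoot ι 4) (h2 : (2 : E) ≠ 0) (a b : Eˣ) : TwoSplit E (s4c hι a b) := by
  by_cases ha : ∃ c : E, c ^ 2 = a
  · obtain ⟨c, hc⟩ := ha
    obtain ⟨c', h⟩ := s4c_sqrt hι h2 a b c hc
    rw [h]
    exact twoSplit_qa h2 _ _
  · push Not at ha
    haveI : NS (a : E) := ⟨ha⟩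
    refine TwoSplit.step E (a : E) _ ?_
    have h2' : (2 : QE (a : E)) ≠ 0 := two_ne_qin h2 _
    have hι' : IsPrimitiveRoot (qin (a : E) ι) 4 := hι.map_of_injective (qin (a : E)).injective
    rw [rh_s4c (qin (a : E)) hι hι' rfl]
    obtain ⟨c', h⟩ := s4c_sqrt hι' h2' (um (qin (a : E)) a) (um (qin (a : E)) b) (rt (a : E)) (rt_sq _)
    rw [h]
    exact twoSplit_qa h2' _ _

end four

variable {F : Type} [Field F]

/-- elements of `Q(F)` as products of symbols -/
theorem QQ_prod (h2 : (2 : F) ≠ 0) {x : BrauerGroup.{0, 0} F} (hx : x ∈ QQ h2) :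
    ∃ L : List (Fˣ × Fˣ), x = (L.map fun p => qa h2 p.1 p.2).prod := by
  obtain ⟨u, rfl⟩ := hx
  induction u using k2_induction with
  | h0 => exact ⟨[], hc_zero h2⟩
  | hs u v => exact ⟨[(u, v)], by rw [hc_sym, List.map_cons, List.prod_cons, List.map_nil, List.prod_nil, mul_one]⟩
  | ha x y hx hy =>
    obtain ⟨L, hL⟩ := hx
    obtain ⟨L', hL'⟩ := hy
    exact ⟨L ++ L', by rw [hc_add, hL, hL', List.map_append, List.prod_append]⟩

/-- classes of exponent four split by a tower of quadratic extensions, over a field without `√-1` -/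
theorem T2 {x : BrauerGroup.{0, 0} F} (h : TwoSplit F x) (h2 : (2 : F) ≠ 0) (hi : ∀ c : F, c ^ 2 ≠ -1) (hx : x ^ 4 = 1) :
    x ∈ QY h2 (YS h2) := by
  haveI : NS (-1 : F) := ⟨hi⟩
  have h2E : (2 : QE (-1 : F)) ≠ 0 := two_ne_qin h2 _
  have hsum : ∀ z : QE (-1 : F), ∃ α β : F, nq z = α ^ 2 + β ^ 2 := fun z => ⟨z.re, z.im, by
    unfold nq
    ring⟩
  have hι2 : (rt (-1 : F)) ^ 2 = -1 := by rw [rt_sq, map_neg, map_one]
  have hι : IsPrimitiveRoot (rt (-1 : F)) 4 := prim4 h2E _ hι2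
  -- the double of the class
  have hxx : x * x ∈ QQ h2 := T1 (h.mul _ h) h2 (by rw [← sq x, ← sq, ← pow_mul]; exact hx)
  obtain ⟨L, hL⟩ := QQ_prod h2 hxx
  -- a product of symbols with the same double
  let S : BrauerGroup.{0, 0} (QE (-1 : F)) := (L.map fun p => s4c hι (um (qin (-1)) p.1) (um (qin (-1)) p.2)).prod
  have hSS : ∀ L : List (Fˣ × Fˣ), (L.map fun p => s4c hι (um (qin (-1)) p.1) (um (qin (-1)) p.2)).prod *
      (L.map fun p => s4c hι (um (qin (-1)) p.1) (um (qin (-1)) p.2)).prod =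
        rh (qin (-1 : F)) (L.map fun p => qa h2 p.1 p.2).prod := by
    intro L
    induction L with
    | nil => simp
    | cons p L ih =>
      rw [List.map_cons, List.prod_cons, mul_mul_mul_comm, ih, List.map_cons, List.prod_cons, map_mul, s4c_sq hι h2E,
        rh_qa (qin (-1 : F)) h2 h2E]
  have hSσ : ∀ L : List (Fˣ × Fˣ), rh (cj2 (-1 : F) : QE (-1 : F) →+* QE (-1 : F))
      (L.map fun p => s4c hι (um (qin (-1)) p.1) (um (qin (-1)) p.2)).prod =
        ((L.map fun p => s4c hι (um (qin (-1)) p.1) (um (qin (-1)) p.2)).prod)⁻¹ := by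
    intro L
    have hι' : IsPrimitiveRoot (-(rt (-1 : F))) 4 := prim4 h2E _ (by rw [neg_sq, hι2])
    induction L with
    | nil => simp
    | cons p L ih =>
      rw [List.map_cons, List.prod_cons, map_mul, ih, mul_inv,
        rh_s4c (cj2 (-1 : F) : QE (-1 : F) →+* QE (-1 : F)) hι hι' cj2_rt, um_um, um_um, ← s4c_conj hι hι' rfl]
      have e : (cj2 (-1 : F) : QE (-1 : F) →+* QE (-1 : F)).comp (qin (-1 : F)) = qin (-1 : F) :=
        RingHom.ext fun c => (cj2 (-1 : F)).commutes c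
      rw [e]
  have hST : ∀ L : List (Fˣ × Fˣ), TwoSplit (QE (-1 : F))
      (L.map fun p => s4c hι (um (qin (-1)) p.1) (um (qin (-1)) p.2)).prod := by
    intro L
    induction L with
    | nil => exact TwoSplit.one _
    | cons p L ih =>
      rw [List.map_cons, List.prod_cons]
      exact (twoSplit_s4c hι h2E _ _).mul _ ih
  have hxE := h.bc (QE (-1 : F)) (qin (-1 : F))
  have hR : rh (qin (-1 : F)) x / S ∈ QQ h2E := by
    refine T1 (hxE.div (hST L)) h2E ?_
    rw [div_mul_div_comm, hSS L, ← hL, ← map_mul, div_self']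
  obtain ⟨M, hM⟩ := QQ_le_RF (-1 : F) h2E hR
  have hxS : rh (qin (-1 : F)) x = (M.map fun p => qa h2E p.1 (um (qin (-1)) p.2)).prod * S := by
    rw [← hM, div_mul_cancel]
  have hσx : rh (cj2 (-1 : F) : QE (-1 : F) →+* QE (-1 : F)) (rh (qin (-1 : F)) x) = rh (qin (-1 : F)) x := by
    rw [rh_comp]
    have e : (cj2 (-1 : F) : QE (-1 : F) →+* QE (-1 : F)).comp (qin (-1 : F)) = qin (-1 : F) :=
      RingHom.ext fun c => (cj2 (-1 : F)).commutes c
    rw [e]
  -- the double of the class over the quadratic extension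
  have hN : ∀ M : List ((QE (-1 : F))ˣ × Fˣ), (M.map fun p => qa h2E p.1 (um (qin (-1)) p.2)).prod *
      rh (cj2 (-1 : F) : QE (-1 : F) →+* QE (-1 : F)) (M.map fun p => qa h2E p.1 (um (qin (-1)) p.2)).prod =
        rh (qin (-1 : F)) (M.map fun p => qa h2 (nu p.1) p.2).prod := by
    intro M
    induction M with
    | nil => simp
    | cons p M ih =>
      rw [List.map_cons, List.prod_cons, map_mul, mul_mul_mul_comm, ih, List.map_cons, List.prod_cons, map_mul,
        rh_qa (qin (-1 : F)) h2 h2E, rh_qa _ h2E h2E, um_um, qin_nu, qa_mul_left]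
      have e : (cj2 (-1 : F) : QE (-1 : F) →+* QE (-1 : F)).comp (qin (-1 : F)) = qin (-1 : F) :=
        RingHom.ext fun c => (cj2 (-1 : F)).commutes c
      rw [e]
  have hx2 : rh (qin (-1 : F)) (x * x) = rh (qin (-1 : F)) (M.map fun p => qa h2 (nu p.1) p.2).prod := by
    rw [← hN M, map_mul]
    conv_lhs => rw [← hσx]
    rw [hσx]
    have h5 : rh (qin (-1 : F)) x * rh (cj2 (-1 : F) : QE (-1 : F) →+* QE (-1 : F)) (rh (qin (-1 : F)) x) =
        (M.map fun p => qa h2E p.1 (um (qin (-1)) p.2)).prod *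
      rh (cj2 (-1 : F) : QE (-1 : F) →+* QE (-1 : F)) (M.map fun p => qa h2E p.1 (um (qin (-1)) p.2)).prod := by
      rw [hxS, map_mul, hSσ L]
      rw [mul_mul_mul_comm, mul_inv_cancel, mul_one]
    rw [hσx] at h5
    exact h5
  -- cyclic classes with the right doubles
  have hex : ∀ p : (QE (-1 : F))ˣ × Fˣ, ∃ y : BrauerGroup.{0, 0} F, y * y = qa h2 (nu p.1) p.2 ∧ TwoSplit F y ∧
      y ∈ QY h2 (YS h2) := by
    intro p
    obtain ⟨α, β, hab⟩ := hsum (p.1 : QE (-1 : F))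
    obtain ⟨y, h1, h3⟩ := exists_Yp h2 (nu p.1) p.2 α β hab
    refine ⟨y, h1.sq, ?_⟩
    rcases h3 with h3 | ⟨h3, h4⟩
    · rw [h3]
      exact ⟨TwoSplit.one F, one_mem _⟩
    · haveI := h3
      rw [h4]
      exact ⟨twoSplit_yc h2 ((nu p.1 : Fˣ) : F) α β hab p.2, mem_QY_of h2 ⟨_, α, β, h3, hab, p.2, rfl⟩⟩
  have hc : ∀ M : List ((QE (-1 : F))ˣ × Fˣ), ∃ c : BrauerGroup.{0, 0} F,
      c * c = (M.map fun p => qa h2 (nu p.1) p.2).prod ∧ TwoSplit F c ∧ c ∈ QY h2 (YS h2) := by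
    intro M
    induction M with
    | nil => exact ⟨1, by simp, TwoSplit.one F, one_mem _⟩
    | cons p M ih =>
      obtain ⟨c, h1, h3, h4⟩ := ih
      obtain ⟨y, h5, h6, h7⟩ := hex p
      refine ⟨y * c, ?_, h6.mul _ h3, mul_mem h7 h4⟩
      rw [mul_mul_mul_comm, h5, h1, List.map_cons, List.prod_cons]
  obtain ⟨c, hc1, hc2, hc3⟩ := hc M
  have hfin : rh (qin (-1 : F)) (x / c) ∈ QQ h2E := by
    refine T1 ((h.div hc2).bc _ _) h2E ?_
    rw [← map_mul, div_mul_div_comm, hc1, map_div, hx2, div_self']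
  have h8 := (desc_quad h2 (-1) h2E hsum (x / c) hfin).1
  have := mul_mem h8 hc3
  rwa [div_mul_cancel] at this

end Pool.Agent.H403.M
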