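import Mathlib
import Pool.Agent.H403.M.T2

/-! # Cyclic algebras of degree four (helper403) -/

set_option autoImplicit false
set_option linter.all false

noncomputable section

namespace Pool.Agent.H403.M

open scoped TensorProduct
open Pool.Agent.TH132.W Pool.Agent.Y64.Cyc Pool.Agent.Helper18.Br Pool.Agent.H552R3.SymBr Pool.Agent.H552R3.SymPred

/-- `(L, σ)` is a Galois `F`-algebra with group `ℤ/4` generated by `σ`: `L` is étale of dimension `4` over `F`,
`σ ^ 4 = 1`, and the fixed ring of `σ` is `F`. -/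
structure IsCyclicEtale4 (F L : Type) [Field F] [CommRing L] [Algebra F L] (σ : L ≃ₐ[F] L) : Prop where
  etale : Algebra.Etale F L
  dim : Module.finrank F L = 4
  ord : σ ^ 4 = 1
  fixed : ∀ x : L, σ x = x → ∃ c : F, algebraMap F L c = x

/-- `A` is a cyclic `F`-algebra `(L/F, σ, b)` of degree `4`: there are a cyclic étale algebra `(L, σ)` of degree four,
`b ∈ Fˣ`, an embedding of `L` in `A` and `u ∈ A` with `u ^ 4 = b`, `u x = σ(x) u`, and `A = ⨁ L u ^ j`. -/
def IsCyclicAlg4 (F A : Type) [Field F] [Ring A] [Algebra F A] : Prop :=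
  ∃ (L : Type) (_ : CommRing L) (_ : Algebra F L) (σ : L ≃ₐ[F] L) (i : L →ₐ[F] A) (u : A) (b : Fˣ),
    IsCyclicEtale4 F L σ ∧ u ^ 4 = algebraMap F A b ∧ (∀ x, u * i x = i (σ x) * u) ∧
      Function.Bijective (fun v : Fin 4 → L => ∑ j, i (v j) * u ^ (j : ℕ))

/-- the set of Brauer classes of cyclic algebras of degree four -/
def Cyc4 (F : Type) [Field F] : Set (BrauerGroup.{0, 0} F) :=
  {x | ∃ (A : Type) (_ : Ring A) (_ : Algebra F A) (_ : Algebra.IsCentral F A) (_ : IsSimpleRing A)
    (_ : FiniteDimensional F A), IsCyclicAlg4 F A ∧ brauerClass F A = x}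

section

variable {F : Type} [Field F]

theorem etale_of_cycGen {K : Type} [Field K] [Algebra F K] {σ : K ≃ₐ[F] K} {d : ℕ} (h : CycGen σ d) :
    Algebra.Etale F K := by
  haveI := h.fd
  haveI : IsGalois F K := by
    apply IsGalois.of_fixedField_eq_bot
    rw [eq_bot_iff]
    intro x hx
    obtain ⟨c, hc⟩ := h.fix x (hx ⟨σ, trivial⟩)
    exact IntermediateField.mem_bot.2 ⟨c, hc⟩
  exact (Algebra.Etale.iff_exists_algEquiv_prod F K).2 ⟨Unit, inferInstance, fun _ => K, fun _ => inferInstance,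
    fun _ => inferInstance, (AlgEquiv.funUnique F Unit K).symm, fun _ => ⟨inferInstance, inferInstance⟩⟩

theorem bij_of_inj {L A : Type} [CommRing L] [Algebra F L] [Ring A] [Algebra F A] [FiniteDimensional F A]
    [FiniteDimensional F L] (i : L →ₐ[F] A) (u : A)
    (hinj : ∀ v : Fin 4 → L, ∑ j, i (v j) * u ^ (j : ℕ) = 0 → v = 0) (hL : Module.finrank F L = 4)
    (hA : Module.finrank F A = 16) : Function.Bijective (fun v : Fin 4 → L => ∑ j, i (v j) * u ^ (j : ℕ)) := by
  let Φ : (Fin 4 → L) →ₗ[F] A :=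
    { toFun := fun v => ∑ j, i (v j) * u ^ (j : ℕ)
      map_add' := fun v w => by
        rw [← Finset.sum_add_distrib]
        refine Finset.sum_congr rfl fun j _ => ?_
        rw [Pi.add_apply, map_add, add_mul]
      map_smul' := fun c v => by
        rw [RingHom.id_apply, Finset.smul_sum]
        refine Finset.sum_congr rfl fun j _ => ?_
        rw [Pi.smul_apply, map_smul, smul_mul_assoc] }
  have h1 : Function.Injective Φ := (injective_iff_map_eq_zero Φ).2 hinj
  have h2 : Module.finrank F (Fin 4 → L) = Module.finrank F A := by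
    rw [Module.finrank_pi_fintype, hA]
    simp [hL]
  exact ⟨h1, (LinearMap.injective_iff_surjective_of_finrank_eq_finrank (f := Φ) h2).1 h1⟩

theorem P4_mem {K : Type} [Field K] [Algebra F K] (σ : K ≃ₐ[F] K) (b : F) : P4 K b ∈ Tw σ (P4 K b) := by
  rw [mem_Tw, P4_map]

/-- diagonal matrices -/
def dg {K : Type} [Field K] [Algebra F K] (σ : K ≃ₐ[F] K) (x : K) : Matrix (Fin 4) (Fin 4) K :=
  Matrix.diagonal fun j => (σ ^ (j : ℕ)) x

theorem dg_mem {K : Type} [Field K] [Algebra F K] {σ : K ≃ₐ[F] K} (hσ : CycGen σ (2 * 2)) (b : F) (x : K) :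
    dg σ x ∈ Tw σ (P4 K b) := by
  have h4 : ∀ x, σ (σ (σ (σ x))) = x := fun x => hσ.pow_apply x
  rw [mem_Tw]
  ext i j
  unfold dg P4
  rw [Matrix.diagonal_mul, Matrix.mul_apply]
  fin_cases i <;> fin_cases j <;>
    simp [Fin.sum_univ_four, Matrix.diagonal, pow_succ, mul_comm, h4]

/-- the embedding of the cyclic extension -/
def dgh {K : Type} [Field K] [Algebra F K] {σ : K ≃ₐ[F] K} (hσ : CycGen σ (2 * 2)) (b : F) : K →ₐ[F] Tw σ (P4 K b) where
  toFun x := ⟨dg σ x, dg_mem hσ b x⟩
  map_one' := by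
    apply Subtype.ext
    change dg σ 1 = 1
    unfold dg
    simp only [map_one]
    exact Matrix.diagonal_one
  map_mul' x y := by
    apply Subtype.ext
    change dg σ (x * y) = dg σ x * dg σ y
    unfold dg
    rw [Matrix.diagonal_mul_diagonal]
    simp only [map_mul]
  map_zero' := by
    apply Subtype.ext
    change dg σ 0 = 0
    unfold dg
    simp only [map_zero]
    exact Matrix.diagonal_zero
  map_add' x y := by
    apply Subtype.ext
    change dg σ (x + y) = dg σ x + dg σ y
    unfold dg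
    rw [Matrix.diagonal_add]
    simp only [map_add]
  commutes' c := by
    apply Subtype.ext
    change dg σ (algebraMap F K c) = algebraMap F (Matrix (Fin 4) (Fin 4) K) c
    unfold dg
    simp only [AlgEquiv.commutes]
    rfl

theorem cyc4_Tw {K : Type} [Field K] [Algebra F K] {σ : K ≃ₐ[F] K} (hσ : CycGen σ (2 * 2)) (b : Fˣ) :
    IsCyclicAlg4 F (Tw σ (P4 K (b : F))) := by
  haveI := hσ.fd
  haveI := fd_Tw hσ (P4 K (b : F))
  have hb : algebraMap F K b ≠ 0 := by
    rw [Ne, FaithfulSMul.algebraMap_eq_zero_iff]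
    exact b.ne_zero
  have h4 : ∀ x, σ (σ (σ (σ x))) = x := fun x => hσ.pow_apply x
  refine ⟨K, inferInstance, inferInstance, σ ^ 3, dgh hσ (b : F), ⟨P4 K (b : F), P4_mem σ (b : F)⟩, b, ⟨etale_of_cycGen hσ, ?_, ?_, ?_⟩,
    ?_, ?_, ?_⟩
  · exact hσ.finrank
  · rw [← pow_mul, show 3 * 4 = (2 * 2) * 3 from rfl, pow_mul, hσ.pow, one_pow]
  · intro x hx
    apply hσ.fix
    have h1 : σ ((σ ^ 3) x) = x := h4 x
    rwa [hx] at h1
  · apply Subtype.ext
    exact P4_pow _
  · intro x
    apply Subtype.ext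
    change P4 K (b : F) * dg σ x = dg σ ((σ ^ 3) x) * P4 K (b : F)
    ext i j
    unfold dg P4
    rw [Matrix.diagonal_mul, Matrix.mul_apply]
    fin_cases i <;> fin_cases j <;>
      simp [Fin.sum_univ_four, Matrix.diagonal, pow_succ, mul_comm, h4]
  · refine bij_of_inj (dgh hσ (b : F)) ⟨P4 K (b : F), P4_mem σ (b : F)⟩ ?_ hσ.finrank (by rw [finrank_Tw hσ (tws_P4 σ b.ne_zero), Fintype.card_fin])
    intro v hv
    have h1 : ∑ j : Fin 4, dg σ (v j) * (P4 K (b : F)) ^ (j : ℕ) = 0 := by
      have h2 := congrArg (Subalgebra.val (Tw σ (P4 K (b : F)))) hv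
      rw [map_sum, map_zero] at h2
      rw [← h2]
      rfl
    have hP2 : P4 K (b : F) ^ 2 = !![0, 0, algebraMap F K b, 0; 0, 0, 0, algebraMap F K b; 1, 0, 0, 0; 0, 1, 0, 0] := by
      rw [sq]
      ext i j
      unfold P4
      fin_cases i <;> fin_cases j <;> simp [Matrix.mul_apply, Fin.sum_univ_four]
    have hP3 : P4 K (b : F) ^ 3 = !![0, algebraMap F K b, 0, 0; 0, 0, algebraMap F K b, 0; 0, 0, 0, algebraMap F K b;
        1, 0, 0, 0] := by
      rw [pow_succ, hP2]
      ext i j
      unfold P4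
      fin_cases i <;> fin_cases j <;> simp [Matrix.mul_apply, Fin.sum_univ_four]
    rw [Fin.sum_univ_four] at h1
    change dg σ (v 0) * P4 K (b : F) ^ 0 + dg σ (v 1) * P4 K (b : F) ^ 1 + dg σ (v 2) * P4 K (b : F) ^ 2 +
      dg σ (v 3) * P4 K (b : F) ^ 3 = 0 at h1
    rw [hP2, hP3, pow_zero, pow_one, mul_one] at h1
    have e : ∀ k : Fin 4, (dg σ (v 0) + dg σ (v 1) * P4 K (b : F) +
        dg σ (v 2) * !![0, 0, algebraMap F K b, 0; 0, 0, 0, algebraMap F K b; 1, 0, 0, 0; 0, 1, 0, 0] +
        dg σ (v 3) * !![0, algebraMap F K b, 0, 0; 0, 0, algebraMap F K b, 0; 0, 0, 0, algebraMap F K b; 1, 0, 0, 0])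
          0 k = 0 := fun k => congrFun (congrFun h1 0) k
    have e0 := e 0
    have e1 := e 1
    have e2 := e 2
    have e3 := e 3
    simp only [Matrix.add_apply, dg, P4, Matrix.diagonal_mul, Matrix.diagonal_apply] at e0 e1 e2 e3
    simp at e0 e1 e2 e3
    funext j
    fin_cases j
    · exact e0
    · exact e3
    · exact e2
    · exact e1


theorem yc_mem_Cyc4 (h2 : (2 : F) ≠ 0) (s α β : F) [NS s] (hab : s = α ^ 2 + β ^ 2) (f : Fˣ) :
    yc s α β hab h2 f ∈ Cyc4 F := by
  letI := cc_ns s α β hab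
  have hσ := cycGen_s4 s α β hab h2
  have hP := tws_P4 (s4 s α β hab) f.ne_zero
  haveI := fd_Tw hσ (P4 (Lq s α) (f : F))
  haveI := central_Tw hσ hP
  haveI := simple_Tw hσ hP
  exact ⟨Tw (s4 s α β hab) (P4 (Lq s α) (f : F)), inferInstance, inferInstance, inferInstance, inferInstance,
    inferInstance, cyc4_Tw hσ f, rfl⟩

/-- the shift automorphism of `E × E` -/
def sw (a : F) : (Fin 2 → QE a) ≃ₐ[F] (Fin 2 → QE a) where
  toFun v := ![cj2 a (v 1), v 0]
  invFun v := ![v 1, cj2 a (v 0)]
  left_inv v := by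
    funext j
    fin_cases j
    · rfl
    · exact cj2_cj2 _
  right_inv v := by
    funext j
    fin_cases j
    · exact cj2_cj2 _
    · rfl
  map_mul' v w := by
    funext j
    fin_cases j
    · exact map_mul (cj2 a) _ _
    · rfl
  map_add' v w := by
    funext j
    fin_cases j
    · exact map_add (cj2 a) _ _
    · rfl
  commutes' c := by
    funext j
    fin_cases j
    · exact (cj2 a).commutes c
    · rfl

theorem sw_zero (a : F) (v : Fin 2 → QE a) : sw a v 0 = cj2 a (v 1) := rfl
theorem sw_one (a : F) (v : Fin 2 → QE a) : sw a v 1 = v 0 := rfl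

theorem cyc_sw (h2 : (2 : F) ≠ 0) (a : F) [hN : NS a] : IsCyclicEtale4 F (Fin 2 → QE a) (sw a) where
  etale := by
    have hσ := cycGen_cj2 h2 hN.ns
    haveI := hσ.fd
    haveI : IsGalois F (QE a) := by
      apply IsGalois.of_fixedField_eq_bot
      rw [eq_bot_iff]
      intro x hx
      obtain ⟨c, hc⟩ := hσ.fix x (hx ⟨cj2 a, trivial⟩)
      exact IntermediateField.mem_bot.2 ⟨c, hc⟩
    exact (Algebra.Etale.iff_exists_algEquiv_prod F (Fin 2 → QE a)).2 ⟨Fin 2, inferInstance, fun _ => QE a,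
      fun _ => inferInstance, fun _ => inferInstance, AlgEquiv.refl, fun _ => ⟨inferInstance, inferInstance⟩⟩
  dim := by
    have hσ := cycGen_cj2 h2 hN.ns
    haveI := hσ.fd
    rw [Module.finrank_pi_fintype]
    simp [hσ.finrank]
  ord := by
    ext1 v
    change sw a (sw a (sw a (sw a v))) = v
    funext j
    fin_cases j
    · exact cj2_cj2 _
    · exact cj2_cj2 _
  fixed := by
    intro v hv
    have h1 : v 0 = v 1 := by
      have := congrFun hv 1
      rwa [sw_one] at this
    have h3 : cj2 a (v 1) = v 0 := by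
      have := congrFun hv 0
      rwa [sw_zero] at this
    rw [h1] at h3
    obtain ⟨c, hc⟩ := (cycGen_cj2 h2 hN.ns).fix (v 1) h3
    refine ⟨c, ?_⟩
    funext j
    fin_cases j
    · exact hc.trans h1.symm
    · exact hc

/-- diagonal embedding -/
def di {L Q : Type} [CommRing L] [Algebra F L] [Ring Q] [Algebra F Q] (e : L →ₐ[F] Q) :
    (Fin 2 → L) →ₐ[F] Matrix (Fin 2) (Fin 2) Q where
  toFun v := Matrix.diagonal fun j => e (v j)
  map_one' := by
    simp only [Pi.one_apply, map_one]
    exact Matrix.diagonal_one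
  map_mul' x y := by
    rw [Matrix.diagonal_mul_diagonal]
    simp only [Pi.mul_apply, map_mul]
  map_zero' := by
    simp only [Pi.zero_apply, map_zero]
    exact Matrix.diagonal_zero
  map_add' x y := by
    rw [Matrix.diagonal_add]
    simp only [Pi.add_apply, map_add]
  commutes' c := by
    simp only [Pi.algebraMap_apply, AlgHom.commutes]
    rfl

theorem qa_mem_Cyc4 (h2 : (2 : F) ≠ 0) (a b : Fˣ) [hN : NS (a : F)] : qa h2 a b ∈ Cyc4 F := by
  obtain ⟨Q, _, _, _, _, _, hQ, hcl, x, y, hx, hy, hyx⟩ := (isSym_iff two_pos (prim_of_two h2) a b _).2 rfl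
  haveI := (cycGen_cj2 h2 hN.ns).fd
  have hxx : x * x = algebraMap F Q a := by rw [← sq, hx]
  have hyy : y * y = algebraMap F Q b := by rw [← sq, hy]
  let e : QE (a : F) →ₐ[F] Q := QuadraticAlgebra.lift (R := F) (a := (a : F)) (b := 0) (A := Q) ⟨x, by
    rw [hxx, zero_smul, add_zero, Algebra.smul_def, mul_one]⟩
  have he : ∀ z : QE (a : F), e z = z.re • (1 : Q) + z.im • x := fun z => QuadraticAlgebra.lift_apply_apply _ _
  have hye : ∀ z : QE (a : F), y * e z = e (cj2 (a : F) z) * y := by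
    intro z
    rw [he, he, cj2_re, cj2_im, mul_add, add_mul, mul_smul_comm, mul_smul_comm, hyx, smul_mul_assoc, smul_mul_assoc,
      mul_one, one_mul, smul_smul, mul_neg_one]
  have hex : e (rt (a : F)) = x := by
    rw [he]
    change (0 : F) • (1 : Q) + (1 : F) • x = x
    rw [zero_smul, one_smul, zero_add]
  have key : ∀ p q : QE (a : F), e p + e q * y = 0 → p = 0 ∧ q = 0 := by
    intro p q h
    have hq : q = 0 := by
      by_contra hq
      have h1 : y = e (-(p / q)) := by
        have h3 : e q⁻¹ * (e p + e q * y) = 0 := by rw [h, mul_zero]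
        rw [mul_add, ← map_mul, ← mul_assoc, ← map_mul, inv_mul_cancel₀ hq, map_one, one_mul] at h3
        rw [map_neg, div_eq_inv_mul]
        exact eq_neg_of_add_eq_zero_right h3
      have h3 : y * x = x * y := by rw [h1, ← hex, ← map_mul, ← map_mul, mul_comm]
      rw [hyx, neg_one_smul] at h3
      have h4 : x * y + x * y = 0 := by
        nth_rewrite 1 [← h3]
        rw [neg_add_cancel]
      have h5 : (2 : F) • (x * y) = 0 := by rw [two_smul, h4]
      have h6 : x * y = 0 := (smul_eq_zero.1 h5).resolve_left h2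
      have h7 : x * x * (y * y) = 0 := by
        rw [mul_assoc, ← mul_assoc x y y, h6, zero_mul, mul_zero]
      rw [hxx, hyy, ← map_mul, FaithfulSMul.algebraMap_eq_zero_iff] at h7
      exact mul_ne_zero a.ne_zero b.ne_zero h7
    subst hq
    rw [map_zero, zero_mul, add_zero] at h
    exact ⟨e.toRingHom.injective (h.trans (map_zero e).symm), rfl⟩
  refine ⟨Matrix (Fin 2) (Fin 2) Q, inferInstance, inferInstance, inferInstance, inferInstance, inferInstance, ?_,
    (brauerClass_eq_iff.2 (BrEq.of_matrix two_ne_zero AlgEquiv.refl)).trans hcl⟩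
  have hu2 : !![0, y; 1, 0] ^ 2 = !![y, 0; 0, y] := by
    rw [sq, Matrix.mul_fin_two]
    simp only [mul_zero, zero_mul, add_zero, zero_add, mul_one, one_mul]
  have hu3 : !![0, y; 1, 0] ^ 3 = !![0, algebraMap F Q b; y, 0] := by
    rw [pow_succ, hu2, Matrix.mul_fin_two]
    simp only [mul_zero, zero_mul, add_zero, zero_add, mul_one, one_mul, hyy]
  refine ⟨Fin 2 → QE (a : F), inferInstance, inferInstance, sw (a : F), di e, !![0, y; 1, 0], b, cyc_sw h2 (a : F),
    ?_, ?_, ?_⟩
  · rw [show (4 : ℕ) = 2 * 2 from rfl, pow_mul, hu2, sq, Matrix.mul_fin_two]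
    simp only [mul_zero, zero_mul, add_zero, zero_add, hyy]
    ext i j
    fin_cases i <;> fin_cases j <;> simp [Matrix.algebraMap_matrix_apply]
  · intro v
    change !![0, y; 1, 0] * Matrix.diagonal (fun j => e (v j)) = Matrix.diagonal (fun j => e (sw (a : F) v j)) * !![0, y; 1, 0]
    ext i j
    rw [Matrix.mul_diagonal, Matrix.diagonal_mul]
    fin_cases i <;> fin_cases j
    · simp
    · exact hye _
    · change (1 : Q) * e (v 0) = e (sw (a : F) v 1) * 1
      rw [one_mul, mul_one, sw_one]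
    · simp
  · refine bij_of_inj (di e) !![0, y; 1, 0] ?_ (cyc_sw h2 (a : F)).dim ?_
    · intro v hv
      rw [Fin.sum_univ_four] at hv
      change Matrix.diagonal (fun j => e (v 0 j)) * !![0, y; 1, 0] ^ 0 + Matrix.diagonal (fun j => e (v 1 j)) * !![0, y; 1, 0] ^ 1 +
        Matrix.diagonal (fun j => e (v 2 j)) * !![0, y; 1, 0] ^ 2 + Matrix.diagonal (fun j => e (v 3 j)) * !![0, y; 1, 0] ^ 3 = 0 at hv
      rw [hu2, hu3, pow_zero, pow_one, mul_one] at hv
      have h00 := congrFun (congrFun hv 0) 0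
      have h01 := congrFun (congrFun hv 0) 1
      have h10 := congrFun (congrFun hv 1) 0
      have h11 := congrFun (congrFun hv 1) 1
      simp only [Matrix.add_apply, Matrix.diagonal_mul, Matrix.diagonal_apply] at h00 h01 h10 h11
      simp at h00 h01 h10 h11
      obtain ⟨c1, c2⟩ := key _ _ h00
      obtain ⟨c3, c4⟩ := key _ _ h10
      obtain ⟨c5, c6⟩ := key _ _ h11
      obtain ⟨c7, c8⟩ := key (v 3 0 * algebraMap F (QE (a : F)) b) (v 1 0) (by
        rw [map_mul, AlgHom.commutes, add_comm]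
        exact h01)
      have hb0 : algebraMap F (QE (a : F)) b ≠ 0 := by
        rw [Ne, FaithfulSMul.algebraMap_eq_zero_iff]
        exact b.ne_zero
      have c9 := (mul_eq_zero.1 c7).resolve_right hb0
      funext j k
      fin_cases j <;> fin_cases k
      · exact c1
      · exact c5
      · exact c8
      · exact c3
      · exact c2
      · exact c6
      · exact c9
      · exact c4
    · rw [Module.finrank_matrix, hQ, Fintype.card_fin]
      norm_num

theorem QY_le_closure (h2 : (2 : F) ≠ 0) : QY h2 (YS h2) ≤ Subgroup.closure (Cyc4 F) := by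
  refine sup_le ?_ ?_
  · intro x hx
    obtain ⟨L, rfl⟩ := QQ_prod h2 hx
    refine Subgroup.list_prod_mem _ ?_
    intro y hy
    obtain ⟨p, _, rfl⟩ := List.mem_map.1 hy
    by_cases hs : ∃ c : F, c ^ 2 = p.1
    · obtain ⟨c, hc⟩ := hs
      rw [qa_square_left h2 _ _ c hc]
      exact one_mem _
    · push Not at hs
      haveI : NS (p.1 : F) := ⟨hs⟩
      exact Subgroup.subset_closure (qa_mem_Cyc4 h2 p.1 p.2)
  · rw [Subgroup.closure_le]
    rintro y ⟨s, α, β, hs, hab, f, rfl⟩
    exact Subgroup.subset_closure (yc_mem_Cyc4 h2 s α β hab f)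

/-- classes of exponent four split by a tower of quadratic extensions are products of classes of cyclic algebras -/
theorem main_tower {x : BrauerGroup.{0, 0} F} (h : TwoSplit F x) (h2 : (2 : F) ≠ 0) (hi : ∀ c : F, c ^ 2 ≠ -1)
    (hx : x ^ 4 = 1) : x ∈ Subgroup.closure (Cyc4 F) := QY_le_closure h2 (T2 h h2 hi hx)

end

end Pool.Agent.H403.M
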