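import Mathlib
import Pool.Agent.H403.M.Cy

/-! # Intertwiners and Galois descent (helper403) -/

set_option autoImplicit false
set_option linter.all false

noncomputable section

namespace Pool.Agent.H403.M

open scoped TensorProduct
open Pool.Agent.TH132.W Pool.Agent.Y64.Cyc Pool.Agent.Helper18.Br Pool.Agent.H552R3.SymBr

section inter

variable {L M : Type} [Field L] [Field M] {C : Type} [Ring C] [Algebra L C] [Algebra.IsCentral L C]
  [IsSimpleRing C] [FiniteDimensional L C] {w : Type} [Fintype w] [DecidableEq w]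

theorem base_iso [Algebra L M] (hC : Module.finrank L C = Fintype.card w ^ 2) (g : C →ₐ[L] Matrix w w M) :
    ∃ Θ : M ⊗[L] C ≃ₐ[M] Matrix w w M, ∀ b, Θ (1 ⊗ₜ b) = g b := by
  haveI : IsSimpleRing (M ⊗[L] C) := isSimple_base L M C
  haveI : Nonempty w := by
    by_contra h
    rw [not_nonempty_iff] at h
    rw [Fintype.card_eq_zero, zero_pow two_ne_zero] at hC
    exact (Module.finrank_pos (R := L) (M := C)).ne' hC
  let θ : M ⊗[L] C →ₐ[M] Matrix w w M :=
    Algebra.TensorProduct.lift (Algebra.ofId M (Matrix w w M)) g (fun x y => Algebra.commutes x _)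
  have hinj : Function.Injective θ := θ.toRingHom.injective
  have hbij : Function.Bijective θ := by
    refine ⟨hinj, ?_⟩
    have h2 : Module.finrank M (M ⊗[L] C) = Module.finrank M (Matrix w w M) := by
      rw [Module.finrank_baseChange, Module.finrank_matrix, Module.finrank_self, hC]
      ring
    exact (LinearMap.injective_iff_surjective_of_finrank_eq_finrank (f := θ.toLinearMap) h2).1 hinj
  refine ⟨AlgEquiv.ofBijective θ hbij, fun b => ?_⟩
  exact (Algebra.TensorProduct.lift_tmul (Algebra.ofId M (Matrix w w M)) g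
    (fun x y => Algebra.commutes x _) 1 b).trans (by rw [map_one, one_mul])

/-- a ring homomorphism compatible with `k` is an algebra homomorphism -/
def toAH (k : L →+* M) (ι : C →+* Matrix w w M) (h : ∀ l, ι (algebraMap L C l) = algebraMap M (Matrix w w M) (k l)) :
    letI : Algebra L M := k.toAlgebra
    C →ₐ[L] Matrix w w M :=
  letI : Algebra L M := k.toAlgebra
  { ι with commutes' := h }

theorem inter_exists (k : L →+* M) (hC : Module.finrank L C = Fintype.card w ^ 2) (ι ι' : C →+* Matrix w w M)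
    (h : ∀ l, ι (algebraMap L C l) = algebraMap M (Matrix w w M) (k l))
    (h' : ∀ l, ι' (algebraMap L C l) = algebraMap M (Matrix w w M) (k l)) :
    ∃ P Q : Matrix w w M, P * Q = 1 ∧ Q * P = 1 ∧ ∀ c, P * ι c = ι' c * P := by
  letI : Algebra L M := k.toAlgebra
  obtain ⟨Θ₁, h1⟩ := base_iso hC (toAH k ι h)
  obtain ⟨Θ₂, h2⟩ := base_iso hC (toAH k ι' h')
  obtain ⟨P, P', hPP', hP'P, hτ⟩ := matrix_inner (Θ₁.symm.trans Θ₂)
  refine ⟨P, P', hPP', hP'P, fun c => ?_⟩
  have h3 := hτ (Θ₁ (1 ⊗ₜ c))
  rw [AlgEquiv.trans_apply, AlgEquiv.symm_apply_apply, h1, h2] at h3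
  change ι' c = P * ι c * P' at h3
  rw [h3, mul_assoc, hP'P, mul_one]

theorem inter_span (k : L →+* M) (hC : Module.finrank L C = Fintype.card w ^ 2) (ι : C →+* Matrix w w M)
    (h : ∀ l, ι (algebraMap L C l) = algebraMap M (Matrix w w M) (k l)) :
    Submodule.span M (Set.range ι) = ⊤ := by
  letI : Algebra L M := k.toAlgebra
  obtain ⟨Θ₁, h1⟩ := base_iso hC (toAH k ι h)
  rw [eq_top_iff]
  rintro Z -
  obtain ⟨t, rfl⟩ := Θ₁.surjective Z
  induction t using TensorProduct.induction_on with
  | zero => rw [map_zero]; exact Submodule.zero_mem _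
  | tmul x b =>
    have h3 : x ⊗ₜ[L] b = x • ((1 : M) ⊗ₜ[L] b) := by
      rw [TensorProduct.smul_tmul', smul_eq_mul, mul_one]
    rw [h3, map_smul, h1]
    exact Submodule.smul_mem _ _ (Submodule.subset_span ⟨b, rfl⟩)
  | add s t hs ht => rw [map_add]; exact Submodule.add_mem _ hs ht

theorem inter_scalar (k : L →+* M) (hC : Module.finrank L C = Fintype.card w ^ 2) (ι : C →+* Matrix w w M)
    (h : ∀ l, ι (algebraMap L C l) = algebraMap M (Matrix w w M) (k l)) (Z : Matrix w w M)
    (hZ : ∀ c, Z * ι c = ι c * Z) : ∃ z : M, Z = z • (1 : Matrix w w M) := by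
  have hcomm : ∀ N : Matrix w w M, Z * N = N * Z := by
    intro N
    have hN : N ∈ Submodule.span M (Set.range ι) := by rw [inter_span k hC ι h]; trivial
    induction hN using Submodule.span_induction with
    | mem x hx =>
      obtain ⟨b, rfl⟩ := hx
      exact hZ b
    | zero => rw [zero_mul, mul_zero]
    | add x y _ _ hx hy => rw [mul_add, add_mul, hx, hy]
    | smul a x _ hx => rw [Matrix.smul_mul, Matrix.mul_smul, hx]
  have hsc : Z ∈ Set.range (Matrix.scalar w) :=
    Matrix.mem_range_scalar_of_commute_single (fun i j _ => (hcomm _).symm)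
  obtain ⟨x, hx⟩ := hsc
  refine ⟨x, ?_⟩
  rw [← hx, Matrix.scalar_apply, Matrix.smul_one_eq_diagonal]

/-- two intertwiners are proportional -/
theorem inter_unique (k : L →+* M) (hC : Module.finrank L C = Fintype.card w ^ 2) (ι ι' : C →+* Matrix w w M)
    (h : ∀ l, ι (algebraMap L C l) = algebraMap M (Matrix w w M) (k l)) (P Q P' : Matrix w w M) (hPQ : P * Q = 1)
    (hP : ∀ c, P * ι c = ι' c * P) (hP' : ∀ c, P' * ι c = ι' c * P') : ∃ z : M, P' = z • P := by
  have hQP : Q * P = 1 := mul_eq_one_comm.1 hPQ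
  obtain ⟨z, hz⟩ := inter_scalar k hC ι h (Q * P') (fun c => by
    have h1 : ι c * Q = Q * ι' c := by
      calc ι c * Q = Q * P * ι c * Q := by rw [hQP, one_mul]
        _ = Q * (P * ι c) * Q := by simp only [mul_assoc]
        _ = Q * ι' c := by rw [hP, mul_assoc, mul_assoc (ι' c), hPQ, mul_one]
    rw [mul_assoc, hP', ← mul_assoc, ← h1, mul_assoc])
  refine ⟨z, ?_⟩
  calc P' = P * (Q * P') := by rw [← mul_assoc, hPQ, one_mul]
    _ = z • P := by rw [hz, Matrix.mul_smul, mul_one]

end inter

section desc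

variable {F M : Type} [Field F] [Field M] [Algebra F M]

theorem map_gmul {m n p : Type} [Fintype n] (g : M ≃ₐ[F] M) (A : Matrix m n M) (B : Matrix n p M) :
    (A * B).map g = A.map g * B.map g := Matrix.map_mul

theorem map_one_g {w : Type} [DecidableEq w] (g : M ≃ₐ[F] M) : (1 : Matrix w w M).map g = 1 :=
  Matrix.map_one g (map_zero g) (map_one g)

theorem map_id_g {m n : Type} (A : Matrix m n M) : A.map (1 : M ≃ₐ[F] M) = A := by
  ext i j
  rfl

theorem map_comp_g {m n : Type} (g h : M ≃ₐ[F] M) (A : Matrix m n M) : A.map ((g * h : M ≃ₐ[F] M)) = (A.map h).map g := by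
  ext i j
  rfl

/-- Hilbert 90 for the general linear group -/
theorem hilb90 [FiniteDimensional F M] {w : Type} [Fintype w] [DecidableEq w] (D : (M ≃ₐ[F] M) → Matrix w w M)
    (h1 : D 1 = 1) (hD : ∀ g h, D g * (D h).map g = D (g * h)) :
    ∃ B B' : Matrix w w M, B * B' = 1 ∧ B' * B = 1 ∧ ∀ g, D g * B.map g = B := by
  classical
  let V : Submodule M (w → M) := Submodule.span M {v | ∀ g, (D g).mulVec (g ∘ v) = v}
  have hT : ∀ (g h : M ≃ₐ[F] M) (v : w → M), (D g).mulVec (g ∘ ((D h).mulVec (h ∘ v))) = (D (g * h)).mulVec ((g * h) ∘ v) := by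
    intro g h v
    have e : g ∘ ((D h).mulVec (h ∘ v)) = ((D h).map g).mulVec ((g * h) ∘ v) := by
      funext i
      simp only [Function.comp_apply, Matrix.mulVec, dotProduct, map_sum, map_mul, Matrix.map_apply, AlgEquiv.mul_apply]
    rw [e, Matrix.mulVec_mulVec, hD]
  have hfix : ∀ v : w → M, (∑ h, (D h).mulVec (h ∘ v)) ∈ V := by
    intro v
    refine Submodule.subset_span fun g => ?_
    have e : g ∘ (∑ h, (D h).mulVec (h ∘ v)) = ∑ h, g ∘ ((D h).mulVec (h ∘ v)) := by
      funext i
      simp only [Function.comp_apply, Finset.sum_apply, map_sum]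
    rw [e, Matrix.mulVec_sum]
    simp_rw [hT]
    exact Fintype.sum_equiv (Equiv.mulLeft g) _ _ (fun h => rfl)
  have htop : V = ⊤ := by
    by_contra hne
    obtain ⟨l, hl1, hl2⟩ := Submodule.exists_le_ker_of_lt_top _ (lt_top_iff_ne_top.2 hne)
    obtain ⟨v, hv⟩ : ∃ v, l v ≠ 0 := by
      by_contra hcon
      push Not at hcon
      exact hl1 (LinearMap.ext hcon)
    have hli := linearIndependent_monoidHom M M
    have hli2 := hli.comp (fun g : M ≃ₐ[F] M => ((g : M →* M))) (by
      intro g h hgh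
      ext x
      exact DFunLike.congr_fun hgh x)
    rw [Fintype.linearIndependent_iff] at hli2
    have h2 := hli2 (fun g => l ((D g).mulVec (g ∘ v))) (by
      funext x
      simp only [Finset.sum_apply, Pi.smul_apply, Function.comp_apply, smul_eq_mul, Pi.zero_apply]
      have h3 : l (∑ h, (D h).mulVec (h ∘ (x • v))) = 0 := hl2 (hfix (x • v))
      rw [map_sum] at h3
      rw [← h3]
      refine Finset.sum_congr rfl fun g _ => ?_
      have e : g ∘ (x • v) = g x • (g ∘ v) := by
        funext i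
        simp only [Function.comp_apply, Pi.smul_apply, smul_eq_mul, map_mul]
      rw [e, Matrix.mulVec_smul, map_smul, smul_eq_mul]
      exact mul_comm _ _) 1
    apply hv
    rw [h1, Matrix.one_mulVec] at h2
    exact h2
  obtain ⟨b, hb⟩ : ∃ b : Module.Basis w M (w → M), ∀ i, ∀ g, (D g).mulVec (g ∘ b i) = b i := by
    obtain ⟨κ, a, ha1, ha2, ha3⟩ := exists_linearIndependent' M (fun v : {v : w → M | ∀ g, (D g).mulVec (g ∘ v) = v} => (v : w → M))
    rw [Subtype.range_coe] at ha2
    change Submodule.span M _ = V at ha2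
    rw [htop] at ha2
    let b0 := Module.Basis.mk ha3 ha2.ge
    haveI : Fintype κ := Module.Basis.fintypeIndexOfRankLtAleph0 b0 (Module.rank_lt_aleph0 M (w → M))
    have hc : Fintype.card κ = Fintype.card w := by
      rw [← Module.finrank_eq_card_basis b0, Module.finrank_fintype_fun_eq_card]
    refine ⟨b0.reindex (Fintype.equivOfCardEq hc), fun i g => ?_⟩
    rw [Module.Basis.reindex_apply, Module.Basis.mk_apply]
    exact (a _).2 g
  refine ⟨(Pi.basisFun M w).toMatrix b, b.toMatrix (Pi.basisFun M w), ?_, ?_, ?_⟩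
  · exact Module.Basis.toMatrix_mul_toMatrix_flip _ _
  · exact Module.Basis.toMatrix_mul_toMatrix_flip _ _
  · intro g
    ext i j
    exact congrFun (hb j g) i

end desc

end Pool.Agent.H403.M
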