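import Mathlib
import Pool.Agent.H403.M.N1

/-! # Splitting by Galois descent (helper403) -/

set_option autoImplicit false
set_option linter.all false

noncomputable section

namespace Pool.Agent.H403.M

open scoped TensorProduct Kronecker
open Pool.Agent.TH132.W Pool.Agent.Y64.Cyc Pool.Agent.Helper18.Br Pool.Agent.H552R3.SymBr

section

variable {F : Type} [Field F] {A : Type} [Ring A] [Algebra F A] [Algebra.IsCentral F A] [IsSimpleRing A]
  [FiniteDimensional F A] {w : Type} [Fintype w] [DecidableEq w]

theorem card_ne (h : Module.finrank F A = Fintype.card w ^ 2) : Fintype.card w ≠ 0 := by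
  intro h0
  rw [h0, zero_pow two_ne_zero] at h
  exact (Module.finrank_pos (R := F) (M := A)).ne' h

theorem class_one_of_hom (φ : A →ₐ[F] Matrix w w F) (h : Module.finrank F A = Fintype.card w ^ 2) :
    brauerClass F A = 1 := by
  haveI : Nonempty w := Fintype.card_pos_iff.1 (Nat.pos_of_ne_zero (card_ne h))
  obtain ⟨e⟩ := equiv_of_hom φ (by rw [h, Module.finrank_matrix, Module.finrank_self]; ring)
  exact brauerClass_eq_one_iff.2 (BrEq.of_matrix (card_ne h)
    (e.trans (Matrix.reindexAlgEquiv F F (Fintype.equivFin w))))

variable {M : Type} [Field M] [Algebra F M]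

/-- an algebra split by a Galois extension with a trivial cocycle is split -/
theorem split_of_cob [FiniteDimensional F M] [IsGalois F M] (ι : A →ₐ[F] Matrix w w M)
    (h : Module.finrank F A = Fintype.card w ^ 2) (D : (M ≃ₐ[F] M) → Matrix w w M)
    (h1 : D 1 = 1) (hD : ∀ g h, D g * (D h).map g = D (g * h))
    (hι : ∀ g a, D g * (ι a).map g = ι a * D g) : brauerClass F A = 1 := by
  obtain ⟨B, B', hBB', hB'B, hB⟩ := hilb90 D h1 hD
  have hB'g : ∀ g : M ≃ₐ[F] M, B'.map g = B' * D g := by
    intro g
    have e1 : (B' * D g) * B.map g = 1 := by rw [mul_assoc, hB, hB'B]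
    have e2 : B.map g * B'.map g = 1 := by rw [← map_gmul, hBB', map_one_g]
    calc B'.map g = (B' * D g) * B.map g * B'.map g := by rw [e1, one_mul]
      _ = B' * D g := by rw [mul_assoc, e2, mul_one]
  let j : A →ₐ[F] Matrix w w M :=
    { toFun := fun a => B' * ι a * B
      map_one' := by rw [map_one, mul_one, hB'B]
      map_mul' := fun a b => by
        rw [map_mul]
        calc B' * (ι a * ι b) * B = B' * ι a * (1 * ι b) * B := by simp only [mul_assoc, one_mul]
          _ = B' * ι a * B * (B' * ι b * B) := by rw [← hBB']; simp only [mul_assoc]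
      map_zero' := by rw [map_zero, mul_zero, zero_mul]
      map_add' := fun a b => by rw [map_add, mul_add, add_mul]
      commutes' := fun c => by
        rw [AlgHom.commutes, ← Algebra.commutes, mul_assoc, hB'B, mul_one] }
  have hj : ∀ a (g : M ≃ₐ[F] M), (j a).map g = j a := by
    intro a g
    change (B' * ι a * B).map g = B' * ι a * B
    rw [map_gmul, map_gmul, hB'g, mul_assoc B', hι, ← mul_assoc, mul_assoc (B' * ι a), hB]
  let s : Matrix w w F →ₐ[F] Matrix w w M := (Algebra.ofId F M).mapMatrix
  have hs : Function.Injective s := by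
    intro X Y hXY
    ext i k
    exact (algebraMap F M).injective (congrFun (congrFun hXY i) k)
  have hr : ∀ a, j a ∈ s.range := by
    intro a
    have h3 : ∀ i k, ∃ c : F, algebraMap F M c = j a i k := by
      intro i k
      have h4 : j a i k ∈ Set.range (algebraMap F M) := by
        rw [IsGalois.mem_range_algebraMap_iff_fixed]
        intro g
        exact congrFun (congrFun (hj a g) i) k
      exact h4
    choose c hc using h3
    refine ⟨Matrix.of c, ?_⟩
    ext i k
    exact hc i k
  exact class_one_of_hom (((AlgEquiv.ofInjective s hs).symm : s.range →ₐ[F] Matrix w w F).comp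
    (j.codRestrict s.range hr)) h

end

end Pool.Agent.H403.M
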