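import Mathlib
import Pool.Agent.H403.M.N2

/-! # Norms of cocycles (helper403) -/

set_option autoImplicit false
set_option linter.all false

noncomputable section

namespace Pool.Agent.H403.M

open scoped TensorProduct Kronecker
open Pool.Agent.TH132.W Pool.Agent.Y64.Cyc Pool.Agent.Helper18.Br Pool.Agent.H552R3.SymBr

section kron

variable {M : Type} [Field M] {w w' : Type} [Fintype w] [DecidableEq w] [Fintype w'] [DecidableEq w']

/-- `Z ↦ Z ⊗ 1` -/
def kkl (w' : Type) [Fintype w'] [DecidableEq w'] : Matrix w w M →ₐ[M] Matrix (w × w') (w × w') M where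
  toFun Z := Z ⊗ₖ (1 : Matrix w' w' M)
  map_one' := Matrix.one_kronecker_one
  map_mul' X Y := by rw [← Matrix.mul_kronecker_mul, Matrix.mul_one]
  map_zero' := Matrix.zero_kronecker _
  map_add' X Y := Matrix.add_kronecker _ _ _
  commutes' c := by
    rw [Algebra.algebraMap_eq_smul_one, Algebra.algebraMap_eq_smul_one, Matrix.smul_kronecker,
      Matrix.one_kronecker_one]

/-- `Z ↦ 1 ⊗ Z` -/
def kkr (w : Type) [Fintype w] [DecidableEq w] : Matrix w' w' M →ₐ[M] Matrix (w × w') (w × w') M where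
  toFun Z := (1 : Matrix w w M) ⊗ₖ Z
  map_one' := Matrix.one_kronecker_one
  map_mul' X Y := by rw [← Matrix.mul_kronecker_mul, Matrix.mul_one]
  map_zero' := Matrix.kronecker_zero _
  map_add' X Y := Matrix.kronecker_add _ _ _
  commutes' c := by
    rw [Algebra.algebraMap_eq_smul_one, Algebra.algebraMap_eq_smul_one, Matrix.kronecker_smul,
      Matrix.one_kronecker_one]

theorem map_kronG {F : Type} [Field F] [Algebra F M] (g : M ≃ₐ[F] M) (P : Matrix w w M) (Q : Matrix w' w' M) :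
    (P ⊗ₖ Q).map g = P.map g ⊗ₖ Q.map g := by
  ext ⟨i, j⟩ ⟨k, l⟩
  exact map_mul g _ _

theorem kkl_mul_kkr (X : Matrix w w M) (Y : Matrix w' w' M) : kkl w' X * kkr w Y = X ⊗ₖ Y := by
  change (X ⊗ₖ (1 : Matrix w' w' M)) * ((1 : Matrix w w M) ⊗ₖ Y) = _
  rw [← Matrix.mul_kronecker_mul, Matrix.mul_one, Matrix.one_mul]

theorem kkr_mul_kkl (X : Matrix w w M) (Y : Matrix w' w' M) : kkr w Y * kkl w' X = X ⊗ₖ Y := by
  change ((1 : Matrix w w M) ⊗ₖ Y) * (X ⊗ₖ (1 : Matrix w' w' M)) = _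
  rw [← Matrix.mul_kronecker_mul, Matrix.mul_one, Matrix.one_mul]

variable {L : Type} [Field L] {C C' : Type} [Ring C] [Algebra L C] [Ring C'] [Algebra L C']

/-- the tensor product of two representations -/
def tenH (k : L →+* M) (ι : C →+* Matrix w w M) (ι' : C' →+* Matrix w' w' M)
    (h : ∀ l, ι (algebraMap L C l) = algebraMap M (Matrix w w M) (k l))
    (h' : ∀ l, ι' (algebraMap L C' l) = algebraMap M (Matrix w' w' M) (k l)) :
    C ⊗[L] C' →+* Matrix (w × w') (w × w') M :=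
  letI : Algebra L M := k.toAlgebra
  (Algebra.TensorProduct.lift (((kkl w').restrictScalars L).comp ({ ι with commutes' := h } : C →ₐ[L] Matrix w w M))
    (((kkr w).restrictScalars L).comp ({ ι' with commutes' := h' } : C' →ₐ[L] Matrix w' w' M)) (fun x y => by
      change kkl w' (ι x) * kkr w (ι' y) = kkr w (ι' y) * kkl w' (ι x)
      rw [kkl_mul_kkr, kkr_mul_kkl]) : C ⊗[L] C' →ₐ[L] Matrix (w × w') (w × w') M).toRingHom

theorem tenH_tmul (k : L →+* M) (ι : C →+* Matrix w w M) (ι' : C' →+* Matrix w' w' M)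
    (h : ∀ l, ι (algebraMap L C l) = algebraMap M (Matrix w w M) (k l))
    (h' : ∀ l, ι' (algebraMap L C' l) = algebraMap M (Matrix w' w' M) (k l)) (x : C) (y : C') :
    tenH k ι ι' h h' (x ⊗ₜ y) = ι x ⊗ₖ ι' y := kkl_mul_kkr _ _

theorem tenH_sc (k : L →+* M) (ι : C →+* Matrix w w M) (ι' : C' →+* Matrix w' w' M)
    (h : ∀ l, ι (algebraMap L C l) = algebraMap M (Matrix w w M) (k l))
    (h' : ∀ l, ι' (algebraMap L C' l) = algebraMap M (Matrix w' w' M) (k l)) (l : L) :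
    tenH k ι ι' h h' (algebraMap L (C ⊗[L] C') l) = algebraMap M (Matrix (w × w') (w × w') M) (k l) := by
  rw [Algebra.TensorProduct.algebraMap_apply, tenH_tmul, h, map_one, Algebra.algebraMap_eq_smul_one,
    Algebra.algebraMap_eq_smul_one, Matrix.smul_kronecker, Matrix.one_kronecker_one]

end kron

section

variable (F L M : Type) [Field F] [Field L] [Field M] [Algebra F L] [Algebra F M]

/-- Galois action on embeddings -/
def ga {F L M : Type} [Field F] [Field L] [Field M] [Algebra F L] [Algebra F M] (g : M ≃ₐ[F] M) (k : L →ₐ[F] M) :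
    L →ₐ[F] M := (g : M →ₐ[F] M).comp k

theorem ga_apply (g : M ≃ₐ[F] M) (k : L →ₐ[F] M) (l : L) : ga g k l = g (k l) := rfl

theorem ga_mul (g h : M ≃ₐ[F] M) (k : L →ₐ[F] M) : ga g (ga h k) = ga (g * h) k := rfl

theorem ga_one (k : L →ₐ[F] M) : ga 1 k = k := rfl

/-- the action as a permutation -/
def gaE (g : M ≃ₐ[F] M) : (L →ₐ[F] M) ≃ (L →ₐ[F] M) where
  toFun := ga g
  invFun := ga g⁻¹
  left_inv k := by rw [ga_mul, inv_mul_cancel, ga_one]
  right_inv k := by rw [ga_mul, mul_inv_cancel, ga_one]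

/-- splitting data for an algebra over `L` at all embeddings of `L` in `M` -/
structure Spd (C : Type) [Ring C] [Algebra L C] (w : Type) [Fintype w] [DecidableEq w] where
  ι : (L →ₐ[F] M) → C →+* Matrix w w M
  sc : ∀ (k : L →ₐ[F] M) l, ι k (algebraMap L C l) = algebraMap M (Matrix w w M) ((k : L →+* M) l)
  P : (M ≃ₐ[F] M) → (L →ₐ[F] M) → Matrix w w M
  Q : (M ≃ₐ[F] M) → (L →ₐ[F] M) → Matrix w w M
  PQ : ∀ g k, P g k * Q g k = 1
  comm : ∀ g k c, P g k * (ι k c).map g = ι (ga g k) c * P g k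
  c : (M ≃ₐ[F] M) → (M ≃ₐ[F] M) → (L →ₐ[F] M) → M
  hc : ∀ g h k, P g (ga h k) * (P h k).map g = c g h k • P (g * h) k

variable {F L M}

/-- tensor products of splitting data -/
def Spd.tensor {C : Type} [Ring C] [Algebra L C] {w : Type} [Fintype w] [DecidableEq w] (S : Spd F L M C w)
    {C' : Type} [Ring C'] [Algebra L C'] {w' : Type} [Fintype w'] [DecidableEq w'] (S' : Spd F L M C' w') :
    Spd F L M (C ⊗[L] C') (w × w') where
  ι k := tenH (k : L →+* M) (S.ι k) (S'.ι k) (S.sc k) (S'.sc k)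
  sc k l := tenH_sc (k : L →+* M) (S.ι k) (S'.ι k) (S.sc k) (S'.sc k) l
  P g k := S.P g k ⊗ₖ S'.P g k
  Q g k := S.Q g k ⊗ₖ S'.Q g k
  PQ g k := by rw [← Matrix.mul_kronecker_mul, S.PQ, S'.PQ, Matrix.one_kronecker_one]
  comm g k c := by
    induction c using TensorProduct.induction_on with
    | zero => rw [map_zero, map_zero, zero_mul, Matrix.map_zero _ (map_zero g), mul_zero]
    | tmul x y =>
      rw [tenH_tmul, tenH_tmul, map_kronG, ← Matrix.mul_kronecker_mul, ← Matrix.mul_kronecker_mul, S.comm, S'.comm]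
    | add x y hx hy =>
      rw [map_add, map_add, Matrix.map_add _ (map_add g), mul_add, add_mul, hx, hy]
  c g h k := S.c g h k * S'.c g h k
  hc g h k := by
    rw [map_kronG, ← Matrix.mul_kronecker_mul, S.hc, S'.hc, Matrix.smul_kronecker, Matrix.kronecker_smul, smul_smul]

variable [Fintype (L →ₐ[F] M)]

/-- `γ` is the norm of a cocycle for the class `z` -/
def CorP (z : BrauerGroup.{0, 0} L) (γ : (M ≃ₐ[F] M) → (M ≃ₐ[F] M) → M) : Prop :=
  ∃ (C : Type) (_ : Ring C) (_ : Algebra L C) (_ : Algebra.IsCentral L C) (_ : IsSimpleRing C)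
    (_ : FiniteDimensional L C) (w : Type) (_ : Fintype w) (_ : DecidableEq w),
    brauerClass L C = z ∧ Module.finrank L C = Fintype.card w ^ 2 ∧ ∃ S : Spd F L M C w,
      ∀ g h, γ g h = ∏ k, S.c g h k

/-- coboundaries -/
def Cob (γ : (M ≃ₐ[F] M) → (M ≃ₐ[F] M) → M) : Prop :=
  ∃ ν : (M ≃ₐ[F] M) → M, (∀ g, ν g ≠ 0) ∧ ∀ g h, γ g h * ν (g * h) = ν g * g (ν h)

theorem Cob.mul {γ γ' : (M ≃ₐ[F] M) → (M ≃ₐ[F] M) → M} (h : Cob γ) (h' : Cob γ') :
    Cob (fun g h => γ g h * γ' g h) := by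
  obtain ⟨ν, h1, h2⟩ := h
  obtain ⟨ν', h1', h2'⟩ := h'
  refine ⟨fun g => ν g * ν' g, fun g => mul_ne_zero (h1 g) (h1' g), fun g k => ?_⟩
  rw [map_mul]
  linear_combination γ' g k * ν' (g * k) * h2 g k + ν g * g (ν k) * h2' g k

theorem Cob.ne {γ : (M ≃ₐ[F] M) → (M ≃ₐ[F] M) → M} (h : Cob γ) (g k : M ≃ₐ[F] M) : γ g k ≠ 0 := by
  obtain ⟨ν, h1, h2⟩ := h
  intro h0
  have h3 := h2 g k
  rw [h0, zero_mul] at h3
  exact mul_ne_zero (h1 g) ((map_ne_zero g).2 (h1 k)) h3.symm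

theorem Cob.inv {γ : (M ≃ₐ[F] M) → (M ≃ₐ[F] M) → M} (h : Cob γ) : Cob (fun g h => (γ g h)⁻¹) := by
  have hn := h.ne
  obtain ⟨ν, h1, h2⟩ := h
  refine ⟨fun g => (ν g)⁻¹, fun g => inv_ne_zero (h1 g), fun g k => ?_⟩
  rw [map_inv₀, ← mul_inv, ← mul_inv, h2]

theorem Cob.pow {γ : (M ≃ₐ[F] M) → (M ≃ₐ[F] M) → M} (h : Cob γ) (n : ℕ) : Cob (fun g h => γ g h ^ n) := by
  obtain ⟨ν, h1, h2⟩ := h
  refine ⟨fun g => ν g ^ n, fun g => pow_ne_zero n (h1 g), fun g k => ?_⟩
  rw [map_pow, ← mul_pow, ← mul_pow, h2]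

theorem CorP.mul {z z' : BrauerGroup.{0, 0} L} {γ γ' : (M ≃ₐ[F] M) → (M ≃ₐ[F] M) → M} (h : CorP z γ)
    (h' : CorP z' γ') : CorP (z * z') (fun g h => γ g h * γ' g h) := by
  obtain ⟨C, _, _, _, _, _, w, _, _, hz, hC, S, hS⟩ := h
  obtain ⟨C', _, _, _, _, _, w', _, _, hz', hC', S', hS'⟩ := h'
  haveI : IsSimpleRing (C ⊗[L] C') := isSimple_tensor
  haveI : Algebra.IsCentral L (C ⊗[L] C') := isCentral_tensor
  refine ⟨C ⊗[L] C', inferInstance, inferInstance, inferInstance, inferInstance, inferInstance, w × w',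
    inferInstance, inferInstance, ?_, ?_, S.tensor S', ?_⟩
  · rw [← hz, ← hz']
    rfl
  · rw [Module.finrank_tensorProduct, hC, hC', Fintype.card_prod]
    ring
  · intro g h
    change γ g h * γ' g h = _
    rw [hS, hS', ← Finset.prod_mul_distrib]
    rfl

theorem Spd.c_ne {C : Type} [Ring C] [Algebra L C] {w : Type} [Fintype w] [DecidableEq w] [Nonempty w]
    (S : Spd F L M C w) (g h : M ≃ₐ[F] M) (k : L →ₐ[F] M) : S.c g h k ≠ 0 := by
  intro h0
  have h1 := S.hc g h k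
  rw [h0, zero_smul] at h1
  have h2 : (P : Matrix w w M) → (Q : Matrix w w M) → P * Q = 1 → IsUnit P := fun P Q hPQ =>
    ⟨⟨P, Q, hPQ, mul_eq_one_comm.1 hPQ⟩, rfl⟩
  have h3 := h2 _ _ (S.PQ g (ga h k))
  have h4 := h2 _ _ (show (S.P h k).map g * (S.Q h k).map g = 1 by rw [← map_gmul, S.PQ, map_one_g])
  have h5 := h3.mul h4
  rw [h1] at h5
  exact not_isUnit_zero h5

/-- a norm of a cocycle of the trivial class is a coboundary -/
theorem corP_one {γ : (M ≃ₐ[F] M) → (M ≃ₐ[F] M) → M} (h : CorP (1 : BrauerGroup.{0, 0} L) γ) : Cob γ := by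
  obtain ⟨C, _, _, _, _, _, w, _, _, hz, hC, S, hS⟩ := h
  haveI : Nonempty w := Fintype.card_pos_iff.1 (Nat.pos_of_ne_zero (card_ne hC))
  obtain ⟨m, ⟨e0⟩⟩ := exists_matrix hz
  have hm : Fintype.card w = m := by
    have h1 := e0.toLinearEquiv.finrank_eq
    rw [hC, Module.finrank_matrix, Module.finrank_self, Fintype.card_fin, mul_one, ← sq] at h1
    exact Nat.pow_left_injective two_ne_zero h1
  let e : C ≃ₐ[L] Matrix w w L := e0.trans (Matrix.reindexAlgEquiv L L (Fintype.equivFinOfCardEq hm).symm)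
  let j : (L →ₐ[F] M) → C →+* Matrix w w M := fun k => ((k : L →+* M).mapMatrix).comp (e : C →+* Matrix w w L)
  have hj : ∀ (k : L →ₐ[F] M) l, j k (algebraMap L C l) = algebraMap M (Matrix w w M) ((k : L →+* M) l) := by
    intro k l
    change (e (algebraMap L C l)).map k = _
    rw [AlgEquiv.commutes]
    ext i i'
    rw [Matrix.map_apply, Matrix.algebraMap_matrix_apply, Matrix.algebraMap_matrix_apply]
    split_ifs
    · rfl
    · exact map_zero k
  have hjg : ∀ (g : M ≃ₐ[F] M) k c, (j k c).map g = j (ga g k) c := fun g k c => rfl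
  have hf : ∀ k, ∃ f f' : Matrix w w M, f * f' = 1 ∧ f' * f = 1 ∧ ∀ c, f * S.ι k c = j k c * f := fun k =>
    inter_exists (k : L →+* M) hC (S.ι k) (j k) (S.sc k) (hj k)
  choose f f' hff' hf'f hfc using hf
  have hμ : ∀ (g : M ≃ₐ[F] M) (k : L →ₐ[F] M), ∃ μ : M, (f k).map g = μ • (f (ga g k) * S.P g k) := by
    intro g k
    let ιg : C →+* Matrix w w M := ((g : M →+* M).mapMatrix).comp (S.ι k)
    have h1 : ∀ l, ιg (algebraMap L C l) = algebraMap M (Matrix w w M) ((ga g k : L →+* M) l) := by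
      intro l
      change (S.ι k (algebraMap L C l)).map g = _
      rw [S.sc]
      ext i i'
      rw [Matrix.map_apply, Matrix.algebraMap_matrix_apply, Matrix.algebraMap_matrix_apply]
      split_ifs
      · rfl
      · exact map_zero g
    refine inter_unique (ga g k : L →+* M) hC ιg (j (ga g k)) h1 (f (ga g k) * S.P g k) (S.Q g k * f' (ga g k)) ((f k).map g)
      ?_ ?_ ?_
    · rw [mul_assoc, ← mul_assoc (S.P g k), S.PQ, one_mul, hff']
    · intro c
      change f (ga g k) * S.P g k * (S.ι k c).map g = _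
      rw [mul_assoc, S.comm, ← mul_assoc, hfc, mul_assoc]
    · intro c
      change (f k).map g * (S.ι k c).map g = _
      rw [← map_gmul, hfc, map_gmul, hjg]
  choose μ hμ using hμ
  have hunit : ∀ k, IsUnit (f k) := fun k => ⟨⟨f k, f' k, hff' k, hf'f k⟩, rfl⟩
  have hPu : ∀ g k, IsUnit (S.P g k) := fun g k => ⟨⟨S.P g k, S.Q g k, S.PQ g k, mul_eq_one_comm.1 (S.PQ g k)⟩, rfl⟩
  have hμ0 : ∀ g k, μ g k ≠ 0 := by
    intro g k h0
    have h1 := hμ g k
    rw [h0, zero_smul] at h1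
    have h2 : f k = 0 := by
      ext i i'
      have := congrFun (congrFun h1 i) i'
      exact (map_eq_zero g).1 this
    have h3 := hunit k
    rw [h2] at h3
    exact not_isUnit_zero h3
  have key : ∀ g h k, S.c g h k * (μ g (ga h k) * g (μ h k)) = μ (g * h) k := by
    intro g h k
    have e1 : (f k).map ((g * h : M ≃ₐ[F] M)) = (g (μ h k) * μ g (ga h k) * S.c g h k) • (f (ga (g * h) k) * S.P (g * h) k) := by
      rw [map_comp_g, hμ h k]
      have e2 : (μ h k • (f (ga h k) * S.P h k)).map g = g (μ h k) • ((f (ga h k)).map g * (S.P h k).map g) := by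
        rw [← map_gmul]
        ext i i'
        rw [Matrix.map_apply, Matrix.smul_apply, Matrix.smul_apply, Matrix.map_apply, smul_eq_mul, smul_eq_mul, map_mul]
      rw [e2, hμ g (ga h k), Matrix.smul_mul, smul_smul, mul_assoc (f _), S.hc, Matrix.mul_smul, smul_smul]
      rfl
    rw [hμ (g * h) k] at e1
    have hu : IsUnit (f (ga (g * h) k) * S.P (g * h) k) := (hunit _).mul (hPu _ _)
    have h3 : (μ (g * h) k - g (μ h k) * μ g (ga h k) * S.c g h k) • (f (ga (g * h) k) * S.P (g * h) k) = 0 := by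
      rw [sub_smul, e1, sub_self]
    have h4 := (smul_eq_zero.1 h3).resolve_right hu.ne_zero
    linear_combination -h4
  refine ⟨fun g => (∏ k, μ g k)⁻¹, fun g => inv_ne_zero (Finset.prod_ne_zero_iff.2 fun k _ => hμ0 g k), fun g h => ?_⟩
  have h1 : (∏ k, S.c g h k) * ((∏ k, μ g k) * g (∏ k, μ h k)) = ∏ k, μ (g * h) k := by
    have h2 : ∏ k, μ g k = ∏ k, μ g (ga h k) := (Equiv.prod_comp (gaE F L M h) (fun k => μ g k)).symm
    rw [h2, map_prod, ← Finset.prod_mul_distrib, ← Finset.prod_mul_distrib]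
    exact Finset.prod_congr rfl fun k _ => key g h k
  have h5 : (∏ k, μ g k) ≠ 0 := Finset.prod_ne_zero_iff.2 fun k _ => hμ0 g k
  have h6 : (∏ k, μ h k) ≠ 0 := Finset.prod_ne_zero_iff.2 fun k _ => hμ0 h k
  have h7 : (∏ k, μ (g * h) k) ≠ 0 := Finset.prod_ne_zero_iff.2 fun k _ => hμ0 _ k
  have h8 : g (∏ k, μ h k) ≠ 0 := (map_ne_zero g).2 h6
  rw [hS, map_inv₀]
  field_simp
  linear_combination h1

end

end Pool.Agent.H403.M
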