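import Mathlib
import Pool.Agent.H403.M.N3

/-! # Norms of cocycles: classes from the base field (helper403) -/

set_option autoImplicit false
set_option linter.all false

noncomputable section

namespace Pool.Agent.H403.M

open scoped TensorProduct Kronecker
open Pool.Agent.TH132.W Pool.Agent.Y64.Cyc Pool.Agent.Helper18.Br Pool.Agent.H552R3.SymBr

section

variable {K L : Type} [Field K] [Field L] [Algebra K L]

theorem rh_eq_res (x : BrauerGroup.{0, 0} K) : rh (algebraMap K L) x = res L x := by
  have e : (algebraMap K L).toAlgebra = (inferInstance : Algebra K L) := Algebra.algebra_ext _ _ (fun _ => rfl)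
  unfold rh
  rw [e]

end

section

variable {F M : Type} [Field F] [Field M] [Algebra F M] {A : Type} [Ring A] [Algebra F A] [Algebra.IsCentral F A]
  [IsSimpleRing A] [FiniteDimensional F A] {w : Type} [Fintype w] [DecidableEq w]

theorem sc_of_algHom {C : Type} [Ring C] [Algebra F C] (ι : C →ₐ[F] Matrix w w M) (k : F →ₐ[F] M) (l : F) :
    (ι : C →+* Matrix w w M) (algebraMap F C l) = algebraMap M (Matrix w w M) ((k : F →+* M) l) := by
  change ι (algebraMap F C l) = _
  rw [AlgHom.commutes, IsScalarTower.algebraMap_apply F M (Matrix w w M)]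
  congr 1
  exact (k.commutes l).symm

/-- splitting data and cocycle of an algebra over the base field -/
theorem exists_cocycle (ι : A →ₐ[F] Matrix w w M) (hA : Module.finrank F A = Fintype.card w ^ 2) :
    ∃ (P Q : (M ≃ₐ[F] M) → Matrix w w M) (c : (M ≃ₐ[F] M) → (M ≃ₐ[F] M) → M), (∀ g, P g * Q g = 1) ∧
      (∀ g a, P g * (ι a).map g = ι a * P g) ∧ ∀ g h, P g * (P h).map g = c g h • P (g * h) := by
  let k : F →ₐ[F] M := Algebra.ofId F M
  have h1 : ∀ g : M ≃ₐ[F] M, ∃ P Q : Matrix w w M, P * Q = 1 ∧ Q * P = 1 ∧ ∀ a, P * (ι a).map g = ι a * P := by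
    intro g
    exact inter_exists (k : F →+* M) hA
      (((AlgEquiv.mapMatrix g : Matrix w w M ≃ₐ[F] Matrix w w M).toAlgHom.comp ι : A →ₐ[F] Matrix w w M) : A →+* Matrix w w M)
      (ι : A →+* Matrix w w M) (sc_of_algHom _ k) (sc_of_algHom _ k)
  choose P Q hPQ hQP hP using h1
  have h2 : ∀ g h : M ≃ₐ[F] M, ∃ z : M, P g * (P h).map g = z • P (g * h) := by
    intro g h
    refine inter_unique (k : F →+* M) hA
      (((AlgEquiv.mapMatrix (g * h) : Matrix w w M ≃ₐ[F] Matrix w w M).toAlgHom.comp ι : A →ₐ[F] Matrix w w M) : A →+* Matrix w w M)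
      (ι : A →+* Matrix w w M) (sc_of_algHom _ k) (P (g * h)) (Q (g * h)) _ (hPQ _) (hP _) ?_
    intro a
    change P g * (P h).map g * (ι a).map (g * h : M ≃ₐ[F] M) = ι a * (P g * (P h).map g)
    rw [map_comp_g, mul_assoc, ← map_gmul, hP, map_gmul, ← mul_assoc, hP, mul_assoc]
  choose c hc using h2
  exact ⟨P, Q, c, hPQ, hP, hc⟩

variable {L : Type} [Field L] [Algebra F L] [Fintype (L →ₐ[F] M)]

theorem corP_base (ι : A →ₐ[F] Matrix w w M) (hA : Module.finrank F A = Fintype.card w ^ 2)
    (P Q : (M ≃ₐ[F] M) → Matrix w w M) (c : (M ≃ₐ[F] M) → (M ≃ₐ[F] M) → M) (hPQ : ∀ g, P g * Q g = 1)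
    (hP : ∀ g a, P g * (ι a).map g = ι a * P g) (hc : ∀ g h, P g * (P h).map g = c g h • P (g * h)) :
    CorP (rh (algebraMap F L) (brauerClass F A)) (fun g h => c g h ^ Fintype.card (L →ₐ[F] M)) := by
  haveI : IsSimpleRing (L ⊗[F] A) := isSimple_base F L A
  haveI : Algebra.IsCentral L (L ⊗[F] A) := isCentral_base F L A
  refine ⟨L ⊗[F] A, inferInstance, inferInstance, inferInstance, inferInstance, inferInstance, w, inferInstance,
    inferInstance, ?_, ?_, ?_, ?_⟩
  · rw [rh_eq_res]
    rfl
  · rw [Module.finrank_baseChange, hA]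
  · let ιk : (L →ₐ[F] M) → L ⊗[F] A →+* Matrix w w M := fun k =>
      (Algebra.TensorProduct.lift (((Algebra.ofId M (Matrix w w M)).restrictScalars F).comp k) ι
        (fun x y => Algebra.commutes (k x) _) : L ⊗[F] A →ₐ[F] Matrix w w M)
    have hιk : ∀ k l a, ιk k (l ⊗ₜ a) = algebraMap M (Matrix w w M) (k l) * ι a := fun k l a =>
      Algebra.TensorProduct.lift_tmul (((Algebra.ofId M (Matrix w w M)).restrictScalars F).comp k) ι
        (fun x y => Algebra.commutes (k x) _) l a
    exact
    { ι := ιk
      sc := fun k l => by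
        rw [Algebra.TensorProduct.algebraMap_apply, hιk, map_one, mul_one]
        rfl
      P := fun g _ => P g
      Q := fun g _ => Q g
      PQ := fun g _ => hPQ g
      comm := fun g k x => by
        induction x using TensorProduct.induction_on with
        | zero => rw [map_zero, map_zero, zero_mul, Matrix.map_zero _ (map_zero g), mul_zero]
        | tmul l a =>
          rw [hιk, hιk, map_gmul]
          have e : (algebraMap M (Matrix w w M) (k l)).map g = algebraMap M (Matrix w w M) (g (k l)) := by
            ext i j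
            rw [Matrix.map_apply, Matrix.algebraMap_matrix_apply, Matrix.algebraMap_matrix_apply]
            split_ifs
            · rfl
            · exact map_zero g
          rw [e, ← mul_assoc, ← Algebra.commutes, mul_assoc, hP, mul_assoc]
          rfl
        | add x y hx hy =>
          rw [map_add, map_add, Matrix.map_add _ (map_add g), mul_add, add_mul, hx, hy]
      c := fun g h _ => c g h
      hc := fun g h _ => hc g h }
  · intro g h
    exact (Finset.prod_const (c g h)).symm

end

end Pool.Agent.H403.M
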