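import Mathlib
import Pool.Agent.H403.M.N4

/-! # Equivariant Clifford matrices (helper403) -/

set_option autoImplicit false
set_option linter.all false

noncomputable section

namespace Pool.Agent.H403.M

open scoped TensorProduct Kronecker
open Pool.Agent.TH132.W Pool.Agent.Y64.Cyc Pool.Agent.Helper18.Br Pool.Agent.H552R3.SymBr

section cliff

variable (F : Type) [Field F]

/-- anticommuting matrices with square one -/
def HasCl (J : Type) (d : ℕ) : Prop :=
  ∃ (s : Type) (_ : Fintype s) (_ : DecidableEq s) (Γ : J → Matrix s s F), Fintype.card s = d ∧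
    (∀ j, Γ j * Γ j = 1) ∧ ∀ i j, i ≠ j → Γ i * Γ j = -(Γ j * Γ i)

variable {F}

theorem HasCl.congr {J J' : Type} {d : ℕ} (h : HasCl F J d) (e : J' ≃ J) : HasCl F J' d := by
  obtain ⟨s, i1, i2, Γ, h1, h2, h3⟩ := h
  exact ⟨s, i1, i2, fun j => Γ (e j), h1, fun j => h2 _, fun i j hij => h3 _ _ (fun h => hij (e.injective h))⟩

theorem neg_kron {w w' : Type} [Fintype w] [DecidableEq w] [Fintype w'] [DecidableEq w'] (A : Matrix w w F)
    (B : Matrix w' w' F) : (-A) ⊗ₖ B = -(A ⊗ₖ B) := by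
  ext ⟨i, j⟩ ⟨k, l⟩
  exact neg_mul _ _

theorem kron_neg {w w' : Type} [Fintype w] [DecidableEq w] [Fintype w'] [DecidableEq w'] (A : Matrix w w F)
    (B : Matrix w' w' F) : A ⊗ₖ (-B) = -(A ⊗ₖ B) := by
  ext ⟨i, j⟩ ⟨k, l⟩
  exact mul_neg _ _

theorem HasCl.step {J : Type} {d : ℕ} (h : HasCl F J d) {i : F} (hi : i * i = -1) :
    HasCl F (Option (Option J)) (d * 2) := by
  obtain ⟨s, i1, i2, Γ, h1, h2, h3⟩ := h
  let Z : Matrix (Fin 2) (Fin 2) F := !![1, 0; 0, -1]
  let X : Matrix (Fin 2) (Fin 2) F := !![0, 1; 1, 0]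
  let Y : Matrix (Fin 2) (Fin 2) F := !![0, -i; i, 0]
  have hZ : Z * Z = 1 := by
    ext a b
    fin_cases a <;> fin_cases b <;> simp [Z, Matrix.mul_apply, Fin.sum_univ_two]
  have hX : X * X = 1 := by
    ext a b
    fin_cases a <;> fin_cases b <;> simp [X, Matrix.mul_apply, Fin.sum_univ_two]
  have hY : Y * Y = 1 := by
    ext a b
    fin_cases a <;> fin_cases b <;> simp [Y, Matrix.mul_apply, Fin.sum_univ_two, hi]
  have hXZ : X * Z = -(Z * X) := by
    ext a b
    fin_cases a <;> fin_cases b <;> simp [Z, X, Matrix.mul_apply, Fin.sum_univ_two]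
  have hYZ : Y * Z = -(Z * Y) := by
    ext a b
    fin_cases a <;> fin_cases b <;> simp [Z, Y, Matrix.mul_apply, Fin.sum_univ_two]
  have hXY : X * Y = -(Y * X) := by
    ext a b
    fin_cases a <;> fin_cases b <;> simp [X, Y, Matrix.mul_apply, Fin.sum_univ_two]
  let G : Option (Option J) → Matrix (s × Fin 2) (s × Fin 2) F := fun o =>
    match o with
    | none => (1 : Matrix s s F) ⊗ₖ X
    | some none => (1 : Matrix s s F) ⊗ₖ Y
    | some (some j) => Γ j ⊗ₖ Z
  refine ⟨s × Fin 2, inferInstance, inferInstance, G, by rw [Fintype.card_prod, h1, Fintype.card_fin], ?_, ?_⟩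
  · rintro (_ | _ | j)
    · change ((1 : Matrix s s F) ⊗ₖ X) * ((1 : Matrix s s F) ⊗ₖ X) = 1
      rw [← Matrix.mul_kronecker_mul, hX, mul_one, Matrix.one_kronecker_one]
    · change ((1 : Matrix s s F) ⊗ₖ Y) * ((1 : Matrix s s F) ⊗ₖ Y) = 1
      rw [← Matrix.mul_kronecker_mul, hY, mul_one, Matrix.one_kronecker_one]
    · change (Γ j ⊗ₖ Z) * (Γ j ⊗ₖ Z) = 1
      rw [← Matrix.mul_kronecker_mul, hZ, h2, Matrix.one_kronecker_one]
  · rintro (_ | _ | j) (_ | _ | j') hij
    · exact absurd rfl hij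
    · change ((1 : Matrix s s F) ⊗ₖ X) * ((1 : Matrix s s F) ⊗ₖ Y) = -(((1 : Matrix s s F) ⊗ₖ Y) * ((1 : Matrix s s F) ⊗ₖ X))
      rw [← Matrix.mul_kronecker_mul, ← Matrix.mul_kronecker_mul, hXY, kron_neg]
    · change ((1 : Matrix s s F) ⊗ₖ X) * (Γ j' ⊗ₖ Z) = -((Γ j' ⊗ₖ Z) * ((1 : Matrix s s F) ⊗ₖ X))
      rw [← Matrix.mul_kronecker_mul, ← Matrix.mul_kronecker_mul, hXZ, kron_neg, mul_one, one_mul]
    · change ((1 : Matrix s s F) ⊗ₖ Y) * ((1 : Matrix s s F) ⊗ₖ X) = -(((1 : Matrix s s F) ⊗ₖ X) * ((1 : Matrix s s F) ⊗ₖ Y))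
      rw [← Matrix.mul_kronecker_mul, ← Matrix.mul_kronecker_mul, hXY, kron_neg, neg_neg]
    · exact absurd rfl hij
    · change ((1 : Matrix s s F) ⊗ₖ Y) * (Γ j' ⊗ₖ Z) = -((Γ j' ⊗ₖ Z) * ((1 : Matrix s s F) ⊗ₖ Y))
      rw [← Matrix.mul_kronecker_mul, ← Matrix.mul_kronecker_mul, hYZ, kron_neg, mul_one, one_mul]
    · change (Γ j ⊗ₖ Z) * ((1 : Matrix s s F) ⊗ₖ X) = -(((1 : Matrix s s F) ⊗ₖ X) * (Γ j ⊗ₖ Z))
      rw [← Matrix.mul_kronecker_mul, ← Matrix.mul_kronecker_mul, hXZ, kron_neg, mul_one, one_mul, neg_neg]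
    · change (Γ j ⊗ₖ Z) * ((1 : Matrix s s F) ⊗ₖ Y) = -(((1 : Matrix s s F) ⊗ₖ Y) * (Γ j ⊗ₖ Z))
      rw [← Matrix.mul_kronecker_mul, ← Matrix.mul_kronecker_mul, hYZ, kron_neg, mul_one, one_mul, neg_neg]
    · change (Γ j ⊗ₖ Z) * (Γ j' ⊗ₖ Z) = -((Γ j' ⊗ₖ Z) * (Γ j ⊗ₖ Z))
      rw [← Matrix.mul_kronecker_mul, ← Matrix.mul_kronecker_mul, h3 j j' (fun h => hij (by rw [h])), neg_kron]

theorem hasCl {i : F} (hi : i * i = -1) (m : ℕ) : ∀ (J : Type) [Fintype J], Fintype.card J = m * 2 → HasCl F J (2 ^ m) := by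
  induction m with
  | zero =>
    intro J _ hJ
    haveI : IsEmpty J := Fintype.card_eq_zero_iff.1 (by rw [hJ, zero_mul])
    exact ⟨Unit, inferInstance, inferInstance, fun j => isEmptyElim j, by rw [Fintype.card_unit, pow_zero],
      fun j => isEmptyElim j, fun j => isEmptyElim j⟩
  | succ m ih =>
    intro J _ hJ
    have h1 := (ih (Fin (m * 2)) (Fintype.card_fin _)).step hi
    rw [← pow_succ] at h1
    refine h1.congr (Fintype.equivOfCardEq ?_)
    rw [hJ, Fintype.card_option, Fintype.card_option, Fintype.card_fin]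
    ring

end cliff

section basis

variable {F L M : Type} [Field F] [Field L] [Field M] [Algebra F L] [Algebra F M] [FiniteDimensional F L]
  [FiniteDimensional F M] [IsGalois F M] [DecidableEq (L →ₐ[F] M)]

/-- orthonormal bases for scaled trace forms over a quadratically closed field -/
theorem exists_orthonormal (hq : ∀ a : F, ∃ b, b * b = a) (h2 : (2 : F) ≠ 0)
    (hcard : Fintype.card (L →ₐ[F] M) = Module.finrank F L) (φ : L) (hφ : φ ≠ 0) :
    ∃ lam : (L →ₐ[F] M) → L, ∀ k k' : L →ₐ[F] M, ∑ l, k (lam l) * k' (lam l) = if k = k' then k φ else 0 := by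
  have hT : ∀ z : L, ∃ c : F, algebraMap F M c = ∑ k : L →ₐ[F] M, k z := by
    intro z
    have h4 : ∑ k : L →ₐ[F] M, k z ∈ Set.range (algebraMap F M) := by
      rw [IsGalois.mem_range_algebraMap_iff_fixed]
      intro g
      rw [map_sum]
      exact Equiv.sum_comp (gaE F L M g) (fun k => k z)
    exact h4
  choose T hT using hT
  have hTadd : ∀ x y, T (x + y) = T x + T y := by
    intro x y
    apply (algebraMap F M).injective
    rw [map_add, hT, hT, hT, ← Finset.sum_add_distrib]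
    exact Finset.sum_congr rfl fun k _ => map_add k x y
  have hTsmul : ∀ (c : F) x, T (c • x) = c * T x := by
    intro c x
    apply (algebraMap F M).injective
    rw [map_mul, hT, hT, Finset.mul_sum]
    exact Finset.sum_congr rfl fun k _ => by rw [map_smul, Algebra.smul_def]
  let B : LinearMap.BilinForm F L := LinearMap.mk₂ F (fun x y => T (φ⁻¹ * x * y))
    (fun x x' y => by rw [mul_add, add_mul, hTadd])
    (fun c x y => by rw [mul_smul_comm, smul_mul_assoc, hTsmul, smul_eq_mul])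
    (fun x y y' => by rw [mul_add, hTadd])
    (fun c x y => by rw [mul_smul_comm, hTsmul, smul_eq_mul])
  have hB : ∀ x y, B x y = T (φ⁻¹ * x * y) := fun x y => rfl
  have hsymm : LinearMap.IsSymm B := ⟨fun x y => by
    change T (φ⁻¹ * x * y) = T (φ⁻¹ * y * x)
    congr 1
    ring⟩
  have hnd : ∀ x, (∀ y, B x y = 0) → x = 0 := by
    intro x hx
    by_contra hx0
    have hli := (linearIndependent_monoidHom L M).comp (fun k : L →ₐ[F] M => (k : L →* M)) (by
      intro g h hgh
      ext x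
      exact DFunLike.congr_fun hgh x)
    rw [Fintype.linearIndependent_iff] at hli
    have h3 := hli (fun k => k (φ⁻¹ * x)) (by
      funext y
      simp only [Finset.sum_apply, Pi.smul_apply, Function.comp_apply, smul_eq_mul, Pi.zero_apply]
      have h5 := hT (φ⁻¹ * x * y)
      rw [← hB, hx, map_zero] at h5
      rw [h5]
      exact Finset.sum_congr rfl fun k _ => (map_mul k _ _).symm)
    haveI : Nonempty (L →ₐ[F] M) := Fintype.card_pos_iff.1 (by rw [hcard]; exact Module.finrank_pos)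
    obtain ⟨k⟩ := this
    exact mul_ne_zero (inv_ne_zero hφ) hx0 ((map_eq_zero k).1 (h3 k))
  letI : Invertible (2 : F) := invertibleOfNonzero h2
  obtain ⟨v, hv⟩ := LinearMap.BilinForm.exists_orthogonal_basis hsymm
  have hv' : ∀ i j, i ≠ j → B (v i) (v j) = 0 := fun i j hij => hv hij
  have hd : ∀ i, B (v i) (v i) ≠ 0 := by
    intro i h0
    refine v.ne_zero i (hnd (v i) fun y => ?_)
    have h1 : B (v i) = 0 := v.ext fun j => by
      by_cases hij : i = j
      · subst hij
        exact h0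
      · exact hv' i j hij
    rw [h1]
    rfl
  choose r hr using fun i => hq (B (v i) (v i))
  have hr0 : ∀ i, r i ≠ 0 := by
    intro i h0
    apply hd i
    rw [← hr, h0, mul_zero]
  let e : (L →ₐ[F] M) ≃ Fin (Module.finrank F L) := Fintype.equivFinOfCardEq hcard
  let lam : (L →ₐ[F] M) → L := fun l => (r (e l))⁻¹ • v (e l)
  have hlam : ∀ l l', B (lam l) (lam l') = if l = l' then 1 else 0 := by
    intro l l'
    change B ((r (e l))⁻¹ • v (e l)) ((r (e l'))⁻¹ • v (e l')) = _
    rw [map_smul, map_smul, LinearMap.smul_apply, smul_eq_mul, smul_eq_mul]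
    split_ifs with h
    · subst h
      rw [← hr]
      field_simp [hr0 (e l)]
    · rw [hv' _ _ (fun h' => h (e.injective h')), mul_zero, mul_zero]
  refine ⟨lam, ?_⟩
  let Λ : Matrix (L →ₐ[F] M) (L →ₐ[F] M) M := Matrix.of fun k l => k (lam l)
  let D : Matrix (L →ₐ[F] M) (L →ₐ[F] M) M := Matrix.diagonal fun k => k φ
  let D' : Matrix (L →ₐ[F] M) (L →ₐ[F] M) M := Matrix.diagonal fun k => k φ⁻¹
  have hDD' : D' * D = 1 := by
    change Matrix.diagonal _ * Matrix.diagonal _ = 1
    rw [Matrix.diagonal_mul_diagonal, ← Matrix.diagonal_one]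
    congr 1
    funext k
    rw [← map_mul, inv_mul_cancel₀ hφ, map_one]
  have h1 : Λ.transpose * D' * Λ = 1 := by
    ext l l'
    rw [Matrix.mul_apply]
    have h3 : ∑ j, (Λ.transpose * D') l j * Λ j l' = algebraMap F M (B (lam l) (lam l')) := by
      rw [hB, hT]
      refine Finset.sum_congr rfl fun k _ => ?_
      change (Λ.transpose * Matrix.diagonal (fun k : L →ₐ[F] M => k φ⁻¹)) l k * Λ k l' = _
      rw [Matrix.mul_diagonal, map_mul, map_mul]
      change k (lam l) * k φ⁻¹ * k (lam l') = _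
      ring
    rw [h3, hlam, Matrix.one_apply]
    split_ifs
    · exact map_one _
    · exact map_zero _
  have h3 : Λ * (Λ.transpose * D') = 1 := mul_eq_one_comm.1 h1
  have h4 : Λ * Λ.transpose = D := by
    calc Λ * Λ.transpose = Λ * Λ.transpose * (D' * D) := by rw [hDD', mul_one]
      _ = (Λ * (Λ.transpose * D')) * D := by simp only [mul_assoc]
      _ = D := by rw [h3, one_mul]
  intro k k'
  have h5 := congrFun (congrFun h4 k) k'
  rw [Matrix.mul_apply] at h5
  change _ = Matrix.diagonal (fun k : L →ₐ[F] M => k φ) k k' at h5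
  rw [Matrix.diagonal_apply] at h5
  exact h5

/-- Clifford matrices permuted by the Galois group -/
theorem exists_clifford (hq : ∀ a : F, ∃ b, b * b = a) (h2 : (2 : F) ≠ 0)
    (hcard : Fintype.card (L →ₐ[F] M) = Module.finrank F L) (φ : Fin 4 → L) (hφ : ∀ j, φ j ≠ 0) :
    ∃ (s : Type) (_ : Fintype s) (_ : DecidableEq s) (E : Fin 4 → (L →ₐ[F] M) → Matrix s s M),
      Fintype.card s = 2 ^ (2 * Fintype.card (L →ₐ[F] M)) ∧
      (∀ j k, E j k * E j k = k (φ j) • (1 : Matrix s s M)) ∧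
      (∀ j k j' k', (j, k) ≠ (j', k') → E j k * E j' k' = -(E j' k' * E j k)) ∧
      ∀ (g : M ≃ₐ[F] M) j k, (E j k).map g = E j (ga g k) := by
  obtain ⟨i, hi⟩ := hq (-1)
  obtain ⟨s, i1, i2, Γ, h1, hsq, hac⟩ := hasCl hi (2 * Fintype.card (L →ₐ[F] M)) (Fin 4 × (L →ₐ[F] M)) (by
    rw [Fintype.card_prod, Fintype.card_fin]
    ring)
  choose lam hlam using fun j => exists_orthonormal (M := M) hq h2 hcard (φ j) (hφ j)
  let G : Fin 4 × (L →ₐ[F] M) → Matrix s s M := fun p => (Γ p).map (algebraMap F M)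
  have hGm : ∀ p q, (Γ p * Γ q).map (algebraMap F M) = G p * G q := fun p q => Matrix.map_mul
  have hG : ∀ p q, G p * G q + G q * G p = if p = q then (2 : M) • (1 : Matrix s s M) else 0 := by
    intro p q
    split_ifs with h
    · subst h
      rw [← hGm, hsq, Matrix.map_one _ (map_zero _) (map_one _), two_smul]
    · rw [← hGm, ← hGm, hac p q h]
      ext a b
      rw [Matrix.add_apply, Matrix.map_apply, Matrix.map_apply, Matrix.neg_apply, map_neg, neg_add_cancel]
      rfl
  let E : Fin 4 → (L →ₐ[F] M) → Matrix s s M := fun j k => ∑ l, k (lam j l) • G (j, l)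
  have h2M : (2 : M) ≠ 0 := two_ne_map (algebraMap F M) h2
  have key : ∀ j k j' k', E j k * E j' k' + E j' k' * E j k =
      if (j, k) = (j', k') then (2 * k (φ j)) • (1 : Matrix s s M) else 0 := by
    intro j k j' k'
    have e1 : E j k * E j' k' + E j' k' * E j k = ∑ l, ∑ l', (k (lam j l) * k' (lam j' l')) •
        (G (j, l) * G (j', l') + G (j', l') * G (j, l)) := by
      change (∑ l, k (lam j l) • G (j, l)) * (∑ l', k' (lam j' l') • G (j', l')) +
        (∑ l', k' (lam j' l') • G (j', l')) * (∑ l, k (lam j l) • G (j, l)) = _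
      rw [Finset.sum_mul_sum, Finset.sum_mul_sum, Finset.sum_comm (f := fun i i_1 => k' (lam j' i) • G (j', i) * k (lam j i_1) • G (j, i_1)),
        ← Finset.sum_add_distrib]
      refine Finset.sum_congr rfl fun l _ => ?_
      rw [← Finset.sum_add_distrib]
      refine Finset.sum_congr rfl fun l' _ => ?_
      rw [Matrix.smul_mul, Matrix.mul_smul, Matrix.smul_mul, Matrix.mul_smul, smul_smul, smul_smul, smul_add,
        mul_comm (k' (lam j' l'))]
    rw [e1]
    simp_rw [hG]
    by_cases hj : j = j'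
    · subst hj
      have e2 : ∀ l l', (k (lam j l) * k' (lam j l')) • (if (j, l) = (j, l') then (2 : M) • (1 : Matrix s s M) else 0) =
          if l = l' then (k (lam j l) * k' (lam j l') * 2) • (1 : Matrix s s M) else 0 := by
        intro l l'
        by_cases hl : l = l'
        · subst hl
          rw [if_pos rfl, if_pos rfl, smul_smul]
        · rw [if_neg (fun h => hl (congrArg Prod.snd h)), if_neg hl, smul_zero]
      simp_rw [e2]
      simp only [Finset.sum_ite_eq, Finset.mem_univ, if_true]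
      rw [← Finset.sum_smul, ← Finset.sum_mul, hlam]
      by_cases hk : k = k'
      · subst hk
        rw [if_pos rfl, if_pos rfl, mul_comm]
      · rw [if_neg hk, if_neg (fun h => hk (congrArg Prod.snd h)), zero_mul, zero_smul]
    · rw [if_neg (fun h => hj (congrArg Prod.fst h))]
      refine Finset.sum_eq_zero fun l _ => Finset.sum_eq_zero fun l' _ => ?_
      rw [if_neg (fun h => hj (congrArg Prod.fst h)), smul_zero]
  refine ⟨s, i1, i2, E, h1, ?_, ?_, ?_⟩
  · intro j k
    have h3 := key j k j k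
    rw [if_pos rfl, ← two_smul M, ← smul_smul] at h3
    exact smul_right_injective _ h2M h3
  · intro j k j' k' h
    have h3 := key j k j' k'
    rw [if_neg h] at h3
    exact eq_neg_of_add_eq_zero_left h3
  · intro g j k
    change (∑ l, k (lam j l) • G (j, l)).map g = ∑ l, (ga g k) (lam j l) • G (j, l)
    ext a b
    rw [Matrix.map_apply, Matrix.sum_apply, Matrix.sum_apply, map_sum]
    refine Finset.sum_congr rfl fun l _ => ?_
    rw [Matrix.smul_apply, Matrix.smul_apply, smul_eq_mul, smul_eq_mul, map_mul, ga_apply]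
    congr 1
    exact g.commutes _

end basis

end Pool.Agent.H403.M
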