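import Mathlib
import Pool.Agent.H403.M.N5

/-! # Joint eigenspaces and the line of a quaternion algebra (helper403) -/

set_option autoImplicit false
set_option linter.all false

noncomputable section

namespace Pool.Agent.H403.M

open scoped TensorProduct Kronecker
open Pool.Agent.TH132.W Pool.Agent.Y64.Cyc Pool.Agent.Helper18.Br Pool.Agent.H552R3.SymBr

section joint

variable {M : Type} [Field M] {V : Type} [AddCommGroup V] [Module M V] [FiniteDimensional M V]
  {J : Type} [Fintype J] [DecidableEq J] (p q : J → Module.End M V)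

/-- joint fixed vectors -/
def jfix (S : Finset J) : Submodule M V where
  carrier := {v | ∀ j ∈ S, p j v = v}
  add_mem' := fun {a b} ha hb j hj => by rw [map_add, ha j hj, hb j hj]
  zero_mem' := fun j _ => map_zero _
  smul_mem' := fun c v hv j hj => by rw [map_smul, hv j hj]

theorem joint_dim (h2 : (2 : M) ≠ 0) (hp : ∀ j, p j * p j = 1) (hcomm : ∀ i j, p i * p j = p j * p i)
    (q' : J → Module.End M V) (hq : ∀ j, q' j * q j = 1) (hqp : ∀ j, q j * p j = -(p j * q j))
    (hqp' : ∀ i j, i ≠ j → q j * p i = p i * q j) (S : Finset J) :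
    Module.finrank M (jfix p S) * 2 ^ S.card = Module.finrank M V := by
  induction S using Finset.induction_on with
  | empty =>
    have h1 : jfix p ∅ = ⊤ := by
      rw [eq_top_iff]
      rintro v -
      intro j hj
      exact absurd hj (Finset.notMem_empty j)
    rw [h1, finrank_top, Finset.card_empty, pow_zero, mul_one]
  | insert j S hj ih =>
    let W1 := jfix p (insert j S)
    let W2 : Submodule M V := W1.map (q j)
    have hinj : Function.Injective (q j) := by
      intro v w hvw
      have h1 : q' j (q j v) = q' j (q j w) := by rw [hvw]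
      have h3 : ∀ v, q' j (q j v) = v := fun v => LinearMap.congr_fun (hq j) v
      rwa [h3, h3] at h1
    have hpp : ∀ v, p j (p j v) = v := fun v => LinearMap.congr_fun (hp j) v
    have hqpv : ∀ v, q j (p j v) = -(p j (q j v)) := fun v => LinearMap.congr_fun (hqp j) v
    have hqpv' : ∀ i, i ≠ j → ∀ v, q j (p i v) = p i (q j v) := fun i hi v => LinearMap.congr_fun (hqp' i j hi) v
    have hcv : ∀ i v, p i (p j v) = p j (p i v) := fun i v => LinearMap.congr_fun (hcomm i j) v
    have hW1 : ∀ v, v ∈ W1 ↔ p j v = v ∧ v ∈ jfix p S := by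
      intro v
      constructor
      · intro h
        exact ⟨h j (Finset.mem_insert_self j S), fun i hi => h i (Finset.mem_insert_of_mem hi)⟩
      · rintro ⟨h1, h3⟩ i hi
        rcases Finset.mem_insert.1 hi with rfl | hi
        · exact h1
        · exact h3 i hi
    have hW2 : ∀ v, v ∈ W2 ↔ p j v = -v ∧ v ∈ jfix p S := by
      intro v
      constructor
      · rintro ⟨u, hu, rfl⟩
        obtain ⟨h1, h3⟩ := (hW1 u).1 hu
        refine ⟨?_, ?_⟩
        · have h4 := hqpv u
          rw [h1] at h4
          exact neg_eq_iff_eq_neg.1 h4.symm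
        · intro i hi
          have hij : i ≠ j := fun h => hj (h ▸ hi)
          rw [← hqpv' i hij, h3 i hi]
      · rintro ⟨h1, h3⟩
        -- v = q j (q' j v)
        have hsurj : Function.Surjective (q j) := LinearMap.injective_iff_surjective.1 hinj
        obtain ⟨u, rfl⟩ := hsurj v
        refine ⟨u, (hW1 u).2 ⟨?_, ?_⟩, rfl⟩
        · apply hinj
          rw [hqpv, h1, neg_neg]
        · intro i hi
          have hij : i ≠ j := fun h => hj (h ▸ hi)
          apply hinj
          rw [hqpv' i hij, h3 i hi]
    have hsup : W1 ⊔ W2 = jfix p S := by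
      apply le_antisymm
      · refine sup_le (fun v hv => ((hW1 v).1 hv).2) (fun v hv => ((hW2 v).1 hv).2)
      · intro v hv
        have hpv : p j v ∈ jfix p S := by
          intro i hi
          rw [hcv, hv i hi]
        have e : v = (2 : M)⁻¹ • (v + p j v) + (2 : M)⁻¹ • (v - p j v) := by
          rw [← smul_add, add_add_sub_cancel, ← two_smul M, smul_smul, inv_mul_cancel₀ h2, one_smul]
        rw [e]
        refine Submodule.add_mem_sup ?_ ?_
        · apply Submodule.smul_mem
          rw [hW1]
          refine ⟨by rw [map_add, hpp, add_comm], Submodule.add_mem _ hv hpv⟩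
        · apply Submodule.smul_mem
          rw [hW2]
          refine ⟨by rw [map_sub, hpp, neg_sub], Submodule.sub_mem _ hv hpv⟩
    have hinf : W1 ⊓ W2 = ⊥ := by
      rw [eq_bot_iff]
      rintro v ⟨hv1, hv2⟩
      have h1 := ((hW1 v).1 hv1).1
      have h3 := ((hW2 v).1 hv2).1
      rw [h1] at h3
      have h4 : (2 : M) • v = 0 := by
        rw [two_smul]
        nth_rewrite 1 [h3]
        rw [neg_add_cancel]
      exact (smul_eq_zero.1 h4).resolve_left h2
    have hd := Submodule.finrank_sup_add_finrank_inf_eq W1 W2
    rw [hsup, hinf, finrank_bot, add_zero] at hd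
    have hW2d : Module.finrank M W2 = Module.finrank M W1 :=
      (Submodule.equivMapOfInjective (q j) hinj W1).finrank_eq.symm
    rw [hW2d] at hd
    rw [Finset.card_insert_of_notMem hj, ← ih, hd, pow_succ]
    change Module.finrank M W1 * _ = _
    ring

end joint

section ac

variable {R : Type} [Ring R]

/-- anticommuting elements -/
def AC (x y : R) : Prop := x * y = -(y * x)

theorem AC.symm {x y : R} (h : AC x y) : AC y x := by
  unfold AC at *
  rw [h, neg_neg]

theorem AC.mul {x y z : R} (h : AC x y) (h' : AC x z) : Commute x (y * z) := by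
  unfold AC at *
  rw [Commute, SemiconjBy, ← mul_assoc, h, neg_mul, mul_assoc, h', mul_neg, neg_neg, mul_assoc]

theorem AC.mul_comm {x y z : R} (h : AC x y) (h' : Commute x z) : AC x (y * z) := by
  unfold AC at *
  rw [← mul_assoc, h, neg_mul, mul_assoc, h'.eq, mul_assoc]

theorem AC.comm_mul {x y z : R} (h : Commute x y) (h' : AC x z) : AC x (y * z) := by
  unfold AC at *
  rw [← mul_assoc, h.eq, mul_assoc, h', mul_neg, mul_assoc]

end ac

end Pool.Agent.H403.M
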