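import Mathlib
import Pool.Agent.H403.M.N6

/-! # The spinor line of a quaternion algebra (helper403) -/

set_option autoImplicit false
set_option linter.all false

noncomputable section

namespace Pool.Agent.H403.M

open scoped TensorProduct Kronecker
open Pool.Agent.TH132.W Pool.Agent.Y64.Cyc Pool.Agent.Helper18.Br Pool.Agent.H552R3.SymBr

variable {F L M : Type} [Field F] [Field L] [Field M] [Algebra F L] [Algebra F M] [FiniteDimensional F L]
  [FiniteDimensional F M] [IsGalois F M] [DecidableEq (L →ₐ[F] M)]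

theorem exists_line (hq : ∀ a : F, ∃ b, b * b = a) (h2 : (2 : F) ≠ 0)
    (hcard : Fintype.card (L →ₐ[F] M) = Module.finrank F L) (a b : L) (ha : a ≠ 0) (hb : b ≠ 0)
    (A : (L →ₐ[F] M) → M) (hA : ∀ k, A k * A k = k a) :
    ∃ (s : Type) (_ : Fintype s) (_ : DecidableEq s) (ξ η ω : (L →ₐ[F] M) → Matrix s s M) (v0 : s → M),
      (∀ (g : M ≃ₐ[F] M) k, (ξ k).map g = ξ (ga g k)) ∧ (∀ (g : M ≃ₐ[F] M) k, (η k).map g = η (ga g k)) ∧
      (∀ (g : M ≃ₐ[F] M) k, (ω k).map g = ω (ga g k)) ∧ (∀ k, η k * η k = k b • (1 : Matrix s s M)) ∧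
      (∀ k, AC (η k) (ξ k)) ∧ (∀ k k', k ≠ k' → Commute (η k) (ξ k')) ∧ (∀ k k', Commute (η k) (η k')) ∧
      (∀ k k', Commute (η k) (ω k')) ∧ v0 ≠ 0 ∧ (∀ k, (ξ k).mulVec v0 = A k • v0) ∧ (∀ k, (ω k).mulVec v0 = v0) ∧
      ∀ w : s → M, (∀ k, (ξ k).mulVec w = A k • w) → (∀ k, (ω k).mulVec w = w) → ∃ c : M, w = c • v0 := by
  have hab : -(a * b)⁻¹ ≠ 0 := neg_ne_zero.2 (inv_ne_zero (mul_ne_zero ha hb))
  obtain ⟨s, i1, i2, E, hs, hE2, hEac, hEg⟩ := exists_clifford (M := M) hq h2 hcard ![-1, a, b, -(a * b)⁻¹] (by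
    intro j
    fin_cases j
    · exact neg_ne_zero.2 one_ne_zero
    · exact ha
    · exact hb
    · exact hab)
  have hac : ∀ {j k j' k'}, (j, k) ≠ (j', k') → AC (E j k) (E j' k') := fun h => hEac _ _ _ _ h
  have acj : ∀ {j j' : Fin 4} (k : L →ₐ[F] M), j ≠ j' → AC (E j k) (E j' k) := fun k h => hac (fun h' => h (congrArg Prod.fst h'))
  have ack : ∀ (j j' : Fin 4) {k k' : L →ₐ[F] M}, k ≠ k' → AC (E j k) (E j' k') := fun j j' _ _ h => hac (fun h' => h (congrArg Prod.snd h'))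
  have e0 : ∀ k, E 0 k * E 0 k = (-1 : M) • (1 : Matrix s s M) := by
    intro k
    rw [hE2]
    change k (-1) • (1 : Matrix s s M) = _
    rw [map_neg, map_one]
  have e1 : ∀ k : L →ₐ[F] M, E 1 k * E 1 k = k a • (1 : Matrix s s M) := fun k => hE2 1 k
  have e2 : ∀ k : L →ₐ[F] M, E 2 k * E 2 k = k b • (1 : Matrix s s M) := fun k => hE2 2 k
  have e3 : ∀ k : L →ₐ[F] M, E 3 k * E 3 k = k (-(a * b)⁻¹) • (1 : Matrix s s M) := fun k => hE2 3 k
  have hka : ∀ k : L →ₐ[F] M, k a ≠ 0 := fun k => (map_ne_zero k).2 ha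
  have hkb : ∀ k : L →ₐ[F] M, k b ≠ 0 := fun k => (map_ne_zero k).2 hb
  have hkab : ∀ k : L →ₐ[F] M, k (-(a * b)⁻¹) ≠ 0 := fun k => (map_ne_zero k).2 hab
  have hA0 : ∀ k, A k ≠ 0 := by
    intro k h0
    apply hka k
    rw [← hA, h0, mul_zero]
  let ξ : (L →ₐ[F] M) → Matrix s s M := fun k => E 0 k * E 1 k
  let η : (L →ₐ[F] M) → Matrix s s M := fun k => E 0 k * E 2 k
  let θ : (L →ₐ[F] M) → Matrix s s M := fun k => E 2 k * E 3 k
  let ω : (L →ₐ[F] M) → Matrix s s M := fun k => (E 0 k * E 1 k) * (E 2 k * E 3 k)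
  -- product of two anticommuting elements squared
  have hsq : ∀ x y : Matrix s s M, AC x y → (x * y) * (x * y) = -((x * x) * (y * y)) := by
    intro x y h
    have h' : y * x = -(x * y) := h.symm
    calc (x * y) * (x * y) = x * (y * x) * y := by simp only [mul_assoc]
      _ = -((x * x) * (y * y)) := by rw [h', mul_neg, neg_mul]; simp only [mul_assoc]
  have hξ2 : ∀ k, ξ k * ξ k = k a • (1 : Matrix s s M) := by
    intro k
    change (E 0 k * E 1 k) * (E 0 k * E 1 k) = _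
    rw [hsq _ _ (acj k (by decide)), e0, e1, Matrix.smul_mul, one_mul, smul_smul, neg_one_mul, neg_smul, neg_neg]
  have hη2 : ∀ k, η k * η k = k b • (1 : Matrix s s M) := by
    intro k
    change (E 0 k * E 2 k) * (E 0 k * E 2 k) = _
    rw [hsq _ _ (acj k (by decide)), e0, e2, Matrix.smul_mul, one_mul, smul_smul, neg_one_mul, neg_smul, neg_neg]
  have hθ2 : ∀ k, θ k * θ k = (k a)⁻¹ • (1 : Matrix s s M) := by
    intro k
    change (E 2 k * E 3 k) * (E 2 k * E 3 k) = _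
    rw [hsq _ _ (acj k (by decide)), e2, e3, Matrix.smul_mul, one_mul, smul_smul, ← neg_smul]
    congr 1
    rw [map_neg, map_inv₀, map_mul]
    field_simp [hka k, hkb k]
  -- commutation of a generator with pairs
  have cp : ∀ (j j1 j2 : Fin 4) {k k' : L →ₐ[F] M}, k ≠ k' → Commute (E j k) (E j1 k' * E j2 k') :=
    fun j j1 j2 _ _ h => (ack j j1 h).mul (ack j j2 h)
  have cpp : ∀ (i1 i2 j1 j2 : Fin 4) {k k' : L →ₐ[F] M}, k ≠ k' → Commute (E i1 k * E i2 k) (E j1 k' * E j2 k') :=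
    fun i1 i2 j1 j2 _ _ h => (cp i1 j1 j2 h).mul_left (cp i2 j1 j2 h)
  -- at the same embedding
  have hξη : ∀ k, AC (η k) (ξ k) := fun k => by
    have h1 : AC (E 0 k) (E 0 k * E 2 k) := AC.comm_mul (Commute.refl _) (acj k (by decide))
    have h3 : Commute (E 1 k) (E 0 k * E 2 k) := (acj k (by decide)).mul (acj k (by decide))
    exact h1.symm.mul_comm h3.symm
  have hξθ : ∀ k, Commute (ξ k) (θ k) := fun k => by
    have h1 : Commute (E 0 k) (E 2 k * E 3 k) := (acj k (by decide)).mul (acj k (by decide))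
    have h3 : Commute (E 1 k) (E 2 k * E 3 k) := (acj k (by decide)).mul (acj k (by decide))
    exact h1.mul_left h3
  have hηω : ∀ k, Commute (η k) (ω k) := fun k => by
    have h1 : AC (η k) (E 0 k * E 1 k) := hξη k
    have h3 : AC (E 2 k) (E 0 k * E 2 k) := AC.mul_comm (acj k (by decide)) (Commute.refl _)
    have h4 : Commute (E 3 k) (E 0 k * E 2 k) := (acj k (by decide)).mul (acj k (by decide))
    exact h1.mul (h3.symm.mul_comm h4.symm)
  have hξω : ∀ k, Commute (ξ k) (ω k) := fun k => (Commute.refl (ξ k)).mul_right (hξθ k)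
  have hω2 : ∀ k, ω k * ω k = 1 := by
    intro k
    change (ξ k * θ k) * (ξ k * θ k) = 1
    have h1 : (ξ k * θ k) * (ξ k * θ k) = (ξ k * ξ k) * (θ k * θ k) := by
      rw [mul_assoc, ← mul_assoc (θ k), ← (hξθ k).eq]
      simp only [mul_assoc]
    rw [h1, hξ2, hθ2, Matrix.smul_mul, one_mul, smul_smul, mul_inv_cancel₀ (hka k), one_smul]
  have h3ξ : ∀ k, Commute (E 3 k) (ξ k) := fun k => (acj k (by decide)).mul (acj k (by decide))
  have h3ω : ∀ k, AC (E 3 k) (ω k) := fun k => AC.comm_mul (h3ξ k) (AC.mul_comm (acj k (by decide)) (Commute.refl _))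
  -- different embeddings
  have dηξ : ∀ {k k' : L →ₐ[F] M}, k ≠ k' → Commute (η k) (ξ k') := fun h => cpp _ _ _ _ h
  have dηω : ∀ {k k' : L →ₐ[F] M}, k ≠ k' → Commute (η k) (ω k') := fun h => (cpp _ _ _ _ h).mul_right (cpp _ _ _ _ h)
  have dξω : ∀ {k k' : L →ₐ[F] M}, k ≠ k' → Commute (ξ k) (ω k') := fun h => (cpp _ _ _ _ h).mul_right (cpp _ _ _ _ h)
  have dωω : ∀ {k k' : L →ₐ[F] M}, k ≠ k' → Commute (ω k) (ω k') := fun h =>
    ((cpp _ _ _ _ h).mul_right (cpp _ _ _ _ h)).mul_left ((cpp _ _ _ _ h).mul_right (cpp _ _ _ _ h))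
  have cηη : ∀ k k', Commute (η k) (η k') := by
    intro k k'
    by_cases h : k = k'
    · subst h
      exact Commute.refl _
    · exact cpp _ _ _ _ h
  have cξξ : ∀ k k', Commute (ξ k) (ξ k') := by
    intro k k'
    by_cases h : k = k'
    · subst h
      exact Commute.refl _
    · exact cpp _ _ _ _ h
  have cηω : ∀ k k', Commute (η k) (ω k') := by
    intro k k'
    by_cases h : k = k'
    · subst h
      exact hηω k
    · exact dηω h
  have cξω : ∀ k k', Commute (ξ k) (ω k') := by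
    intro k k'
    by_cases h : k = k'
    · subst h
      exact hξω k
    · exact dξω h
  have cωω : ∀ k k', Commute (ω k) (ω k') := by
    intro k k'
    by_cases h : k = k'
    · subst h
      exact Commute.refl _
    · exact dωω h
  let T : Matrix s s M ≃ₐ[M] Module.End M (s → M) := Matrix.toLinAlgEquiv'
  let pm : (L →ₐ[F] M) × Bool → Matrix s s M := fun p => if p.2 then ω p.1 else (A p.1)⁻¹ • ξ p.1
  let qm : (L →ₐ[F] M) × Bool → Matrix s s M := fun p => if p.2 then E 3 p.1 else η p.1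
  let qm' : (L →ₐ[F] M) × Bool → Matrix s s M := fun p => if p.2 then (p.1 (-(a * b)⁻¹))⁻¹ • E 3 p.1 else (p.1 b)⁻¹ • η p.1
  have hpm : ∀ p, pm p * pm p = 1 := by
    rintro ⟨k, _ | _⟩
    · change ((A k)⁻¹ • ξ k) * ((A k)⁻¹ • ξ k) = 1
      rw [Matrix.smul_mul, Matrix.mul_smul, smul_smul, hξ2, smul_smul, ← hA]
      have : (A k)⁻¹ * (A k)⁻¹ * (A k * A k) = 1 := by
        field_simp [hA0 k]
      rw [this, one_smul]
    · exact hω2 k
  have hpc : ∀ p p', pm p * pm p' = pm p' * pm p := by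
    rintro ⟨k, _ | _⟩ ⟨k', _ | _⟩
    · exact (((cξξ k k').smul_left _).smul_right _).eq
    · exact ((cξω k k').smul_left _).eq
    · exact ((cξω k' k).symm.smul_right _).eq
    · exact (cωω k k').eq
  have hqm : ∀ p, qm' p * qm p = 1 := by
    rintro ⟨k, _ | _⟩
    · change ((k b)⁻¹ • η k) * η k = 1
      rw [Matrix.smul_mul, hη2, smul_smul, inv_mul_cancel₀ (hkb k), one_smul]
    · change ((k (-(a * b)⁻¹))⁻¹ • E 3 k) * E 3 k = 1
      rw [Matrix.smul_mul, e3, smul_smul, inv_mul_cancel₀ (hkab k), one_smul]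
  have hqp : ∀ p, qm p * pm p = -(pm p * qm p) := by
    rintro ⟨k, _ | _⟩
    · change η k * ((A k)⁻¹ • ξ k) = -(((A k)⁻¹ • ξ k) * η k)
      rw [Matrix.mul_smul, Matrix.smul_mul, show η k * ξ k = -(ξ k * η k) from hξη k, smul_neg]
    · exact h3ω k
  have hqp' : ∀ p p', p ≠ p' → qm p' * pm p = pm p * qm p' := by
    rintro ⟨k, _ | _⟩ ⟨k', _ | _⟩ h
    · have hk : k' ≠ k := fun h' => h (by rw [h'])
      exact ((dηξ hk).smul_right _).eq
    · by_cases hk : k' = k
      · subst hk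
        exact ((h3ξ k').smul_right _).eq
      · exact ((cp 3 0 1 hk).smul_right _).eq
    · exact (cηω k' k).eq
    · have hk : k' ≠ k := fun h' => h (by rw [h'])
      exact ((cp 3 0 1 hk).mul_right (cp 3 2 3 hk)).eq
  have h2M : (2 : M) ≠ 0 := two_ne_map (algebraMap F M) h2
  have hdim := joint_dim (fun p => T (pm p)) (fun p => T (qm p)) h2M
    (fun p => by rw [← map_mul, hpm, map_one]) (fun p p' => by rw [← map_mul, hpc, map_mul]) (fun p => T (qm' p))
    (fun p => by rw [← map_mul, hqm, map_one]) (fun p => by rw [← map_mul, hqp, map_neg, map_mul])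
    (fun p p' h => by rw [← map_mul, hqp' p p' h, map_mul]) Finset.univ
  have hfr : Module.finrank M (jfix (fun p => T (pm p)) Finset.univ) = 1 := by
    rw [Module.finrank_fintype_fun_eq_card, hs, Finset.card_univ, Fintype.card_prod, Fintype.card_bool, mul_comm _ 2] at hdim
    exact Nat.eq_of_mul_eq_mul_right (pow_pos two_pos _) (hdim.trans (one_mul _).symm)
  have hmem : ∀ w : s → M, w ∈ jfix (fun p => T (pm p)) Finset.univ ↔ (∀ k, (ξ k).mulVec w = A k • w) ∧ ∀ k, (ω k).mulVec w = w := by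
    intro w
    constructor
    · intro hw
      refine ⟨fun k => ?_, fun k => ?_⟩
      · have h1 : ((A k)⁻¹ • ξ k).mulVec w = w := hw (k, false) (Finset.mem_univ _)
        rw [Matrix.smul_mulVec] at h1
        conv_rhs => rw [← h1]
        rw [smul_smul, mul_inv_cancel₀ (hA0 k), one_smul]
      · exact hw (k, true) (Finset.mem_univ _)
    · rintro ⟨h1, h3⟩ ⟨k, _ | _⟩ -
      · change ((A k)⁻¹ • ξ k).mulVec w = w
        rw [Matrix.smul_mulVec, h1, smul_smul, inv_mul_cancel₀ (hA0 k), one_smul]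
      · exact h3 k
  obtain ⟨⟨v0, hv0⟩, hv0n, hv0u⟩ := finrank_eq_one_iff'.1 hfr
  obtain ⟨hv1, hv2⟩ := (hmem v0).1 hv0
  refine ⟨s, i1, i2, ξ, η, ω, v0, ?_, ?_, ?_, hη2, hξη, fun k k' h => dηξ h, cηη, cηω, ?_, hv1, hv2, ?_⟩
  · intro g k
    change (E 0 k * E 1 k).map g = E 0 (ga g k) * E 1 (ga g k)
    rw [map_gmul, hEg, hEg]
  · intro g k
    change (E 0 k * E 2 k).map g = E 0 (ga g k) * E 2 (ga g k)
    rw [map_gmul, hEg, hEg]
  · intro g k
    change (E 0 k * E 1 k * (E 2 k * E 3 k)).map g = E 0 (ga g k) * E 1 (ga g k) * (E 2 (ga g k) * E 3 (ga g k))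
    rw [map_gmul, map_gmul, map_gmul, hEg, hEg, hEg, hEg]
  · intro h0
    exact hv0n (Subtype.ext h0)
  · intro w h1 h3
    obtain ⟨c, hc⟩ := hv0u ⟨w, (hmem w).2 ⟨h1, h3⟩⟩
    exact ⟨c, (congrArg Subtype.val hc).symm⟩

end Pool.Agent.H403.M
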