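import Mathlib
import Pool.Agent.H403.M.N7

/-! # The norm of a quaternion algebra over a quadratically closed field (helper403) -/

set_option autoImplicit false
set_option linter.all false

noncomputable section

namespace Pool.Agent.H403.M

open scoped TensorProduct Kronecker
open Pool.Agent.TH132.W Pool.Agent.Y64.Cyc Pool.Agent.Helper18.Br Pool.Agent.H552R3.SymBr Pool.Agent.Helper346.Bra

section i2

/-- the homomorphism from `ℤˣ` given by an involution -/
def i2 {R : Type} [Monoid R] (z : R) (hz : z * z = 1) : ℤˣ →* R where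
  toFun u := if u = 1 then 1 else z
  map_one' := if_pos rfl
  map_mul' u v := by
    rcases Int.units_eq_one_or u with rfl | rfl <;> rcases Int.units_eq_one_or v with rfl | rfl <;> simp [hz]

theorem i2_neg {R : Type} [Monoid R] (z : R) (hz : z * z = 1) : i2 z hz (-1) = z := by
  change (if (-1 : ℤˣ) = 1 then (1 : R) else z) = z
  rw [if_neg (by decide)]

/-- the sign in a field -/
def sgn (M : Type) [Field M] : ℤˣ →* M := (Int.castRingHom M : ℤ →* M).comp (Units.coeHom ℤ)

theorem sgn_neg (M : Type) [Field M] : sgn M (-1) = -1 := by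
  change ((((-1 : ℤˣ) : ℤ)) : M) = -1
  push_cast
  ring

theorem sgn_sq (M : Type) [Field M] (u : ℤˣ) : sgn M u * sgn M u = 1 := by
  rw [← map_mul, Int.units_mul_self, map_one]

theorem sgn_inj {M : Type} [Field M] (h2 : (2 : M) ≠ 0) {u v : ℤˣ} (h : sgn M u = sgn M v) : u = v := by
  rcases Int.units_eq_one_or u with rfl | rfl <;> rcases Int.units_eq_one_or v with rfl | rfl
  · rfl
  · rw [sgn_neg, map_one] at h
    exact absurd (by linear_combination h : (2 : M) = 0) h2
  · rw [sgn_neg, map_one] at h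
    exact absurd (by linear_combination -h : (2 : M) = 0) h2
  · rfl

theorem sgn_fix {F M : Type} [Field F] [Field M] [Algebra F M] (g : M ≃ₐ[F] M) (u : ℤˣ) : g (sgn M u) = sgn M u := by
  change g ((((u : ℤˣ) : ℤ)) : M) = (((u : ℤˣ) : ℤ) : M)
  exact map_intCast g _

/-- the pairing of signs -/
def prg (M : Type) [Field M] (t : ℤˣ) : ℤˣ →* M := i2 (sgn M t) (sgn_sq M t)

end i2

variable {F L M : Type} [Field F] [Field L] [Field M] [Algebra F L] [Algebra F M]

theorem exists_sgn (a : L) (A : (L →ₐ[F] M) → M) (hA : ∀ k, A k * A k = k a) (g : M ≃ₐ[F] M) (k : L →ₐ[F] M) :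
    ∃ u : ℤˣ, g (A k) = sgn M u * A (ga g k) := by
  have h1 : g (A k) * g (A k) = A (ga g k) * A (ga g k) := by
    rw [← map_mul, hA, hA]
    rfl
  rcases mul_self_eq_mul_self_iff.1 h1 with h | h
  · exact ⟨1, by rw [map_one, one_mul, h]⟩
  · exact ⟨-1, by rw [sgn_neg, neg_one_mul, h]⟩

theorem sgn_cocycle (h2 : (2 : M) ≠ 0) (A : (L →ₐ[F] M) → M) (hA0 : ∀ k, A k ≠ 0)
    (σ : (M ≃ₐ[F] M) → (L →ₐ[F] M) → ℤˣ) (hσ : ∀ g k, g (A k) = sgn M (σ g k) * A (ga g k)) (g h : M ≃ₐ[F] M)
    (k : L →ₐ[F] M) : σ (g * h) k = σ g (ga h k) * σ h k := by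
  apply sgn_inj h2
  have h1 : (g * h) (A k) = g (h (A k)) := rfl
  rw [hσ, hσ h, map_mul, sgn_fix, hσ g, ga_mul, ← mul_assoc] at h1
  have h3 := mul_right_cancel₀ (hA0 _) h1
  rw [h3, map_mul, mul_comm]

section quat

variable (h2 : (2 : L) ≠ 0) (a b : Lˣ)

/-- the matrices `diag(1,-1)` and the swap -/
def pZ (M : Type) [Field M] : Matrix (Fin 2) (Fin 2) M := !![1, 0; 0, -1]
def pX (M : Type) [Field M] : Matrix (Fin 2) (Fin 2) M := !![0, 1; 1, 0]

theorem pZ_sq (M : Type) [Field M] : pZ M * pZ M = 1 := by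
  ext a b
  fin_cases a <;> fin_cases b <;> simp [pZ, Matrix.mul_apply, Fin.sum_univ_two]

theorem pX_sq (M : Type) [Field M] : pX M * pX M = 1 := by
  ext a b
  fin_cases a <;> fin_cases b <;> simp [pX, Matrix.mul_apply, Fin.sum_univ_two]

theorem pXZ (M : Type) [Field M] : pX M * pZ M = -(pZ M * pX M) := by
  ext a b
  fin_cases a <;> fin_cases b <;> simp [pZ, pX, Matrix.mul_apply, Fin.sum_univ_two]

/-- `X^σ Z^τ` -/
def pP (M : Type) [Field M] (u t : ℤˣ) : Matrix (Fin 2) (Fin 2) M := i2 (pX M) (pX_sq M) u * i2 (pZ M) (pZ_sq M) t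

theorem pZ_pP (u t : ℤˣ) : pZ M * pP M u t = sgn M u • (pP M u t * pZ M) := by
  unfold pP
  rcases Int.units_eq_one_or u with rfl | rfl <;> rcases Int.units_eq_one_or t with rfl | rfl
  · rw [map_one, map_one, map_one, mul_one, mul_one, one_mul, one_smul]
  · rw [map_one, i2_neg, map_one, one_mul, one_smul]
  · rw [map_one, i2_neg, sgn_neg, mul_one, pXZ, neg_smul, one_smul, neg_neg]
  · rw [i2_neg, i2_neg, sgn_neg, neg_smul, one_smul, ← mul_assoc (pZ M), show pZ M * pX M = -(pX M * pZ M) by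
      rw [pXZ, neg_neg], neg_mul]

theorem pX_pP (u t : ℤˣ) : pX M * pP M u t = sgn M t • (pP M u t * pX M) := by
  unfold pP
  rcases Int.units_eq_one_or u with rfl | rfl <;> rcases Int.units_eq_one_or t with rfl | rfl
  · rw [map_one, map_one, map_one, mul_one, mul_one, one_mul, one_smul]
  · rw [map_one, i2_neg, sgn_neg, one_mul, neg_smul, one_smul, pXZ]
  · rw [map_one, i2_neg, map_one, mul_one, one_smul]
  · rw [i2_neg, i2_neg, sgn_neg, neg_smul, one_smul, mul_assoc, ← mul_neg, ← pXZ]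

theorem pP_mul (u t u' t' : ℤˣ) : pP M u t * pP M u' t' = prg M t u' • pP M (u * u') (t * t') := by
  have key : i2 (pZ M) (pZ_sq M) t * i2 (pX M) (pX_sq M) u' = prg M t u' • (i2 (pX M) (pX_sq M) u' * i2 (pZ M) (pZ_sq M) t) := by
    unfold prg
    rcases Int.units_eq_one_or u' with rfl | rfl <;> rcases Int.units_eq_one_or t with rfl | rfl
    · rw [map_one, map_one, map_one, one_smul]
    · rw [map_one, map_one, one_smul, mul_one, one_mul]
    · rw [map_one, i2_neg, i2_neg, map_one, one_smul, mul_one, one_mul]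
    · rw [i2_neg, i2_neg, i2_neg, sgn_neg, neg_smul, one_smul, pXZ, neg_neg]
  unfold pP
  rw [map_mul, map_mul]
  calc _ = i2 (pX M) (pX_sq M) u * (i2 (pZ M) (pZ_sq M) t * i2 (pX M) (pX_sq M) u') * i2 (pZ M) (pZ_sq M) t' := by
        simp only [mul_assoc]
    _ = _ := by
        rw [key, Matrix.mul_smul, Matrix.smul_mul]
        simp only [mul_assoc]

theorem pP_inv (u t : ℤˣ) : pP M u t * (prg M t u • pP M u t) = 1 := by
  rw [Matrix.mul_smul, pP_mul, smul_smul, Int.units_mul_self, Int.units_mul_self]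
  unfold pP
  rw [map_one, map_one, mul_one, ← map_mul, Int.units_mul_self, map_one, one_smul] <;> rfl

theorem pP_map (g : M ≃ₐ[F] M) (u t : ℤˣ) : (pP M u t).map g = pP M u t := by
  have hX : (pX M).map g = pX M := by
    ext a b
    fin_cases a <;> fin_cases b <;> simp [pX]
  have hZ : (pZ M).map g = pZ M := by
    ext a b
    fin_cases a <;> fin_cases b <;> simp [pZ]
  unfold pP
  rw [map_gmul]
  rcases Int.units_eq_one_or u with rfl | rfl <;> rcases Int.units_eq_one_or t with rfl | rfl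
  · rw [map_one, map_one, map_one_g]
  · rw [map_one, i2_neg, map_one_g, hZ]
  · rw [map_one, i2_neg, map_one_g, hX]
  · rw [i2_neg, i2_neg, hX, hZ]

/-- the representation of a quaternion algebra -/
def quatRep (a b : L) (k : L →+* M) (x y : M) (hx : x * x = k a) (hy : y * y = k b) :
    Symb L 2 (-1) a b →+* Matrix (Fin 2) (Fin 2) M :=
  letI : Algebra L M := k.toAlgebra
  (symLift (x • pZ M) (y • pX M) (by
    rw [sq, Matrix.smul_mul, Matrix.mul_smul, smul_smul, pZ_sq, hx, ← Algebra.algebraMap_eq_smul_one]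
    rfl) (by
    rw [sq, Matrix.smul_mul, Matrix.mul_smul, smul_smul, pX_sq, hy, ← Algebra.algebraMap_eq_smul_one]
    rfl) (by
    rw [map_neg, map_one, neg_one_mul, Matrix.smul_mul, Matrix.mul_smul, Matrix.smul_mul, Matrix.mul_smul, pXZ, smul_neg,
      smul_neg, smul_smul, smul_smul, mul_comm x y]) : Symb L 2 (-1) a b →ₐ[L] Matrix (Fin 2) (Fin 2) M).toRingHom

theorem quatRep_x (a b : L) (k : L →+* M) (x y : M) (hx : x * x = k a) (hy : y * y = k b) :
    quatRep a b k x y hx hy (gx L 2 (-1) a b) = x • pZ M := by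
  letI : Algebra L M := k.toAlgebra
  exact symLift_x _ _ _ _ _

theorem quatRep_y (a b : L) (k : L →+* M) (x y : M) (hx : x * x = k a) (hy : y * y = k b) :
    quatRep a b k x y hx hy (gy L 2 (-1) a b) = y • pX M := by
  letI : Algebra L M := k.toAlgebra
  exact symLift_y _ _ _ _ _

theorem quatRep_sc (a b : L) (k : L →+* M) (x y : M) (hx : x * x = k a) (hy : y * y = k b) (l : L) :
    quatRep a b k x y hx hy (algebraMap L _ l) = algebraMap M (Matrix (Fin 2) (Fin 2) M) (k l) := by
  letI : Algebra L M := k.toAlgebra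
  exact AlgHom.commutes _ _

/-- two ring homomorphisms from a quaternion algebra agreeing on scalars and generators are equal -/
theorem symb_ext {R : Type} [Ring R] (a b : L) (f g : Symb L 2 (-1) a b →+* R)
    (h0 : ∀ l, f (algebraMap L _ l) = g (algebraMap L _ l)) (hc : ∀ l (r : R), f (algebraMap L _ l) * r = r * f (algebraMap L _ l))
    (h1 : f (gx L 2 (-1) a b) = g (gx L 2 (-1) a b)) (h3 : f (gy L 2 (-1) a b) = g (gy L 2 (-1) a b)) : f = g := by
  letI : Algebra L R := RingHom.toAlgebra' (f.comp (algebraMap L (Symb L 2 (-1) a b))) (fun l r => hc l r)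
  let f' : Symb L 2 (-1) a b →ₐ[L] R := { f with commutes' := fun l => rfl }
  let g' : Symb L 2 (-1) a b →ₐ[L] R := { g with commutes' := fun l => (h0 l).symm }
  have h := symb_hom_ext f' g' h1 h3
  ext x
  exact DFunLike.congr_fun h x

end quat

end Pool.Agent.H403.M
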