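import Mathlib
import Pool.Agent.H403.M.N8

/-! # The norm of a quaternion algebra over a quadratically closed field, II (helper403) -/

set_option autoImplicit false
set_option linter.all false

noncomputable section

namespace Pool.Agent.H403.M

open scoped TensorProduct Kronecker
open Pool.Agent.TH132.W Pool.Agent.Y64.Cyc Pool.Agent.Helper18.Br Pool.Agent.H552R3.SymBr Pool.Agent.Helper346.Bra

variable {F L M : Type} [Field F] [Field L] [Field M] [Algebra F L] [Algebra F M]

/-- conjugate of a representation -/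
def conjH {C : Type} [Ring C] {w : Type} [Fintype w] [DecidableEq w] (P Q : Matrix w w M) (h : P * Q = 1)
    (ι : C →+* Matrix w w M) : C →+* Matrix w w M where
  toFun c := Q * ι c * P
  map_one' := by rw [map_one, mul_one]; exact mul_eq_one_comm.1 h
  map_mul' x y := by
    rw [map_mul]
    calc Q * (ι x * ι y) * P = Q * ι x * (1 * ι y) * P := by simp only [mul_assoc, one_mul]
      _ = Q * ι x * P * (Q * ι y * P) := by rw [← h]; simp only [mul_assoc]
  map_zero' := by rw [map_zero, mul_zero, zero_mul]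
  map_add' x y := by rw [map_add, mul_add, add_mul]

theorem scM_comm {w : Type} [Fintype w] [DecidableEq w] (c : M) (r : Matrix w w M) :
    algebraMap M (Matrix w w M) c * r = r * algebraMap M (Matrix w w M) c := Algebra.commutes c r

theorem scM_map {w : Type} [Fintype w] [DecidableEq w] (g : M ≃ₐ[F] M) (c : M) :
    (algebraMap M (Matrix w w M) c).map g = algebraMap M (Matrix w w M) (g c) := by
  ext i j
  rw [Matrix.map_apply, Matrix.algebraMap_matrix_apply, Matrix.algebraMap_matrix_apply]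
  split_ifs
  · rfl
  · exact map_zero g

theorem quat_comm (a b : L) (A B : (L →ₐ[F] M) → M) (hA : ∀ k : L →ₐ[F] M, A k * A k = (k : L →+* M) a) (hB : ∀ k : L →ₐ[F] M, B k * B k = (k : L →+* M) b)
    (g : M ≃ₐ[F] M) (k : L →ₐ[F] M) (u t : ℤˣ) (hu : g (A k) = sgn M u * A (ga g k)) (ht : g (B k) = sgn M t * B (ga g k))
    (c : Symb L 2 (-1) a b) :
    pP M u t * (quatRep a b (k : L →+* M) (A k) (B k) (hA k) (hB k) c).map g =
      quatRep a b (ga g k : L →+* M) (A (ga g k)) (B (ga g k)) (hA _) (hB _) c * pP M u t := by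
  let P := pP M u t
  let Q := prg M t u • pP M u t
  have hPQ : P * Q = 1 := pP_inv u t
  have hQP : Q * P = 1 := mul_eq_one_comm.1 hPQ
  let f : Symb L 2 (-1) a b →+* Matrix (Fin 2) (Fin 2) M :=
    ((g : M →+* M).mapMatrix).comp (quatRep a b (k : L →+* M) (A k) (B k) (hA k) (hB k))
  let f' : Symb L 2 (-1) a b →+* Matrix (Fin 2) (Fin 2) M :=
    conjH P Q hPQ (quatRep a b (ga g k : L →+* M) (A (ga g k)) (B (ga g k)) (hA _) (hB _))
  have hf : ∀ c, f c = (quatRep a b (k : L →+* M) (A k) (B k) (hA k) (hB k) c).map g := fun c => rfl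
  have hf' : ∀ c, f' c = Q * quatRep a b (ga g k : L →+* M) (A (ga g k)) (B (ga g k)) (hA _) (hB _) c * P := fun c => rfl
  have h0 : ∀ l, f (algebraMap L _ l) = algebraMap M (Matrix (Fin 2) (Fin 2) M) (g (k l)) := by
    intro l
    rw [hf, quatRep_sc, scM_map]
    rfl
  have h0' : ∀ l, f' (algebraMap L _ l) = algebraMap M (Matrix (Fin 2) (Fin 2) M) (g (k l)) := by
    intro l
    rw [hf', quatRep_sc, ← scM_comm, mul_assoc, hQP, mul_one]
    rfl
  have e : f = f' := by
    refine symb_ext a b f f' (fun l => by rw [h0, h0']) (fun l r => by rw [h0]; exact scM_comm _ _) ?_ ?_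
    · rw [hf, hf', quatRep_x, quatRep_x, Matrix.mul_smul, Matrix.smul_mul, mul_assoc]
      change _ = A (ga g k) • (Q * (pZ M * pP M u t))
      rw [pZ_pP, Matrix.mul_smul, ← mul_assoc]
      change _ = A (ga g k) • sgn M u • (Q * P * pZ M)
      rw [hQP, one_mul, smul_smul]
      ext i j
      rw [Matrix.map_apply, Matrix.smul_apply, Matrix.smul_apply, smul_eq_mul, smul_eq_mul, map_mul, hu, mul_comm (sgn M u)]
      congr 1
      unfold pZ
      fin_cases i <;> fin_cases j <;> simp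
    · rw [hf, hf', quatRep_y, quatRep_y, Matrix.mul_smul, Matrix.smul_mul, mul_assoc]
      change _ = B (ga g k) • (Q * (pX M * pP M u t))
      rw [pX_pP, Matrix.mul_smul, ← mul_assoc]
      change _ = B (ga g k) • sgn M t • (Q * P * pX M)
      rw [hQP, one_mul, smul_smul]
      ext i j
      rw [Matrix.map_apply, Matrix.smul_apply, Matrix.smul_apply, smul_eq_mul, smul_eq_mul, map_mul, ht, mul_comm (sgn M t)]
      congr 1
      unfold pX
      fin_cases i <;> fin_cases j <;> simp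
  rw [← hf, e, hf']
  change P * (Q * _ * P) = _ * P
  rw [← mul_assoc, ← mul_assoc, hPQ, one_mul]

/-- splitting data of a quaternion algebra -/
def quatSpd (a b : L) (A B : (L →ₐ[F] M) → M) (hA : ∀ k : L →ₐ[F] M, A k * A k = (k : L →+* M) a) (hB : ∀ k : L →ₐ[F] M, B k * B k = (k : L →+* M) b)
    (σ τ : (M ≃ₐ[F] M) → (L →ₐ[F] M) → ℤˣ) (hσ : ∀ g k, g (A k) = sgn M (σ g k) * A (ga g k))
    (hτ : ∀ g k, g (B k) = sgn M (τ g k) * B (ga g k)) (hσc : ∀ g h k, σ (g * h) k = σ g (ga h k) * σ h k)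
    (hτc : ∀ g h k, τ (g * h) k = τ g (ga h k) * τ h k) : Spd F L M (Symb L 2 (-1) a b) (Fin 2) where
  ι k := quatRep a b (k : L →+* M) (A k) (B k) (hA k) (hB k)
  sc k l := quatRep_sc a b (k : L →+* M) (A k) (B k) (hA k) (hB k) l
  P g k := pP M (σ g k) (τ g k)
  Q g k := prg M (τ g k) (σ g k) • pP M (σ g k) (τ g k)
  PQ g k := pP_inv _ _
  comm g k c := quat_comm a b A B hA hB g k (σ g k) (τ g k) (hσ g k) (hτ g k) c
  c g h k := prg M (τ g (ga h k)) (σ h k)
  hc g h k := by rw [pP_map, pP_mul, ← hσc, ← hτc]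

variable [FiniteDimensional F L] [FiniteDimensional F M] [IsGalois F M] [DecidableEq (L →ₐ[F] M)]

/-- the norm of a quaternion algebra is trivial over a quadratically closed field -/
theorem corT_qa (hq : ∀ a : F, ∃ b, b * b = a) (h2 : (2 : F) ≠ 0) (h2L : (2 : L) ≠ 0)
    (hcard : Fintype.card (L →ₐ[F] M) = Module.finrank F L) (a b : Lˣ)
    (A B : (L →ₐ[F] M) → M) (hA : ∀ k : L →ₐ[F] M, A k * A k = (k : L →+* M) a) (hB : ∀ k : L →ₐ[F] M, B k * B k = (k : L →+* M) b) :
    ∃ γ : (M ≃ₐ[F] M) → (M ≃ₐ[F] M) → M, CorP (qa h2L a b) γ ∧ Cob γ := by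
  have h2M : (2 : M) ≠ 0 := two_ne_map (algebraMap F M) h2
  have hka : ∀ k : L →ₐ[F] M, (k : L →+* M) a ≠ 0 := fun k => (map_ne_zero k).2 a.ne_zero
  have hkb : ∀ k : L →ₐ[F] M, (k : L →+* M) b ≠ 0 := fun k => (map_ne_zero k).2 b.ne_zero
  have hA0 : ∀ k, A k ≠ 0 := by
    intro k h0
    apply hka k
    rw [← hA, h0, mul_zero]
  have hB0 : ∀ k, B k ≠ 0 := by
    intro k h0
    apply hkb k
    rw [← hB, h0, mul_zero]
  choose σ hσ using exists_sgn (M := M) (a : L) A hA
  choose τ hτ using exists_sgn (M := M) (b : L) B hB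
  have hσc := sgn_cocycle h2M A hA0 σ hσ
  have hτc := sgn_cocycle h2M B hB0 τ hτ
  have hcsa := symb_csa 2 two_pos (-1) (a : L) (b : L) (prim_of_two h2L) (n_ne_zero two_pos (prim_of_two h2L)) a.ne_zero b.ne_zero
  haveI := hcsa.1
  haveI := hcsa.2.1
  haveI := hcsa.2.2.1
  refine ⟨fun g h => ∏ k, prg M (τ g (ga h k)) (σ h k), ⟨Symb L 2 (-1) (a : L) (b : L), inferInstance, inferInstance,
    inferInstance, inferInstance, inferInstance, Fin 2, inferInstance, inferInstance, rfl, ?_,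
    quatSpd (a : L) (b : L) A B hA hB σ τ hσ hτ hσc hτc, fun g h => rfl⟩, ?_⟩
  · rw [hcsa.2.2.2, Fintype.card_fin]
  obtain ⟨s, i1, i2', ξ, η, ω, v0, hξg, hηg, hωg, hη2, hηξ, hηξ', hηη, hηω, hv0, hv1, hv2, huniq⟩ :=
    exists_line (M := M) hq h2 hcard (a : L) (b : L) a.ne_zero b.ne_zero A hA
  -- the commuting involutions
  let z : (L →ₐ[F] M) → Matrix s s M := fun k => (B k)⁻¹ • η k
  have hz : ∀ k, z k * z k = 1 := by
    intro k
    change ((B k)⁻¹ • η k) * ((B k)⁻¹ • η k) = 1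
    rw [Matrix.smul_mul, Matrix.mul_smul, smul_smul, hη2, smul_smul, show k (b : L) = B k * B k from (hB k).symm]
    have : (B k)⁻¹ * (B k)⁻¹ * (B k * B k) = 1 := by
      field_simp [hB0 k]
    rw [this, one_smul]
  have hzz : ∀ k k', Commute (z k) (z k') := fun k k' => ((hηη k k').smul_left _).smul_right _
  have hi2c : ∀ (k : L →ₐ[F] M) (u : ℤˣ) (r : Matrix s s M), Commute (z k) r → Commute (i2 (z k) (hz k) u) r := by
    intro k u r h
    rcases Int.units_eq_one_or u with rfl | rfl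
    · rw [map_one]
      exact Commute.one_left _
    · rw [i2_neg]
      exact h
  have hcomm : Pairwise fun k k' => ∀ x y, Commute (i2 (z k) (hz k) x) (i2 (z k') (hz k') y) := by
    intro k k' _ x y
    exact hi2c k x _ (hi2c k' y _ (hzz k' k)).symm
  let Φ : ((L →ₐ[F] M) → ℤˣ) →* Matrix s s M := MonoidHom.noncommPiCoprod (fun k => i2 (z k) (hz k)) hcomm
  have hΦ1 : ∀ k u, Φ (Pi.mulSingle k u) = i2 (z k) (hz k) u := fun k u =>
    MonoidHom.noncommPiCoprod_mulSingle (hcomm := hcomm) (fun k => i2 (z k) (hz k)) k u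
  -- commutation with ξ
  have hΦξ : ∀ (θ : (L →ₐ[F] M) → ℤˣ) (k : L →ₐ[F] M), ξ k * Φ θ = sgn M (θ k) • (Φ θ * ξ k) := by
    intro θ k
    induction θ using Pi.mulSingle_induction with
    | one => rw [map_one, Pi.one_apply, map_one, one_smul, mul_one, one_mul]
    | mul f f' hf hf' =>
      rw [map_mul, ← mul_assoc, hf, Matrix.smul_mul, mul_assoc, hf', Matrix.mul_smul, smul_smul, Pi.mul_apply, map_mul,
        mul_assoc]
    | mulSingle i m =>
      rw [hΦ1]
      rcases Int.units_eq_one_or m with rfl | rfl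
      · rw [map_one, Pi.mulSingle_one, Pi.one_apply, map_one, one_smul, mul_one, one_mul]
      · rw [i2_neg]
        by_cases hik : i = k
        · subst hik
          rw [Pi.mulSingle_eq_same, sgn_neg, neg_smul, one_smul]
          change ξ i * ((B i)⁻¹ • η i) = -((B i)⁻¹ • η i * ξ i)
          rw [Matrix.mul_smul, Matrix.smul_mul, show η i * ξ i = -(ξ i * η i) from hηξ i, smul_neg, neg_neg]
        · rw [Pi.mulSingle_eq_of_ne (Ne.symm hik), map_one, one_smul]
          exact ((hηξ' i k hik).smul_left _).symm.eq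
  have hΦω : ∀ (θ : (L →ₐ[F] M) → ℤˣ) (k : L →ₐ[F] M), Commute (ω k) (Φ θ) := by
    intro θ k
    induction θ using Pi.mulSingle_induction with
    | one => rw [map_one]; exact Commute.one_right _
    | mul f f' hf hf' => rw [map_mul]; exact hf.mul_right hf'
    | mulSingle i m =>
      rw [hΦ1]
      exact (hi2c i m _ ((hηω i k).smul_left _)).symm
  -- Galois action
  let act : (M ≃ₐ[F] M) → ((L →ₐ[F] M) → ℤˣ) → ((L →ₐ[F] M) → ℤˣ) := fun g θ k => θ (ga g⁻¹ k)
  have hzg : ∀ (g : M ≃ₐ[F] M) k, (z k).map g = sgn M (τ g k) • z (ga g k) := by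
    intro g k
    change ((B k)⁻¹ • η k).map g = sgn M (τ g k) • (B (ga g k))⁻¹ • η (ga g k)
    rw [← hηg, smul_smul]
    ext i j
    rw [Matrix.map_apply, Matrix.smul_apply, Matrix.smul_apply, Matrix.map_apply, smul_eq_mul, smul_eq_mul, map_mul,
      map_inv₀, hτ, mul_inv]
    congr 2
    exact inv_eq_of_mul_eq_one_left (sgn_sq M _)
  have hΦg : ∀ (g : M ≃ₐ[F] M) (θ : (L →ₐ[F] M) → ℤˣ), (Φ θ).map g = (∏ k, prg M (τ g k) (θ k)) • Φ (act g θ) := by
    intro g θ
    induction θ using Pi.mulSingle_induction with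
    | one =>
      have e : act g 1 = 1 := rfl
      rw [e, map_one, map_one_g]
      simp only [Pi.one_apply, map_one, Finset.prod_const_one, one_smul]
    | mul f f' hf hf' =>
      have e : act g (f * f') = act g f * act g f' := rfl
      rw [e, map_mul, map_mul, map_gmul, hf, hf', Matrix.smul_mul, Matrix.mul_smul, smul_smul, ← Finset.prod_mul_distrib]
      simp only [Pi.mul_apply, map_mul]
    | mulSingle i m =>
      rcases Int.units_eq_one_or m with rfl | rfl
      · rw [Pi.mulSingle_one]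
        have e : act g 1 = 1 := rfl
        rw [e, map_one, map_one_g]
        simp only [Pi.one_apply, map_one, Finset.prod_const_one, one_smul]
      · have e : act g (Pi.mulSingle i (-1)) = Pi.mulSingle (ga g i) (-1) := by
          funext k
          change (Pi.mulSingle i (-1) : (L →ₐ[F] M) → ℤˣ) (ga g⁻¹ k) = _
          by_cases hk : ga g⁻¹ k = i
          · have hk' : k = ga g i := by rw [← hk, ga_mul, mul_inv_cancel, ga_one]
            rw [hk, Pi.mulSingle_eq_same, hk', Pi.mulSingle_eq_same]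
          · have hk' : k ≠ ga g i := by
              intro h
              apply hk
              rw [h, ga_mul, inv_mul_cancel, ga_one]
            rw [Pi.mulSingle_eq_of_ne hk, Pi.mulSingle_eq_of_ne hk']
        rw [e, hΦ1, hΦ1, i2_neg, i2_neg, hzg]
        congr 1
        rw [Finset.prod_eq_single i]
        · rw [Pi.mulSingle_eq_same]
          exact (i2_neg _ _).symm
        · intro k _ hk
          rw [Pi.mulSingle_eq_of_ne hk, map_one]
        · intro h
          exact absurd (Finset.mem_univ i) h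
  -- the vectors
  let th : (M ≃ₐ[F] M) → (L →ₐ[F] M) → ℤˣ := fun g k => σ g (ga g⁻¹ k)
  have hmv : ∀ (g : M ≃ₐ[F] M) (X : Matrix s s M) (v : s → M), g ∘ (X.mulVec v) = (X.map g).mulVec (g ∘ v) := by
    intro g X v
    funext i
    simp only [Function.comp_apply, Matrix.mulVec, dotProduct, map_sum, map_mul, Matrix.map_apply]
  have hgsm : ∀ (g : M ≃ₐ[F] M) (c : M) (v : s → M), g ∘ (c • v) = g c • (g ∘ v) := by
    intro g c v
    funext i
    exact map_mul g _ _
  have hga : ∀ (g : M ≃ₐ[F] M) (k : L →ₐ[F] M), ga g (ga g⁻¹ k) = k := fun g k => by rw [ga_mul, mul_inv_cancel, ga_one]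
  have hν : ∀ g : M ≃ₐ[F] M, ∃ c : M, (Φ (th g)).mulVec (g ∘ v0) = c • v0 := by
    intro g
    apply huniq
    · intro k
      have e1 : (ξ k).mulVec (g ∘ v0) = g (A (ga g⁻¹ k)) • (g ∘ v0) := by
        have h3 := hmv g (ξ (ga g⁻¹ k)) v0
        rw [hv1, hξg, hga, hgsm] at h3
        exact h3.symm
      rw [Matrix.mulVec_mulVec, hΦξ, Matrix.smul_mulVec, ← Matrix.mulVec_mulVec, e1, Matrix.mulVec_smul, smul_smul, hσ, hga,
        ← mul_assoc]
      change (sgn M (σ g (ga g⁻¹ k)) * sgn M (σ g (ga g⁻¹ k)) * A k) • _ = _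
      rw [sgn_sq, one_mul]
    · intro k
      have e1 : (ω k).mulVec (g ∘ v0) = g ∘ v0 := by
        have h3 := hmv g (ω (ga g⁻¹ k)) v0
        rw [hv2, hωg, hga] at h3
        exact h3.symm
      rw [Matrix.mulVec_mulVec, (hΦω (th g) k).eq, ← Matrix.mulVec_mulVec, e1]
  choose ν hν using hν
  have hΦinv : ∀ θ, Φ θ * Φ θ = 1 := by
    intro θ
    rw [← map_mul]
    have : θ * θ = 1 := funext fun k => Int.units_mul_self _
    rw [this, map_one]
  have hν0 : ∀ g, ν g ≠ 0 := by
    intro g h0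
    have h1 := hν g
    rw [h0, zero_smul] at h1
    have h3 : (Φ (th g)).mulVec ((Φ (th g)).mulVec (g ∘ v0)) = 0 := by rw [h1, Matrix.mulVec_zero]
    rw [Matrix.mulVec_mulVec, hΦinv, Matrix.one_mulVec] at h3
    apply hv0
    funext i
    exact (map_eq_zero g).1 (congrFun h3 i)
  refine ⟨ν, hν0, fun g h => ?_⟩
  have eth : th g * act g (th h) = th (g * h) := by
    funext k
    change σ g (ga g⁻¹ k) * σ h (ga h⁻¹ (ga g⁻¹ k)) = σ (g * h) (ga (g * h)⁻¹ k)
    have e5 : ga h⁻¹ (ga g⁻¹ k) = ga (g * h)⁻¹ k := by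
      rw [mul_inv_rev]
      rfl
    have e6 : ga h (ga (g * h)⁻¹ k) = ga g⁻¹ k := by
      rw [mul_inv_rev]
      change ga (h * (h⁻¹ * g⁻¹)) k = _
      rw [mul_inv_cancel_left]
    rw [hσc, e5, e6]
  have h1 : (Φ (th g)).mulVec (g ∘ ((Φ (th h)).mulVec (h ∘ v0))) = (ν g * g (ν h)) • v0 := by
    rw [hν, hgsm, Matrix.mulVec_smul, hν, smul_smul, mul_comm]
  have h3 : (Φ (th g)).mulVec (g ∘ ((Φ (th h)).mulVec (h ∘ v0))) = ((∏ k, prg M (τ g k) (th h k)) * ν (g * h)) • v0 := by
    rw [hmv, hΦg, Matrix.mulVec_mulVec, Matrix.mul_smul, ← map_mul, eth, Matrix.smul_mulVec]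
    change _ • (Φ (th (g * h))).mulVec ((g * h : M ≃ₐ[F] M) ∘ v0) = _
    rw [hν, smul_smul]
  have h4 : ∏ k, prg M (τ g k) (th h k) = ∏ k, prg M (τ g (ga h k)) (σ h k) := by
    rw [← Equiv.prod_comp (gaE F L M h)]
    refine Finset.prod_congr rfl fun k _ => ?_
    change prg M (τ g (ga h k)) (σ h (ga h⁻¹ (ga h k))) = _
    rw [ga_mul, inv_mul_cancel, ga_one]
  rw [h4, h1] at h3
  have h5 : (ν g * g (ν h) - (∏ k, prg M (τ g (ga h k)) (σ h k)) * ν (g * h)) • v0 = 0 := by
    rw [sub_smul, h3, sub_self]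
  have h6 := (smul_eq_zero.1 h5).resolve_right hv0
  exact (sub_eq_zero.1 h6).symm

end Pool.Agent.H403.M
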