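import Mathlib
import Pool.Agent.H403.M.N9

/-! # Odd degree descent over quadratically closed fields (helper403) -/

set_option autoImplicit false
set_option linter.all false

noncomputable section

namespace Pool.Agent.H403.M

open scoped TensorProduct Kronecker
open Pool.Agent.TH132.W Pool.Agent.Y64.Cyc Pool.Agent.Helper18.Br Pool.Agent.H552R3.SymBr Pool.Agent.Helper346.Bra

variable {F M : Type} [Field F] [Field M] [Algebra F M]

theorem cob_congr {γ γ' : (M ≃ₐ[F] M) → (M ≃ₐ[F] M) → M} (h : Cob γ) (e : ∀ g k, γ g k = γ' g k) : Cob γ' := by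
  have : γ = γ' := funext fun g => funext fun k => e g k
  rwa [← this]

theorem split_of_cobc [FiniteDimensional F M] [IsGalois F M] {A : Type} [Ring A] [Algebra F A]
    [Algebra.IsCentral F A] [IsSimpleRing A] [FiniteDimensional F A] {w : Type} [Fintype w] [DecidableEq w]
    (ι : A →ₐ[F] Matrix w w M) (hA : Module.finrank F A = Fintype.card w ^ 2)
    (P Q : (M ≃ₐ[F] M) → Matrix w w M) (c : (M ≃ₐ[F] M) → (M ≃ₐ[F] M) → M) (hPQ : ∀ g, P g * Q g = 1)
    (hP : ∀ g a, P g * (ι a).map g = ι a * P g) (hc : ∀ g h, P g * (P h).map g = c g h • P (g * h)) (hcob : Cob c) :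
    brauerClass F A = 1 := by
  obtain ⟨ν, hν0, hν⟩ := hcob
  have hmul : ∀ g h, (ν g)⁻¹ • P g * ((ν h)⁻¹ • P h).map g = (ν (g * h))⁻¹ • P (g * h) := by
    intro g h
    have e : ((ν h)⁻¹ • P h).map g = (g (ν h))⁻¹ • (P h).map g := by
      ext i j
      rw [Matrix.map_apply, Matrix.smul_apply, Matrix.smul_apply, Matrix.map_apply, smul_eq_mul, smul_eq_mul, map_mul,
        map_inv₀]
    rw [e, Matrix.smul_mul, Matrix.mul_smul, hc, smul_smul, smul_smul]
    congr 1
    have h1 := hν g h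
    have h3 : g (ν h) ≠ 0 := (map_ne_zero g).2 (hν0 h)
    field_simp [hν0 g, hν0 (g * h), h3]
    linear_combination h1
  refine split_of_cob ι hA (fun g => (ν g)⁻¹ • P g) ?_ hmul ?_
  · have h1 := hmul 1 1
    rw [map_id_g, mul_one] at h1
    have h3 : ((ν 1)⁻¹ • P 1) * (ν 1 • Q 1) = 1 := by
      rw [Matrix.smul_mul, Matrix.mul_smul, smul_smul, hPQ, inv_mul_cancel₀ (hν0 1), one_smul]
    calc (ν 1)⁻¹ • P 1 = (ν 1)⁻¹ • P 1 * (((ν 1)⁻¹ • P 1) * (ν 1 • Q 1)) := by rw [h3, mul_one]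
      _ = ((ν 1)⁻¹ • P 1 * (ν 1)⁻¹ • P 1) * (ν 1 • Q 1) := by rw [mul_assoc]
      _ = 1 := by rw [h1, h3]
  · intro g a
    rw [Matrix.smul_mul, Matrix.mul_smul, hP]

variable [FiniteDimensional F M] [IsGalois F M]

theorem core (hq : ∀ a : F, ∃ b, b * b = a) (h2 : (2 : F) ≠ 0) {L : Type} [Field L] [Algebra F L]
    [FiniteDimensional F L] [DecidableEq (L →ₐ[F] M)] (h2L : (2 : L) ≠ 0)
    (hcard : Fintype.card (L →ₐ[F] M) = Module.finrank F L) (hodd : Odd (Module.finrank F L))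
    {A : Type} [Ring A] [Algebra F A]
    [Algebra.IsCentral F A] [IsSimpleRing A] [FiniteDimensional F A] {w : Type} [Fintype w] [DecidableEq w]
    (ι : A →ₐ[F] Matrix w w M) (hA : Module.finrank F A = Fintype.card w ^ 2)
    (hx : brauerClass F A * brauerClass F A = 1) (l : List (Lˣ × Lˣ))
    (hl : rh (algebraMap F L) (brauerClass F A) = (l.map fun p => qa h2L p.1 p.2).prod)
    (hsq : ∀ p ∈ l, ∀ k : L →ₐ[F] M, (∃ y, y * y = k p.1) ∧ ∃ y, y * y = k p.2) : brauerClass F A = 1 := by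
  obtain ⟨P, Q, c, hPQ, hP, hc⟩ := exists_cocycle ι hA
  have h1 := corP_base (L := L) ι hA P Q c hPQ hP hc
  have hlist : ∀ l : List (Lˣ × Lˣ), (∀ p ∈ l, ∀ k : L →ₐ[F] M, (∃ y, y * y = k p.1) ∧ ∃ y, y * y = k p.2) →
      ∃ γ : (M ≃ₐ[F] M) → (M ≃ₐ[F] M) → M, CorP (l.map fun p => qa h2L p.1 p.2).prod γ ∧ Cob γ := by
    intro l
    induction l with
    | nil =>
      intro _
      obtain ⟨γ, h3, h4⟩ := corT_qa (M := M) hq h2 h2L hcard 1 1 (fun _ => 1) (fun _ => 1)
        (fun k => by rw [Units.val_one, map_one, mul_one]) (fun k => by rw [Units.val_one, map_one, mul_one])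
      rw [qa_one_left] at h3
      exact ⟨γ, h3, h4⟩
    | cons p l ih =>
      intro h
      obtain ⟨γ, h3, h4⟩ := ih (fun q hq' => h q (List.mem_cons_of_mem _ hq'))
      choose Ap hAp using fun k => (h p List.mem_cons_self k).1
      choose Bp hBp using fun k => (h p List.mem_cons_self k).2
      obtain ⟨γ', h3', h4'⟩ := corT_qa (M := M) hq h2 h2L hcard p.1 p.2 Ap Bp hAp hBp
      rw [List.map_cons, List.prod_cons]
      exact ⟨_, h3'.mul h3, h4'.mul h4⟩
  obtain ⟨γ, h3, h4⟩ := hlist l hsq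
  rw [← hl] at h3
  have h5 := h1.mul h3
  rw [← map_mul, hx, map_one] at h5
  have h6 := corP_one h5
  have h7 : Cob (fun g h => c g h ^ Fintype.card (L →ₐ[F] M)) := cob_congr (h6.mul h4.inv) (fun g k => by
    change c g k ^ _ * γ g k * (γ g k)⁻¹ = _
    rw [mul_assoc, mul_inv_cancel₀ (h4.ne g k), mul_one])
  haveI : Subsingleton (F →ₐ[F] M) := inferInstance
  have h8 := corP_base (L := F) ι hA P Q c hPQ hP hc
  have e1 : Fintype.card (F →ₐ[F] M) = 1 := Fintype.card_eq_one_iff.2 ⟨Algebra.ofId F M, fun k => Subsingleton.elim _ _⟩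
  rw [show algebraMap F F = RingHom.id F from rfl, rh_id, e1] at h8
  have h9 := h8.mul h8
  rw [hx] at h9
  have h10 := corP_one h9
  have hcne : ∀ g k, c g k ≠ 0 := fun g k h0 => h10.ne g k (by
    change c g k ^ 1 * c g k ^ 1 = 0
    rw [h0, pow_one, mul_zero])
  rw [hcard] at h7
  obtain ⟨j, hj⟩ := hodd
  have hcob : Cob c := cob_congr (h7.mul (h10.pow j).inv) (fun g k => by
    change c g k ^ Module.finrank F L * ((c g k ^ 1 * c g k ^ 1) ^ j)⁻¹ = c g k
    rw [hj, pow_one, ← sq, ← pow_mul, pow_succ', mul_assoc, mul_inv_cancel₀ (pow_ne_zero _ (hcne g k)), mul_one])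
  exact split_of_cobc ι hA P Q c hPQ hP hc hcob

end Pool.Agent.H403.M
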