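import Mathlib
import Pool.Agent.H403.M.N10

/-! # Separably closed fields, and `2`-extensions (helper403) -/

set_option autoImplicit false
set_option linter.all false

noncomputable section

namespace Pool.Agent.H403.M

open scoped TensorProduct Kronecker
open Pool.Agent.TH132.W Pool.Agent.Y64.Cyc Pool.Agent.Helper18.Br Pool.Agent.H552R3.SymBr Pool.Agent.Helper346.Bra

/-- the Brauer group of a separably closed field is trivial -/
theorem br_sepClosed {K : Type} [Field K] [IsSepClosed K] (x : BrauerGroup.{0, 0} K) : x = 1 := by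
  obtain ⟨A0⟩ := x
  haveI : Algebra.IsCentral K A0 := A0.isCentral
  haveI : IsSimpleRing A0 := A0.isSimple
  haveI : FiniteDimensional K A0 := A0.fin_dim
  change brauerClass K A0 = 1
  haveI := IsArtinianRing.of_finite K A0
  obtain ⟨t, ht, D, _, _, _, ⟨e⟩⟩ := IsSimpleRing.exists_algEquiv_matrix_divisionRing_finite K A0
  haveI : NeZero t := ht
  haveI : Algebra.IsCentral K (Matrix (Fin t) (Fin t) D) := Algebra.IsCentral.of_algEquiv K _ _ e
  haveI hcD : Algebra.IsCentral K D := ⟨by
    intro z hz
    rw [Subalgebra.mem_center_iff] at hz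
    have h1 : Matrix.scalar (Fin t) z ∈ Subalgebra.center K (Matrix (Fin t) (Fin t) D) := by
      rw [Subalgebra.mem_center_iff]
      intro N
      ext i j
      rw [Matrix.scalar_apply, Matrix.mul_diagonal, Matrix.diagonal_mul]
      exact hz _
    rw [Algebra.IsCentral.center_eq_bot] at h1
    obtain ⟨c, hc⟩ := Algebra.mem_bot.1 h1
    refine Algebra.mem_bot.2 ⟨c, ?_⟩
    have h3 := congrFun (congrFun hc 0) 0
    rw [Matrix.algebraMap_matrix_apply, if_pos rfl, Matrix.scalar_apply, Matrix.diagonal_apply_eq] at h3
    exact h3⟩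
  have hbt : (⊥ : Subalgebra K D) = ⊤ := by
    by_contra hne
    obtain ⟨x, hx, hsep⟩ := JacobsonNoether.exists_separable_and_not_isCentral' hne
    apply hx
    have hint : IsIntegral K x := IsSeparable.isIntegral hsep
    have hdeg : (minpoly K x).degree = 1 :=
      IsSepClosed.degree_eq_one_of_irreducible K (minpoly.irreducible hint) hsep
    exact minpoly.mem_range_of_degree_eq_one K x hdeg
  have hsurj : Function.Surjective (algebraMap K D) := by
    intro d
    have : d ∈ (⊥ : Subalgebra K D) := by rw [hbt]; trivial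
    exact Algebra.mem_bot.1 this
  let eD : K ≃ₐ[K] D := AlgEquiv.ofBijective (Algebra.ofId K D) ⟨(algebraMap K D).injective, hsurj⟩
  exact brauerClass_eq_one_iff.2 (BrEq.of_matrix (NeZero.ne t) (e.trans eD.symm.mapMatrix))

/-- finding a square root in an extension of degree `2` -/
theorem exists_sqrt_of_two {K E : Type} [Field K] [Field E] [Algebra K E] (h2 : (2 : K) ≠ 0)
    (hE : Module.finrank K E = 2) : ∃ (a : K) (r : E), (∀ c : K, c ^ 2 ≠ a) ∧ r ^ 2 = algebraMap K E a := by
  haveI : FiniteDimensional K E := Module.finite_of_finrank_pos (by rw [hE]; exact two_pos)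
  obtain ⟨z, hz⟩ : ∃ z : E, z ∉ (algebraMap K E).range := by
    by_contra hcon
    push Not at hcon
    have h1 : Function.Surjective (Algebra.linearMap K E) := fun z => hcon z
    have h3 := LinearMap.finrank_range_of_inj (f := Algebra.linearMap K E) (algebraMap K E).injective
    rw [LinearMap.range_eq_top.2 h1, finrank_top, Module.finrank_self, hE] at h3
    exact absurd h3 (by norm_num)
  have hint : IsIntegral K z := IsIntegral.of_finite K z
  have hle : (minpoly K z).natDegree ≤ 2 := hE ▸ minpoly.natDegree_le z
  have hpos : 0 < (minpoly K z).natDegree := minpoly.natDegree_pos hint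
  have hne1 : (minpoly K z).natDegree ≠ 1 := by
    intro h
    apply hz
    apply minpoly.mem_range_of_degree_eq_one K z
    rw [Polynomial.degree_eq_natDegree (minpoly.ne_zero hint), h]
    rfl
  have hnd : (minpoly K z).natDegree = 2 := by omega
  have h0 := minpoly.aeval K z
  rw [Polynomial.aeval_eq_sum_range, hnd] at h0
  simp only [Finset.sum_range_succ, Finset.sum_range_zero, zero_add, pow_zero, pow_one] at h0
  have hlc : (minpoly K z).coeff 2 = 1 := by
    have := minpoly.monic hint
    rw [Polynomial.Monic, Polynomial.leadingCoeff, hnd] at this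
    exact this
  rw [hlc] at h0
  set p := (minpoly K z).coeff 1
  set q := (minpoly K z).coeff 0
  rw [Algebra.smul_def, Algebra.smul_def, Algebra.smul_def, map_one, one_mul, mul_one] at h0
  have hr : (2 * z + algebraMap K E p) ^ 2 = algebraMap K E (p ^ 2 - 4 * q) := by
    rw [map_sub, map_mul, map_pow, map_ofNat]
    linear_combination 4 * h0
  refine ⟨p ^ 2 - 4 * q, 2 * z + algebraMap K E p, ?_, hr⟩
  intro c hc
  apply hz
  have h3 : (2 * z + algebraMap K E p - algebraMap K E c) * (2 * z + algebraMap K E p + algebraMap K E c) = 0 := by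
    have : algebraMap K E c ^ 2 = algebraMap K E (p ^ 2 - 4 * q) := by rw [← map_pow, hc]
    linear_combination hr - this
  have h2E : (2 : E) ≠ 0 := two_ne_map (algebraMap K E) h2
  rcases mul_eq_zero.1 h3 with h | h
  · refine ⟨(c - p) / 2, ?_⟩
    rw [map_div₀, map_sub, map_ofNat]
    field_simp
    linear_combination -h
  · refine ⟨(-c - p) / 2, ?_⟩
    rw [map_div₀, map_sub, map_neg, map_ofNat]
    field_simp
    linear_combination -h

theorem twoSplit_of_two : ∀ (n : ℕ) (K E : Type) [Field K] [Field E] [Algebra K E] [FiniteDimensional K E]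
    [IsGalois K E], (2 : K) ≠ 0 → Module.finrank K E = 2 ^ n → ∀ y : BrauerGroup.{0, 0} K,
    rh (algebraMap K E) y = 1 → TwoSplit K y := by
  intro n
  induction n with
  | zero =>
    intro K E _ _ _ _ _ h2 hn y hy
    have hb : Function.Bijective (algebraMap K E) := by
      refine ⟨(algebraMap K E).injective, ?_⟩
      have h1 : Function.Surjective (Algebra.linearMap K E) :=
        (LinearMap.injective_iff_surjective_of_finrank_eq_finrank (by rw [Module.finrank_self, hn, pow_zero])).1
          (algebraMap K E).injective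
      exact h1
    let e : K ≃+* E := RingEquiv.ofBijective (algebraMap K E) hb
    have h1 : rh (e.symm : E →+* K) (rh (algebraMap K E) y) = y := by
      rw [rh_comp]
      have h3 : (e.symm : E →+* K).comp (algebraMap K E) = RingHom.id K := RingHom.ext fun c => e.symm_apply_apply c
      rw [h3, rh_id]
    rw [hy, map_one] at h1
    rw [← h1]
    exact TwoSplit.one K
  | succ n ih =>
    intro K E _ _ _ _ _ h2 hn y hy
    have hG : Nat.card (E ≃ₐ[K] E) = 2 ^ (n + 1) := by rw [IsGalois.card_aut_eq_finrank, hn]
    haveI : Fact (Nat.Prime 2) := ⟨Nat.prime_two⟩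
    obtain ⟨H, hH⟩ := Sylow.exists_subgroup_card_pow_prime (G := E ≃ₐ[K] E) 2 (n := n) (by
      rw [hG]; exact pow_dvd_pow 2 (Nat.le_succ n))
    let K' := IntermediateField.fixedField H
    have h3 : Module.finrank K' E = 2 ^ n := by rw [IntermediateField.finrank_fixedField_eq_card, hH]
    have h4 : Module.finrank K K' = 2 := by
      have h5 := Module.finrank_mul_finrank K K' E
      rw [h3, hn, pow_succ'] at h5
      exact Nat.eq_of_mul_eq_mul_right (pow_pos two_pos n) h5
    obtain ⟨a, r, ha, hr⟩ := exists_sqrt_of_two h2 h4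
    haveI : NS a := ⟨ha⟩
    have hrE : (r : E) ^ 2 = algebraMap K E a := congrArg (algebraMap K' E) hr
    letI : Algebra (QE a) E := (qroot (algebraMap K E) a (r : E) hrE).toAlgebra
    haveI : IsScalarTower K (QE a) E := IsScalarTower.of_algebraMap_eq (fun c => (qroot_qin _ _ _ hrE c).symm)
    haveI : IsGalois (QE a) E := IsGalois.tower_top_of_isGalois K (QE a) E
    have h5 : Module.finrank K (QE a) = 2 := (cycGen_cj2 h2 ha).finrank
    haveI : FiniteDimensional K (QE a) := (cycGen_cj2 h2 ha).fd
    haveI : FiniteDimensional (QE a) E := FiniteDimensional.right K (QE a) E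
    have h6 : Module.finrank (QE a) E = 2 ^ n := by
      have h7 := Module.finrank_mul_finrank K (QE a) E
      rw [h5, hn, pow_succ'] at h7
      exact Nat.eq_of_mul_eq_mul_left two_pos h7
    refine TwoSplit.step K a y (ih (QE a) E (two_ne_qin h2 a) h6 _ ?_)
    rw [rh_comp]
    have h8 : (algebraMap (QE a) E).comp (qin a) = algebraMap K E := qroot_comp _ _ _ hrE
    rw [h8, hy]

end Pool.Agent.H403.M
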