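import Mathlib
import Pool.Agent.H403.M.N11

/-! # The Brauer group of a quadratically closed field has no elements of order two (helper403) -/

set_option autoImplicit false
set_option linter.all false

noncomputable section

namespace Pool.Agent.H403.M

open scoped TensorProduct Kronecker
open Pool.Agent.TH132.W Pool.Agent.Y64.Cyc Pool.Agent.Helper18.Br Pool.Agent.H552R3.SymBr Pool.Agent.Helper346.Bra

/-- a representation over a field is defined over a finitely generated subfield -/
theorem descend_hom {F Ω : Type} [Field F] [Field Ω] [Algebra F Ω] {A : Type} [Ring A] [Algebra F A]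
    [FiniteDimensional F A] {w : Type} [Fintype w] [DecidableEq w] (j : A →ₐ[F] Matrix w w Ω) :
    ∃ S : Set Ω, S.Finite ∧ ∀ N : IntermediateField F Ω, S ⊆ N → Nonempty (A →ₐ[F] Matrix w w N) := by
  let b := Module.finBasis F A
  refine ⟨Set.range (fun p : Fin (Module.finrank F A) × w × w => j (b p.1) p.2.1 p.2.2), Set.finite_range _, ?_⟩
  intro N hN
  let s : Matrix w w N →ₐ[F] Matrix w w Ω := N.val.mapMatrix
  have hs : Function.Injective s := by
    intro X Y hXY
    ext i k
    exact congrFun (congrFun hXY i) k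
  have hr : ∀ a, j a ∈ s.range := by
    intro a
    have h3 : ∀ i k, j a i k ∈ N := by
      intro i k
      rw [← b.sum_repr a, map_sum, Matrix.sum_apply]
      refine sum_mem fun p _ => ?_
      rw [map_smul, Matrix.smul_apply]
      exact IntermediateField.smul_mem _ (hN ⟨(p, i, k), rfl⟩)
    exact ⟨Matrix.of fun i k => ⟨j a i k, h3 i k⟩, rfl⟩
  exact ⟨((AlgEquiv.ofInjective s hs).symm : s.range →ₐ[F] Matrix w w N).comp (j.codRestrict s.range hr)⟩

theorem class_base_one {F M : Type} [Field F] [Field M] [Algebra F M] {A : Type} [Ring A] [Algebra F A]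
    [Algebra.IsCentral F A] [IsSimpleRing A] [FiniteDimensional F A] {w : Type} [Fintype w] [DecidableEq w]
    (ι : A →ₐ[F] Matrix w w M) (hA : Module.finrank F A = Fintype.card w ^ 2) :
    rh (algebraMap F M) (brauerClass F A) = 1 := by
  haveI : IsSimpleRing (M ⊗[F] A) := isSimple_base F M A
  haveI : Algebra.IsCentral M (M ⊗[F] A) := isCentral_base F M A
  obtain ⟨Θ, -⟩ := base_iso hA ι
  rw [rh_eq_res]
  change brauerClass M (M ⊗[F] A) = 1
  exact class_one_of_hom (Θ : M ⊗[F] A →ₐ[M] Matrix w w M) (by rw [Module.finrank_baseChange, hA])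

/-- a class split by an extension gives a representation -/
theorem exists_hom_of_split {F M : Type} [Field F] [Field M] [Algebra F M] {A : Type} [Ring A] [Algebra F A]
    [Algebra.IsCentral F A] [IsSimpleRing A] [FiniteDimensional F A]
    (h : rh (algebraMap F M) (brauerClass F A) = 1) :
    ∃ m : ℕ, Module.finrank F A = m ^ 2 ∧ Nonempty (A →ₐ[F] Matrix (Fin m) (Fin m) M) := by
  haveI : IsSimpleRing (M ⊗[F] A) := isSimple_base F M A
  haveI : Algebra.IsCentral M (M ⊗[F] A) := isCentral_base F M A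
  rw [rh_eq_res] at h
  change brauerClass M (M ⊗[F] A) = 1 at h
  obtain ⟨m, ⟨e⟩⟩ := exists_matrix h
  refine ⟨m, ?_, ⟨((e : M ⊗[F] A →ₐ[M] Matrix (Fin m) (Fin m) M).restrictScalars F).comp Algebra.TensorProduct.includeRight⟩⟩
  have h1 := e.toLinearEquiv.finrank_eq
  rw [Module.finrank_baseChange, Module.finrank_matrix, Module.finrank_self, Fintype.card_fin, mul_one, ← sq] at h1
  exact h1

theorem theoremB {F : Type} [Field F] (hq : ∀ a : F, ∃ b, b * b = a) (h2 : (2 : F) ≠ 0)
    (x : BrauerGroup.{0, 0} F) (hx : x * x = 1) : x = 1 := by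
  obtain ⟨A0⟩ := x
  haveI : Algebra.IsCentral F A0 := A0.isCentral
  haveI : IsSimpleRing A0 := A0.isSimple
  haveI : FiniteDimensional F A0 := A0.fin_dim
  change brauerClass F A0 = 1
  change brauerClass F A0 * brauerClass F A0 = 1 at hx
  obtain ⟨m, hm, ⟨j⟩⟩ := exists_hom_of_split (M := SeparableClosure F) (br_sepClosed (rh (algebraMap F (SeparableClosure F)) (brauerClass F A0)))
  obtain ⟨S0, hS0f, hS0⟩ := descend_hom j
  have hA : Module.finrank F A0 = Fintype.card (Fin m) ^ 2 := by rw [hm, Fintype.card_fin]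
  haveI : Finite S0 := hS0f
  let M0 := FiniteGaloisIntermediateField.adjoin F S0
  have hS0M : S0 ⊆ M0.toIntermediateField := FiniteGaloisIntermediateField.subset_adjoin F S0
  obtain ⟨ι0⟩ := hS0 M0.toIntermediateField hS0M
  have hx0 := class_base_one ι0 hA
  -- Sylow subgroup
  haveI : Fact (Nat.Prime 2) := ⟨Nat.prime_two⟩
  haveI : Finite (M0 ≃ₐ[F] M0) := inferInstance
  let P : Sylow 2 (M0 ≃ₐ[F] M0) := default
  let L := IntermediateField.fixedField (P : Subgroup (M0 ≃ₐ[F] M0))
  obtain ⟨r, hr⟩ : ∃ r, Nat.card (P : Subgroup (M0 ≃ₐ[F] M0)) = 2 ^ r := IsPGroup.iff_card.1 P.isPGroup'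
  have hL1 : Module.finrank L M0 = 2 ^ r := by rw [← hr]; exact IntermediateField.finrank_fixedField_eq_card _
  have hL2 : Odd (Module.finrank F L) := by
    have h1 := Module.finrank_mul_finrank F L M0
    rw [hL1, ← IsGalois.card_aut_eq_finrank F M0, ← Subgroup.index_mul_card (P : Subgroup (M0 ≃ₐ[F] M0)), hr] at h1
    have h3 := Nat.eq_of_mul_eq_mul_right (pow_pos two_pos r) h1
    rw [h3]
    have h4 : ¬ 2 ∣ (P : Subgroup (M0 ≃ₐ[F] M0)).index := P.not_dvd_index
    exact Nat.odd_iff.2 (Nat.two_dvd_ne_zero.1 h4)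
  have h2L : (2 : L) ≠ 0 := two_ne_map (algebraMap F L) h2
  have hxL1 : rh (algebraMap L M0) (rh (algebraMap F L) (brauerClass F A0)) = 1 := by
    rw [rh_comp, ← IsScalarTower.algebraMap_eq F L M0]
    exact hx0
  have hxL2 := T1 (twoSplit_of_two r L M0 h2L hL1 _ hxL1) h2L (by rw [← map_mul, hx, map_one])
  obtain ⟨l, hl⟩ := QQ_prod h2L hxL2
  -- square roots
  haveI : NeZero (2 : SeparableClosure F) := ⟨two_ne_map (algebraMap F (SeparableClosure F)) h2⟩
  choose sq hsq using fun c : SeparableClosure F => IsSepClosed.exists_eq_mul_self c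
  haveI : Finite (L →ₐ[F] SeparableClosure F) := inferInstance
  let S1 : Set (SeparableClosure F) := Set.range (fun q : (L →ₐ[F] SeparableClosure F) × Fin l.length =>
    sq (q.1 ((l.get q.2).1 : L)))
  let S2 : Set (SeparableClosure F) := Set.range (fun q : (L →ₐ[F] SeparableClosure F) × Fin l.length =>
    sq (q.1 ((l.get q.2).2 : L)))
  haveI : Finite (S0 ∪ S1 ∪ S2 : Set (SeparableClosure F)) := (hS0f.union (Set.finite_range _)).union (Set.finite_range _)
  let M := FiniteGaloisIntermediateField.adjoin F (S0 ∪ S1 ∪ S2 : Set (SeparableClosure F))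
  have hSM : S0 ∪ S1 ∪ S2 ⊆ M.toIntermediateField := FiniteGaloisIntermediateField.subset_adjoin F (S0 ∪ S1 ∪ S2)
  have hM0M : M0.toIntermediateField ≤ M.toIntermediateField := by
    change (FiniteGaloisIntermediateField.adjoin F S0).toIntermediateField ≤ _
    rw [FiniteGaloisIntermediateField.adjoin_val, IntermediateField.normalClosure_le_iff_of_normal,
      IntermediateField.adjoin_le_iff]
    exact fun s hs => hSM (Or.inl (Or.inl hs))
  obtain ⟨ι⟩ := hS0 M.toIntermediateField (fun s hs => hSM (Or.inl (Or.inl hs)))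
  let iL : L →ₐ[F] M := (IntermediateField.inclusion hM0M).comp L.val
  have hcard : Fintype.card (L →ₐ[F] M) = Module.finrank F L := by
    refine AlgHom.card_of_splits F L M fun y => ?_
    rw [← minpoly.algHom_eq iL iL.toRingHom.injective y]
    exact Normal.splits inferInstance (iL y)
  classical
  refine core (M := M) hq h2 h2L hcard hL2 ι hA hx l hl ?_
  intro p hp k
  obtain ⟨n, hn⟩ := List.get_of_mem hp
  let k' : L →ₐ[F] SeparableClosure F := (M.toIntermediateField.val).comp k
  refine ⟨⟨⟨sq (k' (p.1 : L)), hSM (Or.inl (Or.inr ⟨(k', n), by change sq (k' ((l.get n).1 : L)) = _; rw [hn]⟩))⟩, Subtype.ext (hsq _).symm⟩,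
    ⟨⟨sq (k' (p.2 : L)), hSM (Or.inr ⟨(k', n), by change sq (k' ((l.get n).2 : L)) = _; rw [hn]⟩)⟩, Subtype.ext (hsq _).symm⟩⟩

end Pool.Agent.H403.M
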