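import Mathlib
import Pool.Agent.H403.M.N12

/-! # Merkurjev's theorem: classes of exponent two are split by towers of quadratic extensions (helper403) -/

set_option autoImplicit false
set_option linter.all false

noncomputable section

namespace Pool.Agent.H403.M

open scoped TensorProduct Kronecker
open Pool.Agent.TH132.W Pool.Agent.Y64.Cyc Pool.Agent.Helper18.Br Pool.Agent.H552R3.SymBr Pool.Agent.Helper346.Bra

section tow

variable {F Ω : Type} [Field F] [Field Ω] [Algebra F Ω]

/-- finite towers of quadratic extensions inside `Ω` -/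
inductive Tow : IntermediateField F Ω → Prop
  | bot : Tow ⊥
  | step (K : IntermediateField F Ω) (r : Ω) (hr : r * r ∈ K) (h : Tow K) : Tow (K ⊔ IntermediateField.adjoin F {r})

theorem Tow.sup {K K' : IntermediateField F Ω} (hK : Tow K) (hK' : Tow K') : Tow (K ⊔ K') := by
  induction hK' with
  | bot => rwa [sup_bot_eq]
  | step K' r hr _ ih =>
    rw [← sup_assoc]
    exact Tow.step _ r ((le_sup_right : K' ≤ K ⊔ K') hr) ih

variable (F Ω)

/-- the quadratic closure -/
def Fqc : IntermediateField F Ω where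
  carrier := {x | ∃ K : IntermediateField F Ω, Tow K ∧ x ∈ K}
  mul_mem' := by
    rintro x y ⟨K, hK, hx⟩ ⟨K', hK', hy⟩
    exact ⟨K ⊔ K', hK.sup hK', mul_mem ((le_sup_left : K ≤ K ⊔ K') hx) ((le_sup_right : K' ≤ K ⊔ K') hy)⟩
  one_mem' := ⟨⊥, Tow.bot, one_mem _⟩
  add_mem' := by
    rintro x y ⟨K, hK, hx⟩ ⟨K', hK', hy⟩
    exact ⟨K ⊔ K', hK.sup hK', add_mem ((le_sup_left : K ≤ K ⊔ K') hx) ((le_sup_right : K' ≤ K ⊔ K') hy)⟩
  zero_mem' := ⟨⊥, Tow.bot, zero_mem _⟩
  algebraMap_mem' c := ⟨⊥, Tow.bot, IntermediateField.algebraMap_mem _ c⟩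
  inv_mem' := by
    rintro x ⟨K, hK, hx⟩
    exact ⟨K, hK, inv_mem hx⟩

variable {F Ω}

theorem mem_Fqc (x : Ω) : x ∈ Fqc F Ω ↔ ∃ K : IntermediateField F Ω, Tow K ∧ x ∈ K := Iff.rfl

theorem Fqc_finite {S : Set Ω} (hS : S.Finite) (h : ∀ s ∈ S, s ∈ Fqc F Ω) : ∃ K : IntermediateField F Ω, Tow K ∧ S ⊆ K := by
  induction S, hS using Set.Finite.induction_on with
  | empty => exact ⟨⊥, Tow.bot, Set.empty_subset _⟩
  | @insert a S _ _ ih =>
    obtain ⟨K, hK, hSK⟩ := ih (fun s hs => h s (Set.mem_insert_of_mem a hs))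
    obtain ⟨K', hK', ha⟩ := (mem_Fqc a).1 (h a (Set.mem_insert a S))
    refine ⟨K ⊔ K', hK.sup hK', ?_⟩
    rintro s (rfl | hs)
    · exact (le_sup_right : K' ≤ K ⊔ K') ha
    · exact (le_sup_left : K ≤ K ⊔ K') (hSK hs)

theorem Fqc_closed (hΩ : ∀ a : Ω, ∃ b, b * b = a) (a : Fqc F Ω) : ∃ b, b * b = a := by
  obtain ⟨r, hr⟩ := hΩ a
  obtain ⟨K, hK, ha⟩ := (mem_Fqc (a : Ω)).1 a.2
  have hrK : r * r ∈ K := by rw [hr]; exact ha
  refine ⟨⟨r, (mem_Fqc r).2 ⟨_, Tow.step K r hrK hK, ?_⟩⟩, Subtype.ext hr⟩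
  exact (le_sup_right : IntermediateField.adjoin F {r} ≤ K ⊔ IntermediateField.adjoin F {r})
    (IntermediateField.mem_adjoin_simple_self F r)

theorem tow_twoSplit (h2 : (2 : F) ≠ 0) {K : IntermediateField F Ω} (hK : Tow K) (x : BrauerGroup.{0, 0} F)
    (h : TwoSplit K (rh (algebraMap F K) x)) : TwoSplit F x := by
  induction hK with
  | bot =>
    have h1 := h.bc F ((IntermediateField.botEquiv F Ω : (⊥ : IntermediateField F Ω) ≃ₐ[F] F) : (⊥ : IntermediateField F Ω) →+* F)
    rw [rh_comp] at h1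
    have h3 : ((IntermediateField.botEquiv F Ω : (⊥ : IntermediateField F Ω) ≃ₐ[F] F) : (⊥ : IntermediateField F Ω) →+* F).comp
        (algebraMap F (⊥ : IntermediateField F Ω)) = RingHom.id F := RingHom.ext fun c => (IntermediateField.botEquiv F Ω).commutes c
    rwa [h3, rh_id] at h1
  | step K r hr hK ih =>
    apply ih
    by_cases hrK : r ∈ K
    · have hle : K ⊔ IntermediateField.adjoin F {r} ≤ K :=
        sup_le le_rfl (IntermediateField.adjoin_simple_le_iff.2 hrK)
      have h1 := h.bc K ((IntermediateField.inclusion hle : _ →ₐ[F] K) : _ →+* K)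
      rw [rh_comp] at h1
      have h3 : ((IntermediateField.inclusion hle : _ →ₐ[F] K) : _ →+* K).comp
          (algebraMap F ↥(K ⊔ IntermediateField.adjoin F {r})) = algebraMap F K := RingHom.ext fun c => rfl
      rwa [h3] at h1
    · let a : K := ⟨r * r, hr⟩
      haveI : NS a := ⟨by
        intro c hc
        have h1 : ((c : Ω)) ^ 2 = r * r := congrArg Subtype.val hc
        have h3 : (r - c) * (r + c) = 0 := by linear_combination -h1
        rcases mul_eq_zero.1 h3 with h4 | h4
        · rw [sub_eq_zero.1 h4] at hrK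
          exact hrK c.2
        · rw [eq_neg_of_add_eq_zero_left h4] at hrK
          exact hrK (neg_mem c.2)⟩
      have hra : r ^ 2 = algebraMap K Ω a := sq r
      let ψ : QE a →+* Ω := qroot (algebraMap K Ω) a r hra
      let N : IntermediateField F Ω := ψ.fieldRange.toIntermediateField (fun c => ⟨qin a (algebraMap F K c), by
        change ψ (qin a (algebraMap F K c)) = _
        rw [qroot_qin]
        rfl⟩)
      have hKN : K ≤ N := fun y hy => ⟨qin a ⟨y, hy⟩, qroot_qin _ _ _ hra ⟨y, hy⟩⟩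
      have hrN : r ∈ N := ⟨rt a, by
        change algebraMap K Ω 0 + algebraMap K Ω 1 * r = r
        rw [map_zero, map_one, one_mul, zero_add]⟩
      have hle : K ⊔ IntermediateField.adjoin F {r} ≤ N :=
        sup_le hKN (IntermediateField.adjoin_simple_le_iff.2 hrN)
      let e : QE a ≃+* ψ.range := RingEquiv.ofBijective ψ.rangeRestrict
        ⟨fun u v huv => ψ.injective (congrArg Subtype.val huv), ψ.rangeRestrict_surjective⟩
      let c : ↥(K ⊔ IntermediateField.adjoin F {r}) →+* ψ.range :=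
        RingHom.codRestrict (algebraMap ↥(K ⊔ IntermediateField.adjoin F {r}) Ω) ψ.range (fun y => hle y.2)
      have h1 := h.bc (QE a) ((e.symm : ψ.range →+* QE a).comp c)
      refine TwoSplit.step K a _ ?_
      rw [rh_comp] at h1 ⊢
      have h3 : ((e.symm : ψ.range →+* QE a).comp c).comp (algebraMap F ↥(K ⊔ IntermediateField.adjoin F {r})) =
          (qin a).comp (algebraMap F K) := by
        refine RingHom.ext fun d => ?_
        apply e.injective
        change e (e.symm (c (algebraMap F _ d))) = e (qin a (algebraMap F K d))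
        rw [RingEquiv.apply_symm_apply]
        apply Subtype.ext
        change algebraMap F Ω d = ψ (qin a (algebraMap F K d))
        rw [qroot_qin]
        rfl
      rwa [h3] at h1

end tow

/-- a representation over a field is defined over a finitely generated subfield, with the entries as generators -/
theorem descend_hom2 {F Ω : Type} [Field F] [Field Ω] [Algebra F Ω] {A : Type} [Ring A] [Algebra F A]
    [FiniteDimensional F A] {w : Type} [Fintype w] [DecidableEq w] (j : A →ₐ[F] Matrix w w Ω) :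
    ∃ S : Set Ω, S.Finite ∧ (∀ s ∈ S, ∃ a i k, j a i k = s) ∧
      ∀ N : IntermediateField F Ω, S ⊆ N → Nonempty (A →ₐ[F] Matrix w w N) := by
  let b := Module.finBasis F A
  refine ⟨Set.range (fun p : Fin (Module.finrank F A) × w × w => j (b p.1) p.2.1 p.2.2), Set.finite_range _,
    by rintro s ⟨p, rfl⟩; exact ⟨_, _, _, rfl⟩, ?_⟩
  intro N hN
  let s : Matrix w w N →ₐ[F] Matrix w w Ω := N.val.mapMatrix
  have hs : Function.Injective s := by
    intro X Y hXY
    ext i k
    exact congrFun (congrFun hXY i) k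
  have hr : ∀ a, j a ∈ s.range := by
    intro a
    have h3 : ∀ i k, j a i k ∈ N := by
      intro i k
      rw [← b.sum_repr a, map_sum, Matrix.sum_apply]
      refine sum_mem fun p _ => ?_
      rw [map_smul, Matrix.smul_apply]
      exact IntermediateField.smul_mem _ (hN ⟨(p, i, k), rfl⟩)
    exact ⟨Matrix.of fun i k => ⟨j a i k, h3 i k⟩, rfl⟩
  exact ⟨((AlgEquiv.ofInjective s hs).symm : s.range →ₐ[F] Matrix w w N).comp (j.codRestrict s.range hr)⟩

/-- Merkurjev: a class of exponent two is split by a tower of quadratic extensions -/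
theorem twoSplit_of_sq {F : Type} [Field F] (h2 : (2 : F) ≠ 0) (x : BrauerGroup.{0, 0} F) (hx : x * x = 1) :
    TwoSplit F x := by
  obtain ⟨A0⟩ := x
  haveI : Algebra.IsCentral F A0 := A0.isCentral
  haveI : IsSimpleRing A0 := A0.isSimple
  haveI : FiniteDimensional F A0 := A0.fin_dim
  change TwoSplit F (brauerClass F A0)
  change brauerClass F A0 * brauerClass F A0 = 1 at hx
  let Ω := AlgebraicClosure F
  have hΩ : ∀ a : Ω, ∃ b, b * b = a := fun a => by
    obtain ⟨z, hz⟩ := IsAlgClosed.exists_eq_mul_self a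
    exact ⟨z, hz.symm⟩
  let Q := Fqc F Ω
  have h1 : rh (algebraMap F Q) (brauerClass F A0) = 1 := by
    refine theoremB (Fqc_closed hΩ) (two_ne_map (algebraMap F Q) h2) _ ?_
    rw [← map_mul, hx, map_one]
  obtain ⟨m, hm, ⟨j⟩⟩ := exists_hom_of_split h1
  obtain ⟨S, hSf, hSj, hS⟩ := descend_hom2 ((Q.val.mapMatrix : Matrix (Fin m) (Fin m) Q →ₐ[F] Matrix (Fin m) (Fin m) Ω).comp j)
  obtain ⟨K, hK, hSK⟩ := Fqc_finite (F := F) hSf (by
    intro s hs
    obtain ⟨a, i, k, rfl⟩ := hSj s hs
    exact (j a i k).2)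
  obtain ⟨ι⟩ := hS K hSK
  refine tow_twoSplit h2 hK _ ?_
  rw [class_base_one ι (by rw [hm, Fintype.card_fin])]
  exact TwoSplit.one K

/-- if `x ^ 2` is split by a tower of quadratic extensions, so is `x` -/
theorem twoSplit_of_twoSplit_sq {F : Type} [hF : Field F] {y : BrauerGroup.{0, 0} F} (h : TwoSplit F y) :
    (2 : F) ≠ 0 → ∀ x : BrauerGroup.{0, 0} F, x * x = y → TwoSplit F x := by
  induction h with
  | one F =>
    intro h2 x hx
    exact twoSplit_of_sq h2 x hx
  | step F a y h ih =>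
    intro h2 x hx
    refine TwoSplit.step F a x (ih (two_ne_qin h2 a) _ ?_)
    rw [← map_mul, hx]

theorem twoSplit_of_pow4 {F : Type} [Field F] (h2 : (2 : F) ≠ 0) (x : BrauerGroup.{0, 0} F) (hx : x ^ 4 = 1) :
    TwoSplit F x :=
  twoSplit_of_twoSplit_sq (twoSplit_of_sq h2 (x * x) (by
    rw [← hx, pow_succ, pow_succ, pow_two]
    simp only [mul_assoc])) h2 x rfl

/-- every class of exponent dividing four is a product of classes of cyclic algebras of degree four,
when `-1` is not a square -/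
theorem main_full {F : Type} [Field F] (h2 : (2 : F) ≠ 0) (hi : ∀ c : F, c ^ 2 ≠ -1) (x : BrauerGroup.{0, 0} F)
    (hx : x ^ 4 = 1) : x ∈ Subgroup.closure (Cyc4 F) :=
  main_tower (twoSplit_of_pow4 h2 x hx) h2 hi hx

end Pool.Agent.H403.M
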