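import Mathlib
import Pool.Agent.H403.M.N13

/-! # The class of a central simple algebra of degree `n` is killed by `n` (helper403) -/

set_option autoImplicit false
set_option linter.all false

noncomputable section

namespace Pool.Agent.H403.M

open scoped TensorProduct Kronecker
open Pool.Agent.TH132.W Pool.Agent.Y64.Cyc Pool.Agent.Helper18.Br Pool.Agent.H552R3.SymBr Pool.Agent.Helper346.Bra

/-- a finite Galois splitting field -/
theorem exists_galois_split {F : Type} [Field F] (A : Type) [Ring A] [Algebra F A]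
    [Algebra.IsCentral F A] [IsSimpleRing A] [FiniteDimensional F A] :
    ∃ (M : Type) (_ : Field M) (_ : Algebra F M) (_ : FiniteDimensional F M) (_ : IsGalois F M) (m : ℕ),
      Module.finrank F A = m ^ 2 ∧ Nonempty (A →ₐ[F] Matrix (Fin m) (Fin m) M) := by
  obtain ⟨m, hm, ⟨j⟩⟩ := exists_hom_of_split (M := SeparableClosure F) (br_sepClosed (rh (algebraMap F (SeparableClosure F)) (brauerClass F A)))
  obtain ⟨S0, hS0f, hS0⟩ := descend_hom j
  haveI : Finite S0 := hS0f
  let M0 := FiniteGaloisIntermediateField.adjoin F S0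
  have hS0M : S0 ⊆ M0.toIntermediateField := FiniteGaloisIntermediateField.subset_adjoin F S0
  exact ⟨M0, inferInstance, inferInstance, inferInstance, inferInstance, m, hm, hS0 M0.toIntermediateField hS0M⟩

section

variable {F M : Type} [Field F] [Field M] [Algebra F M] [FiniteDimensional F M] [IsGalois F M]

/-- over the base field, a trivial cocycle means a trivial class -/
theorem corP_cob {z : BrauerGroup.{0, 0} F} {γ : (M ≃ₐ[F] M) → (M ≃ₐ[F] M) → M} (h : CorP (L := F) z γ) (hγ : Cob γ) :
    z = 1 := by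
  obtain ⟨C, _, _, _, _, _, w, _, _, hz, hC, S, hS⟩ := h
  haveI : Subsingleton (F →ₐ[F] M) := inferInstance
  let k0 : F →ₐ[F] M := Algebra.ofId F M
  have hk : ∀ k : F →ₐ[F] M, k = k0 := fun k => Subsingleton.elim _ _
  have hsc : ∀ c : F, S.ι k0 (algebraMap F C c) = algebraMap F (Matrix w w M) c := fun c => by
    rw [S.sc, IsScalarTower.algebraMap_apply F M (Matrix w w M)]
    rfl
  let ι : C →ₐ[F] Matrix w w M := { S.ι k0 with commutes' := hsc }
  rw [← hz]
  refine split_of_cobc ι hC (fun g => S.P g k0) (fun g => S.Q g k0) (fun g h => S.c g h k0) (fun g => S.PQ g k0) ?_ ?_ ?_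
  · intro g a
    have h1 := S.comm g k0 a
    rw [hk (ga g k0)] at h1
    exact h1
  · intro g h
    have h1 := S.hc g h k0
    rw [hk (ga h k0)] at h1
    exact h1
  · refine cob_congr hγ (fun g h => ?_)
    rw [hS]
    haveI : Unique (F →ₐ[F] M) := ⟨⟨k0⟩, hk⟩
    rw [Fintype.prod_unique, hk default]

theorem corP_pow {z : BrauerGroup.{0, 0} F} {γ : (M ≃ₐ[F] M) → (M ≃ₐ[F] M) → M} (h : CorP (L := F) z γ) (n : ℕ) :
    CorP (L := F) (z ^ (n + 1)) (fun g k => γ g k ^ (n + 1)) := by
  induction n with
  | zero =>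
    rw [zero_add, pow_one]
    simp only [pow_one]
    exact h
  | succ n ih =>
    have h1 := ih.mul h
    rw [← pow_succ] at h1
    simp only [← pow_succ] at h1
    exact h1

end

/-- the class of an algebra of degree `n` is killed by `n` -/
theorem pow_deg {F : Type} [Field F] (A : Type) [Ring A] [Algebra F A]
    [Algebra.IsCentral F A] [IsSimpleRing A] [FiniteDimensional F A] (n : ℕ) (hn : Module.finrank F A = n ^ 2) :
    brauerClass F A ^ n = 1 := by
  obtain ⟨M, _, _, _, _, m, hm, ⟨ι⟩⟩ := exists_galois_split (F := F) A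
  have hmn : m = n := Nat.pow_left_injective two_ne_zero (hm.symm.trans hn)
  subst hmn
  have hA : Module.finrank F A = Fintype.card (Fin m) ^ 2 := by rw [hm, Fintype.card_fin]
  have hm0 : m ≠ 0 := by
    rintro rfl
    rw [zero_pow two_ne_zero] at hm
    exact (Module.finrank_pos (R := F) (M := A)).ne' hm
  obtain ⟨P, Q, c, hPQ, hP, hc⟩ := exists_cocycle ι hA
  have h8 := corP_base (L := F) ι hA P Q c hPQ hP hc
  haveI : Subsingleton (F →ₐ[F] M) := inferInstance
  have e1 : Fintype.card (F →ₐ[F] M) = 1 := Fintype.card_eq_one_iff.2 ⟨Algebra.ofId F M, fun k => Subsingleton.elim _ _⟩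
  rw [show algebraMap F F = RingHom.id F from rfl, rh_id, e1] at h8
  simp only [pow_one] at h8
  obtain ⟨n, rfl⟩ := Nat.exists_eq_succ_of_ne_zero hm0
  have h9 := corP_pow h8 n
  refine corP_cob h9 ⟨fun g => (P g).det, fun g => ?_, fun g h => ?_⟩
  · intro h0
    change (P g).det = 0 at h0
    have h1 := congrArg Matrix.det (hPQ g)
    rw [Matrix.det_mul, h0, zero_mul, Matrix.det_one] at h1
    exact zero_ne_one h1
  · have h1 := congrArg Matrix.det (hc g h)
    rw [Matrix.det_mul, Matrix.det_smul, Fintype.card_fin] at h1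
    have h3 : ((P h).map g).det = g (P h).det := by
      have := (RingHom.map_det (g : M →+* M) (P h)).symm
      exact this
    rw [h3] at h1
    exact h1.symm

theorem cyc4_finrank {F A : Type} [Field F] [Ring A] [Algebra F A] (h : IsCyclicAlg4 F A) : Module.finrank F A = 4 ^ 2 := by
  obtain ⟨L, _, _, σ, i, u, b, hL, -, -, hb⟩ := h
  let Φ : (Fin 4 → L) →ₗ[F] A :=
    { toFun := fun v => ∑ j, i (v j) * u ^ (j : ℕ)
      map_add' := fun v w => by
        rw [← Finset.sum_add_distrib]
        refine Finset.sum_congr rfl fun j _ => ?_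
        rw [Pi.add_apply, map_add, add_mul]
      map_smul' := fun c v => by
        rw [RingHom.id_apply, Finset.smul_sum]
        refine Finset.sum_congr rfl fun j _ => ?_
        rw [Pi.smul_apply, map_smul, smul_mul_assoc] }
  let e := LinearEquiv.ofBijective Φ hb
  haveI : Module.Finite F L := Module.finite_of_finrank_pos (by rw [hL.dim]; norm_num)
  rw [← e.finrank_eq, Module.finrank_pi_fintype]
  simp [hL.dim]

theorem cyc4_pow {F : Type} [Field F] {x : BrauerGroup.{0, 0} F} (hx : x ∈ Cyc4 F) : x ^ 4 = 1 := by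
  obtain ⟨A, _, _, _, _, _, hA, rfl⟩ := hx
  exact pow_deg A 4 (cyc4_finrank hA)

/-- the `4`-torsion of the Brauer group is generated by the classes of cyclic algebras of degree `4` -/
theorem full_iff {F : Type} [Field F] (h2 : (2 : F) ≠ 0) (hi : ∀ c : F, c ^ 2 ≠ -1) (x : BrauerGroup.{0, 0} F) :
    x ^ 4 = 1 ↔ x ∈ Subgroup.closure (Cyc4 F) := by
  refine ⟨main_full h2 hi x, fun h => ?_⟩
  have hle : Subgroup.closure (Cyc4 F) ≤ (powMonoidHom 4 : BrauerGroup.{0, 0} F →* BrauerGroup.{0, 0} F).ker := by
    rw [Subgroup.closure_le]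
    intro y hy
    exact cyc4_pow hy
  exact hle h

end Pool.Agent.H403.M
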